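import Mathlib

/-!
Cones, trapping cones and minimal cones for homogeneous holomorphic maps.
-/

set_option autoImplicit false
set_option linter.unusedSectionVars false
open Set Filter Topology Metric

namespace Run7.h644

section defs

variable {V : Type*} [NormedAddCommGroup V] [NormedSpace ℂ V]

/-- a holomorphic map, homogeneous of degree `d`, without nontrivial zero -/
structure HomMap (d : ℕ) (F : V → V) : Prop where
  diff : Differentiable ℂ F
  hom : ∀ (c : ℂ) (v : V), F (c • v) = c ^ d • F v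
  nz : ∀ v, F v = 0 → v = 0

/-- invariance by nonzero scalars -/
def IsCone (W : Set V) : Prop := ∀ c : ℂ, c ≠ 0 → ∀ v ∈ W, c • v ∈ W

/-- the cone over a trapping region -/
structure Trap (F : V → V) (W : Set V) : Prop where
  isOpen : IsOpen W
  cone : IsCone W
  zero : (0 : V) ∉ W
  trap : ∀ v ∈ closure W, v ≠ 0 → F v ∈ W

/-- the cone over a minimal quasi-attractor -/
structure MQ (F : V → V) (Q : Set V) : Prop where
  ne : Q.Nonempty
  cone : IsCone Q
  zero : (0 : V) ∉ Q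
  closed : ∀ v ∈ closure Q, v ≠ 0 → v ∈ Q
  small : ∀ O, IsOpen O → IsCone O → Q ⊆ O → ∃ W, Trap F W ∧ Q ⊆ W ∧ W ⊆ O
  big : ∀ W, Trap F W → (W ∩ Q).Nonempty → Q ⊆ W

/-- the cone over an attracting set -/
def Iso (F : V → V) (Q : Set V) : Prop :=
  ∃ W, Trap F W ∧ Q ⊆ W ∧ ∀ v, (∀ n : ℕ, ∃ w ∈ W, F^[n] w = v) → v ∈ Q

end defs

section cones

variable {V : Type*} [NormedAddCommGroup V] [NormedSpace ℂ V]

theorem IsCone.smul_mem_iff {W : Set V} (h : IsCone W) {c : ℂ} (hc : c ≠ 0) {v : V} :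
    c • v ∈ W ↔ v ∈ W := by
  refine ⟨fun h1 => ?_, h c hc v⟩
  have := h c⁻¹ (inv_ne_zero hc) _ h1
  rwa [smul_smul, inv_mul_cancel₀ hc, one_smul] at this

theorem IsCone.inter {W W' : Set V} (h : IsCone W) (h' : IsCone W') : IsCone (W ∩ W') :=
  fun c hc v hv => ⟨h c hc v hv.1, h' c hc v hv.2⟩

theorem IsCone.closure {W : Set V} (h : IsCone W) : IsCone (_root_.closure W) := by
  intro c hc v hv
  have h1 : MapsTo (fun w : V => c • w) W W := fun w hw => h c hc w hw
  exact h1.closure (continuous_const_smul c) hv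

theorem IsCone.zero_mem_closure {W : Set V} (h : IsCone W) (hne : W.Nonempty) :
    (0 : V) ∈ _root_.closure W := by
  obtain ⟨w, hw⟩ := hne
  have h1 : Tendsto (fun n : ℕ => ((1 : ℂ) / ((n : ℂ) + 1)) • w) atTop (𝓝 ((0 : ℂ) • w)) :=
    (tendsto_one_div_add_atTop_nhds_zero_nat (𝕜 := ℂ)).smul_const w
  rw [zero_smul] at h1
  refine mem_closure_of_tendsto h1 (Eventually.of_forall fun n => h _ ?_ w hw)
  exact one_div_ne_zero (Nat.cast_add_one_ne_zero n)

end cones

section hom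

variable {V : Type*} [NormedAddCommGroup V] [NormedSpace ℂ V] {d : ℕ} {F : V → V}

theorem HomMap.zero (h : HomMap d F) (hd : 1 ≤ d) : F 0 = 0 := by
  have := h.hom 0 0
  rwa [zero_smul, zero_pow (by omega), zero_smul] at this

theorem HomMap.ne (h : HomMap d F) {v : V} (hv : v ≠ 0) : F v ≠ 0 := fun h1 => hv (h.nz v h1)

theorem HomMap.iter_hom (h : HomMap d F) (n : ℕ) (c : ℂ) (v : V) :
    F^[n] (c • v) = c ^ (d ^ n) • F^[n] v := by
  induction n with
  | zero => simp
  | succ n ih =>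
    rw [Function.iterate_succ_apply', ih, h.hom, ← pow_mul, Function.iterate_succ_apply', pow_succ]

theorem HomMap.iter_ne (h : HomMap d F) (n : ℕ) {v : V} (hv : v ≠ 0) : F^[n] v ≠ 0 := by
  induction n with
  | zero => simpa using hv
  | succ n ih =>
    rw [Function.iterate_succ_apply']
    exact h.ne ih

theorem exists_root {d : ℕ} (hd : 1 ≤ d) {c : ℂ} (hc : c ≠ 0) : ∃ b : ℂ, b ≠ 0 ∧ b ^ d = c := by
  obtain ⟨b, hb⟩ := IsAlgClosed.exists_pow_nat_eq c (by omega : 0 < d)
  refine ⟨b, ?_, hb⟩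
  rintro rfl
  rw [zero_pow (by omega)] at hb
  exact hc hb.symm

theorem HomMap.cont (h : HomMap d F) : Continuous F := h.diff.continuous

theorem HomMap.norm_eq (h : HomMap d F) (v : V) (hv : v ≠ 0) :
    ‖F v‖ = ‖v‖ ^ d * ‖F (((‖v‖ : ℝ) : ℂ)⁻¹ • v)‖ := by
  have h0 : ‖v‖ ≠ 0 := norm_ne_zero_iff.2 hv
  have h1 : v = ((‖v‖ : ℝ) : ℂ) • ((((‖v‖ : ℝ) : ℂ)⁻¹) • v) := by
    rw [smul_smul, mul_inv_cancel₀ (by exact_mod_cast h0), one_smul]
  conv_lhs => rw [h1]
  rw [h.hom, norm_smul, norm_pow, Complex.norm_real, norm_norm]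

theorem HomMap.upper [FiniteDimensional ℂ V] (h : HomMap d F) :
    ∃ C : ℝ, 0 < C ∧ ∀ v : V, v ≠ 0 → ‖F v‖ ≤ C * ‖v‖ ^ d := by
  have := FiniteDimensional.proper ℂ V
  have h1 : IsCompact (sphere (0 : V) 1) := isCompact_sphere _ _
  obtain ⟨C, hC⟩ := (h1.image h.cont).isBounded.exists_norm_le
  refine ⟨max C 1, by positivity, fun v hv => ?_⟩
  rw [h.norm_eq v hv, mul_comm]
  apply mul_le_mul_of_nonneg_right _ (by positivity)
  refine le_trans (hC _ ⟨_, ?_, rfl⟩) (le_max_left _ _)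
  rw [mem_sphere_zero_iff_norm, norm_smul, norm_inv, Complex.norm_real, norm_norm,
    inv_mul_cancel₀ (norm_ne_zero_iff.2 hv)]

theorem HomMap.lower [FiniteDimensional ℂ V] (h : HomMap d F) :
    ∃ c : ℝ, 0 < c ∧ ∀ v : V, v ≠ 0 → c * ‖v‖ ^ d ≤ ‖F v‖ := by
  have := FiniteDimensional.proper ℂ V
  by_cases hne : (sphere (0 : V) 1).Nonempty
  · have h1 : IsCompact (sphere (0 : V) 1) := isCompact_sphere _ _
    obtain ⟨v0, hv0, hmin⟩ := h1.exists_isMinOn hne (h.cont.norm.continuousOn)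
    have hv0' : v0 ≠ 0 := by
      rintro rfl
      simp at hv0
    refine ⟨‖F v0‖, norm_pos_iff.2 (h.ne hv0'), fun v hv => ?_⟩
    rw [h.norm_eq v hv, mul_comm]
    apply mul_le_mul_of_nonneg_left _ (by positivity)
    apply hmin
    rw [mem_sphere_zero_iff_norm, norm_smul, norm_inv, Complex.norm_real, norm_norm,
      inv_mul_cancel₀ (norm_ne_zero_iff.2 hv)]
  · refine ⟨1, one_pos, fun v hv => ?_⟩
    exfalso
    apply hne
    refine ⟨((‖v‖ : ℝ) : ℂ)⁻¹ • v, ?_⟩
    rw [mem_sphere_zero_iff_norm, norm_smul, norm_inv, Complex.norm_real, norm_norm,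
      inv_mul_cancel₀ (norm_ne_zero_iff.2 hv)]

/-- the map is closed -/
theorem HomMap.isClosedMap [FiniteDimensional ℂ V] (h : HomMap d F) (hd : 1 ≤ d) :
    IsClosedMap F := by
  have := FiniteDimensional.proper ℂ V
  obtain ⟨c, hc, hlow⟩ := h.lower
  have h1 : Tendsto F (cocompact V) (cocompact V) := by
    rw [← cobounded_eq_cocompact]
    rw [← tendsto_norm_atTop_iff_cobounded]
    have h2 : Tendsto (fun v : V => c * ‖v‖ ^ d) (Bornology.cobounded V) atTop := by
      apply Tendsto.const_mul_atTop hc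
      exact (tendsto_pow_atTop (by omega)).comp tendsto_norm_cobounded_atTop
    refine tendsto_atTop_mono' _ ?_ h2
    filter_upwards [Bornology.isBounded_def.1 (Bornology.isBounded_singleton (x := (0 : V)))]
      with v hv
    exact hlow v hv
  exact (isProperMap_iff_tendsto_cocompact.2 ⟨h.cont, h1⟩).isClosedMap

end hom

section trap

variable {V : Type*} [NormedAddCommGroup V] [NormedSpace ℂ V] {d : ℕ} {F : V → V}

theorem Trap.ne_zero {W : Set V} (hW : Trap F W) {v : V} (hv : v ∈ W) : v ≠ 0 := by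
  rintro rfl
  exact hW.zero hv

theorem Trap.mapsTo {W : Set V} (hW : Trap F W) {v : V} (hv : v ∈ W) : F v ∈ W :=
  hW.trap v (subset_closure hv) (hW.ne_zero hv)

theorem Trap.inter {W W' : Set V} (hW : Trap F W) (hW' : Trap F W') : Trap F (W ∩ W') where
  isOpen := hW.isOpen.inter hW'.isOpen
  cone := hW.cone.inter hW'.cone
  zero := fun h => hW.zero h.1
  trap := fun v hv h0 => ⟨hW.trap v (closure_mono inter_subset_left hv) h0,
    hW'.trap v (closure_mono inter_subset_right hv) h0⟩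

/-- the closed cone of images of the closure -/
def KK (F : V → V) (W : Set V) : Set V := F '' closure W

theorem KK_closed [FiniteDimensional ℂ V] (h : HomMap d F) (hd : 1 ≤ d) (W : Set V) :
    IsClosed (KK F W) := h.isClosedMap hd _ isClosed_closure

theorem KK_cone (h : HomMap d F) (hd : 1 ≤ d) {W : Set V} (hW : IsCone W) : IsCone (KK F W) := by
  rintro c hc _ ⟨w, hw, rfl⟩
  obtain ⟨b, hb, hbc⟩ := exists_root hd hc
  exact ⟨b • w, hW.closure b hb w hw, by rw [h.hom, hbc]⟩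

theorem Trap.KK_mem {W : Set V} (hW : Trap F W) (h : HomMap d F) (hd : 1 ≤ d) {v : V}
    (hv : v ∈ KK F W) (h0 : v ≠ 0) : v ∈ W := by
  obtain ⟨w, hw, rfl⟩ := hv
  apply hW.trap w hw
  rintro rfl
  exact h0 (h.zero hd)

theorem KK_mono {W W' : Set V} (hW : W ⊆ W') : KK F W ⊆ KK F W' :=
  image_mono (closure_mono hW)

theorem mem_KK {W : Set V} {v : V} (hv : v ∈ W) : F v ∈ KK F W := ⟨v, subset_closure hv, rfl⟩

theorem MQ.mapsTo {Q : Set V} (hQ : MQ F Q) (h : HomMap d F) {v : V} (hv : v ∈ Q) :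
    F v ∈ Q := by
  by_contra hcon
  have hv0 : v ≠ 0 := by
    rintro rfl
    exact hQ.zero hv
  have hF0 : F v ≠ 0 := h.ne hv0
  set L : Submodule ℂ V := Submodule.span ℂ {F v} with hL
  have hLc : IsClosed (L : Set V) := Submodule.closed_of_finiteDimensional L
  obtain ⟨W, hW, hQW, hWO⟩ := hQ.small ((L : Set V)ᶜ) hLc.isOpen_compl (by
    intro c hc w hw h1
    apply hw
    have := L.smul_mem c⁻¹ h1
    rwa [smul_smul, inv_mul_cancel₀ hc, one_smul] at this) (by
    intro q hq h1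
    obtain ⟨c, hc⟩ := Submodule.mem_span_singleton.1 h1
    have hc0 : c ≠ 0 := by
      rintro rfl
      rw [zero_smul] at hc
      rw [← hc] at hq
      exact hQ.zero hq
    apply hcon
    rw [← hQ.cone.smul_mem_iff hc0, hc]
    exact hq)
  exact hWO (hW.mapsTo (hQW hv)) (Submodule.mem_span_singleton_self _)

/-- a minimal cone lies in the image of the closure of each trapping cone around it -/
theorem MQ.subset_KK [FiniteDimensional ℂ V] {Q : Set V} (hQ : MQ F Q) (h : HomMap d F)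
    (hd : 1 ≤ d) {W : Set V} (hW : Trap F W) (hQW : Q ⊆ W) : Q ⊆ KK F W := by
  intro q hq
  by_contra hcon
  have hq0 : q ≠ 0 := by
    rintro rfl
    exact hQ.zero hq
  set L : Submodule ℂ V := Submodule.span ℂ {q} with hL
  have hLc : IsClosed (L : Set V) := Submodule.closed_of_finiteDimensional L
  have hKL : ∀ v ∈ KK F W, v ≠ 0 → v ∉ L := by
    intro v hv hv0 h1
    obtain ⟨c, rfl⟩ := Submodule.mem_span_singleton.1 h1
    have hc0 : c ≠ 0 := by
      rintro rfl
      simp at hv0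
    exact hcon (((KK_cone h hd hW.cone).smul_mem_iff hc0).1 hv)
  have hT : Trap F (W ∩ (L : Set V)ᶜ) := by
    refine ⟨hW.isOpen.inter hLc.isOpen_compl, hW.cone.inter ?_, fun h1 => hW.zero h1.1, ?_⟩
    · intro c hc w hw h1
      apply hw
      have := L.smul_mem c⁻¹ h1
      rwa [smul_smul, inv_mul_cancel₀ hc, one_smul] at this
    · intro v hv hv0
      have h1 : v ∈ closure W := closure_mono inter_subset_left hv
      exact ⟨hW.trap v h1 hv0, hKL _ ⟨v, h1, rfl⟩ (h.ne hv0)⟩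
  have h2 : F q ∈ W ∩ (L : Set V)ᶜ :=
    ⟨hW.mapsTo (hQW hq), hKL _ (mem_KK (hQW hq)) (h.ne hq0)⟩
  have h3 := hQ.big _ hT ⟨F q, h2, hQ.mapsTo h hq⟩ hq
  exact h3.2 (Submodule.mem_span_singleton_self _)

end trap

end Run7.h644
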