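import Pool.Agent.Run7.h644.Basic

/-!
The centre of a linear fibration: trapping cones around it, and restriction to it.
-/

set_option autoImplicit false
set_option linter.unusedSectionVars false
open Set Filter Topology Metric

namespace Run7.h644

section

variable {V : Type*} [NormedAddCommGroup V] [NormedSpace ℂ V] [FiniteDimensional ℂ V]
variable {B : Type*} [NormedAddCommGroup B] [NormedSpace ℂ B] [FiniteDimensional ℂ B]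
variable {d : ℕ} {F : V → V} {G : B → B} {ℓ : V →L[ℂ] B}

theorem centre_est (hd : 2 ≤ d) (hF : HomMap d F) (hG : HomMap d G)
    (hℓ : ∀ v, ℓ (F v) = G (ℓ v)) :
    ∃ δ : ℝ, 0 < δ ∧ ∀ v : V, v ≠ 0 → ‖ℓ v‖ ≤ δ * ‖v‖ →
      ‖ℓ (F v)‖ * ‖v‖ ≤ 1 / 2 * (‖ℓ v‖ * ‖F v‖) := by
  obtain ⟨C, hC, hup⟩ := hG.upper
  obtain ⟨c, hc, hlow⟩ := hF.lower
  set δ : ℝ := min 1 (c / (2 * C)) with hδ
  have hδ0 : 0 < δ := lt_min one_pos (by positivity)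
  refine ⟨δ, hδ0, fun v hv hle => ?_⟩
  obtain ⟨e, rfl⟩ : ∃ e, d = e + 2 := ⟨d - 2, by omega⟩
  by_cases h0 : ℓ v = 0
  · rw [hℓ, h0, hG.zero (by omega)]
    simp
  · have hvp : 0 < ‖v‖ := norm_pos_iff.2 hv
    have h1 : ‖ℓ (F v)‖ ≤ C * ‖ℓ v‖ ^ (e + 2) := by
      rw [hℓ]
      exact hup _ h0
    have h2 := hlow v hv
    have h3 : ‖ℓ v‖ ^ (e + 1) ≤ δ * ‖v‖ ^ (e + 1) := by
      calc ‖ℓ v‖ ^ (e + 1) ≤ (δ * ‖v‖) ^ (e + 1) := pow_le_pow_left₀ (norm_nonneg _) hle _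
        _ = δ ^ (e + 1) * ‖v‖ ^ (e + 1) := mul_pow _ _ _
        _ ≤ δ * ‖v‖ ^ (e + 1) := by
          apply mul_le_mul_of_nonneg_right _ (by positivity)
          calc δ ^ (e + 1) = δ ^ e * δ := pow_succ _ _
            _ ≤ 1 * δ := by
              apply mul_le_mul_of_nonneg_right _ hδ0.le
              exact pow_le_one₀ hδ0.le (min_le_left _ _)
            _ = δ := one_mul δ
    have h4 : C * δ ≤ c / 2 := by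
      calc C * δ ≤ C * (c / (2 * C)) := mul_le_mul_of_nonneg_left (min_le_right _ _) hC.le
        _ = c / 2 := by field_simp
    calc ‖ℓ (F v)‖ * ‖v‖ ≤ (C * ‖ℓ v‖ ^ (e + 2)) * ‖v‖ :=
          mul_le_mul_of_nonneg_right h1 hvp.le
      _ = C * ‖ℓ v‖ * ‖v‖ * ‖ℓ v‖ ^ (e + 1) := by ring
      _ ≤ C * ‖ℓ v‖ * ‖v‖ * (δ * ‖v‖ ^ (e + 1)) := by gcongr
      _ = (C * δ) * ‖ℓ v‖ * ‖v‖ ^ (e + 2) := by ring
      _ ≤ (c / 2) * ‖ℓ v‖ * ‖v‖ ^ (e + 2) := by gcongr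
      _ = 1 / 2 * (‖ℓ v‖ * (c * ‖v‖ ^ (e + 2))) := by ring
      _ ≤ 1 / 2 * (‖ℓ v‖ * ‖F v‖) := by gcongr

/-- the conical neighbourhood of the centre -/
def NN (ℓ : V →L[ℂ] B) (δ : ℝ) : Set V := {v | ‖ℓ v‖ < δ * ‖v‖}

theorem NN_open (ℓ : V →L[ℂ] B) (δ : ℝ) : IsOpen (NN ℓ δ) :=
  isOpen_lt (by fun_prop) (by fun_prop)

theorem NN_cone (ℓ : V →L[ℂ] B) (δ : ℝ) : IsCone (NN ℓ δ) := by
  intro c hc v hv
  have h1 : 0 < ‖c‖ := norm_pos_iff.2 hc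
  simp only [NN, mem_setOf_eq, map_smul, norm_smul] at hv ⊢
  calc ‖c‖ * ‖ℓ v‖ < ‖c‖ * (δ * ‖v‖) := mul_lt_mul_of_pos_left hv h1
    _ = δ * (‖c‖ * ‖v‖) := by ring

theorem closure_NN {ℓ : V →L[ℂ] B} {δ : ℝ} {v : V} (hv : v ∈ closure (NN ℓ δ)) :
    ‖ℓ v‖ ≤ δ * ‖v‖ := by
  have h1 : IsClosed {v : V | ‖ℓ v‖ ≤ δ * ‖v‖} := isClosed_le (by fun_prop) (by fun_prop)
  exact closure_minimal (fun w hw => (show ‖ℓ w‖ < δ * ‖w‖ from hw).le) h1 hv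

theorem centre_step {δ0 : ℝ} (hF : HomMap d F)
    (hest : ∀ v : V, v ≠ 0 → ‖ℓ v‖ ≤ δ0 * ‖v‖ →
      ‖ℓ (F v)‖ * ‖v‖ ≤ 1 / 2 * (‖ℓ v‖ * ‖F v‖)) {δ : ℝ} (hδ : 0 ≤ δ) (hδ0 : δ ≤ δ0)
    {v : V} (hv : v ≠ 0) (hle : ‖ℓ v‖ ≤ δ * ‖v‖) : ‖ℓ (F v)‖ ≤ 1 / 2 * δ * ‖F v‖ := by
  have hvp : 0 < ‖v‖ := norm_pos_iff.2 hv
  have h1 := hest v hv (hle.trans (mul_le_mul_of_nonneg_right hδ0 hvp.le))
  have h2 : ‖ℓ (F v)‖ * ‖v‖ ≤ (1 / 2 * δ * ‖F v‖) * ‖v‖ := by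
    calc ‖ℓ (F v)‖ * ‖v‖ ≤ 1 / 2 * (‖ℓ v‖ * ‖F v‖) := h1
      _ ≤ 1 / 2 * ((δ * ‖v‖) * ‖F v‖) := by gcongr
      _ = _ := by ring
  exact le_of_mul_le_mul_right h2 hvp

theorem centre_trap {δ0 : ℝ} (hF : HomMap d F)
    (hest : ∀ v : V, v ≠ 0 → ‖ℓ v‖ ≤ δ0 * ‖v‖ →
      ‖ℓ (F v)‖ * ‖v‖ ≤ 1 / 2 * (‖ℓ v‖ * ‖F v‖)) {δ : ℝ} (hδ : 0 < δ) (hδ0 : δ ≤ δ0) :
    Trap F (NN ℓ δ) where
  isOpen := NN_open ℓ δ
  cone := NN_cone ℓ δ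
  zero := by simp [NN]
  trap := by
    intro v hv h0
    have h1 := centre_step hF hest hδ.le hδ0 h0 (closure_NN hv)
    have h2 : 0 < ‖F v‖ := norm_pos_iff.2 (hF.ne h0)
    show ‖ℓ (F v)‖ < δ * ‖F v‖
    have : 0 < δ * ‖F v‖ := by positivity
    linarith

theorem centre_iter {δ0 : ℝ} (hF : HomMap d F)
    (hest : ∀ v : V, v ≠ 0 → ‖ℓ v‖ ≤ δ0 * ‖v‖ →
      ‖ℓ (F v)‖ * ‖v‖ ≤ 1 / 2 * (‖ℓ v‖ * ‖F v‖)) {δ : ℝ} (hδ : 0 < δ) (hδ0 : δ ≤ δ0)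
    {w : V} (hw0 : w ≠ 0) (hw : w ∈ NN ℓ δ) (n : ℕ) :
    ‖ℓ (F^[n] w)‖ ≤ (1 / 2) ^ n * δ * ‖F^[n] w‖ := by
  induction n with
  | zero => simpa using (show ‖ℓ w‖ < δ * ‖w‖ from hw).le
  | succ n ih =>
    rw [Function.iterate_succ_apply']
    have h1 : (1 / 2 : ℝ) ^ n * δ ≤ δ0 := by
      have : (1 / 2 : ℝ) ^ n ≤ 1 := pow_le_one₀ (by norm_num) (by norm_num)
      nlinarith
    have h2 := centre_step hF hest (δ := (1 / 2) ^ n * δ) (by positivity) h1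
      (hF.iter_ne n hw0) ih
    calc _ ≤ _ := h2
      _ = _ := by ring

/-- points with arbitrarily long backward orbits near the centre lie in the centre -/
theorem centre_attr {δ0 : ℝ} (hF : HomMap d F)
    (hest : ∀ v : V, v ≠ 0 → ‖ℓ v‖ ≤ δ0 * ‖v‖ →
      ‖ℓ (F v)‖ * ‖v‖ ≤ 1 / 2 * (‖ℓ v‖ * ‖F v‖)) {δ : ℝ} (hδ : 0 < δ) (hδ0 : δ ≤ δ0)
    {v : V} (hv : ∀ n : ℕ, ∃ w ∈ NN ℓ δ, F^[n] w = v) : ℓ v = 0 := by
  have h1 : ∀ n : ℕ, ‖ℓ v‖ ≤ (1 / 2) ^ n * δ * ‖v‖ := by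
    intro n
    obtain ⟨w, hw, rfl⟩ := hv n
    have hw0 : w ≠ 0 := by
      rintro rfl
      simp [NN] at hw
    exact centre_iter hF hest hδ hδ0 hw0 hw n
  have h2 : Tendsto (fun n : ℕ => (1 / 2 : ℝ) ^ n * δ * ‖v‖) atTop (𝓝 (0 * δ * ‖v‖)) :=
    ((tendsto_pow_atTop_nhds_zero_of_lt_one (by norm_num) (by norm_num)).mul_const δ).mul_const _
  have h3 : ‖ℓ v‖ ≤ 0 * δ * ‖v‖ := ge_of_tendsto' h2 h1
  simpa using h3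

/-- a minimal cone meeting the centre is contained in the centre -/
theorem centre_dichotomy (hd : 2 ≤ d) (hF : HomMap d F) (hG : HomMap d G)
    (hℓ : ∀ v, ℓ (F v) = G (ℓ v)) {Q : Set V} (hQ : MQ F Q) (h : ∃ q ∈ Q, ℓ q = 0) :
    ∀ q ∈ Q, ℓ q = 0 := by
  obtain ⟨δ0, hδ0, hest⟩ := centre_est hd hF hG hℓ
  obtain ⟨q, hq, hq0⟩ := h
  have hqne : q ≠ 0 := by
    rintro rfl
    exact hQ.zero hq
  have h1 : ∀ δ : ℝ, 0 < δ → δ ≤ δ0 → Q ⊆ NN ℓ δ := by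
    intro δ h1 h2
    apply hQ.big _ (centre_trap hF hest h1 h2)
    refine ⟨q, ?_, hq⟩
    show ‖ℓ q‖ < δ * ‖q‖
    rw [hq0, norm_zero]
    have := norm_pos_iff.2 hqne
    positivity
  intro q' hq'
  by_contra hcon
  have hp : 0 < ‖ℓ q'‖ := norm_pos_iff.2 hcon
  have hq'0 : q' ≠ 0 := by
    rintro rfl
    simp at hcon
  have hp' : 0 < ‖q'‖ := norm_pos_iff.2 hq'0
  have h2 := h1 (min δ0 (‖ℓ q'‖ / ‖q'‖)) (lt_min hδ0 (by positivity)) (min_le_left _ _) hq'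
  have h3 : ‖ℓ q'‖ < min δ0 (‖ℓ q'‖ / ‖q'‖) * ‖q'‖ := h2
  have h4 : min δ0 (‖ℓ q'‖ / ‖q'‖) * ‖q'‖ ≤ (‖ℓ q'‖ / ‖q'‖) * ‖q'‖ :=
    mul_le_mul_of_nonneg_right (min_le_right _ _) hp'.le
  rw [div_mul_cancel₀ _ hp'.ne'] at h4
  linarith

/-- existence of a projection to the centre -/
theorem exists_proj (ℓ : V →L[ℂ] B) (S : Submodule ℂ V) (hS : ∀ v, v ∈ S ↔ ℓ v = 0) :
    ∃ p : V →L[ℂ] S, (∀ s : S, p s = s) ∧ ∃ C : ℝ, 0 < C ∧ ∀ v : V, ‖v - p v‖ ≤ C * ‖ℓ v‖ := by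
  obtain ⟨p, hp⟩ := Submodule.ClosedComplemented.of_finiteDimensional S
  refine ⟨p, hp, ?_⟩
  set N : Submodule ℂ V := LinearMap.ker (p : V →ₗ[ℂ] S) with hN
  set g : N →ₗ[ℂ] B := (ℓ : V →ₗ[ℂ] B).comp N.subtype with hg
  have hinj : LinearMap.ker g = ⊥ := by
    rw [LinearMap.ker_eq_bot']
    intro m hm
    have h1 : ℓ (m : V) = 0 := hm
    have h2 : (m : V) ∈ S := (hS _).2 h1
    have h3 : p (m : V) = 0 := m.2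
    have h4 := hp ⟨m, h2⟩
    simp only at h4
    rw [h3] at h4
    have h5 : (m : V) = 0 := by
      have := congrArg Subtype.val h4
      simpa using this.symm
    exact Subtype.ext h5
  obtain ⟨K, hK, hanti⟩ := g.exists_antilipschitzWith hinj
  refine ⟨K, by exact_mod_cast hK, fun v => ?_⟩
  have hm : v - p v ∈ N := by
    show p (v - p v) = 0
    rw [map_sub, hp, sub_self]
  have h1 := hanti.le_mul_dist ⟨v - p v, hm⟩ 0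
  rw [map_zero, dist_zero_right, dist_zero_right] at h1
  have h2 : g ⟨v - p v, hm⟩ = ℓ v := by
    show ℓ (v - p v) = ℓ v
    rw [map_sub, (hS _).1 (p v).2, sub_zero]
  rw [h2] at h1
  exact h1

end

end Run7.h644
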