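import Mathlib

/-!
Contraction of compositions of holomorphic maps between bounded sets, by the Cauchy estimate.
-/

set_option autoImplicit false
open Set Filter Topology Metric

namespace Run7.h644

/-- composition of a sequence of maps -/
def orb {V : Type*} (f : ℕ → V → V) : ℕ → V → V
  | 0, v => v
  | n + 1, v => f n (orb f n v)

section

variable {V : Type*} [NormedAddCommGroup V] [NormedSpace ℂ V]

theorem contr_aux {U : ℕ → Set V} {f : ℕ → V → V} {ε : ℝ}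
    (hf : ∀ n, ∀ w ∈ U n, DifferentiableAt ℂ (f n) w)
    (hU : ∀ n, ∀ w ∈ U n, ∀ w' ∈ U n, f n w' + ((1 + ε : ℝ) : ℂ) • (f n w - f n w') ∈ U (n + 1))
    {v s : V} (hv : ∀ τ : ℂ, ‖τ‖ < 1 → v + τ • s ∈ U 0) (n : ℕ) :
    ∃ ψ : ℂ → V, DifferentiableOn ℂ ψ (ball 0 1) ∧ MapsTo ψ (ball 0 1) (U n) ∧ ψ 0 = orb f n v ∧
      ∃ D : V, HasDerivAt (fun τ : ℂ => orb f n (v + τ • s)) D 0 ∧
        HasDerivAt ψ ((((1 + ε : ℝ) : ℂ) ^ n) • D) 0 := by
  induction n with
  | zero =>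
    have h1 : HasDerivAt (fun τ : ℂ => v + τ • s) s 0 := by
      simpa using ((hasDerivAt_id (0 : ℂ)).smul_const s).const_add v
    refine ⟨fun τ => v + τ • s, ?_, ?_, ?_, s, h1, ?_⟩
    · intro τ _
      exact (((differentiableAt_id (𝕜 := ℂ)).smul_const s).const_add v).differentiableWithinAt
    · intro τ hτ
      exact hv τ (by simpa using hτ)
    · simp [orb]
    · simpa using h1
  | succ n ih =>
    obtain ⟨ψ, hd, hm, h0, D, hD, hψ⟩ := ih
    have h0U : orb f n v ∈ U n := by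
      rw [← h0]
      exact hm (mem_ball_self one_pos)
    have hL := (hf n _ h0U).hasFDerivAt
    set L := fderiv ℂ (f n) (orb f n v) with hLdef
    have hL1 : HasDerivAt (fun τ : ℂ => orb f (n + 1) (v + τ • s)) (L D) 0 := by
      have : HasFDerivAt (f n) L ((fun τ : ℂ => orb f n (v + τ • s)) 0) := by
        simpa using hL
      exact this.comp_hasDerivAt 0 hD
    have hL2 : HasDerivAt (fun τ : ℂ => f n (ψ τ)) (L ((((1 + ε : ℝ) : ℂ) ^ n) • D)) 0 := by
      have : HasFDerivAt (f n) L (ψ 0) := by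
        rw [h0]
        exact hL
      exact this.comp_hasDerivAt 0 hψ
    refine ⟨fun τ => f n (orb f n v) + ((1 + ε : ℝ) : ℂ) • (f n (ψ τ) - f n (orb f n v)),
      ?_, ?_, ?_, L D, hL1, ?_⟩
    · intro τ hτ
      have h1 : DifferentiableAt ℂ ψ τ := (hd τ hτ).differentiableAt (isOpen_ball.mem_nhds hτ)
      have h2 : DifferentiableAt ℂ (f n) (ψ τ) := hf n _ (hm hτ)
      exact ((((h2.comp τ h1).sub_const _).const_smul _).const_add _).differentiableWithinAt
    · intro τ hτ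
      exact hU n _ (hm hτ) _ h0U
    · simp only [orb, h0, sub_self, smul_zero, add_zero]
    · have h3 := ((hL2.sub_const (f n (orb f n v))).const_smul ((1 + ε : ℝ) : ℂ)).const_add
        (f n (orb f n v))
      have h4 : ((1 + ε : ℝ) : ℂ) • L ((((1 + ε : ℝ) : ℂ) ^ n) • D) =
          (((1 + ε : ℝ) : ℂ) ^ (n + 1)) • L D := by
        rw [map_smul, smul_smul, pow_succ, mul_comm]
      rw [h4] at h3
      exact h3

theorem contr_deriv {U : ℕ → Set V} {f : ℕ → V → V} {M : ℕ → ℝ} {ε : ℝ} (hε : 0 < ε)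
    (hf : ∀ n, ∀ w ∈ U n, DifferentiableAt ℂ (f n) w)
    (hU : ∀ n, ∀ w ∈ U n, ∀ w' ∈ U n, f n w' + ((1 + ε : ℝ) : ℂ) • (f n w - f n w') ∈ U (n + 1))
    (hM : ∀ n, ∀ w ∈ U n, ‖w‖ ≤ M n)
    {v s : V} (hv : ∀ τ : ℂ, ‖τ‖ < 1 → v + τ • s ∈ U 0) (n : ℕ) :
    ∃ D : V, HasDerivAt (fun τ : ℂ => orb f n (v + τ • s)) D 0 ∧
    ‖D‖ ≤ 2 * M n * ((1 + ε)⁻¹) ^ n := by
  obtain ⟨ψ, hd, hm, h0, D, hD, hψ⟩ := contr_aux hf hU hv n
  refine ⟨D, hD, ?_⟩
  have h1 : ‖deriv ψ 0‖ ≤ M n / (1 / 2) := by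
    apply Complex.norm_deriv_le_of_forall_mem_sphere_norm_le (by norm_num)
    · have : DifferentiableOn ℂ ψ (closedBall 0 (1 / 2)) :=
        hd.mono (closedBall_subset_ball (by norm_num))
      exact (this.mono closure_ball_subset_closedBall).diffContOnCl
    · intro z hz
      apply hM n
      apply hm
      rw [mem_sphere_zero_iff_norm] at hz
      rw [mem_ball_zero_iff, hz]
      norm_num
  rw [hψ.deriv, norm_smul, norm_pow, Complex.norm_real, Real.norm_of_nonneg (by linarith)] at h1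
  have h2 : 0 < (1 + ε) ^ n := by positivity
  rw [inv_pow, ← div_eq_mul_inv, le_div_iff₀ h2]
  linarith

/-- two point version -/
theorem contr_two {U : ℕ → Set V} {f : ℕ → V → V} {M : ℕ → ℝ} {ε : ℝ} (hε : 0 < ε)
    (hf : ∀ n, ∀ w ∈ U n, DifferentiableAt ℂ (f n) w)
    (hU : ∀ n, ∀ w ∈ U n, ∀ w' ∈ U n, f n w' + ((1 + ε : ℝ) : ℂ) • (f n w - f n w') ∈ U (n + 1))
    (hM : ∀ n, ∀ w ∈ U n, ‖w‖ ≤ M n)
    {v s : V} (hv : ∀ τ : ℂ, ‖τ‖ < 3 → v + τ • s ∈ U 0) (n : ℕ) :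
    ‖orb f n (v + s) - orb f n v‖ ≤ 2 * M n * ((1 + ε)⁻¹) ^ n := by
  have key : ∀ t ∈ ball (0 : ℂ) 2, ∃ D : V, HasDerivAt (fun τ : ℂ => orb f n (v + τ • s)) D t ∧
      ‖D‖ ≤ 2 * M n * ((1 + ε)⁻¹) ^ n := by
    intro t ht
    rw [mem_ball_zero_iff] at ht
    obtain ⟨D, h1, h2⟩ := contr_deriv (v := v + t • s) (s := s) hε hf hU hM (by
      intro τ hτ
      have := hv (t + τ) (lt_of_le_of_lt (norm_add_le _ _) (by linarith))
      rwa [add_smul, ← add_assoc] at this) n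
    refine ⟨D, ?_, h2⟩
    have h3 : HasDerivAt (fun τ : ℂ => orb f n (v + t • s + τ • s)) D (t - t) := by
      simpa using h1
    have h4 := h3.comp_sub_const t t
    refine h4.congr_of_eventuallyEq (Eventually.of_forall fun τ => ?_)
    simp only [sub_smul]
    congr 1
    abel
  have h5 := (convex_ball (0 : ℂ) 2).norm_image_sub_le_of_norm_deriv_le
    (f := fun τ : ℂ => orb f n (v + τ • s)) (C := 2 * M n * ((1 + ε)⁻¹) ^ n) (x := 0) (y := 1)
    (fun t ht => (key t ht).choose_spec.1.differentiableAt)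
    (fun t ht => by
      rw [(key t ht).choose_spec.1.deriv]
      exact (key t ht).choose_spec.2) (by simp) (by simp)
  simpa using h5

end

end Run7.h644
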