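import Mathlib

/-!
Complex projective space, its endomorphisms and their quasi-attractors.
-/

set_option autoImplicit false
open Set

namespace Run7.h644

/-- complex projective space of dimension `k` -/
def CP (k : ℕ) : Type := Projectivization ℂ (Fin (k + 1) → ℂ)

/-- the point with given homogeneous coordinates -/
noncomputable def CP.mk {k : ℕ} (v : Fin (k + 1) → ℂ) (hv : v ≠ 0) : CP k := Projectivization.mk ℂ v hv

/-- the quotient topology -/
noncomputable instance CP.top (k : ℕ) : TopologicalSpace (CP k) :=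
  TopologicalSpace.coinduced (fun v : {v : Fin (k + 1) → ℂ // v ≠ 0} => CP.mk v.1 v.2) inferInstance

/-- the map of the affine cone given by polynomials -/
noncomputable def polyMap {k : ℕ} (P : Fin (k + 1) → MvPolynomial (Fin (k + 1)) ℂ)
    (v : Fin (k + 1) → ℂ) : Fin (k + 1) → ℂ := fun i => MvPolynomial.eval v (P i)

/-- `f` is the endomorphism of degree `d` given by the homogeneous polynomials `P` of degree `d`
without common zero except the origin -/
structure IsEndo {k : ℕ} (d : ℕ) (P : Fin (k + 1) → MvPolynomial (Fin (k + 1)) ℂ)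
    (f : CP k → CP k) : Prop where
  homog : ∀ i, (P i).IsHomogeneous d
  nozero : ∀ v, polyMap P v = 0 → v = 0
  lift : ∀ (v : Fin (k + 1) → ℂ) (hv : v ≠ 0) (hw : polyMap P v ≠ 0),
    f (CP.mk v hv) = CP.mk (polyMap P v) hw

/-- trapping regions -/
structure TrappingRegion {k : ℕ} (f : CP k → CP k) (U : Set (CP k)) : Prop where
  isOpen : IsOpen U
  nonempty : U.Nonempty
  maps : f '' closure U ⊆ U

/-- attracting sets -/
def AttractingSet {k : ℕ} (f : CP k → CP k) (A : Set (CP k)) : Prop :=
  ∃ U, TrappingRegion f U ∧ A = ⋂ n : ℕ, f^[n] '' U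

/-- quasi-attractors: the nonempty intersections of families of attracting sets -/
def QuasiAttractor {k : ℕ} (f : CP k → CP k) (Q : Set (CP k)) : Prop :=
  Q.Nonempty ∧ ∃ T : Set (Set (CP k)), (∀ A ∈ T, AttractingSet f A) ∧ Q = ⋂₀ T

/-- minimal quasi-attractors -/
def MinimalQuasiAttractor {k : ℕ} (f : CP k → CP k) (Q : Set (CP k)) : Prop :=
  QuasiAttractor f Q ∧ ∀ Q', QuasiAttractor f Q' → Q' ⊆ Q → Q' = Q

/-- the linear subspace of projective space given by a linear subspace of the affine cone -/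
def lin {k : ℕ} (M : Submodule ℂ (Fin (k + 1) → ℂ)) : Set (CP k) :=
  {p | ∃ v ∈ M, ∃ hv : v ≠ 0, CP.mk v hv = p}

/-- `g` is fibred along the flag `L 0 ⊇ L 1 ⊇ ... ⊇ L n` of linear subspaces: the steps have
codimension at most two, each subspace is totally invariant in the preceding one, and the linear
subspaces of `L i` which contain `L (i + 1)` as a hyperplane are mapped into each other -/
structure FibredFlag {k : ℕ} (g : CP k → CP k) (n : ℕ)
    (L : ℕ → Submodule ℂ (Fin (k + 1) → ℂ)) : Prop where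
  top : L 0 = ⊤
  anti : ∀ i < n, L (i + 1) ≤ L i
  codim : ∀ i < n, Module.finrank ℂ (L i) ≤ Module.finrank ℂ (L (i + 1)) + 2
  total : ∀ i < n, ∀ p ∈ lin (L i), (g p ∈ lin (L (i + 1)) ↔ p ∈ lin (L (i + 1)))
  pencil : ∀ i < n, ∀ M : Submodule ℂ (Fin (k + 1) → ℂ), L (i + 1) ≤ M → M ≤ L i →
    Module.finrank ℂ M = Module.finrank ℂ (L (i + 1)) + 1 →
    ∃ M' : Submodule ℂ (Fin (k + 1) → ℂ), L (i + 1) ≤ M' ∧ M' ≤ L i ∧
      Module.finrank ℂ M' = Module.finrank ℂ (L (i + 1)) + 1 ∧ g '' lin M ⊆ lin M'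

end Run7.h644
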