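import Pool.Agent.Run7.h644.Lift

/-!
Minimal cones which surject onto a base of dimension two are isolated.
-/

set_option autoImplicit false
set_option linter.unusedSectionVars false
set_option linter.unusedVariables false
open Set Filter Topology Metric MeasureTheory
open scoped ENNReal

namespace Run7.h644

section rel

variable {V : Type*} [NormedAddCommGroup V] [NormedSpace ℂ V]
variable {B : Type*} [NormedAddCommGroup B] [NormedSpace ℂ B]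

/-- exponentially asymptotic points of a fibre -/
def RC (F : V → V) (ℓ : V →L[ℂ] B) (θ K : ℝ) (v v' : V) : Prop :=
  ℓ v = ℓ v' ∧ ∀ n : ℕ, ‖F^[n] v - F^[n] v'‖ ≤ K * θ ^ n * ‖ℓ (F^[n] v)‖

variable {F : V → V} {ℓ : V →L[ℂ] B} {G : B → B} {θ K : ℝ} {v v' : V} {d : ℕ}

theorem ell_iter' (hℓ : ∀ v, ℓ (F v) = G (ℓ v)) (n : ℕ) (v : V) : ℓ (F^[n] v) = G^[n] (ℓ v) := by
  induction n with
  | zero => rfl
  | succ n ih => rw [Function.iterate_succ_apply', Function.iterate_succ_apply', hℓ, ih]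

theorem ell_iter_eq (hℓ : ∀ v, ℓ (F v) = G (ℓ v)) (n : ℕ) (h : ℓ v = ℓ v') :
    ℓ (F^[n] v) = ℓ (F^[n] v') := by
  rw [ell_iter' hℓ, ell_iter' hℓ, h]

theorem RC.refl (hθ : 0 ≤ θ) (hK : 0 ≤ K) (v : V) : RC F ℓ θ K v v :=
  ⟨rfl, fun n => by
    rw [sub_self, norm_zero]
    positivity⟩

theorem RC.mono (hθ : 0 ≤ θ) {K' : ℝ} (hK : K ≤ K') (h : RC F ℓ θ K v v') : RC F ℓ θ K' v v' :=
  ⟨h.1, fun n => (h.2 n).trans (by gcongr)⟩

theorem RC.symm (hℓ : ∀ v, ℓ (F v) = G (ℓ v)) (h : RC F ℓ θ K v v') : RC F ℓ θ K v' v :=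
  ⟨h.1.symm, fun n => by
    rw [← norm_neg, neg_sub, ← ell_iter_eq hℓ n h.1]
    exact h.2 n⟩

theorem RC.trans (hℓ : ∀ v, ℓ (F v) = G (ℓ v)) {K' : ℝ} {v'' : V} (h : RC F ℓ θ K v v')
    (h' : RC F ℓ θ K' v' v'') : RC F ℓ θ (K + K') v v'' := by
  refine ⟨h.1.trans h'.1, fun n => ?_⟩
  have h1 := h.2 n
  have h2 := h'.2 n
  rw [← ell_iter_eq hℓ n h.1] at h2
  calc ‖F^[n] v - F^[n] v''‖ = ‖(F^[n] v - F^[n] v') + (F^[n] v' - F^[n] v'')‖ := by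
        congr 1; abel
    _ ≤ K * θ ^ n * ‖ℓ (F^[n] v)‖ + K' * θ ^ n * ‖ℓ (F^[n] v)‖ :=
        (norm_add_le _ _).trans (add_le_add h1 h2)
    _ = (K + K') * θ ^ n * ‖ℓ (F^[n] v)‖ := by ring

theorem RC.smul (hF : HomMap d F) (c : ℂ) (h : RC F ℓ θ K v v') :
    RC F ℓ θ K (c • v) (c • v') := by
  refine ⟨by rw [map_smul, map_smul, h.1], fun n => ?_⟩
  rw [hF.iter_hom, hF.iter_hom, ← smul_sub, norm_smul, map_smul, norm_smul]
  have h1 := h.2 n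
  calc ‖c ^ d ^ n‖ * ‖F^[n] v - F^[n] v'‖ ≤ ‖c ^ d ^ n‖ * (K * θ ^ n * ‖ℓ (F^[n] v)‖) := by
        gcongr
    _ = _ := by ring

end rel

variable {V : Type*} [NormedAddCommGroup V] [NormedSpace ℂ V] [FiniteDimensional ℂ V]
variable {F : V → V} {ℓ : V →L[ℂ] ℂ × ℂ} {G : ℂ × ℂ → ℂ × ℂ} {d : ℕ}
variable {W Q : Set V} {M : ℝ}

theorem orb_const (F : V → V) (n : ℕ) (v : V) : orb (fun _ => F) n v = F^[n] v := by
  induction n with
  | zero => rfl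
  | succ n ih =>
    rw [Function.iterate_succ_apply', ← ih]
    rfl

theorem exists_rate (hF : HomMap d F) (hd : 1 ≤ d) (hℓ : ∀ v, ℓ (F v) = G (ℓ v))
    (hW : Trap F W) (hM0 : 0 < M) (hM : ∀ v ∈ closure W, ‖v‖ ≤ M * ‖ℓ v‖) :
    ∃ θ : ℝ, 0 ≤ θ ∧ θ < 1 ∧ ∀ v s : V, ℓ s = 0 → (∀ τ : ℂ, ‖τ‖ < 3 → v + τ • s ∈ W) →
      RC F ℓ θ (2 * M) (v + s) v := by
  obtain ⟨η, hη, hmar⟩ := margin (ℓ := ℓ) hF hd hW hM
  set ε : ℝ := η / (4 * M) with hε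
  have hε0 : 0 < ε := by positivity
  refine ⟨(1 + ε)⁻¹, by positivity, inv_lt_one_of_one_lt₀ (by linarith), ?_⟩
  intro v s hs hv
  refine ⟨by rw [map_add, hs, add_zero], fun n => ?_⟩
  have h1 := contr_two (U := fun n => {w | w ∈ W ∧ ℓ w = G^[n] (ℓ v)}) (f := fun _ => F)
    (M := fun n => M * ‖G^[n] (ℓ v)‖) (v := v) (s := s) hε0
    (fun _ w _ => hF.diff w) (by
      rintro m w ⟨hw, hwℓ⟩ w' ⟨hw', hwℓ'⟩
      have e1 : F w' + ((1 + ε : ℝ) : ℂ) • (F w - F w') = F w + ((ε : ℝ) : ℂ) • (F w - F w') := by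
        push_cast
        rw [add_smul, one_smul]
        abel
      have e2 : ℓ (F w) = G^[m + 1] (ℓ v) := by
        rw [hℓ, hwℓ, Function.iterate_succ_apply']
      have e3 : ℓ (F w') = G^[m + 1] (ℓ v) := by
        rw [hℓ, hwℓ', Function.iterate_succ_apply']
      have hFw := hW.mapsTo hw
      have hFw' := hW.mapsTo hw'
      have h0 : 0 < ‖ℓ (F w)‖ := norm_pos_iff.2 (ell_ne hW hM hFw)
      show F w' + ((1 + ε : ℝ) : ℂ) • (F w - F w') ∈ W ∧ _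
      rw [e1]
      refine ⟨hmar _ (mem_KK hw) (hW.ne_zero hFw) _ ?_, ?_⟩
      · rw [norm_smul, Complex.norm_real, Real.norm_of_nonneg hε0.le]
        have h2 := hM _ (subset_closure hFw)
        have h3 := hM _ (subset_closure hFw')
        rw [e3, ← e2] at h3
        calc ε * ‖F w - F w'‖ ≤ ε * (M * ‖ℓ (F w)‖ + M * ‖ℓ (F w)‖) := by
              gcongr
              exact (norm_sub_le _ _).trans (add_le_add h2 h3)
          _ = η * ‖ℓ (F w)‖ / 2 := by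
              rw [hε]
              field_simp
              ring
          _ < η * ‖ℓ (F w)‖ := by
              have : 0 < η * ‖ℓ (F w)‖ := by positivity
              linarith
      · show ℓ (F w + ((ε : ℝ) : ℂ) • (F w - F w')) = G^[m + 1] (ℓ v)
        rw [map_add, map_smul, map_sub, e2, e3, sub_self, smul_zero, add_zero]) (by
      rintro m w ⟨hw, hwℓ⟩
      have := hM w (subset_closure hw)
      rwa [hwℓ] at this) (by
      intro τ hτ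
      refine ⟨hv τ hτ, ?_⟩
      show ℓ (v + τ • s) = ℓ v
      rw [map_add, map_smul, hs, smul_zero, add_zero]) n
  rw [orb_const, orb_const] at h1
  have h2 : ℓ (F^[n] (v + s)) = G^[n] (ℓ v) := by
    rw [ell_iter' hℓ, map_add, hs, add_zero]
  rw [h2]
  calc ‖F^[n] (v + s) - F^[n] v‖ ≤ 2 * (M * ‖G^[n] (ℓ v)‖) * (1 + ε)⁻¹ ^ n := h1
    _ = _ := by ring

/-- uniform comparison in a tube -/
theorem tube_rate (hℓ : ∀ v, ℓ (F v) = G (ℓ v)) (hW : Trap F W) {θ K0 : ℝ} (hθ : 0 ≤ θ)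
    (hK0 : 0 ≤ K0)
    (hrate : ∀ v s : V, ℓ s = 0 → (∀ τ : ℂ, ‖τ‖ < 3 → v + τ • s ∈ W) → RC F ℓ θ K0 (v + s) v)
    {v0 b : V} {r : ℝ} {C g : Set V} (hT : Tube F ℓ W v0 b r C g) :
    ∃ K : ℝ, 0 ≤ K ∧ ∀ u : ℂ, ‖u‖ ≤ r → ∀ s ∈ C,
      RC F ℓ θ K (v0 + u • b) (v0 + u • b + s) := by
  have hE : IsCompact ((fun p : ℂ × V => v0 + p.1 • b + p.2) '' (closedBall 0 r ×ˢ C)) :=
    ((isCompact_closedBall (0 : ℂ) r).prod hT.comp).image (by fun_prop)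
  obtain ⟨ρ, hρ, hth⟩ := hE.exists_thickening_subset_open hW.isOpen (by
    rintro _ ⟨⟨u, s⟩, ⟨hu, hs⟩, rfl⟩
    exact hT.inW u (by simpa using hu) s hs)
  -- near pairs
  have hnear : ∀ s ∈ C, ∀ s' ∈ C, ‖s' - s‖ < ρ / 4 → ∀ u : ℂ, ‖u‖ ≤ r →
      RC F ℓ θ K0 (v0 + u • b + s) (v0 + u • b + s') := by
    intro s hs s' hs' hss u hu
    have h1 := hrate (v0 + u • b + s) (s' - s) (by rw [map_sub, hT.ker s hs, hT.ker s' hs',
      sub_self]) (by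
      intro τ hτ
      apply hth
      rw [mem_thickening_iff]
      refine ⟨v0 + u • b + s, ⟨(u, s), ⟨by simpa using hu, hs⟩, rfl⟩, ?_⟩
      rw [dist_eq_norm, add_sub_cancel_left, norm_smul]
      have h3 : 0 ≤ ‖τ‖ := norm_nonneg _
      have h4 : 0 ≤ ‖s' - s‖ := norm_nonneg _
      nlinarith)
    have h2 : v0 + u • b + s + (s' - s) = v0 + u • b + s' := by abel
    rw [h2] at h1
    exact h1.symm hℓ
  have hP : ∀ s ∈ C, ∃ K : ℝ, 0 ≤ K ∧ ∀ u : ℂ, ‖u‖ ≤ r →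
      RC F ℓ θ K (v0 + u • b + 0) (v0 + u • b + s) := by
    intro s hs
    refine hT.conn.induction₂ (fun s s' => ∃ K : ℝ, 0 ≤ K ∧ ∀ u : ℂ, ‖u‖ ≤ r →
      RC F ℓ θ K (v0 + u • b + s) (v0 + u • b + s')) ?_ ?_ ?_ hT.zero hs
    · intro x hx
      have h1 : ∀ᶠ y in 𝓝[C] x, ‖y - x‖ < ρ / 4 := by
        apply eventually_nhdsWithin_of_eventually_nhds
        have : ContinuousAt (fun y => ‖y - x‖) x := by fun_prop
        apply this.eventually_lt continuousAt_const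
        simpa using (by positivity : 0 < ρ / 4)
      filter_upwards [h1, self_mem_nhdsWithin] with y hy hyC
      exact ⟨K0, hK0, fun u hu => hnear x hx y hyC hy u hu⟩
    · rintro x y z hx hy hz ⟨K, hK, h⟩ ⟨K', hK', h'⟩
      exact ⟨K + K', add_nonneg hK hK', fun u hu => (h u hu).trans hℓ (h' u hu)⟩
    · rintro x y hx hy ⟨K, hK, h⟩
      exact ⟨K, hK, fun u hu => (h u hu).symm hℓ⟩
  -- uniform bound
  have hU : ∃ K : ℝ, 0 ≤ K ∧ ∀ s ∈ C, s ∈ C → ∀ u : ℂ, ‖u‖ ≤ r →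
      RC F ℓ θ K (v0 + u • b + 0) (v0 + u • b + s) := by
    apply hT.comp.induction_on (p := fun A : Set V => ∃ K : ℝ, 0 ≤ K ∧ ∀ s ∈ A, s ∈ C →
      ∀ u : ℂ, ‖u‖ ≤ r → RC F ℓ θ K (v0 + u • b + 0) (v0 + u • b + s))
    · exact ⟨0, le_rfl, fun s hs => absurd hs (notMem_empty s)⟩
    · rintro A A' hA ⟨K, hK, h⟩
      exact ⟨K, hK, fun s hs => h s (hA hs)⟩
    · rintro A A' ⟨K, hK, h⟩ ⟨K', hK', h'⟩
      refine ⟨K + K', add_nonneg hK hK', ?_⟩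
      rintro s (hs | hs) hsC u hu
      · exact (h s hs hsC u hu).mono hθ (by linarith)
      · exact (h' s hs hsC u hu).mono hθ (by linarith)
    · intro x hx
      obtain ⟨K, hK, h⟩ := hP x hx
      refine ⟨{y | ‖y - x‖ < ρ / 4}, ?_, K + K0, add_nonneg hK hK0, ?_⟩
      · apply mem_nhdsWithin_of_mem_nhds
        have : ContinuousAt (fun y => ‖y - x‖) x := by fun_prop
        apply this.eventually_lt continuousAt_const
        simpa using (by positivity : 0 < ρ / 4)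
      · intro y hy hyC u hu
        exact (h u hu).trans hℓ (hnear x hx y hyC hy u hu)
  obtain ⟨K, hK, h⟩ := hU
  refine ⟨K, hK, fun u hu s hs => ?_⟩
  have := h s hs hs u hu
  rwa [add_zero] at this

/-- nearby points are asymptotic to points of the minimal cone -/
theorem near_rate (hF : HomMap d F) (hd : 2 ≤ d) (hG : HomMap d G) (hℓ : ∀ v, ℓ (F v) = G (ℓ v))
    (hsurj : Function.Surjective ℓ) (hQ : MQ F Q) (hW : Trap F W) (hQW : Q ⊆ W)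
    (hM : ∀ v ∈ closure W, ‖v‖ ≤ M * ‖ℓ v‖) (hall : ∀ x : ℂ × ℂ, x ≠ 0 → ∃ q ∈ Q, ℓ q = x)
    {θ K0 : ℝ} (hθ : 0 ≤ θ) (hK0 : 0 ≤ K0)
    (hrate : ∀ v s : V, ℓ s = 0 → (∀ τ : ℂ, ‖τ‖ < 3 → v + τ • s ∈ W) → RC F ℓ θ K0 (v + s) v)
    {q0 : V} (hq0 : q0 ∈ Q) :
    ∃ K : ℝ, 0 ≤ K ∧ ∀ᶠ v in 𝓝 q0, ∃ q ∈ Q, RC F ℓ θ K v q := by
  have hd1 : 1 ≤ d := by omega
  have hℓ0 : ℓ q0 ≠ 0 := ell_ne hW hM (hQW hq0)
  obtain ⟨b, hb⟩ := exists_b hsurj hℓ0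
  obtain ⟨r, C, g, hT, hTl⟩ := exists_tube hF hd1 hW hM (hQ.subset_KK hF hd1 hW hQW hq0) hℓ0 hb
  obtain ⟨K, hK, hKr⟩ := tube_rate hℓ hW hθ hK0 hrate hT
  obtain ⟨ε, hε, hball⟩ := Metric.isOpen_iff.1 hW.isOpen q0 (hQW hq0)
  refine ⟨K0 + K, by positivity, ?_⟩
  have hz1 := uu_pt (ℓ := ℓ) (v0 := q0) hb (map_zero ℓ) 0
  have hz2 := sg_pt (ℓ := ℓ) (v0 := q0) hb (map_zero ℓ) 0
  simp only [zero_smul, add_zero] at hz1 hz2
  have hal : al ℓ b q0 ≠ 0 := by rw [al_v0 hb]; exact one_ne_zero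
  have cu : ContinuousAt (uu ℓ q0 b) q0 := uu_contOn.continuousAt (al_open.mem_nhds hal)
  have cs : ContinuousAt (sg ℓ q0 b) q0 := sg_contOn.continuousAt (al_open.mem_nhds hal)
  have cub : ContinuousAt (fun v => ‖uu ℓ q0 b v • b‖) q0 := (cu.smul continuousAt_const).norm
  have e1 : ∀ᶠ v in 𝓝 q0, al ℓ b v ≠ 0 := al_open.mem_nhds hal
  have e2 : ∀ᶠ v in 𝓝 q0, ‖uu ℓ q0 b v‖ < r := by
    apply cu.norm.eventually_lt continuousAt_const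
    rw [hz1]
    simpa using hT.rpos
  have e4 : ∀ᶠ v in 𝓝 q0, ‖uu ℓ q0 b v • b‖ < ε / 2 := by
    apply cub.eventually_lt continuousAt_const
    simp only [hz1, zero_smul, norm_zero]
    positivity
  have e5 : ∀ᶠ v in 𝓝 q0, ‖sg ℓ q0 b v‖ < ε / 8 := by
    apply cs.norm.eventually_lt continuousAt_const
    rw [hz2, norm_zero]
    positivity
  filter_upwards [e1, e2, e4, e5] with v h1 h2 h4 h5
  obtain ⟨s', hs', hsQ⟩ := lift_pts hF hd hG hℓ hsurj hQ hW hQW hM hall hq0 hT hTl h2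
  refine ⟨al ℓ b v • (q0 + uu ℓ q0 b v • b + s'), hQ.cone _ h1 _ hsQ, ?_⟩
  have h6 := sg_eq (ℓ := ℓ) (v0 := q0) (b := b) h1
  have h7 : RC F ℓ θ (K0 + K) (q0 + uu ℓ q0 b v • b + sg ℓ q0 b v)
      (q0 + uu ℓ q0 b v • b + s') := by
    refine RC.trans hℓ (hrate _ _ (ell_sg hb h1) ?_) (hKr _ h2.le s' hs')
    intro τ hτ
    apply hball
    rw [mem_ball, dist_eq_norm]
    have h8 : q0 + uu ℓ q0 b v • b + τ • sg ℓ q0 b v - q0 =
        uu ℓ q0 b v • b + τ • sg ℓ q0 b v := by abel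
    rw [h8]
    have h9 : ‖τ • sg ℓ q0 b v‖ ≤ 3 * (ε / 8) := by
      rw [norm_smul]
      gcongr
    have h10 := norm_add_le (uu ℓ q0 b v • b) (τ • sg ℓ q0 b v)
    linarith
  have h8 := h7.smul hF (al ℓ b v)
  rwa [← h6] at h8

theorem iso_of_surj (hF : HomMap d F) (hd : 2 ≤ d) (hG : HomMap d G) (hℓ : ∀ v, ℓ (F v) = G (ℓ v))
    (hsurj : Function.Surjective ℓ) (hQ : MQ F Q) (hℓQ : ∀ q ∈ Q, ℓ q ≠ 0)
    (hall : ∀ x : ℂ × ℂ, x ≠ 0 → ∃ q ∈ Q, ℓ q = x) : Iso F Q := by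
  have hproper : ProperSpace V := FiniteDimensional.proper ℂ V
  have hd1 : 1 ≤ d := by omega
  obtain ⟨W, hW, hQW, M, hM0, hM⟩ := exists_bounded_trap (ℓ := ℓ) hQ hℓQ
  obtain ⟨θ, hθ0, hθ1, hrate⟩ := exists_rate hF hd1 hℓ hW hM0 hM
  -- compact cross section
  have hQc : IsCompact (closure Q ∩ {v | ‖ℓ v‖ = 1}) := by
    apply Metric.isCompact_of_isClosed_isBounded
    · exact isClosed_closure.inter (isClosed_eq (by fun_prop) continuous_const)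
    · apply (isBounded_closedBall (x := (0 : V)) (r := M)).subset
      rintro v ⟨hv, hv1⟩
      have hv1' : ‖ℓ v‖ = 1 := hv1
      rw [mem_closedBall_zero_iff]
      have := hM v (closure_mono hQW hv)
      rwa [hv1', mul_one] at this
  have hQ1 : ∀ v ∈ closure Q ∩ {v | ‖ℓ v‖ = 1}, v ∈ Q := by
    rintro v ⟨hv, hv1⟩
    apply hQ.closed v hv
    rintro rfl
    have hv1' : ‖ℓ (0 : V)‖ = 1 := hv1
    simp at hv1'
  obtain ⟨K, hK, O', hO'o, hO'c, hO'⟩ : ∃ K : ℝ, 0 ≤ K ∧ ∃ O' : Set V, IsOpen O' ∧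
      closure Q ∩ {v | ‖ℓ v‖ = 1} ⊆ O' ∧ ∀ v ∈ O', ∃ q ∈ Q, RC F ℓ θ K v q := by
    apply hQc.induction_on (p := fun A : Set V => ∃ K : ℝ, 0 ≤ K ∧ ∃ O' : Set V, IsOpen O' ∧
      A ⊆ O' ∧ ∀ v ∈ O', ∃ q ∈ Q, RC F ℓ θ K v q)
    · exact ⟨0, le_rfl, ∅, isOpen_empty, empty_subset _, fun v hv => absurd hv (notMem_empty v)⟩
    · rintro A A' hA ⟨K, hK, O', h1, h2, h3⟩
      exact ⟨K, hK, O', h1, hA.trans h2, h3⟩
    · rintro A A' ⟨K, hK, O', h1, h2, h3⟩ ⟨K', hK', O'', h1', h2', h3'⟩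
      refine ⟨K + K', add_nonneg hK hK', O' ∪ O'', h1.union h1', union_subset_union h2 h2', ?_⟩
      rintro v (hv | hv)
      · obtain ⟨q, hq, hqv⟩ := h3 v hv
        exact ⟨q, hq, hqv.mono hθ0 (by linarith)⟩
      · obtain ⟨q, hq, hqv⟩ := h3' v hv
        exact ⟨q, hq, hqv.mono hθ0 (by linarith)⟩
    · intro q0 hq0
      obtain ⟨K, hK, h⟩ := near_rate hF hd hG hℓ hsurj hQ hW hQW hM hall hθ0 (by positivity)
        hrate (hQ1 q0 hq0)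
      obtain ⟨O', hO'1, hO'2, hO'3⟩ := _root_.eventually_nhds_iff.1 h
      exact ⟨O', mem_nhdsWithin_of_mem_nhds (hO'2.mem_nhds hO'3), K, hK, O', hO'2,
        Subset.rfl, hO'1⟩
  -- the open cone
  set O : Set V := {v | ∃ c : ℂ, c ≠ 0 ∧ c • v ∈ O'} with hO
  have hOo : IsOpen O := by
    have h1 : O = ⋃ c ∈ {c : ℂ | c ≠ 0}, (fun v : V => c • v) ⁻¹' O' := by
      ext v
      simp [hO]
    rw [h1]
    exact isOpen_biUnion fun c _ => hO'o.preimage (continuous_const_smul c)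
  have hOc : IsCone O := by
    rintro c hc v ⟨c', hc', hv⟩
    refine ⟨c' * c⁻¹, mul_ne_zero hc' (inv_ne_zero hc), ?_⟩
    rw [smul_smul, mul_assoc, inv_mul_cancel₀ hc, mul_one]
    exact hv
  have hOR : ∀ v ∈ O, ∃ q ∈ Q, RC F ℓ θ K v q := by
    rintro v ⟨c, hc, hv⟩
    obtain ⟨q, hq, hvq⟩ := hO' _ hv
    refine ⟨c⁻¹ • q, hQ.cone _ (inv_ne_zero hc) q hq, ?_⟩
    have := hvq.smul hF c⁻¹
    rwa [smul_smul, inv_mul_cancel₀ hc, one_smul] at this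
  have hQO : Q ⊆ O := by
    intro q hq
    have h0 : 0 < ‖ℓ q‖ := norm_pos_iff.2 (hℓQ q hq)
    refine ⟨(((‖ℓ q‖ : ℝ) : ℂ))⁻¹, inv_ofReal_ne h0, hO'c ⟨subset_closure
      (hQ.cone _ (inv_ofReal_ne h0) q hq), ?_⟩⟩
    show ‖ℓ ((((‖ℓ q‖ : ℝ) : ℂ))⁻¹ • q)‖ = 1
    rw [map_smul, norm_smul, norm_smul_inv h0]
    exact inv_mul_cancel₀ h0.ne'
  obtain ⟨W', hW', hQW', hWO'⟩ := hQ.small (O ∩ W) (hOo.inter hW.isOpen) (hOc.inter hW.cone)
    (subset_inter hQO hQW)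
  refine ⟨W', hW', hQW', fun P hP => ?_⟩
  have hP0 : P ∈ W' := by
    obtain ⟨w, hw, hwP⟩ := hP 0
    simpa [← hwP] using hw
  apply hQ.closed P _ (hW'.ne_zero hP0)
  rw [Metric.mem_closure_iff]
  intro e he
  have h1 : Tendsto (fun n : ℕ => K * θ ^ n * ‖ℓ P‖) atTop (𝓝 (K * 0 * ‖ℓ P‖)) :=
    ((tendsto_pow_atTop_nhds_zero_of_lt_one hθ0 hθ1).const_mul K).mul_const _
  rw [mul_zero, zero_mul] at h1
  obtain ⟨n, hn⟩ := (h1.eventually (gt_mem_nhds he)).exists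
  obtain ⟨w, hw, hwP⟩ := hP n
  obtain ⟨q, hq, hRC⟩ := hOR w (hWO' hw).1
  have h2 := hRC.2 n
  rw [hwP] at h2
  refine ⟨F^[n] q, ?_, by rw [dist_eq_norm]; exact lt_of_le_of_lt h2 hn⟩
  have : ∀ m : ℕ, F^[m] q ∈ Q := by
    intro m
    induction m with
    | zero => exact hq
    | succ m ih =>
      rw [Function.iterate_succ_apply']
      exact hQ.mapsTo hF ih
  exact this n

end Run7.h644
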