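import Pool.Agent.Run7.h644.Centre

/-!
Restriction to the centre.
-/

set_option autoImplicit false
set_option linter.unusedSectionVars false
open Set Filter Topology Metric

namespace Run7.h644

section

variable {V : Type*} [NormedAddCommGroup V] [NormedSpace ℂ V] [FiniteDimensional ℂ V]
variable {B : Type*} [NormedAddCommGroup B] [NormedSpace ℂ B] [FiniteDimensional ℂ B]
variable {d : ℕ} {F : V → V} {G : B → B} {ℓ : V →L[ℂ] B} {S : Submodule ℂ V}

/-- the restricted map -/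
def FS (F : V → V) (p : V →L[ℂ] S) : S → S := fun s => p (F s)

theorem FS_coe (hd : 2 ≤ d) (hG : HomMap d G)
    (hℓ : ∀ v, ℓ (F v) = G (ℓ v)) (hS : ∀ v, v ∈ S ↔ ℓ v = 0) {p : V →L[ℂ] S}
    (hp : ∀ s : S, p s = s) (s : S) : ((FS F p s : S) : V) = F s := by
  have h1 : F s ∈ S := by
    rw [hS, hℓ, (hS _).1 s.2, hG.zero (by omega)]
  have := hp ⟨F s, h1⟩
  exact congrArg Subtype.val this

theorem FS_iter (hd : 2 ≤ d) (hG : HomMap d G)
    (hℓ : ∀ v, ℓ (F v) = G (ℓ v)) (hS : ∀ v, v ∈ S ↔ ℓ v = 0) {p : V →L[ℂ] S}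
    (hp : ∀ s : S, p s = s) (n : ℕ) (s : S) : (((FS F p)^[n] s : S) : V) = F^[n] s := by
  induction n with
  | zero => rfl
  | succ n ih =>
    rw [Function.iterate_succ_apply', Function.iterate_succ_apply', FS_coe hd hG hℓ hS hp, ih]

theorem FS_hom (hd : 2 ≤ d) (hF : HomMap d F) (hG : HomMap d G)
    (hℓ : ∀ v, ℓ (F v) = G (ℓ v)) (hS : ∀ v, v ∈ S ↔ ℓ v = 0) {p : V →L[ℂ] S}
    (hp : ∀ s : S, p s = s) : HomMap d (FS F p) where
  diff := (p.differentiable.comp hF.diff).comp S.subtypeL.differentiable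
  hom := by
    intro c v
    show p (F (c • (v : V))) = c ^ d • p (F v)
    rw [hF.hom, map_smul]
  nz := by
    intro v hv
    have h1 := FS_coe hd hG hℓ hS hp v
    rw [hv] at h1
    exact Subtype.ext (hF.nz _ h1.symm)

theorem trap_ext (hd : 2 ≤ d) (hF : HomMap d F) (hG : HomMap d G)
    (hℓ : ∀ v, ℓ (F v) = G (ℓ v)) (hS : ∀ v, v ∈ S ↔ ℓ v = 0) {p : V →L[ℂ] S}
    (hp : ∀ s : S, p s = s) {C : ℝ} (hC : 0 < C) (hpC : ∀ v : V, ‖v - p v‖ ≤ C * ‖ℓ v‖)
    {W : Set S} (hW : Trap (FS F p) W) :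
    ∃ δ : ℝ, 0 < δ ∧ Trap F (NN ℓ δ ∩ {v | p v ∈ W}) ∧
      ∀ v, (∀ n : ℕ, ∃ w ∈ NN ℓ δ, F^[n] w = v) → ℓ v = 0 := by
  obtain ⟨δ0, hδ0, hest⟩ := centre_est hd hF hG hℓ
  have hproper : ProperSpace V := FiniteDimensional.proper ℂ V
  -- the compact set of unit vectors in the closure
  set K : Set V := (fun s : S => (s : V)) '' (closure W ∩ sphere (0 : S) 1) with hK
  have hproperS : ProperSpace S := FiniteDimensional.proper ℂ S
  have hKc : IsCompact K :=
    ((isCompact_sphere (0 : S) 1).inter_left isClosed_closure).image continuous_subtype_val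
  set O : Set V := {v | p (F v) ∈ W} with hO
  have hOo : IsOpen O := hW.isOpen.preimage (p.continuous.comp hF.cont)
  have hKO : K ⊆ O := by
    rintro _ ⟨s, ⟨hs, hs1⟩, rfl⟩
    apply hW.trap s hs
    rintro rfl
    simp at hs1
  obtain ⟨η, hη, hthick⟩ := hKc.exists_thickening_subset_open hOo hKO
  set δ : ℝ := min δ0 (min (1 / (2 * C)) (η / (4 * C))) with hδ
  have hδp : 0 < δ := lt_min hδ0 (lt_min (by positivity) (by positivity))
  have hδ1 : δ ≤ δ0 := min_le_left _ _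
  have hδ2 : C * δ ≤ 1 / 2 := by
    calc C * δ ≤ C * (1 / (2 * C)) :=
          mul_le_mul_of_nonneg_left ((min_le_right _ _).trans (min_le_left _ _)) hC.le
      _ = 1 / 2 := by field_simp
  have hδ3 : 2 * (C * δ) < η := by
    calc 2 * (C * δ) ≤ 2 * (C * (η / (4 * C))) := by
          gcongr
          exact (min_le_right _ _).trans (min_le_right _ _)
      _ = η / 2 := by field_simp; ring
      _ < η := by linarith
  refine ⟨δ, hδp, ?_, fun v hv => centre_attr hF hest hδp hδ1 hv⟩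
  have hT := centre_trap hF hest hδp hδ1
  refine ⟨hT.isOpen.inter (hW.isOpen.preimage p.continuous), hT.cone.inter ?_,
    fun h => hT.zero h.1, ?_⟩
  · intro c hc v hv
    show p (c • v) ∈ W
    rw [map_smul]
    exact hW.cone c hc _ hv
  · intro v hv hv0
    have h1 : v ∈ closure (NN ℓ δ) := closure_mono inter_subset_left hv
    have h2 : p v ∈ closure W := by
      have : MapsTo p (NN ℓ δ ∩ {v | p v ∈ W}) W := fun w hw => hw.2
      exact this.closure p.continuous hv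
    refine ⟨hT.trap v h1 hv0, ?_⟩
    have h3 : ‖ℓ v‖ ≤ δ * ‖v‖ := closure_NN h1
    have hvp : 0 < ‖v‖ := norm_pos_iff.2 hv0
    have h4 : ‖v - p v‖ ≤ C * δ * ‖v‖ := by
      calc ‖v - p v‖ ≤ C * ‖ℓ v‖ := hpC v
        _ ≤ C * (δ * ‖v‖) := by gcongr
        _ = _ := by ring
    have h5 : ‖v‖ ≤ 2 * ‖((p v : S) : V)‖ := by
      have h6 : ‖v‖ ≤ ‖v - p v‖ + ‖((p v : S) : V)‖ := by
        calc ‖v‖ = ‖(v - p v) + p v‖ := by rw [sub_add_cancel]
          _ ≤ _ := norm_add_le _ _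
      have h7 : C * δ * ‖v‖ ≤ 1 / 2 * ‖v‖ := by gcongr
      linarith
    have h8 : 0 < ‖((p v : S) : V)‖ := by linarith
    have h9 : p v ≠ 0 := by
      intro h
      rw [h] at h8
      simp at h8
    set c : ℂ := (((‖((p v : S) : V)‖ : ℝ) : ℂ))⁻¹ with hc
    have hc0 : c ≠ 0 := inv_ne_zero (by exact_mod_cast h8.ne')
    have hcn : ‖c‖ = ‖((p v : S) : V)‖⁻¹ := by
      rw [hc, norm_inv, Complex.norm_real, norm_norm]
    have h10 : c • v ∈ thickening η K := by
      rw [mem_thickening_iff]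
      refine ⟨c • ((p v : S) : V), ⟨c • p v, ⟨hW.cone.closure c hc0 _ h2, ?_⟩, rfl⟩, ?_⟩
      · rw [mem_sphere_zero_iff_norm, norm_smul, hcn]
        exact inv_mul_cancel₀ h8.ne'
      · rw [dist_eq_norm, ← smul_sub, norm_smul, hcn]
        calc ‖((p v : S) : V)‖⁻¹ * ‖v - p v‖
            ≤ ‖((p v : S) : V)‖⁻¹ * (C * δ * (2 * ‖((p v : S) : V)‖)) := by
              gcongr
              exact h4.trans (by gcongr)
          _ = 2 * (C * δ) := by field_simp
          _ < η := hδ3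
    have h11 : p (F (c • v)) ∈ W := hthick h10
    rw [hF.hom, map_smul] at h11
    exact (hW.cone.smul_mem_iff (pow_ne_zero _ hc0)).1 h11

theorem restr_MQ (hd : 2 ≤ d) (hF : HomMap d F) (hG : HomMap d G)
    (hℓ : ∀ v, ℓ (F v) = G (ℓ v)) (hS : ∀ v, v ∈ S ↔ ℓ v = 0) {p : V →L[ℂ] S}
    (hp : ∀ s : S, p s = s) {C : ℝ} (hC : 0 < C) (hpC : ∀ v : V, ‖v - p v‖ ≤ C * ‖ℓ v‖)
    {Q : Set V} (hQ : MQ F Q) (hQS : ∀ q ∈ Q, ℓ q = 0) :
    MQ (FS F p) {s : S | (s : V) ∈ Q} where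
  ne := by
    obtain ⟨q, hq⟩ := hQ.ne
    exact ⟨⟨q, (hS q).2 (hQS q hq)⟩, hq⟩
  cone := fun c hc s hs => hQ.cone c hc s hs
  zero := fun h => hQ.zero h
  closed := by
    intro s hs h0
    apply hQ.closed
    · have : MapsTo (fun s : S => (s : V)) {s : S | (s : V) ∈ Q} Q := fun w hw => hw
      exact this.closure continuous_subtype_val hs
    · intro h
      exact h0 (Subtype.ext h)
  small := by
    intro O hO hOc hQO
    obtain ⟨W, hW, hQW, hWO⟩ := hQ.small {v | p v ∈ O} (hO.preimage p.continuous) (by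
      intro c hc v hv
      show p (c • v) ∈ O
      rw [map_smul]
      exact hOc c hc _ hv) (by
      intro q hq
      have h1 : q ∈ S := (hS q).2 (hQS q hq)
      show p q ∈ O
      have h2 := hp ⟨q, h1⟩
      simp only at h2
      rw [h2]
      exact hQO hq)
    refine ⟨{s : S | (s : V) ∈ W}, ⟨hW.isOpen.preimage continuous_subtype_val, ?_, ?_, ?_⟩,
      fun s hs => hQW hs, ?_⟩
    · exact fun c hc s hs => hW.cone c hc s hs
    · exact fun h => hW.zero h
    · intro s hs h0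
      show ((FS F p s : S) : V) ∈ W
      rw [FS_coe hd hG hℓ hS hp]
      apply hW.trap
      · have : MapsTo (fun s : S => (s : V)) {s : S | (s : V) ∈ W} W := fun w hw => hw
        exact this.closure continuous_subtype_val hs
      · intro h
        exact h0 (Subtype.ext h)
    · intro s hs
      have h2 := hWO hs
      have h3 : p (s : V) ∈ O := h2
      rwa [hp] at h3
  big := by
    intro W hW hne
    obtain ⟨δ, hδ, hT, -⟩ := trap_ext hd hF hG hℓ hS hp hC hpC hW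
    obtain ⟨s, hsW, hsQ⟩ := hne
    have h1 := hQ.big _ hT ⟨s, ⟨?_, ?_⟩, hsQ⟩
    · intro s' hs'
      have h2 := (h1 hs').2
      have h3 : p (s' : V) ∈ W := h2
      rwa [hp] at h3
    · show ‖ℓ (s : V)‖ < δ * ‖(s : V)‖
      rw [(hS _).1 s.2, norm_zero]
      have : (s : V) ≠ 0 := fun h => hW.zero (by
        have : s = 0 := Subtype.ext h
        rwa [this] at hsW)
      have := norm_pos_iff.2 this
      positivity
    · show p (s : V) ∈ W
      rwa [hp]

theorem restr_Iso (hd : 2 ≤ d) (hF : HomMap d F) (hG : HomMap d G)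
    (hℓ : ∀ v, ℓ (F v) = G (ℓ v)) (hS : ∀ v, v ∈ S ↔ ℓ v = 0) {p : V →L[ℂ] S}
    (hp : ∀ s : S, p s = s) {C : ℝ} (hC : 0 < C) (hpC : ∀ v : V, ‖v - p v‖ ≤ C * ‖ℓ v‖)
    {Q : Set V} (hQ : MQ F Q) (hQS : ∀ q ∈ Q, ℓ q = 0)
    (hI : Iso (FS F p) {s : S | (s : V) ∈ Q}) : Iso F Q := by
  obtain ⟨W, hW, hQW, hA⟩ := hI
  obtain ⟨δ, hδ, hT, hattr⟩ := trap_ext hd hF hG hℓ hS hp hC hpC hW
  refine ⟨_, hT, ?_, ?_⟩
  · intro q hq
    have h1 : q ∈ S := (hS q).2 (hQS q hq)
    constructor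
    · show ‖ℓ q‖ < δ * ‖q‖
      rw [hQS q hq, norm_zero]
      have : q ≠ 0 := fun h => hQ.zero (h ▸ hq)
      have := norm_pos_iff.2 this
      positivity
    · show p q ∈ W
      have h2 := hp ⟨q, h1⟩
      simp only at h2
      rw [h2]
      exact hQW hq
  · intro v hv
    have h1 : ℓ v = 0 := hattr v fun n => by
      obtain ⟨w, hw, hwv⟩ := hv n
      exact ⟨w, hw.1, hwv⟩
    have h2 : v ∈ S := (hS v).2 h1
    have h3 : ∀ (n : ℕ) (w : V), ℓ (F^[n] w) = G^[n] (ℓ w) := by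
      intro n w
      induction n with
      | zero => rfl
      | succ n ih => rw [Function.iterate_succ_apply', hℓ, ih, Function.iterate_succ_apply']
    have h4 := hA ⟨v, h2⟩ fun n => by
      obtain ⟨w, hw, hwv⟩ := hv n
      have h5 : ℓ w = 0 := by
        by_contra hcon
        apply hG.iter_ne n hcon
        rw [← h3, hwv, h1]
      have h6 : w ∈ S := (hS w).2 h5
      refine ⟨⟨w, h6⟩, ?_, ?_⟩
      · have h7 : p w ∈ W := hw.2
        have h8 := hp ⟨w, h6⟩
        simp only at h8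
        rwa [h8] at h7
      · apply Subtype.ext
        rw [FS_iter hd hG hℓ hS hp]
        exact hwv
    exact h4

end

end Run7.h644
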