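import Pool.Agent.Run7.h644.Final
import Pool.Agent.Run7.h644.Restr

/-!
Flags of invariant linear subspaces with steps of codimension at most two.
-/

set_option autoImplicit false
set_option linter.unusedSectionVars false
set_option linter.unusedVariables false
open Set Filter Topology Metric
open Module (finrank)

namespace Run7.h644

/-- a flag along which the map is fibred, with steps of codimension at most two -/
structure Flag {V : Type*} [NormedAddCommGroup V] [NormedSpace ℂ V] (F : V → V) (n : ℕ)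
    (L : ℕ → Submodule ℂ V) : Prop where
  top : L 0 = ⊤
  anti : ∀ i < n, L (i + 1) ≤ L i
  codim : ∀ i < n, finrank ℂ (L i) ≤ finrank ℂ (L (i + 1)) + 2
  fib : ∀ i < n, ∀ v ∈ L i, ∀ w ∈ L (i + 1), F (v + w) - F v ∈ L (i + 1)
  inv : ∀ i < n, ∀ v ∈ L i, F v ∈ L (i + 1) → v ∈ L (i + 1)

section

variable {V : Type*} [NormedAddCommGroup V] [NormedSpace ℂ V] [FiniteDimensional ℂ V]
variable {d : ℕ} {F : V → V}

/-- the induced map of the base -/
theorem exists_base {B : Type*} [NormedAddCommGroup B] [NormedSpace ℂ B] [FiniteDimensional ℂ B]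
    (hF : HomMap d F) (S : Submodule ℂ V) (ℓ : V →L[ℂ] B) (hsurj : Function.Surjective ℓ)
    (hS : ∀ v, v ∈ S ↔ ℓ v = 0) (hfib : ∀ v, ∀ w ∈ S, F (v + w) - F v ∈ S)
    (hinv : ∀ v, F v ∈ S → v ∈ S) :
    ∃ G : B → B, HomMap d G ∧ ∀ v, ℓ (F v) = G (ℓ v) := by
  obtain ⟨σ, hσ⟩ := (ℓ : V →ₗ[ℂ] B).exists_rightInverse_of_surjective
    (LinearMap.range_eq_top.2 hsurj)
  have hσ' : ∀ x, ℓ (σ x) = x := fun x => LinearMap.congr_fun hσ x
  set σc : B →L[ℂ] V := LinearMap.toContinuousLinearMap σ with hσc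
  have hσc' : ∀ x, σc x = σ x := fun x => rfl
  refine ⟨fun x => ℓ (F (σc x)), ⟨?_, ?_, ?_⟩, ?_⟩
  · exact ℓ.differentiable.comp (hF.diff.comp σc.differentiable)
  · intro c x
    simp only [map_smul, hF.hom]
  · intro x hx
    have h1 : F (σc x) ∈ S := (hS _).2 hx
    have h2 := (hS _).1 (hinv _ h1)
    rwa [hσc', hσ'] at h2
  · intro v
    have h1 : v - σc (ℓ v) ∈ S := by
      rw [hS, map_sub, hσc', hσ', sub_self]
    have h2 := hfib (σc (ℓ v)) _ h1
    rw [add_sub_cancel] at h2
    have h3 := (hS _).1 h2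
    rw [map_sub] at h3
    exact sub_eq_zero.1 h3

theorem iso_step {B : Type*} [NormedAddCommGroup B] [NormedSpace ℂ B] [FiniteDimensional ℂ B]
    (hF : HomMap d F) (hd : 2 ≤ d) {S : Submodule ℂ V} {ℓ : V →L[ℂ] B} {G : B → B}
    (hG : HomMap d G) (hℓ : ∀ v, ℓ (F v) = G (ℓ v)) (hS : ∀ v, v ∈ S ↔ ℓ v = 0) {Q : Set V}
    (hQ : MQ F Q) (hQS : ∃ q ∈ Q, ℓ q = 0) (P : Set S → Prop)
    (hrec : ∀ F' : S → S, HomMap d F' → (∀ s : S, ((F' s : S) : V) = F s) → ∀ Q' : Set S,
      MQ F' Q' → Iso F' Q' ∨ P Q') : Iso F Q ∨ ((∀ q ∈ Q, q ∈ S) ∧ P {s : S | (s : V) ∈ Q}) := by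
  obtain ⟨p, hp, C, hC, hpC⟩ := exists_proj ℓ S hS
  have hall := centre_dichotomy hd hF hG hℓ hQ hQS
  rcases hrec (FS F p) (FS_hom hd hF hG hℓ hS hp) (FS_coe hd hG hℓ hS hp) _
    (restr_MQ hd hF hG hℓ hS hp hC hpC hQ hall) with h | h
  · exact Or.inl (restr_Iso hd hF hG hℓ hS hp hC hpC hQ hall h)
  · exact Or.inr ⟨fun q hq => (hS q).2 (hall q hq), h⟩

end

/-- the main theorem for cones -/
theorem iso_of_flag (d : ℕ) (hd : 2 ≤ d) (n : ℕ) : ∀ {V : Type} [NormedAddCommGroup V]
    [NormedSpace ℂ V] [FiniteDimensional ℂ V] (F : V → V) (L : ℕ → Submodule ℂ V),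
    HomMap d F → Flag F n L → ∀ Q, MQ F Q → Iso F Q ∨ ∀ q ∈ Q, q ∈ L n := by
  induction n with
  | zero =>
    intro V _ _ _ F L hF hL Q hQ
    right
    intro q hq
    rw [hL.top]
    exact Submodule.mem_top
  | succ n ih =>
    intro V _ _ _ F L hF hL Q hQ
    have hfib0 : ∀ v, ∀ w ∈ L 1, F (v + w) - F v ∈ L 1 := fun v w hw =>
      hL.fib 0 (by omega) v (by rw [hL.top]; exact Submodule.mem_top) w hw
    have hinv0 : ∀ v, F v ∈ L 1 → v ∈ L 1 := fun v hv =>
      hL.inv 0 (by omega) v (by rw [hL.top]; exact Submodule.mem_top) hv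
    have hle1 : ∀ i, i ≤ n → L (i + 1) ≤ L 1 := by
      intro i hi
      induction i with
      | zero => exact le_rfl
      | succ i ihi => exact (hL.anti (i + 1) (by omega)).trans (ihi (by omega))
    -- recursion on `L 1`
    have hrec : ∀ F' : L 1 → L 1, HomMap d F' → (∀ s : L 1, ((F' s : L 1) : V) = F s) →
        ∀ Q' : Set (L 1), MQ F' Q' → Iso F' Q' ∨ ∀ q ∈ Q', (q : V) ∈ L (n + 1) := by
      intro F' hF' hFF' Q' hQ'
      have hfl : Flag F' n (fun i => (L (i + 1)).comap (L 1).subtype) := by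
        refine ⟨?_, ?_, ?_, ?_, ?_⟩
        · rw [Submodule.comap_subtype_self]
        · intro i hi s hs
          exact hL.anti (i + 1) (by omega) hs
        · intro i hi
          have h1 := hL.codim (i + 1) (by omega)
          rw [(Submodule.comapSubtypeEquivOfLe (hle1 i (by omega))).finrank_eq,
            (Submodule.comapSubtypeEquivOfLe (hle1 (i + 1) (by omega))).finrank_eq]
          exact h1
        · intro i hi v hv w hw
          show ((F' (v + w) - F' v : L 1) : V) ∈ L (i + 1 + 1)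
          rw [Submodule.coe_sub, hFF', hFF', Submodule.coe_add]
          exact hL.fib (i + 1) (by omega) v hv w hw
        · intro i hi v hv hFv
          have h1 : ((F' v : L 1) : V) ∈ L (i + 1 + 1) := hFv
          rw [hFF'] at h1
          exact hL.inv (i + 1) (by omega) v hv h1
      exact ih F' _ hF' hfl Q' hQ'
    have hfin : ∀ Q' : Set V, (∀ q ∈ Q', q ∈ L 1) →
        (∀ q ∈ {s : L 1 | (s : V) ∈ Q'}, (q : V) ∈ L (n + 1)) → ∀ q ∈ Q', q ∈ L (n + 1) :=
      fun Q' h1 h2 q hq => h2 ⟨q, h1 q hq⟩ hq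
    -- the codimension
    have hcod : finrank ℂ (V ⧸ L 1) ≤ 2 := by
      have h1 := hL.codim 0 (by omega)
      rw [hL.top, finrank_top] at h1
      have h2 := Submodule.finrank_quotient_add_finrank (L 1)
      have h1' : finrank ℂ V ≤ finrank ℂ (L 1) + 2 := h1
      omega
    have hker : ∀ {B : Type} [NormedAddCommGroup B] [NormedSpace ℂ B] [FiniteDimensional ℂ B],
        finrank ℂ (V ⧸ L 1) = finrank ℂ B → ∃ ℓ : V →L[ℂ] B, Function.Surjective ℓ ∧
          ∀ v, v ∈ L 1 ↔ ℓ v = 0 := by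
      intro B _ _ _ h
      obtain ⟨e⟩ := FiniteDimensional.nonempty_linearEquiv_of_finrank_eq h
      refine ⟨LinearMap.toContinuousLinearMap (e.toLinearMap.comp (L 1).mkQ), ?_, ?_⟩
      · intro x
        obtain ⟨y, hy⟩ := e.surjective x
        obtain ⟨v, hv⟩ := (L 1).mkQ_surjective y
        exact ⟨v, by
          show e ((L 1).mkQ v) = x
          rw [hv, hy]⟩
      · intro v
        show _ ↔ e ((L 1).mkQ v) = 0
        rw [LinearEquiv.map_eq_zero_iff, Submodule.mkQ_apply, Submodule.Quotient.mk_eq_zero]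
    have hcases : finrank ℂ (V ⧸ L 1) = 0 ∨ finrank ℂ (V ⧸ L 1) = 1 ∨
        finrank ℂ (V ⧸ L 1) = 2 := by omega
    rcases hcases with h | h | h
    · -- trivial step
      have hS : ∀ v, v ∈ L 1 ↔ (0 : V →L[ℂ] ℂ) v = 0 := by
        intro v
        have h1 : Subsingleton (V ⧸ L 1) := Module.finrank_zero_iff.1 h
        have h2 : L 1 = ⊤ := Submodule.Quotient.subsingleton_iff.1 h1
        rw [h2]
        simp
      have hG : HomMap d (fun z : ℂ => z ^ d) := by
        refine ⟨differentiable_id.pow d, ?_, ?_⟩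
        · intro c z
          simp [mul_pow]
        · intro z hz
          exact pow_eq_zero_iff (by omega) |>.1 hz
      obtain ⟨q, hq⟩ := hQ.ne
      rcases iso_step hF hd hG (ℓ := (0 : V →L[ℂ] ℂ)) (fun v => by
        show (0 : ℂ) = 0 ^ d
        rw [zero_pow (by omega)]) hS hQ
        ⟨q, hq, rfl⟩ _ hrec with h1 | h1
      · exact Or.inl h1
      · exact Or.inr (hfin Q h1.1 h1.2)
    · obtain ⟨ℓ, hsurj, hS⟩ := hker (B := ℂ) (by rw [h, Module.finrank_self])
      obtain ⟨G, hG, hℓ⟩ := exists_base hF (L 1) ℓ hsurj hS hfib0 hinv0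
      by_cases hQS : ∃ q ∈ Q, ℓ q = 0
      · rcases iso_step hF hd hG hℓ hS hQ hQS _ hrec with h1 | h1
        · exact Or.inl h1
        · exact Or.inr (hfin Q h1.1 h1.2)
      · push Not at hQS
        exact Or.inl (iso_of_hyperplane hF (by omega) hQ ℓ hQS)
    · obtain ⟨ℓ, hsurj, hS⟩ := hker (B := ℂ × ℂ) (by rw [h]; simp)
      obtain ⟨G, hG, hℓ⟩ := exists_base hF (L 1) ℓ hsurj hS hfib0 hinv0
      by_cases hQS : ∃ q ∈ Q, ℓ q = 0
      · rcases iso_step hF hd hG hℓ hS hQ hQS _ hrec with h1 | h1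
        · exact Or.inl h1
        · exact Or.inr (hfin Q h1.1 h1.2)
      · push Not at hQS
        left
        by_cases hall : ∀ x : ℂ × ℂ, x ≠ 0 → ∃ q ∈ Q, ℓ q = x
        · exact iso_of_surj hF hd hG hℓ hsurj hQ hQS hall
        · push Not at hall
          obtain ⟨x, hx, hxQ⟩ := hall
          set φ : V →L[ℂ] ℂ := x.1 • (ContinuousLinearMap.snd ℂ ℂ ℂ).comp ℓ -
            x.2 • (ContinuousLinearMap.fst ℂ ℂ ℂ).comp ℓ with hφ
          have hφ' : ∀ v, φ v = wd x (ℓ v) := by
            intro v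
            simp [hφ, wd]
          apply iso_of_hyperplane hF (by omega) hQ φ
          intro q hq h0
          rw [hφ'] at h0
          -- `ℓ q` is a multiple of `x`
          obtain ⟨c, hc⟩ : ∃ c : ℂ, ℓ q = c • x := by
            unfold wd at h0
            by_cases h1 : x.1 = 0
            · have h2 : x.2 ≠ 0 := fun h2 => hx (Prod.ext h1 h2)
              refine ⟨(ℓ q).2 / x.2, ?_⟩
              apply Prod.ext
              · rw [Prod.smul_fst, h1, smul_zero]
                rw [h1, zero_mul, zero_sub, neg_eq_zero, mul_eq_zero] at h0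
                exact h0.resolve_left h2
              · rw [Prod.smul_snd, smul_eq_mul, div_mul_cancel₀ _ h2]
            · refine ⟨(ℓ q).1 / x.1, ?_⟩
              apply Prod.ext
              · rw [Prod.smul_fst, smul_eq_mul, div_mul_cancel₀ _ h1]
              · rw [Prod.smul_snd, smul_eq_mul]
                field_simp
                linear_combination h0
          have hc0 : c ≠ 0 := by
            rintro rfl
            rw [zero_smul] at hc
            exact hQS q hq hc
          apply hxQ (c⁻¹ • q) (hQ.cone _ (inv_ne_zero hc0) q hq)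
          rw [map_smul, hc, smul_smul, inv_mul_cancel₀ hc0, one_smul]

end Run7.h644
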