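import Mathlib

/-!
A Green identity for truncated powers of holomorphic functions on the plane.
-/

set_option autoImplicit false
set_option linter.unusedSectionVars false
open Set Filter Topology Metric MeasureTheory
open scoped ComplexConjugate

namespace Run7.h644

/-- powers of the positive part -/
noncomputable def pp (n : ℕ) (s : ℝ) : ℝ := (max s 0) ^ n

theorem pp_nonneg (n : ℕ) (s : ℝ) : 0 ≤ pp n s := pow_nonneg (le_max_right _ _) _

theorem pp_of_nonpos (n : ℕ) {s : ℝ} (hs : s ≤ 0) : pp (n + 1) s = 0 := by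
  unfold pp
  rw [max_eq_right hs, zero_pow (by omega)]

theorem pp_of_nonneg (n : ℕ) {s : ℝ} (hs : 0 ≤ s) : pp n s = s ^ n := by
  unfold pp
  rw [max_eq_left hs]

theorem pp_cont (n : ℕ) : Continuous (pp n) := by
  unfold pp
  fun_prop

theorem pp_succ (n : ℕ) (s : ℝ) : pp (n + 1) s = pp n s * max s 0 := pow_succ _ _

theorem pp_hasDerivAt (n : ℕ) (s : ℝ) :
    HasDerivAt (pp (n + 2)) (((n : ℝ) + 2) * pp (n + 1) s) s := by
  rcases lt_trichotomy s 0 with h | h | h
  · rw [pp_of_nonpos n h.le, mul_zero]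
    refine (hasDerivAt_const s (0 : ℝ)).congr_of_eventuallyEq ?_
    filter_upwards [Iio_mem_nhds h] with t ht
    exact pp_of_nonpos (n + 1) (le_of_lt ht)
  · subst h
    rw [pp_of_nonpos n le_rfl, mul_zero, hasDerivAt_iff_isLittleO]
    simp only [smul_zero, sub_zero, pp_of_nonpos (n + 1) le_rfl]
    rw [Asymptotics.isLittleO_iff]
    intro c hc
    have h1 : ∀ᶠ t : ℝ in 𝓝 0, |t| ≤ min c 1 := by
      have : (fun t : ℝ => |t|) ⁻¹' (Iic (min c 1)) ∈ 𝓝 (0 : ℝ) := by
        apply continuous_abs.continuousAt.preimage_mem_nhds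
        apply Iic_mem_nhds
        simpa using hc
      exact this
    filter_upwards [h1] with t ht
    have ht1 : |t| ≤ c := ht.trans (min_le_left _ _)
    have ht2 : |t| ≤ 1 := ht.trans (min_le_right _ _)
    have hm : max t 0 ≤ |t| := max_le (le_abs_self t) (abs_nonneg t)
    have hm0 : 0 ≤ max t 0 := le_max_right _ _
    rw [Real.norm_of_nonneg (pp_nonneg _ _), Real.norm_eq_abs]
    calc pp (n + 2) t ≤ |t| ^ (n + 2) := pow_le_pow_left₀ hm0 hm _
      _ = |t| ^ n * |t| * |t| := by ring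
      _ ≤ 1 * c * |t| := by
          gcongr
          exact pow_le_one₀ (abs_nonneg t) ht2
      _ = c * |t| := by ring
  · rw [pp_of_nonneg (n + 1) h.le]
    have h1 : HasDerivAt (fun t : ℝ => t ^ (n + 2)) (((n : ℝ) + 2) * s ^ (n + 1)) s := by
      simpa using hasDerivAt_pow (n + 2) s
    refine h1.congr_of_eventuallyEq ?_
    filter_upwards [Ioi_mem_nhds h] with t ht
    exact pp_of_nonneg (n + 2) (le_of_lt ht)

section lines

/-- restriction of a holomorphic function to a real line -/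
theorem line_hol {w : ℂ → ℂ} {w' z : ℂ} (h : HasDerivAt w w' z) (e : ℂ) :
    HasDerivAt (fun t : ℝ => w (z + t • e)) (w' * e) 0 := by
  have h1 : HasDerivAt (fun t : ℝ => z + t • e) e 0 := by
    have h2 : HasDerivAt (fun t : ℝ => z + t • e) (0 + (1 : ℝ) • e) 0 :=
      (hasDerivAt_const (0 : ℝ) z).add ((hasDerivAt_id (0 : ℝ)).smul_const e)
    simpa using h2
  have h3 : HasDerivAt w w' ((fun t : ℝ => z + t • e) 0) := by simpa using h
  exact h3.comp (0 : ℝ) h1

theorem line_normSq {w : ℂ → ℂ} {w' z : ℂ} (h : HasDerivAt w w' z) (c e : ℂ) :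
    HasLineDerivAt ℝ (fun z => ‖w z - c‖ ^ 2) (2 * (conj (w z - c) * (w' * e)).re) z e := by
  have h1 := ((line_hol h e).sub_const c).norm_sq
  rw [Complex.inner] at h1
  unfold HasLineDerivAt
  have h2 : 2 * (w' * e * conj (w (z + (0 : ℝ) • e) - c)).re =
      2 * (conj (w z - c) * (w' * e)).re := by
    rw [zero_smul, add_zero, mul_comm (w' * e)]
  rw [h2] at h1
  exact h1

theorem line_re {w v : ℂ → ℂ} {w' v' z : ℂ} (h : HasDerivAt w w' z) (hv : HasDerivAt v v' z)
    (c e : ℂ) :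
    HasLineDerivAt ℝ (fun z => 2 * (conj (w z - c) * (v z * e)).re)
      (2 * (conj (w' * e) * (v z * e) + conj (w z - c) * (v' * e * e)).re) z e := by
  have h1 := ((line_hol h e).sub_const c)
  have h2 : HasDerivAt (fun t : ℝ => conj (w (z + t • e) - c)) (conj (w' * e)) 0 :=
    h1.star
  have h3 := (line_hol hv e).mul_const e
  have h4 := (h2.mul h3)
  have h5 : HasDerivAt (fun t : ℝ => (conj (w (z + t • e) - c) * (v (z + t • e) * e)).re)
      ((conj (w' * e) * (v (z + (0 : ℝ) • e) * e) +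
        conj (w (z + (0 : ℝ) • e) - c) * (v' * e * e)).re) 0 :=
    (Complex.reCLM.hasFDerivAt.comp_hasDerivAt (0 : ℝ) h4)
  have h6 := h5.const_mul 2
  simpa [HasLineDerivAt] using h6

end lines

section green

/-- a single direction -/
theorem green_dir {χ χ1 χ2 g g1 g2 : ℂ → ℝ} {e : ℂ} {K U : Set ℂ} (hK : IsCompact K)
    (hU : IsOpen U) (hKU : K ⊆ U)
    (k0 : ∀ z ∉ K, χ z = 0) (k1 : ∀ z ∉ K, χ1 z = 0) (k2 : ∀ z ∉ K, χ2 z = 0)
    (d1 : ∀ z, HasLineDerivAt ℝ χ (χ1 z) z e) (d2 : ∀ z, HasLineDerivAt ℝ χ1 (χ2 z) z e)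
    (c0 : Continuous χ) (c1 : Continuous χ1) (c2 : Continuous χ2)
    (e1 : ∀ z ∈ U, HasLineDerivAt ℝ g (g1 z) z e) (e2 : ∀ z ∈ U, HasLineDerivAt ℝ g1 (g2 z) z e)
    (f0 : ContinuousOn g U) (f1 : ContinuousOn g1 U) (f2 : ContinuousOn g2 U) :
    Integrable (fun z => χ z * g2 z) ∧ Integrable (fun z => χ2 z * g z) ∧
      ∫ z, χ z * g2 z = ∫ z, χ2 z * g z := by
  have hint : ∀ a b : ℂ → ℝ, (∀ z ∉ K, a z = 0) → Continuous a → ContinuousOn b U →
      Integrable (fun z => a z * b z) := by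
    intro a b ha hca hcb
    have hcont : Continuous (fun z => a z * b z) := by
      rw [continuous_iff_continuousAt]
      intro z
      by_cases hz : z ∈ K
      · exact hca.continuousAt.mul (hcb.continuousAt (hU.mem_nhds (hKU hz)))
      · have h1 : (fun z => a z * b z) =ᶠ[𝓝 z] fun _ => 0 := by
          filter_upwards [hK.isClosed.isOpen_compl.mem_nhds hz] with t ht
          rw [ha t ht, zero_mul]
        exact h1.continuousAt
    apply hcont.integrable_of_hasCompactSupport
    apply HasCompactSupport.intro hK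
    intro z hz
    rw [ha z hz, zero_mul]
  have hts : ∀ a : ℂ → ℝ, (∀ z ∉ K, a z = 0) → tsupport a ⊆ U := by
    intro a ha
    refine subset_trans (closure_minimal ?_ hK.isClosed) hKU
    intro z hz
    by_contra hcon
    exact hz (ha z hcon)
  have i1 := hint χ g2 k0 c0 f2
  have i2 := hint χ2 g k2 c2 f0
  have i3 := hint χ1 g1 k1 c1 f1
  have i4 := hint χ g1 k0 c0 f1
  have i5 := hint χ1 g k1 c1 f0
  refine ⟨i1, i2, ?_⟩
  have s1 : ∫ z, χ z * g2 z = - ∫ z, χ1 z * g1 z :=
    integral_bilinear_hasLineDerivAt_right_eq_neg_left_of_integrable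
      (B := ContinuousLinearMap.mul ℝ ℝ) (v := e) i3 i1 i4 (fun z _ => d1 z)
      (fun z hz => e2 z (hts χ k0 hz))
  have s2 : ∫ z, χ1 z * g1 z = - ∫ z, χ2 z * g z :=
    integral_bilinear_hasLineDerivAt_right_eq_neg_left_of_integrable
      (B := ContinuousLinearMap.mul ℝ ℝ) (v := e) i2 i3 i5 (fun z _ => d2 z)
      (fun z hz => e1 z (hts χ1 k1 hz))
  rw [s1, s2, neg_neg]

end green

section power

variable (S : Set ℂ) (w : ℂ → ℂ) (c : ℂ) (R : ℝ) (n : ℕ)

/-- the defining function -/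
noncomputable def xi (z : ℂ) : ℝ := R ^ 2 - ‖w z - c‖ ^ 2

/-- the truncated power -/
noncomputable def h0 : ℂ → ℝ := S.indicator fun z => pp (n + 3) (xi w c R z)

/-- its first derivative in direction `e` -/
noncomputable def h1 (e : ℂ) : ℂ → ℝ := S.indicator fun z =>
  ((n : ℝ) + 3) * pp (n + 2) (xi w c R z) * (-(2 * (conj (w z - c) * (deriv w z * e)).re))

/-- its second derivative in direction `e` -/
noncomputable def h2 (e : ℂ) : ℂ → ℝ := S.indicator fun z =>
  ((n : ℝ) + 3) * (((n : ℝ) + 2) * pp (n + 1) (xi w c R z) *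
      (-(2 * (conj (w z - c) * (deriv w z * e)).re)) ^ 2 +
    pp (n + 2) (xi w c R z) * (-(2 * (conj (deriv w z * e) * (deriv w z * e) +
      conj (w z - c) * (deriv (deriv w) z * e * e)).re)))

/-- the Laplacian -/
noncomputable def hL : ℂ → ℝ := S.indicator fun z =>
  4 * ((n : ℝ) + 3) * ‖deriv w z‖ ^ 2 *
    (((n : ℝ) + 2) * pp (n + 1) (xi w c R z) * ‖w z - c‖ ^ 2 - pp (n + 2) (xi w c R z))

variable {S w c R n}

theorem h2_sum (z : ℂ) : h2 S w c R n 1 z + h2 S w c R n Complex.I z = hL S w c R n z := by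
  unfold h2 hL
  by_cases hz : z ∈ S
  · simp only [indicator_of_mem hz]
    set a : ℂ := conj (w z - c) * deriv w z with ha
    set D : ℂ := deriv w z with hD
    have e1 : (conj (w z - c) * (D * 1)).re = a.re := by rw [mul_one]
    have e2 : (conj (w z - c) * (D * Complex.I)).re = -a.im := by
      rw [← mul_assoc, ← ha, Complex.mul_I_re]
    have e3 : a.re ^ 2 + a.im ^ 2 = ‖w z - c‖ ^ 2 * ‖D‖ ^ 2 := by
      have : ‖a‖ = ‖w z - c‖ * ‖D‖ := by rw [ha, norm_mul, RCLike.norm_conj]
      rw [← mul_pow, ← this, Complex.sq_norm, Complex.normSq_apply]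
      ring
    set b : ℂ := conj (w z - c) * deriv (deriv w) z with hb
    have e4 : (conj (D * 1) * (D * 1) + conj (w z - c) * (deriv (deriv w) z * 1 * 1)).re =
        ‖D‖ ^ 2 + b.re := by
      rw [mul_one, mul_one, mul_one, ← hb, Complex.add_re, mul_comm (conj D), Complex.mul_conj,
        Complex.ofReal_re, Complex.sq_norm]
    have e5 : (conj (D * Complex.I) * (D * Complex.I) +
        conj (w z - c) * (deriv (deriv w) z * Complex.I * Complex.I)).re =
        ‖D‖ ^ 2 - b.re := by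
      have h6 : deriv (deriv w) z * Complex.I * Complex.I = -deriv (deriv w) z := by
        rw [mul_assoc, Complex.I_mul_I]
        ring
      rw [h6, mul_neg, ← hb, Complex.add_re, mul_comm (conj _), Complex.mul_conj,
        Complex.ofReal_re, Complex.normSq_mul, Complex.normSq_I, mul_one, Complex.sq_norm,
        Complex.neg_re]
      ring
    rw [e1, e2, e4, e5]
    linear_combination (4 * ((n : ℝ) + 3) * ((n : ℝ) + 2) * pp (n + 1) (xi w c R z)) * e3
  · simp [indicator_of_notMem hz]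

theorem xi_line {z : ℂ} {w' : ℂ} (h : HasDerivAt w w' z) (e : ℂ) :
    HasLineDerivAt ℝ (xi w c R) (-(2 * (conj (w z - c) * (w' * e)).re)) z e := by
  have h1 := line_normSq h c e
  unfold HasLineDerivAt at h1 ⊢
  exact h1.const_sub (R ^ 2)

theorem pp_xi_line {z : ℂ} {w' : ℂ} (h : HasDerivAt w w' z) (e : ℂ) (m : ℕ) :
    HasLineDerivAt ℝ (fun z => pp (m + 2) (xi w c R z))
      (((m : ℝ) + 2) * pp (m + 1) (xi w c R z) * (-(2 * (conj (w z - c) * (w' * e)).re))) z e := by
  have h1 := xi_line (c := c) (R := R) h e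
  unfold HasLineDerivAt at h1 ⊢
  have h2 : HasDerivAt (pp (m + 2)) (((m : ℝ) + 2) * pp (m + 1) (xi w c R z))
      ((fun t : ℝ => xi w c R (z + t • e)) 0) := by
    simpa using pp_hasDerivAt m (xi w c R z)
  exact h2.comp (0 : ℝ) h1

variable {U : Set ℂ}

theorem indic_zero {f : ℂ → ℝ} {z : ℂ} (h : ∀ᶠ z' in 𝓝 z, z' ∈ S → f z' = 0) :
    S.indicator f =ᶠ[𝓝 z] fun _ => 0 := by
  filter_upwards [h] with z' hz'
  by_cases hs : z' ∈ S
  · rw [indicator_of_mem hs, hz' hs]
  · rw [indicator_of_notMem hs]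

theorem indic_eq (hS : IsOpen S) {f : ℂ → ℝ} {z : ℂ} (h : z ∈ S) :
    S.indicator f =ᶠ[𝓝 z] f := by
  filter_upwards [hS.mem_nhds h] with z' hz'
  rw [indicator_of_mem hz']

theorem line_congr {f g : ℂ → ℝ} {z e : ℂ} {a : ℝ} (h : f =ᶠ[𝓝 z] g)
    (hg : HasLineDerivAt ℝ g a z e) : HasLineDerivAt ℝ f a z e := by
  unfold HasLineDerivAt at hg ⊢
  refine hg.congr_of_eventuallyEq ?_
  have h1 : ContinuousAt (fun t : ℝ => z + t • e) 0 := by fun_prop
  have h2 : Tendsto (fun t : ℝ => z + t • e) (𝓝 0) (𝓝 z) := by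
    have := h1.tendsto
    simpa using this
  exact h2.eventually h

theorem line_zero {z e : ℂ} : HasLineDerivAt ℝ (fun _ : ℂ => (0 : ℝ)) 0 z e := by
  unfold HasLineDerivAt
  exact hasDerivAt_const (0 : ℝ) (0 : ℝ)

theorem h0_line (hS : IsOpen S) (hw : DifferentiableOn ℂ w S)
    {z : ℂ} (hZ : z ∉ S → ∀ᶠ z' in 𝓝 z, z' ∈ S → xi w c R z' ≤ 0) (e : ℂ) :
    HasLineDerivAt ℝ (h0 S w c R n) (h1 S w c R n e z) z e := by
  by_cases hz : z ∈ S
  · have hd : HasDerivAt w (deriv w z) z := (hw.differentiableAt (hS.mem_nhds hz)).hasDerivAt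
    apply line_congr (indic_eq hS hz)
    unfold h1
    rw [indicator_of_mem hz]
    have h3 := pp_xi_line (c := c) (R := R) hd e (n + 1)
    refine HasDerivAt.congr_deriv h3 ?_
    push_cast
    ring
  · have h2 : h1 S w c R n e z = 0 := by
      unfold h1
      rw [indicator_of_notMem hz]
    rw [h2]
    apply line_congr _ line_zero
    apply indic_zero
    filter_upwards [hZ hz] with z' hz' hs
    exact pp_of_nonpos (n + 2) (hz' hs)

theorem h1_line (hS : IsOpen S) (hw : DifferentiableOn ℂ w S)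
    {z : ℂ} (hZ : z ∉ S → ∀ᶠ z' in 𝓝 z, z' ∈ S → xi w c R z' ≤ 0) (e : ℂ) :
    HasLineDerivAt ℝ (h1 S w c R n e) (h2 S w c R n e z) z e := by
  by_cases hz : z ∈ S
  · have hd : HasDerivAt w (deriv w z) z := (hw.differentiableAt (hS.mem_nhds hz)).hasDerivAt
    have hw' : DifferentiableOn ℂ (deriv w) S := hw.deriv hS
    have hd' : HasDerivAt (deriv w) (deriv (deriv w) z) z :=
      (hw'.differentiableAt (hS.mem_nhds hz)).hasDerivAt
    apply line_congr (indic_eq hS hz)
    unfold h2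
    rw [indicator_of_mem hz]
    have h3 := pp_xi_line (c := c) (R := R) hd e n
    have h4 := line_re hd hd' c e
    unfold HasLineDerivAt at h3 h4 ⊢
    have h5 := ((h3.const_mul ((n : ℝ) + 3)).mul h4.neg)
    refine HasDerivAt.congr_deriv h5 ?_
    simp only [zero_smul, add_zero, Pi.neg_apply]
    ring
  · have h3 : h2 S w c R n e z = 0 := by
      unfold h2
      rw [indicator_of_notMem hz]
    rw [h3]
    apply line_congr _ line_zero
    apply indic_zero
    filter_upwards [hZ hz] with z' hz' hs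
    rw [pp_of_nonpos (n + 1) (hz' hs)]
    ring

theorem xi_cont {z : ℂ} (hw : ContinuousAt w z) : ContinuousAt (xi w c R) z := by
  unfold xi
  fun_prop

theorem h0_cont (hS : IsOpen S) (hw : DifferentiableOn ℂ w S)
    {z : ℂ} (hZ : z ∉ S → ∀ᶠ z' in 𝓝 z, z' ∈ S → xi w c R z' ≤ 0) :
    ContinuousAt (h0 S w c R n) z := by
  by_cases hz : z ∈ S
  · apply ContinuousAt.congr _ (indic_eq hS hz).symm
    exact (pp_cont _).continuousAt.comp
      (xi_cont (hw.differentiableAt (hS.mem_nhds hz)).continuousAt)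
  · have : h0 S w c R n =ᶠ[𝓝 z] fun _ => 0 := by
      apply indic_zero
      filter_upwards [hZ hz] with z' hz' hs
      exact pp_of_nonpos (n + 2) (hz' hs)
    exact this.continuousAt

theorem h1_cont (hS : IsOpen S) (hw : DifferentiableOn ℂ w S)
    {z : ℂ} (hZ : z ∉ S → ∀ᶠ z' in 𝓝 z, z' ∈ S → xi w c R z' ≤ 0) (e : ℂ) :
    ContinuousAt (h1 S w c R n e) z := by
  by_cases hz : z ∈ S
  · apply ContinuousAt.congr _ (indic_eq hS hz).symm
    have hwc : ContinuousAt w z := (hw.differentiableAt (hS.mem_nhds hz)).continuousAt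
    have hw' : DifferentiableOn ℂ (deriv w) S := hw.deriv hS
    have hwc' : ContinuousAt (deriv w) z := (hw'.differentiableAt (hS.mem_nhds hz)).continuousAt
    have h3 : ContinuousAt (fun z => pp (n + 2) (xi w c R z)) z :=
      (pp_cont _).continuousAt.comp (xi_cont hwc)
    fun_prop
  · have : h1 S w c R n e =ᶠ[𝓝 z] fun _ => 0 := by
      apply indic_zero
      filter_upwards [hZ hz] with z' hz' hs
      rw [pp_of_nonpos (n + 1) (hz' hs)]
      ring
    exact this.continuousAt

theorem h2_cont (hS : IsOpen S) (hw : DifferentiableOn ℂ w S)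
    {z : ℂ} (hZ : z ∉ S → ∀ᶠ z' in 𝓝 z, z' ∈ S → xi w c R z' ≤ 0) (e : ℂ) :
    ContinuousAt (h2 S w c R n e) z := by
  by_cases hz : z ∈ S
  · apply ContinuousAt.congr _ (indic_eq hS hz).symm
    have hwc : ContinuousAt w z := (hw.differentiableAt (hS.mem_nhds hz)).continuousAt
    have hw' : DifferentiableOn ℂ (deriv w) S := hw.deriv hS
    have hwc' : ContinuousAt (deriv w) z := (hw'.differentiableAt (hS.mem_nhds hz)).continuousAt
    have hw'' : DifferentiableOn ℂ (deriv (deriv w)) S := hw'.deriv hS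
    have hwc'' : ContinuousAt (deriv (deriv w)) z :=
      (hw''.differentiableAt (hS.mem_nhds hz)).continuousAt
    have h3 : ContinuousAt (fun z => pp (n + 2) (xi w c R z)) z :=
      (pp_cont _).continuousAt.comp (xi_cont hwc)
    have h4 : ContinuousAt (fun z => pp (n + 1) (xi w c R z)) z :=
      (pp_cont _).continuousAt.comp (xi_cont hwc)
    fun_prop
  · have : h2 S w c R n e =ᶠ[𝓝 z] fun _ => 0 := by
      apply indic_zero
      filter_upwards [hZ hz] with z' hz' hs
      rw [pp_of_nonpos n (hz' hs), pp_of_nonpos (n + 1) (hz' hs)]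
      ring
    exact this.continuousAt

/-- the cutoff function on the plane -/
noncomputable def chi : ℂ → ℝ := h0 univ id 0 1 0

/-- its Laplacian -/
noncomputable def chiL : ℂ → ℝ := hL univ id 0 1 0

theorem chi_eq (z : ℂ) : chi z = pp 3 (1 - ‖z‖ ^ 2) := by
  simp [chi, h0, xi]

theorem chi_nonneg (z : ℂ) : 0 ≤ chi z := by
  rw [chi_eq]
  exact pp_nonneg _ _

theorem green_power (hU : IsOpen U) (hKU : closedBall (0 : ℂ) 1 ⊆ U) (hS : IsOpen S)
    (hw : DifferentiableOn ℂ w S)
    (hZ : ∀ z ∈ U, z ∉ S → ∀ᶠ z' in 𝓝 z, z' ∈ S → xi w c R z' ≤ 0) :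
    Integrable (fun z => chi z * hL S w c R n z) ∧
      Integrable (fun z => chiL z * h0 S w c R n z) ∧
      ∫ z, chi z * hL S w c R n z = ∫ z, chiL z * h0 S w c R n z := by
  have hd : ∀ z : ℂ, z ∉ (univ : Set ℂ) → ∀ᶠ z' in 𝓝 z, z' ∈ (univ : Set ℂ) →
      xi id 0 1 z' ≤ 0 := fun z hz => absurd (mem_univ z) hz
  have hwi : DifferentiableOn ℂ (id : ℂ → ℂ) univ := differentiableOn_id
  have hxi : ∀ z ∉ closedBall (0 : ℂ) 1, xi id 0 1 z ≤ 0 := by
    intro z hz
    rw [mem_closedBall_zero_iff, not_le] at hz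
    unfold xi
    simp only [id, sub_zero]
    nlinarith
  have k0 : ∀ z ∉ closedBall (0 : ℂ) 1, h0 univ id 0 1 0 z = 0 := by
    intro z hz
    unfold h0
    rw [indicator_univ]
    exact pp_of_nonpos 2 (hxi z hz)
  have k1 : ∀ e : ℂ, ∀ z ∉ closedBall (0 : ℂ) 1, h1 univ id 0 1 0 e z = 0 := by
    intro e z hz
    unfold h1
    rw [indicator_univ]
    simp only [zero_add, pp_of_nonpos 1 (hxi z hz), mul_zero, zero_mul]
  have k2 : ∀ e : ℂ, ∀ z ∉ closedBall (0 : ℂ) 1, h2 univ id 0 1 0 e z = 0 := by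
    intro e z hz
    unfold h2
    rw [indicator_univ]
    simp only [zero_add, pp_of_nonpos 1 (hxi z hz), pp_of_nonpos 0 (hxi z hz), mul_zero, zero_mul,
      add_zero]
  have key := fun e : ℂ => green_dir (e := e) (isCompact_closedBall (0 : ℂ) 1) hU hKU k0 (k1 e)
    (k2 e) (fun z => h0_line isOpen_univ hwi (hd z) e)
    (fun z => h1_line isOpen_univ hwi (hd z) e)
    (continuous_iff_continuousAt.2 fun z => h0_cont isOpen_univ hwi (hd z))
    (continuous_iff_continuousAt.2 fun z => h1_cont isOpen_univ hwi (hd z) e)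
    (continuous_iff_continuousAt.2 fun z => h2_cont isOpen_univ hwi (hd z) e)
    (g := h0 S w c R n) (g1 := h1 S w c R n e) (g2 := h2 S w c R n e)
    (fun z hz => h0_line hS hw (hZ z hz) e)
    (fun z hz => h1_line hS hw (hZ z hz) e)
    (fun z hz => (h0_cont hS hw (hZ z hz)).continuousWithinAt)
    (fun z hz => (h1_cont hS hw (hZ z hz) e).continuousWithinAt)
    (fun z hz => (h2_cont hS hw (hZ z hz) e).continuousWithinAt)
  obtain ⟨a1, a2, a3⟩ := key 1
  obtain ⟨b1, b2, b3⟩ := key Complex.I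
  have e1 : (fun z => chi z * hL S w c R n z) = fun z =>
      h0 univ id 0 1 0 z * h2 S w c R n 1 z + h0 univ id 0 1 0 z * h2 S w c R n Complex.I z := by
    funext z
    rw [← h2_sum]
    unfold chi
    ring
  have e2 : (fun z => chiL z * h0 S w c R n z) = fun z =>
      h2 univ id 0 1 0 1 z * h0 S w c R n z + h2 univ id 0 1 0 Complex.I z * h0 S w c R n z := by
    funext z
    unfold chiL
    rw [← h2_sum]
    ring
  rw [e1, e2]
  refine ⟨a1.add b1, a2.add b2, ?_⟩
  rw [integral_add a1 b1, integral_add a2 b2, a3, b3]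

theorem chiL_int : Integrable chiL := by
  have hd : ∀ z : ℂ, z ∉ (univ : Set ℂ) → ∀ᶠ z' in 𝓝 z, z' ∈ (univ : Set ℂ) →
      xi id 0 1 z' ≤ 0 := fun z hz => absurd (mem_univ z) hz
  have hwi : DifferentiableOn ℂ (id : ℂ → ℂ) univ := differentiableOn_id
  have hc : Continuous chiL := by
    have : chiL = fun z => h2 univ id 0 1 0 1 z + h2 univ id 0 1 0 Complex.I z := by
      funext z
      rw [h2_sum]
      rfl
    rw [this]
    exact (continuous_iff_continuousAt.2 fun z => h2_cont isOpen_univ hwi (hd z) 1).add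
      (continuous_iff_continuousAt.2 fun z => h2_cont isOpen_univ hwi (hd z) Complex.I)
  apply hc.integrable_of_hasCompactSupport
  apply HasCompactSupport.intro (isCompact_closedBall (0 : ℂ) 1)
  intro z hz
  rw [mem_closedBall_zero_iff, not_le] at hz
  have hxi : xi id 0 1 z ≤ 0 := by
    unfold xi
    simp only [id, sub_zero]
    nlinarith
  unfold chiL hL
  rw [indicator_univ]
  simp only [zero_add, pp_of_nonpos 1 hxi, pp_of_nonpos 0 hxi, mul_zero, zero_mul, sub_zero]

end power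

end Run7.h644
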