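import Pool.Agent.Run7.h644.Green
import Pool.Agent.Run7.h644.Basic

/-!
Growth of the spherical area of homogeneous maps of the plane of dimension two.
-/

set_option autoImplicit false
set_option linter.unusedSectionVars false
open Set Filter Topology Metric MeasureTheory
open scoped ENNReal ComplexConjugate

namespace Run7.h644

/-- squared euclidean norm -/
noncomputable def qq (x : ℂ × ℂ) : ℝ := ‖x.1‖ ^ 2 + ‖x.2‖ ^ 2

/-- determinant -/
def wd (x y : ℂ × ℂ) : ℂ := x.1 * y.2 - x.2 * y.1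

/-- density of the spherical area -/
noncomputable def rho (x : ℂ → ℂ × ℂ) (t : ℂ) : ℝ := ‖wd (x t) (deriv x t)‖ ^ 2 / (qq (x t)) ^ 2

theorem qq_nonneg (x : ℂ × ℂ) : 0 ≤ qq x := by
  unfold qq
  positivity

theorem qq_pos {x : ℂ × ℂ} (h : x ≠ 0) : 0 < qq x := by
  unfold qq
  by_cases h1 : x.1 = 0
  · have h2 : x.2 ≠ 0 := fun h2 => h (Prod.ext h1 h2)
    have := norm_pos_iff.2 h2
    positivity
  · have := norm_pos_iff.2 h1
    positivity

theorem qq_smul (c : ℂ) (x : ℂ × ℂ) : qq (c • x) = ‖c‖ ^ 2 * qq x := by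
  unfold qq
  simp only [Prod.smul_fst, Prod.smul_snd, smul_eq_mul, norm_mul]
  ring

theorem qq_cont : Continuous qq := by
  unfold qq
  fun_prop

theorem rho_nonneg (x : ℂ → ℂ × ℂ) (t : ℂ) : 0 ≤ rho x t := by
  unfold rho
  positivity

section cv

theorem det_mul (c : ℂ) :
    |((ContinuousLinearMap.toSpanSingleton ℂ c).restrictScalars ℝ : ℂ →L[ℝ] ℂ).det| =
      ‖c‖ ^ 2 := by
  simp [ContinuousLinearMap.det, LinearMap.det_restrictScalars, Algebra.norm_complex_eq,
    Complex.normSq_eq_norm_sq]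

theorem lint_cv {φ φ' : ℂ → ℂ} {s : Set ℂ} (hs : MeasurableSet s)
    (h : ∀ z ∈ s, HasDerivAt φ (φ' z) z) (hinj : InjOn φ s) (g : ℂ → ℝ≥0∞) :
    ∫⁻ x in φ '' s, g x = ∫⁻ x in s, ENNReal.ofReal (‖φ' x‖ ^ 2) * g (φ x) := by
  have h1 := lintegral_image_eq_lintegral_abs_det_fderiv_mul (μ := volume) hs
    (f := φ) (f' := fun z => (ContinuousLinearMap.toSpanSingleton ℂ (φ' z)).restrictScalars ℝ)
    (fun z hz => ((h z hz).hasFDerivAt.restrictScalars ℝ).hasFDerivWithinAt) hinj g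
  rw [h1]
  simp_rw [det_mul]

theorem rho_cv {x y : ℂ → ℂ × ℂ} {c φ : ℂ → ℂ} {c' φ' t : ℂ} (hx : DifferentiableAt ℂ x (φ t))
    (hc : HasDerivAt c c' t) (hφ : HasDerivAt φ φ' t) (hc0 : c t ≠ 0)
    (hy : y =ᶠ[𝓝 t] fun t => c t • x (φ t)) : rho y t = ‖φ'‖ ^ 2 * rho x (φ t) := by
  have h1 : HasDerivAt (fun t => x (φ t)) (φ' • deriv x (φ t)) t :=
    hx.hasDerivAt.scomp t hφ
  have h2 : HasDerivAt (fun t => c t • x (φ t))
      (c t • (φ' • deriv x (φ t)) + c' • x (φ t)) t := hc.smul h1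
  have h3 : deriv y t = c t • (φ' • deriv x (φ t)) + c' • x (φ t) := by
    rw [hy.deriv_eq]
    exact h2.deriv
  have h4 : y t = c t • x (φ t) := hy.eq_of_nhds
  unfold rho
  rw [h3, h4, qq_smul]
  have h5 : wd (c t • x (φ t)) (c t • (φ' • deriv x (φ t)) + c' • x (φ t)) =
      (c t) ^ 2 * φ' * wd (x (φ t)) (deriv x (φ t)) := by
    unfold wd
    simp only [Prod.fst_add, Prod.snd_add, Prod.smul_fst, Prod.smul_snd, smul_eq_mul]
    ring
  rw [h5, norm_mul, norm_mul, norm_pow]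
  have h6 : ‖c t‖ ≠ 0 := norm_ne_zero_iff.2 hc0
  by_cases h7 : qq (x (φ t)) = 0
  · rw [h7]
    simp
  · field_simp

theorem sub_le {x y : ℂ → ℂ × ℂ} {c c' φ φ' : ℂ → ℂ} {s : Set ℂ} (hs : MeasurableSet s)
    (hx : Differentiable ℂ x) (hc : ∀ z ∈ s, HasDerivAt c (c' z) z)
    (hφ : ∀ z ∈ s, HasDerivAt φ (φ' z) z) (hc0 : ∀ z ∈ s, c z ≠ 0)
    (hy : ∀ t ∈ s, y =ᶠ[𝓝 t] fun t => c t • x (φ t)) (hinj : InjOn φ s)
    (himg : φ '' s ⊆ closedBall 0 1) :
    ∫⁻ t in s, ENNReal.ofReal (rho y t) ≤ ∫⁻ t in closedBall 0 1, ENNReal.ofReal (rho x t) := by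
  calc ∫⁻ t in s, ENNReal.ofReal (rho y t)
      = ∫⁻ t in s, ENNReal.ofReal (‖φ' t‖ ^ 2) * ENNReal.ofReal (rho x (φ t)) := by
        apply setLIntegral_congr_fun hs
        intro t ht
        simp only
        rw [rho_cv (hx _) (hc t ht) (hφ t ht) (hc0 t ht) (hy t ht),
          ENNReal.ofReal_mul (sq_nonneg _)]
    _ = ∫⁻ t in φ '' s, ENNReal.ofReal (rho x t) := (lint_cv hs hφ hinj fun t => ENNReal.ofReal (rho x t)).symm
    _ ≤ _ := lintegral_mono_set himg

end cv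

section green

theorem green_chi {g : ℂ → ℝ} {g1 g2 : ℂ → ℂ → ℝ}
    (e1 : ∀ e z, HasLineDerivAt ℝ g (g1 e z) z e)
    (e2 : ∀ e z, HasLineDerivAt ℝ (g1 e) (g2 e z) z e)
    (f0 : Continuous g) (f1 : ∀ e, Continuous (g1 e)) (f2 : ∀ e, Continuous (g2 e)) :
    Integrable (fun z => chi z * (g2 1 z + g2 Complex.I z)) ∧
      Integrable (fun z => chiL z * g z) ∧
      ∫ z, chi z * (g2 1 z + g2 Complex.I z) = ∫ z, chiL z * g z := by
  have hd : ∀ z : ℂ, z ∉ (univ : Set ℂ) → ∀ᶠ z' in 𝓝 z, z' ∈ (univ : Set ℂ) →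
      xi id 0 1 z' ≤ 0 := fun z hz => absurd (mem_univ z) hz
  have hwi : DifferentiableOn ℂ (id : ℂ → ℂ) univ := differentiableOn_id
  have hxi : ∀ z ∉ closedBall (0 : ℂ) 1, xi id 0 1 z ≤ 0 := by
    intro z hz
    rw [mem_closedBall_zero_iff, not_le] at hz
    unfold xi
    simp only [id, sub_zero]
    nlinarith
  have k0 : ∀ z ∉ closedBall (0 : ℂ) 1, h0 univ id 0 1 0 z = 0 := by
    intro z hz
    unfold h0
    rw [indicator_univ]
    exact pp_of_nonpos 2 (hxi z hz)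
  have k1 : ∀ e : ℂ, ∀ z ∉ closedBall (0 : ℂ) 1, h1 univ id 0 1 0 e z = 0 := by
    intro e z hz
    unfold h1
    rw [indicator_univ]
    simp only [zero_add, pp_of_nonpos 1 (hxi z hz), mul_zero, zero_mul]
  have k2 : ∀ e : ℂ, ∀ z ∉ closedBall (0 : ℂ) 1, h2 univ id 0 1 0 e z = 0 := by
    intro e z hz
    unfold h2
    rw [indicator_univ]
    simp only [zero_add, pp_of_nonpos 1 (hxi z hz), pp_of_nonpos 0 (hxi z hz), mul_zero, zero_mul,
      add_zero]
  have key := fun e : ℂ => green_dir (e := e) (isCompact_closedBall (0 : ℂ) 1) isOpen_univ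
    (subset_univ _) k0 (k1 e)
    (k2 e) (fun z => h0_line isOpen_univ hwi (hd z) e)
    (fun z => h1_line isOpen_univ hwi (hd z) e)
    (continuous_iff_continuousAt.2 fun z => h0_cont isOpen_univ hwi (hd z))
    (continuous_iff_continuousAt.2 fun z => h1_cont isOpen_univ hwi (hd z) e)
    (continuous_iff_continuousAt.2 fun z => h2_cont isOpen_univ hwi (hd z) e)
    (g := g) (g1 := g1 e) (g2 := g2 e)
    (fun z _ => e1 e z) (fun z _ => e2 e z) f0.continuousOn (f1 e).continuousOn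
    (f2 e).continuousOn
  obtain ⟨a1, a2, a3⟩ := key 1
  obtain ⟨b1, b2, b3⟩ := key Complex.I
  have s1 : (fun z => chi z * (g2 1 z + g2 Complex.I z)) = fun z =>
      h0 univ id 0 1 0 z * g2 1 z + h0 univ id 0 1 0 z * g2 Complex.I z := by
    funext z
    unfold chi
    ring
  have s2 : (fun z => chiL z * g z) = fun z =>
      h2 univ id 0 1 0 1 z * g z + h2 univ id 0 1 0 Complex.I z * g z := by
    funext z
    unfold chiL
    rw [← h2_sum]
    ring
  rw [s1, s2]
  refine ⟨a1.add b1, a2.add b2, ?_⟩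
  rw [integral_add a1 b1, integral_add a2 b2, a3, b3]

theorem chiL_integral : ∫ z, chiL z = 0 := by
  have hz : ∀ e z : ℂ, HasLineDerivAt ℝ (fun _ : ℂ => (0 : ℝ)) ((fun _ _ : ℂ => (0 : ℝ)) e z) z e :=
    fun e z => line_zero
  have h1 := (green_chi (g := fun _ => 1) (g1 := fun _ _ => 0) (g2 := fun _ _ => 0) (by
    intro e z
    unfold HasLineDerivAt
    exact hasDerivAt_const (0 : ℝ) (1 : ℝ)) hz continuous_const (fun _ => continuous_const)
    (fun _ => continuous_const)).2.2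
  simpa using h1.symm

variable {X Y : ℂ → ℂ}

/-- the squared norm and its derivatives -/
noncomputable def q1 (X Y : ℂ → ℂ) (e z : ℂ) : ℝ :=
  2 * (conj (X z - 0) * (deriv X z * e)).re + 2 * (conj (Y z - 0) * (deriv Y z * e)).re

noncomputable def q2 (X Y : ℂ → ℂ) (e z : ℂ) : ℝ :=
  2 * (conj (deriv X z * e) * (deriv X z * e) + conj (X z - 0) * (deriv (deriv X) z * e * e)).re +
  2 * (conj (deriv Y z * e) * (deriv Y z * e) + conj (Y z - 0) * (deriv (deriv Y) z * e * e)).re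

theorem q0_line (hX : Differentiable ℂ X) (hY : Differentiable ℂ Y) (e z : ℂ) :
    HasLineDerivAt ℝ (fun z => ‖X z‖ ^ 2 + ‖Y z‖ ^ 2) (q1 X Y e z) z e := by
  have h1 := line_normSq (hX z).hasDerivAt 0 e
  have h2 := line_normSq (hY z).hasDerivAt 0 e
  simp only [sub_zero] at h1 h2
  unfold HasLineDerivAt at h1 h2 ⊢
  unfold q1
  simp only [sub_zero]
  exact h1.add h2

theorem q1_line (hX : Differentiable ℂ X) (hY : Differentiable ℂ Y) (e z : ℂ) :
    HasLineDerivAt ℝ (q1 X Y e) (q2 X Y e z) z e := by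
  have hX' : Differentiable ℂ (deriv X) := hX.deriv
  have hY' : Differentiable ℂ (deriv Y) := hY.deriv
  have h1 := line_re (hX z).hasDerivAt (hX' z).hasDerivAt 0 e
  have h2 := line_re (hY z).hasDerivAt (hY' z).hasDerivAt 0 e
  unfold HasLineDerivAt at h1 h2 ⊢
  exact h1.add h2

theorem green_log (hX : Differentiable ℂ X) (hY : Differentiable ℂ Y)
    (h0 : ∀ z, X z ≠ 0 ∨ Y z ≠ 0) :
    Integrable (fun z => chi z * (4 * rho (fun t => (X t, Y t)) z)) ∧
      Integrable (fun z => chiL z * Real.log (qq (X z, Y z))) ∧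
      ∫ z, chi z * (4 * rho (fun t => (X t, Y t)) z) =
        ∫ z, chiL z * Real.log (qq (X z, Y z)) := by
  have hX' : Differentiable ℂ (deriv X) := hX.deriv
  have hY' : Differentiable ℂ (deriv Y) := hY.deriv
  have hX'' : Differentiable ℂ (deriv (deriv X)) := hX'.deriv
  have hY'' : Differentiable ℂ (deriv (deriv Y)) := hY'.deriv
  have cX := hX.continuous
  have cY := hY.continuous
  have cX' := hX'.continuous
  have cY' := hY'.continuous
  have cX'' := hX''.continuous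
  have cY'' := hY''.continuous
  have hq0 : ∀ z, 0 < ‖X z‖ ^ 2 + ‖Y z‖ ^ 2 := by
    intro z
    have : qq (X z, Y z) = ‖X z‖ ^ 2 + ‖Y z‖ ^ 2 := rfl
    rw [← this]
    apply qq_pos
    rintro h
    rw [Prod.mk_eq_zero] at h
    rcases h0 z with h1 | h1
    · exact h1 h.1
    · exact h1 h.2
  have cq : Continuous fun z => ‖X z‖ ^ 2 + ‖Y z‖ ^ 2 := by fun_prop
  have cq1 : ∀ e, Continuous (q1 X Y e) := by
    intro e
    unfold q1
    fun_prop
  have cq2 : ∀ e, Continuous (q2 X Y e) := by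
    intro e
    unfold q2
    fun_prop
  have key := green_chi (g := fun z => Real.log (‖X z‖ ^ 2 + ‖Y z‖ ^ 2))
    (g1 := fun e z => q1 X Y e z / (‖X z‖ ^ 2 + ‖Y z‖ ^ 2))
    (g2 := fun e z => (q2 X Y e z * (‖X z‖ ^ 2 + ‖Y z‖ ^ 2) - q1 X Y e z * q1 X Y e z) /
      (‖X z‖ ^ 2 + ‖Y z‖ ^ 2) ^ 2) (by
      intro e z
      have h1 := q0_line hX hY e z
      unfold HasLineDerivAt at h1 ⊢
      have h2 := h1.log (by simpa using (hq0 z).ne')
      refine HasDerivAt.congr_deriv h2 ?_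
      simp only [zero_smul, add_zero]) (by
      intro e z
      have h1 := q0_line hX hY e z
      have h2 := q1_line hX hY e z
      unfold HasLineDerivAt at h1 h2 ⊢
      have h3 := h2.div h1 (by simpa using (hq0 z).ne')
      refine HasDerivAt.congr_deriv h3 ?_
      simp only [zero_smul, add_zero]) (cq.log fun z => (hq0 z).ne')
      (fun e => (cq1 e).div cq fun z => (hq0 z).ne')
      (fun e => (((cq2 e).mul cq).sub ((cq1 e).mul (cq1 e))).div (cq.pow 2)
        fun z => pow_ne_zero _ (hq0 z).ne')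
  have hlap : ∀ z, (q2 X Y 1 z * (‖X z‖ ^ 2 + ‖Y z‖ ^ 2) - q1 X Y 1 z * q1 X Y 1 z) /
      (‖X z‖ ^ 2 + ‖Y z‖ ^ 2) ^ 2 + (q2 X Y Complex.I z * (‖X z‖ ^ 2 + ‖Y z‖ ^ 2) -
        q1 X Y Complex.I z * q1 X Y Complex.I z) / (‖X z‖ ^ 2 + ‖Y z‖ ^ 2) ^ 2 =
      4 * rho (fun t => (X t, Y t)) z := by
    intro z
    have hder : deriv (fun t => (X t, Y t)) z = (deriv X z, deriv Y z) :=
      ((hX z).hasDerivAt.prodMk (hY z).hasDerivAt).deriv
    have hrho : rho (fun t => (X t, Y t)) z =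
        ‖X z * deriv Y z - Y z * deriv X z‖ ^ 2 / (‖X z‖ ^ 2 + ‖Y z‖ ^ 2) ^ 2 := by
      unfold rho
      rw [hder]
      rfl
    rw [hrho, ← add_div, mul_div_assoc']
    congr 1
    unfold q1 q2
    simp only [sub_zero]
    generalize X z = x
    generalize Y z = y
    generalize deriv X z = x'
    generalize deriv Y z = y'
    generalize deriv (deriv X) z = x''
    generalize deriv (deriv Y) z = y''
    simp only [Complex.sq_norm, Complex.normSq_apply, Complex.add_re,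
      Complex.mul_re, Complex.mul_im, Complex.conj_re, Complex.conj_im, Complex.sub_re,
      Complex.sub_im, Complex.I_re, Complex.I_im, Complex.one_re, Complex.one_im]
    ring
  simp_rw [hlap] at key
  exact key

end green

end Run7.h644
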