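import Pool.Agent.Run7.h644.Growth

/-!
The spherical area of a homogeneous map of degree `D` of the plane of dimension two is at least a
constant times `D`.
-/

set_option autoImplicit false
set_option linter.unusedSectionVars false
open Set Filter Topology Metric MeasureTheory
open scoped ENNReal ComplexConjugate

namespace Run7.h644

variable {G : ℂ × ℂ → ℂ × ℂ} {D : ℕ}

/-- the height function -/
noncomputable def om (G : ℂ × ℂ → ℂ × ℂ) (D : ℕ) (x : ℂ × ℂ) : ℝ :=
  Real.log (qq (G x)) - D * Real.log (qq x)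

theorem om_smul (hG : HomMap D G) {c : ℂ} (hc : c ≠ 0) {x : ℂ × ℂ} (hx : x ≠ 0) :
    om G D (c • x) = om G D x := by
  unfold om
  have h1 : ‖c‖ ≠ 0 := norm_ne_zero_iff.2 hc
  have h2 : qq x ≠ 0 := (qq_pos hx).ne'
  have h3 : qq (G x) ≠ 0 := (qq_pos (hG.ne hx)).ne'
  rw [hG.hom, qq_smul, qq_smul, norm_pow, Real.log_mul (by positivity) h3,
    Real.log_mul (by positivity) h2, ← pow_mul, Real.log_pow, Real.log_pow]
  push_cast
  ring

theorem om_contAt (hG : HomMap D G) {x : ℂ × ℂ} (hx : x ≠ 0) : ContinuousAt (om G D) x := by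
  unfold om
  have h1 : ContinuousAt (fun x => Real.log (qq (G x))) x :=
    (qq_cont.comp hG.cont).continuousAt.log (qq_pos (hG.ne hx)).ne'
  have h2 : ContinuousAt (fun x => Real.log (qq x)) x :=
    qq_cont.continuousAt.log (qq_pos hx).ne'
  exact h1.sub (continuousAt_const.mul h2)

theorem om_bdd (hG : HomMap D G) : ∃ C : ℝ, ∀ x : ℂ × ℂ, x ≠ 0 → |om G D x| ≤ C := by
  have h1 : IsCompact (sphere (0 : ℂ × ℂ) 1) := isCompact_sphere _ _
  have hne : ∀ x ∈ sphere (0 : ℂ × ℂ) 1, x ≠ 0 := by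
    rintro x hx rfl
    simp at hx
  have h2 : ContinuousOn (om G D) (sphere (0 : ℂ × ℂ) 1) := fun x hx =>
    (om_contAt hG (hne x hx)).continuousWithinAt
  obtain ⟨C, hC⟩ := (h1.image_of_continuousOn h2).isBounded.exists_norm_le
  refine ⟨C, fun x hx => ?_⟩
  have hx0 : 0 < ‖x‖ := norm_pos_iff.2 hx
  have h3 : (((‖x‖ : ℝ) : ℂ))⁻¹ ≠ 0 := inv_ne_zero (by exact_mod_cast hx0.ne')
  rw [← om_smul hG h3 hx]
  apply hC
  refine ⟨_, ?_, rfl⟩
  rw [mem_sphere_zero_iff_norm, norm_smul, norm_inv, Complex.norm_real, norm_norm,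
    inv_mul_cancel₀ hx0.ne']

theorem pair_ne (t : ℂ) : ((1 : ℂ), t) ≠ 0 := fun h => one_ne_zero (congrArg Prod.fst h)

theorem pair_ne' (t : ℂ) : (t, (1 : ℂ)) ≠ 0 := fun h => one_ne_zero (congrArg Prod.snd h)

theorem chi_le_one (z : ℂ) : chi z ≤ 1 := by
  rw [chi_eq]
  unfold pp
  apply pow_le_one₀ (le_max_right _ _)
  apply max_le _ zero_le_one
  have := sq_nonneg ‖z‖
  linarith

theorem chi_zero {z : ℂ} (hz : z ∉ closedBall (0 : ℂ) 1) : chi z = 0 := by
  rw [mem_closedBall_zero_iff, not_le] at hz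
  rw [chi_eq]
  apply pp_of_nonpos 2
  nlinarith

/-- limit of the error term -/
theorem om_tendsto (hG : HomMap D G) :
    Tendsto (fun k : ℕ => ∫ τ, chiL τ * om G D (1, (((k : ℝ) + 3 : ℝ) : ℂ) * τ)) atTop (𝓝 0) := by
  obtain ⟨C, hC⟩ := om_bdd hG
  have h1 : ∫ τ, chiL τ * om G D (0, 1) = 0 := by
    rw [integral_mul_const, chiL_integral, zero_mul]
  rw [← h1]
  have hcont : ∀ R : ℂ, Continuous fun τ : ℂ => om G D (1, R * τ) := by
    intro R
    rw [continuous_iff_continuousAt]
    intro τ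
    have h2 : ContinuousAt (fun τ : ℂ => ((1 : ℂ), R * τ)) τ := by fun_prop
    exact ContinuousAt.comp (f := fun τ : ℂ => ((1 : ℂ), R * τ)) (om_contAt hG (pair_ne _)) h2
  apply tendsto_integral_of_dominated_convergence (fun τ => |chiL τ| * C)
  · intro k
    exact chiL_int.aestronglyMeasurable.mul (hcont _).aestronglyMeasurable
  · exact chiL_int.abs.mul_const C
  · intro k
    refine Eventually.of_forall fun τ => ?_
    rw [Real.norm_eq_abs, abs_mul]
    exact mul_le_mul_of_nonneg_left (hC _ (pair_ne _)) (abs_nonneg _)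
  · have hae : ∀ᵐ τ : ℂ, τ ≠ 0 := by
      rw [ae_iff]
      simp
    filter_upwards [hae] with τ hτ
    apply Tendsto.const_mul
    have h3 : ∀ k : ℕ, om G D (1, (((k : ℝ) + 3 : ℝ) : ℂ) * τ) =
        om G D (((((k : ℝ) + 3 : ℝ) : ℂ) * τ)⁻¹, 1) := by
      intro k
      have h4 : (((k : ℝ) + 3 : ℝ) : ℂ) * τ ≠ 0 := by
        apply mul_ne_zero _ hτ
        have : (0 : ℝ) < (k : ℝ) + 3 := by positivity
        exact_mod_cast this.ne'
      have h5 : ((1 : ℂ), (((k : ℝ) + 3 : ℝ) : ℂ) * τ) = ((((k : ℝ) + 3 : ℝ) : ℂ) * τ) •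
          ((((((k : ℝ) + 3 : ℝ) : ℂ) * τ)⁻¹, 1) : ℂ × ℂ) := by
        rw [Prod.smul_mk, smul_eq_mul, smul_eq_mul, mul_inv_cancel₀ h4, mul_one]
      rw [h5, om_smul hG h4 (pair_ne' _)]
    simp_rw [h3]
    have h6 : Tendsto (fun k : ℕ => ((((((k : ℝ) + 3 : ℝ) : ℂ) * τ)⁻¹, 1) : ℂ × ℂ)) atTop
        (𝓝 (0, 1)) := by
      apply Tendsto.prodMk_nhds _ tendsto_const_nhds
      rw [tendsto_zero_iff_norm_tendsto_zero]
      have h7 : (fun k : ℕ => ‖((((k : ℝ) + 3 : ℝ) : ℂ) * τ)⁻¹‖) =
          fun k : ℕ => ((k : ℝ) + 3)⁻¹ * ‖τ‖⁻¹ := by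
        funext k
        rw [norm_inv, norm_mul, Complex.norm_real, Real.norm_of_nonneg (by positivity), mul_inv]
      rw [h7]
      have h8 : Tendsto (fun k : ℕ => ((k : ℝ) + 3)⁻¹) atTop (𝓝 0) :=
        tendsto_inv_atTop_zero.comp
          (tendsto_atTop_add_const_right _ _ tendsto_natCast_atTop_atTop)
      simpa using h8.mul_const ‖τ‖⁻¹
    exact (om_contAt hG (pair_ne' 0)).tendsto.comp h6

/-- the area in the first chart -/
noncomputable def M1 (G : ℂ × ℂ → ℂ × ℂ) : ℝ≥0∞ :=
  ∫⁻ t in closedBall (0 : ℂ) 1, ENNReal.ofReal (rho (fun t => G (1, t)) t)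

/-- the area in the second chart -/
noncomputable def M2 (G : ℂ × ℂ → ℂ × ℂ) : ℝ≥0∞ :=
  ∫⁻ t in closedBall (0 : ℂ) 1, ENNReal.ofReal (rho (fun t => G (t, 1)) t)

theorem area_le (hG : HomMap D G) {R : ℝ} (hR : 1 ≤ R) :
    ∫⁻ t in closedBall (0 : ℂ) 1, ENNReal.ofReal (rho (fun t => G (1, (R : ℂ) * t)) t) ≤
      M1 G + M2 G := by
  have hR0 : 0 < R := by linarith
  have hRc : (R : ℂ) ≠ 0 := by exact_mod_cast hR0.ne'
  set A : Set ℂ := closedBall (0 : ℂ) (1 / R) with hA
  set B : Set ℂ := closedBall (0 : ℂ) 1 \ A with hB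
  have hsub : closedBall (0 : ℂ) 1 ⊆ A ∪ B := by
    intro z hz
    by_cases h : z ∈ A
    · exact Or.inl h
    · exact Or.inr ⟨hz, h⟩
  have hx1 : Differentiable ℂ fun t : ℂ => G (1, t) :=
    hG.diff.comp ((differentiable_const _).prodMk differentiable_id)
  have hx2 : Differentiable ℂ fun t : ℂ => G (t, 1) :=
    hG.diff.comp (differentiable_id.prodMk (differentiable_const _))
  refine (lintegral_mono_set hsub).trans ((lintegral_union_le _ _ _).trans (add_le_add ?_ ?_))
  · apply sub_le (c := fun _ => 1) (c' := fun _ => 0) (φ := fun τ => (R : ℂ) * τ)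
      (φ' := fun _ => (R : ℂ)) measurableSet_closedBall hx1
    · intro z _
      exact hasDerivAt_const z 1
    · intro z _
      simpa using (hasDerivAt_id z).const_mul (R : ℂ)
    · intro z _
      exact one_ne_zero
    · intro t _
      refine Eventually.of_forall fun z => ?_
      simp
    · intro z _ z' _ h
      exact mul_left_cancel₀ hRc h
    · rintro _ ⟨z, hz, rfl⟩
      rw [mem_closedBall_zero_iff] at hz
      rw [mem_closedBall_zero_iff, norm_mul, Complex.norm_real, Real.norm_of_nonneg hR0.le]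
      calc R * ‖z‖ ≤ R * (1 / R) := by gcongr
        _ = 1 := by field_simp
  · have hB0 : ∀ z ∈ B, z ≠ 0 := by
      rintro z ⟨-, hz⟩ rfl
      apply hz
      rw [hA, mem_closedBall_zero_iff, norm_zero]
      positivity
    have hB1 : ∀ z ∈ B, (R : ℂ) * z ≠ 0 := fun z hz => mul_ne_zero hRc (hB0 z hz)
    apply sub_le (c := fun τ => ((R : ℂ) * τ) ^ D)
      (c' := fun τ => (D : ℂ) * ((R : ℂ) * τ) ^ (D - 1) * (R : ℂ)) (φ := fun τ => ((R : ℂ) * τ)⁻¹)
      (φ' := fun τ => -(R : ℂ) / ((R : ℂ) * τ) ^ 2)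
      (measurableSet_closedBall.diff measurableSet_closedBall) hx2
    · intro z _
      have h1 : HasDerivAt (fun τ => (R : ℂ) * τ) (R : ℂ) z := by
        simpa using (hasDerivAt_id z).const_mul (R : ℂ)
      exact h1.pow D
    · intro z hz
      have h1 : HasDerivAt (fun τ => (R : ℂ) * τ) (R : ℂ) z := by
        simpa using (hasDerivAt_id z).const_mul (R : ℂ)
      exact h1.inv (hB1 z hz)
    · intro z hz
      exact pow_ne_zero _ (hB1 z hz)
    · intro t ht
      filter_upwards [isOpen_ne.mem_nhds (hB0 t ht)] with z hz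
      have h2 : (R : ℂ) * z ≠ 0 := mul_ne_zero hRc hz
      rw [← hG.hom, Prod.smul_mk, smul_eq_mul, smul_eq_mul, mul_inv_cancel₀ h2, mul_one]
    · intro z hz z' hz' h
      have := inv_injective h
      exact mul_left_cancel₀ hRc this
    · rintro _ ⟨z, hz, rfl⟩
      have h1 : 1 / R < ‖z‖ := by
        have := hz.2
        rw [mem_closedBall_zero_iff, not_le] at this
        exact this
      rw [mem_closedBall_zero_iff, norm_inv, norm_mul, Complex.norm_real,
        Real.norm_of_nonneg hR0.le]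
      apply inv_le_one_of_one_le₀
      rw [div_lt_iff₀ hR0] at h1
      linarith

theorem model_lower {R : ℝ} (hR : 3 ≤ R) :
    Real.pi / 2 ≤ ∫ z, chi z * (4 * rho (fun t => ((1 : ℂ), (R : ℂ) * t)) z) := by
  have hR0 : 0 < R := by linarith
  have hX : Differentiable ℂ fun _ : ℂ => (1 : ℂ) := differentiable_const _
  have hY : Differentiable ℂ fun t : ℂ => (R : ℂ) * t := differentiable_id.const_mul _
  obtain ⟨i1, -, -⟩ := green_log hX hY (fun z => Or.inl one_ne_zero)
  have hrho : ∀ z : ℂ, rho (fun t => ((1 : ℂ), (R : ℂ) * t)) z =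
      R ^ 2 / (1 + R ^ 2 * ‖z‖ ^ 2) ^ 2 := by
    intro z
    have h1 : HasDerivAt (fun t : ℂ => ((1 : ℂ), (R : ℂ) * t)) (0, (R : ℂ)) z := by
      apply (hasDerivAt_const z (1 : ℂ)).prodMk
      simpa using (hasDerivAt_id z).const_mul (R : ℂ)
    unfold rho
    rw [h1.deriv]
    unfold wd qq
    simp only [one_mul, mul_zero, sub_zero, norm_one, one_pow, norm_mul, Complex.norm_real,
      Real.norm_of_nonneg hR0.le]
    rw [mul_pow]
  set A : Set ℂ := closedBall (0 : ℂ) (1 / R) with hA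
  have hvol : volume.real A = Real.pi * (1 / R) ^ 2 := by
    rw [hA, Measure.real, Complex.volume_closedBall, ENNReal.toReal_mul, ENNReal.toReal_pow,
      ENNReal.toReal_ofReal (by positivity)]
    simp [mul_comm]
  have hpt : ∀ z ∈ A, (512 / 729 : ℝ) * R ^ 2 ≤
      chi z * (4 * rho (fun t => ((1 : ℂ), (R : ℂ) * t)) z) := by
    intro z hz
    rw [hA, mem_closedBall_zero_iff, le_div_iff₀ hR0] at hz
    have hz0 := norm_nonneg z
    have h1 : R ^ 2 * ‖z‖ ^ 2 ≤ 1 := by
      rw [← mul_pow]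
      apply pow_le_one₀ (by positivity)
      linarith
    have h2 : ‖z‖ ^ 2 ≤ 1 / 9 := by
      have : ‖z‖ ≤ 1 / 3 := by nlinarith
      nlinarith
    have h3 : (512 / 729 : ℝ) ≤ chi z := by
      rw [chi_eq, pp_of_nonneg _ (by linarith)]
      calc (512 / 729 : ℝ) = (8 / 9) ^ 3 := by norm_num
        _ ≤ (1 - ‖z‖ ^ 2) ^ 3 := by
          apply pow_le_pow_left₀ (by norm_num)
          linarith
    have h4 : R ^ 2 ≤ 4 * rho (fun t => ((1 : ℂ), (R : ℂ) * t)) z := by
      rw [hrho, ← mul_div_assoc, le_div_iff₀ (by positivity)]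
      have h5 : (1 + R ^ 2 * ‖z‖ ^ 2) ^ 2 ≤ 4 := by
        have h6 : 0 ≤ R ^ 2 * ‖z‖ ^ 2 := by positivity
        generalize R ^ 2 * ‖z‖ ^ 2 = a at h1 h6
        nlinarith
      nlinarith [sq_nonneg R]
    calc (512 / 729 : ℝ) * R ^ 2 ≤ chi z * R ^ 2 := by gcongr
      _ ≤ _ := mul_le_mul_of_nonneg_left h4 (chi_nonneg z)
  have hAfin : volume A ≠ ⊤ := (isCompact_closedBall (0 : ℂ) (1 / R)).measure_lt_top.ne
  calc Real.pi / 2 ≤ (512 / 729 : ℝ) * R ^ 2 * (Real.pi * (1 / R) ^ 2) := by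
        have : (512 / 729 : ℝ) * R ^ 2 * (Real.pi * (1 / R) ^ 2) = 512 / 729 * Real.pi := by
          field_simp
        rw [this]
        have := Real.pi_pos
        linarith
    _ = ∫ z in A, (512 / 729 : ℝ) * R ^ 2 := by
        rw [setIntegral_const, hvol, smul_eq_mul]
        ring
    _ ≤ ∫ z in A, chi z * (4 * rho (fun t => ((1 : ℂ), (R : ℂ) * t)) z) := by
        apply setIntegral_mono_on _ i1.integrableOn measurableSet_closedBall hpt
        exact integrableOn_const hAfin
    _ ≤ _ := by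
        apply setIntegral_le_integral i1
        refine Eventually.of_forall fun z => ?_
        exact mul_nonneg (chi_nonneg z) (mul_nonneg (by norm_num) (rho_nonneg _ _))

theorem growth (hG : HomMap D G) : ENNReal.ofReal (Real.pi * D / 8) ≤ M1 G + M2 G := by
  by_cases htop : M1 G + M2 G = ⊤
  · rw [htop]
    exact le_top
  set M : ℝ := (M1 G + M2 G).toReal with hM
  have hMof : M1 G + M2 G = ENNReal.ofReal M := (ENNReal.ofReal_toReal htop).symm
  have hkey : ∀ k : ℕ, (D : ℝ) * (Real.pi / 2) +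
      ∫ τ, chiL τ * om G D (1, (((k : ℝ) + 3 : ℝ) : ℂ) * τ) ≤ 4 * M := by
    intro k
    set R : ℝ := (k : ℝ) + 3 with hR
    have hR3 : 3 ≤ R := by
      have : (0 : ℝ) ≤ k := Nat.cast_nonneg k
      linarith
    have hline : Differentiable ℂ fun t : ℂ => ((1 : ℂ), (R : ℂ) * t) :=
      (differentiable_const _).prodMk (differentiable_id.const_mul _)
    have hcomp : Differentiable ℂ fun t : ℂ => G (1, (R : ℂ) * t) := hG.diff.comp hline
    have hX : Differentiable ℂ fun t : ℂ => (G (1, (R : ℂ) * t)).1 := hcomp.fst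
    have hY : Differentiable ℂ fun t : ℂ => (G (1, (R : ℂ) * t)).2 := hcomp.snd
    have hne : ∀ z : ℂ, (G (1, (R : ℂ) * z)).1 ≠ 0 ∨ (G (1, (R : ℂ) * z)).2 ≠ 0 := by
      intro z
      by_contra hcon
      rw [not_or, not_not, not_not] at hcon
      exact hG.ne (pair_ne ((R : ℂ) * z)) (Prod.ext hcon.1 hcon.2)
    obtain ⟨i1, i2, i3⟩ := green_log hX hY hne
    obtain ⟨j1, j2, j3⟩ := green_log (differentiable_const (1 : ℂ) : Differentiable ℂ
      fun _ : ℂ => (1 : ℂ)) (differentiable_id.const_mul (R : ℂ) : Differentiable ℂ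
      fun t : ℂ => (R : ℂ) * t) (fun z => Or.inl one_ne_zero)
    simp only [Prod.mk.eta] at i1 i2 i3
    have hlow := model_lower hR3
    rw [j3] at hlow
    -- decomposition
    have hsplit : ∀ z : ℂ, chiL z * Real.log (qq (G (1, (R : ℂ) * z))) =
        (D : ℝ) * (chiL z * Real.log (qq (1, (R : ℂ) * z))) +
          chiL z * om G D (1, (R : ℂ) * z) := by
      intro z
      unfold om
      ring
    have hint : Integrable fun z => chiL z * om G D (1, (R : ℂ) * z) := by
      have : (fun z => chiL z * om G D (1, (R : ℂ) * z)) = fun z =>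
          chiL z * Real.log (qq (G (1, (R : ℂ) * z))) -
            (D : ℝ) * (chiL z * Real.log (qq (1, (R : ℂ) * z))) := by
        funext z
        rw [hsplit]
        ring
      rw [this]
      exact i2.sub (j2.const_mul _)
    have h1 : ∫ z, chiL z * Real.log (qq (G (1, (R : ℂ) * z))) =
        (D : ℝ) * (∫ z, chiL z * Real.log (qq (1, (R : ℂ) * z))) +
          ∫ z, chiL z * om G D (1, (R : ℂ) * z) := by
      simp_rw [hsplit]
      rw [integral_add (j2.const_mul _) hint, integral_const_mul]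
    have h2 : ∫ z, chi z * (4 * rho (fun t => G (1, (R : ℂ) * t)) z) ≤ 4 * M := by
      have h3 : ∀ z, 0 ≤ chi z * (4 * rho (fun t => G (1, (R : ℂ) * t)) z) := fun z =>
        mul_nonneg (chi_nonneg z) (mul_nonneg (by norm_num) (rho_nonneg _ _))
      have h4 : ENNReal.ofReal (∫ z, chi z * (4 * rho (fun t => G (1, (R : ℂ) * t)) z)) ≤
          ENNReal.ofReal (4 * M) := by
        rw [ofReal_integral_eq_lintegral_ofReal i1 (Eventually.of_forall h3)]
        calc ∫⁻ z, ENNReal.ofReal (chi z * (4 * rho (fun t => G (1, (R : ℂ) * t)) z))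
            ≤ ∫⁻ z, (closedBall (0 : ℂ) 1).indicator (fun z => ENNReal.ofReal 4 *
              ENNReal.ofReal (rho (fun t => G (1, (R : ℂ) * t)) z)) z := by
              apply lintegral_mono
              intro z
              simp only
              by_cases hz : z ∈ closedBall (0 : ℂ) 1
              · rw [indicator_of_mem hz, ← ENNReal.ofReal_mul (by norm_num)]
                apply ENNReal.ofReal_le_ofReal
                have h5 := chi_le_one z
                have h6 : 0 ≤ 4 * rho (fun t => G (1, (R : ℂ) * t)) z :=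
                  mul_nonneg (by norm_num) (rho_nonneg _ _)
                nlinarith
              · rw [indicator_of_notMem hz, chi_zero hz]
                simp
          _ = ENNReal.ofReal 4 * ∫⁻ z in closedBall (0 : ℂ) 1,
              ENNReal.ofReal (rho (fun t => G (1, (R : ℂ) * t)) z) := by
              rw [lintegral_indicator measurableSet_closedBall,
                lintegral_const_mul' _ _ ENNReal.ofReal_ne_top]
          _ ≤ ENNReal.ofReal 4 * ENNReal.ofReal M := by
              gcongr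
              rw [← hMof]
              exact area_le hG (by linarith)
          _ = ENNReal.ofReal (4 * M) := by rw [← ENNReal.ofReal_mul (by norm_num)]
      have h7 : 0 ≤ 4 * M := mul_nonneg (by norm_num) ENNReal.toReal_nonneg
      exact (ENNReal.ofReal_le_ofReal_iff h7).1 h4
    rw [i3, h1] at h2
    have hD : (0 : ℝ) ≤ D := Nat.cast_nonneg D
    have := mul_le_mul_of_nonneg_left hlow hD
    linarith
  have hlim := (om_tendsto hG).const_add ((D : ℝ) * (Real.pi / 2))
  rw [add_zero] at hlim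
  have h1 : (D : ℝ) * (Real.pi / 2) ≤ 4 * M := le_of_tendsto' hlim hkey
  rw [hMof]
  apply ENNReal.ofReal_le_ofReal
  linarith

end Run7.h644
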