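import Pool.Agent.Run7.h644.Green

/-!
Propagation of bounded mass for sequences of sheets of holomorphic maps.
-/

set_option autoImplicit false
set_option linter.unusedSectionVars false
open Set Filter Topology Metric MeasureTheory
open scoped ENNReal

namespace Run7.h644

section one

variable {S U : Set ℂ} {w : ℂ → ℂ} {c : ℂ} {R : ℝ} {n : ℕ}

/-- the weight -/
noncomputable def kk (w : ℂ → ℂ) (c : ℂ) (R : ℝ) (n : ℕ) (z : ℂ) : ℝ :=
  pp (n + 1) (xi w c R z) * (((n : ℝ) + 3) * ‖w z - c‖ ^ 2 - R ^ 2)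

theorem hL_eq (z : ℂ) : hL S w c R n z =
    S.indicator (fun z => 4 * ((n : ℝ) + 3) * (‖deriv w z‖ ^ 2 * kk w c R n z)) z := by
  unfold hL
  by_cases hz : z ∈ S
  · simp only [indicator_of_mem hz]
    unfold kk
    rcases le_total (xi w c R z) 0 with h | h
    · rw [pp_of_nonpos n h, pp_of_nonpos (n + 1) h]
      ring
    · rw [pp_succ (n + 1), max_eq_left h]
      unfold xi
      ring
  · simp [indicator_of_notMem hz]

/-- the constant -/
noncomputable def cL : ℝ := ∫ z, |chiL z|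

theorem cL_nonneg : 0 ≤ cL := integral_nonneg fun _ => abs_nonneg _

theorem mass_ineq (hU : IsOpen U) (hKU : closedBall (0 : ℂ) 1 ⊆ U) (hS : IsOpen S)
    (hw : DifferentiableOn ℂ w S)
    (hZ : ∀ z ∈ U, z ∉ S → ∀ᶠ z' in 𝓝 z, z' ∈ S → xi w c R z' ≤ 0)
    {A B : Set ℂ} (hA : MeasurableSet A) (hB : MeasurableSet B) (hAS : A ⊆ S) (hBS : B ⊆ S)
    {κ κ' : ℝ} (hκ : 0 < κ) (hκ' : 0 < κ') (h1 : ∀ z ∈ A, κ ≤ kk w c R n z)
    (h2 : ∀ z ∈ S, z ∉ B → 0 ≤ kk w c R n z) (h3 : ∀ z ∈ S, -κ' ≤ kk w c R n z) :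
    ENNReal.ofReal κ * ∫⁻ z in A, ENNReal.ofReal (chi z * ‖deriv w z‖ ^ 2) ≤
      ENNReal.ofReal κ' * (∫⁻ z in B, ENNReal.ofReal (chi z * ‖deriv w z‖ ^ 2)) +
        ENNReal.ofReal (cL * (R ^ 2) ^ (n + 3)) := by
  obtain ⟨i1, i2, i3⟩ := green_power (n := n) hU hKU hS hw hZ
  -- upper bound of the right-hand side
  have h4 : ∫ z, chi z * hL S w c R n z ≤ cL * (R ^ 2) ^ (n + 3) := by
    rw [i3]
    have : ∀ z, chiL z * h0 S w c R n z ≤ |chiL z| * (R ^ 2) ^ (n + 3) := by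
      intro z
      have h5 : 0 ≤ h0 S w c R n z := by
        unfold h0
        exact indicator_nonneg (fun _ _ => pp_nonneg _ _) _
      have h6 : h0 S w c R n z ≤ (R ^ 2) ^ (n + 3) := by
        unfold h0
        by_cases hz : z ∈ S
        · rw [indicator_of_mem hz]
          unfold pp xi
          apply pow_le_pow_left₀ (le_max_right _ _)
          apply max_le _ (sq_nonneg R)
          have := sq_nonneg ‖w z - c‖
          linarith
        · rw [indicator_of_notMem hz]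
          positivity
      calc chiL z * h0 S w c R n z ≤ |chiL z| * h0 S w c R n z := by
            gcongr
            exact le_abs_self _
        _ ≤ _ := by gcongr
    calc ∫ z, chiL z * h0 S w c R n z ≤ ∫ z, |chiL z| * (R ^ 2) ^ (n + 3) :=
          integral_mono i2 (chiL_int.abs.mul_const _) this
      _ = cL * (R ^ 2) ^ (n + 3) := by rw [integral_mul_const]; rfl
  -- abbreviations
  set Φ : ℂ → ℝ := fun z => chi z * ‖deriv w z‖ ^ 2 with hΦ
  have hΦ0 : ∀ z, 0 ≤ Φ z := fun z => mul_nonneg (chi_nonneg z) (sq_nonneg _)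
  by_cases htop : ∫⁻ z in B, ENNReal.ofReal (Φ z) = ⊤
  · rw [htop, ENNReal.mul_top (by simpa using hκ'), top_add]
    exact le_top
  -- integrability
  have hchic : Continuous chi := by
    have : chi = fun z => pp 3 (1 - ‖z‖ ^ 2) := funext chi_eq
    rw [this]
    exact (pp_cont 3).comp (by fun_prop)
  have hmeas : ∀ E : Set ℂ, MeasurableSet E → E ⊆ S → AEStronglyMeasurable Φ (volume.restrict E) := by
    intro E hE hES
    have hcd : ContinuousOn Φ S := by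
      have hw' : DifferentiableOn ℂ (deriv w) S := hw.deriv hS
      exact hchic.continuousOn.mul (hw'.continuousOn.norm.pow 2)
    exact (hcd.mono hES).aestronglyMeasurable hE
  have hBint : IntegrableOn Φ B := by
    refine ⟨hmeas B hB hBS, ?_⟩
    rw [hasFiniteIntegral_iff_ofReal (Eventually.of_forall hΦ0)]
    exact lt_of_le_of_ne le_top htop
  have hBint' : Integrable (B.indicator Φ) := hBint.integrable_indicator hB
  set Ψ : ℂ → ℝ := fun z => 4 * ((n : ℝ) + 3) * (κ' * B.indicator Φ z) + chi z * hL S w c R n z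
    with hΨ
  have hΨint : Integrable Ψ := ((hBint'.const_mul κ').const_mul _).add i1
  have hn : (0 : ℝ) < 4 * ((n : ℝ) + 3) := by positivity
  have hΨval : ∀ z ∈ S, Ψ z = 4 * ((n : ℝ) + 3) * (κ' * B.indicator Φ z + Φ z * kk w c R n z) := by
    intro z hz
    rw [hΨ]
    simp only
    rw [hL_eq, indicator_of_mem hz, hΦ]
    ring
  have hΨ0 : ∀ z, 0 ≤ Ψ z := by
    intro z
    by_cases hz : z ∈ S
    · rw [hΨval z hz]
      apply mul_nonneg hn.le
      by_cases hzB : z ∈ B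
      · rw [indicator_of_mem hzB]
        have := mul_le_mul_of_nonneg_left (h3 z hz) (hΦ0 z)
        linarith
      · rw [indicator_of_notMem hzB, mul_zero, zero_add]
        exact mul_nonneg (hΦ0 z) (h2 z hz hzB)
    · have hzB : z ∉ B := fun h => hz (hBS h)
      rw [hΨ]
      simp only
      rw [hL_eq, indicator_of_notMem hz, indicator_of_notMem hzB]
      simp
  have hΨA : ∀ z ∈ A, 4 * ((n : ℝ) + 3) * (κ * Φ z) ≤ Ψ z := by
    intro z hz
    rw [hΨval z (hAS hz)]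
    apply mul_le_mul_of_nonneg_left _ hn.le
    have h5 : 0 ≤ κ' * B.indicator Φ z :=
      mul_nonneg hκ'.le (indicator_nonneg (fun z _ => hΦ0 z) _)
    have h6 := mul_le_mul_of_nonneg_left (h1 z hz) (hΦ0 z)
    linarith
  have key1 : ∫⁻ z in A, ENNReal.ofReal (4 * ((n : ℝ) + 3) * (κ * Φ z)) ≤
      ENNReal.ofReal (∫ z, Ψ z) := by
    rw [ofReal_integral_eq_lintegral_ofReal hΨint (Eventually.of_forall hΨ0)]
    calc ∫⁻ z in A, ENNReal.ofReal (4 * ((n : ℝ) + 3) * (κ * Φ z))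
        ≤ ∫⁻ z in A, ENNReal.ofReal (Ψ z) :=
          setLIntegral_mono' hA fun z hz => ENNReal.ofReal_le_ofReal (hΨA z hz)
      _ ≤ ∫⁻ z, ENNReal.ofReal (Ψ z) := setLIntegral_le_lintegral _ _
  have key2 : ∫ z, Ψ z ≤ 4 * ((n : ℝ) + 3) * (κ' * ∫ z in B, Φ z) + cL * (R ^ 2) ^ (n + 3) := by
    rw [hΨ, integral_add ((hBint'.const_mul κ').const_mul _) i1, integral_const_mul,
      integral_const_mul, integral_indicator hB]
    linarith
  have key3 : ENNReal.ofReal (∫ z in B, Φ z) = ∫⁻ z in B, ENNReal.ofReal (Φ z) :=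
    ofReal_integral_eq_lintegral_ofReal hBint (Eventually.of_forall hΦ0)
  have hn1 : (1 : ℝ) ≤ 4 * ((n : ℝ) + 3) := by
    have : (0 : ℝ) ≤ n := Nat.cast_nonneg n
    linarith
  have hcLR : 0 ≤ cL * (R ^ 2) ^ (n + 3) := mul_nonneg cL_nonneg (by positivity)
  have hIB : 0 ≤ ∫ z in B, Φ z := integral_nonneg hΦ0
  have e1 : ∫⁻ z in A, ENNReal.ofReal (4 * ((n : ℝ) + 3) * (κ * Φ z)) =
      ENNReal.ofReal (4 * ((n : ℝ) + 3)) * (ENNReal.ofReal κ *
        ∫⁻ z in A, ENNReal.ofReal (Φ z)) := by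
    have : ∀ z, ENNReal.ofReal (4 * ((n : ℝ) + 3) * (κ * Φ z)) =
        ENNReal.ofReal (4 * ((n : ℝ) + 3)) * (ENNReal.ofReal κ * ENNReal.ofReal (Φ z)) := by
      intro z
      rw [ENNReal.ofReal_mul hn.le, ENNReal.ofReal_mul hκ.le]
    simp_rw [this]
    rw [lintegral_const_mul' _ _ ENNReal.ofReal_ne_top,
      lintegral_const_mul' _ _ ENNReal.ofReal_ne_top]
  have e2 : ENNReal.ofReal (4 * ((n : ℝ) + 3)) * (ENNReal.ofReal κ *
        ∫⁻ z in A, ENNReal.ofReal (Φ z)) ≤ ENNReal.ofReal (4 * ((n : ℝ) + 3)) *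
      (ENNReal.ofReal κ' * (∫⁻ z in B, ENNReal.ofReal (Φ z)) +
        ENNReal.ofReal (cL * (R ^ 2) ^ (n + 3))) := by
    rw [← e1]
    refine key1.trans ((ENNReal.ofReal_le_ofReal key2).trans ?_)
    rw [← key3, ← ENNReal.ofReal_mul hκ'.le, ← ENNReal.ofReal_add (mul_nonneg hκ'.le hIB) hcLR,
      ← ENNReal.ofReal_mul hn.le]
    apply ENNReal.ofReal_le_ofReal
    nlinarith
  exact (ENNReal.mul_le_mul_iff_right (by simpa using hn) ENNReal.ofReal_ne_top).1 e2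

end one

section seq

/-- the mass of a sheet over a set -/
noncomputable def ms (S : Set ℂ) (w : ℂ → ℂ) (E : Set ℂ) : ℝ≥0∞ :=
  ∫⁻ z in S ∩ w ⁻¹' E, ENNReal.ofReal (chi z * ‖deriv w z‖ ^ 2)

theorem ms_mono {S : Set ℂ} {w : ℂ → ℂ} {E E' : Set ℂ} (h : E ⊆ E') : ms S w E ≤ ms S w E' :=
  lintegral_mono_set (inter_subset_inter_right _ (preimage_mono h))

variable {U : Set ℂ} {S : ℕ → Set ℂ} {w : ℕ → ℂ → ℂ} {r : ℝ}

/-- bounded mass near a point -/
def Lt (S : ℕ → Set ℂ) (w : ℕ → ℂ → ℂ) (c : ℂ) : Prop :=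
  ∃ δ : ℝ, 0 < δ ∧ ∃ C : ℝ≥0∞, C ≠ ⊤ ∧ ∀ m, ms (S m) (w m) (ball c δ) ≤ C

theorem spread (hU : IsOpen U) (hKU : closedBall (0 : ℂ) 1 ⊆ U) (hS : ∀ m, IsOpen (S m))
    (hw : ∀ m, DifferentiableOn ℂ (w m) (S m))
    (hZ : ∀ m, ∀ (c : ℂ) (R : ℝ), 0 < R → ‖c‖ + R < r → ∀ z ∈ U, z ∉ S m →
      ∀ᶠ z' in 𝓝 z, z' ∈ S m → xi (w m) c R z' ≤ 0) {x : ℂ} (hx : ‖x‖ < r) :
    ∃ ρ : ℝ, 0 < ρ ∧ ∀ y, ‖y - x‖ < ρ → Lt S w y → Lt S w x := by
  set R : ℝ := (r - ‖x‖) / 3 with hR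
  have hR0 : 0 < R := by rw [hR]; linarith
  refine ⟨R / 2, by positivity, fun y hy hLt => ?_⟩
  by_cases hyx : y = x
  · rwa [hyx] at hLt
  obtain ⟨δ, hδ, C, hC, hb⟩ := hLt
  set m0 : ℝ := ‖y - x‖ with hm0
  have hm0p : 0 < m0 := norm_pos_iff.2 (sub_ne_zero.2 hyx)
  -- choice of the exponent
  obtain ⟨n, hn⟩ := exists_nat_gt (R ^ 2 / min (δ ^ 2) (m0 ^ 2 / 4))
  have hmin : 0 < min (δ ^ 2) (m0 ^ 2 / 4) := lt_min (by positivity) (by positivity)
  have hn1 : R ^ 2 < ((n : ℝ) + 3) * min (δ ^ 2) (m0 ^ 2 / 4) := by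
    rw [div_lt_iff₀ hmin] at hn
    nlinarith
  have hn2 : R ^ 2 < ((n : ℝ) + 3) * δ ^ 2 := by
    refine hn1.trans_le ?_
    gcongr
    exact min_le_left _ _
  have hn3 : R ^ 2 < ((n : ℝ) + 3) * (m0 ^ 2 / 4) := by
    refine hn1.trans_le ?_
    gcongr
    exact min_le_right _ _
  set δ' : ℝ := min (m0 / 4) (R / 4) with hδ'
  have hδ'0 : 0 < δ' := lt_min (by positivity) (by positivity)
  set κ : ℝ := (7 * R ^ 2 / 16) ^ (n + 1) * (((n : ℝ) + 3) * (m0 ^ 2 * 5 / 16)) with hκ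
  have hκ0 : 0 < κ := by positivity
  set κ' : ℝ := (R ^ 2) ^ (n + 1) * R ^ 2 with hκ'
  have hκ'0 : 0 < κ' := by positivity
  refine ⟨δ', hδ'0, (ENNReal.ofReal κ)⁻¹ * (ENNReal.ofReal κ' * C +
    ENNReal.ofReal (cL * (R ^ 2) ^ (n + 3))), ?_, fun m => ?_⟩
  · apply ENNReal.mul_ne_top
    · simpa using hκ0
    · exact ENNReal.add_ne_top.2 ⟨ENNReal.mul_ne_top ENNReal.ofReal_ne_top hC,
        ENNReal.ofReal_ne_top⟩
  · have hyr : ‖y‖ + R < r := by
      have : ‖y‖ ≤ ‖y - x‖ + ‖x‖ := by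
        calc ‖y‖ = ‖(y - x) + x‖ := by rw [sub_add_cancel]
          _ ≤ _ := norm_add_le _ _
      rw [hR] at hy ⊢
      linarith
    have hwc : ContinuousOn (w m) (S m) := (hw m).continuousOn
    have hA : MeasurableSet (S m ∩ w m ⁻¹' ball x δ') :=
      (hwc.isOpen_inter_preimage (hS m) isOpen_ball).measurableSet
    have hB : MeasurableSet (S m ∩ w m ⁻¹' ball y δ) :=
      (hwc.isOpen_inter_preimage (hS m) isOpen_ball).measurableSet
    have key := mass_ineq (n := n) (κ := κ) (κ' := κ') hU hKU (hS m) (hw m)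
      (hZ m y R hR0 hyr) hA hB inter_subset_left inter_subset_left hκ0 hκ'0 ?_ ?_ ?_
    · have h5 : ENNReal.ofReal κ ≠ 0 := by simpa using hκ0
      rw [← ENNReal.mul_le_iff_le_inv h5 ENNReal.ofReal_ne_top]
      refine key.trans ?_
      gcongr
      exact hb m
    · rintro z ⟨-, hz⟩
      have hz' : ‖w m z - x‖ < δ' := by simpa [dist_eq_norm] using hz
      have hz1 : ‖w m z - x‖ < m0 / 4 := hz'.trans_le (min_le_left _ _)
      have hz2 : ‖w m z - x‖ < R / 4 := hz'.trans_le (min_le_right _ _)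
      have h5 : ‖w m z - y‖ ≤ ‖w m z - x‖ + m0 := by
        calc ‖w m z - y‖ = ‖(w m z - x) - (y - x)‖ := by congr 1; ring
          _ ≤ _ := norm_sub_le _ _
      have h6 : m0 ≤ ‖w m z - x‖ + ‖w m z - y‖ := by
        calc m0 = ‖(w m z - x) - (w m z - y)‖ := by rw [hm0]; congr 1; ring
          _ ≤ _ := norm_sub_le _ _
      have h7 : 3 * m0 / 4 ≤ ‖w m z - y‖ := by linarith
      have h8 : ‖w m z - y‖ ≤ 3 * R / 4 := by linarith
      have h9 : 9 * m0 ^ 2 / 16 ≤ ‖w m z - y‖ ^ 2 := by nlinarith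
      have h10 : ‖w m z - y‖ ^ 2 ≤ 9 * R ^ 2 / 16 := by nlinarith [norm_nonneg (w m z - y)]
      have h11 : 7 * R ^ 2 / 16 ≤ xi (w m) y R z := by
        unfold xi
        linarith
      have h12 : (7 * R ^ 2 / 16) ^ (n + 1) ≤ pp (n + 1) (xi (w m) y R z) := by
        rw [pp_of_nonneg _ (le_trans (by positivity) h11)]
        exact pow_le_pow_left₀ (by positivity) h11 _
      have h13 : ((n : ℝ) + 3) * (m0 ^ 2 * 5 / 16) ≤
          ((n : ℝ) + 3) * ‖w m z - y‖ ^ 2 - R ^ 2 := by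
        have h14 : ((n : ℝ) + 3) * (9 * m0 ^ 2 / 16) ≤ ((n : ℝ) + 3) * ‖w m z - y‖ ^ 2 := by
          gcongr
        linarith
      unfold kk
      rw [hκ]
      gcongr
      exact pp_nonneg _ _
    · rintro z hz hzB
      have h5 : δ ≤ ‖w m z - y‖ := by
        by_contra hcon
        apply hzB
        refine ⟨hz, ?_⟩
        simpa [dist_eq_norm] using not_le.1 hcon
      have h6 : δ ^ 2 ≤ ‖w m z - y‖ ^ 2 := by gcongr
      have h7 : 0 ≤ ((n : ℝ) + 3) * ‖w m z - y‖ ^ 2 - R ^ 2 := by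
        have : ((n : ℝ) + 3) * δ ^ 2 ≤ ((n : ℝ) + 3) * ‖w m z - y‖ ^ 2 := by gcongr
        linarith
      exact mul_nonneg (pp_nonneg _ _) h7
    · intro z _
      have h5 : pp (n + 1) (xi (w m) y R z) ≤ (R ^ 2) ^ (n + 1) := by
        unfold pp xi
        apply pow_le_pow_left₀ (le_max_right _ _)
        apply max_le _ (sq_nonneg R)
        have := sq_nonneg ‖w m z - y‖
        linarith
      have h6 : -(R ^ 2) ≤ ((n : ℝ) + 3) * ‖w m z - y‖ ^ 2 - R ^ 2 := by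
        have : 0 ≤ ((n : ℝ) + 3) * ‖w m z - y‖ ^ 2 := by positivity
        linarith
      unfold kk
      have h7 := pp_nonneg (n + 1) (xi (w m) y R z)
      calc -κ' = -((R ^ 2) ^ (n + 1) * R ^ 2) := rfl
        _ ≤ -(pp (n + 1) (xi (w m) y R z) * R ^ 2) := by
          apply neg_le_neg
          gcongr
        _ = pp (n + 1) (xi (w m) y R z) * (-(R ^ 2)) := by ring
        _ ≤ _ := by gcongr

theorem dich (hU : IsOpen U) (hKU : closedBall (0 : ℂ) 1 ⊆ U) (hS : ∀ m, IsOpen (S m))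
    (hw : ∀ m, DifferentiableOn ℂ (w m) (S m))
    (hZ : ∀ m, ∀ (c : ℂ) (R : ℝ), 0 < R → ‖c‖ + R < r → ∀ z ∈ U, z ∉ S m →
      ∀ᶠ z' in 𝓝 z, z' ∈ S m → xi (w m) c R z' ≤ 0) {x y : ℂ} (hx : ‖x‖ < r) (hy : ‖y‖ < r)
    (hLt : Lt S w x) : Lt S w y := by
  have hpre : IsPreconnected (ball (0 : ℂ) r) := (convex_ball (0 : ℂ) r).isPreconnected
  have key := hpre.induction₂' (fun x y => Lt S w x → Lt S w y) (by
    intro a ha
    have ha' : ‖a‖ < r := by simpa using ha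
    obtain ⟨ρ, hρ, hsp⟩ := spread hU hKU hS hw hZ ha'
    by_cases hLa : Lt S w a
    · obtain ⟨δ, hδ, C, hC, hb⟩ := hLa
      have h1 : ∀ᶠ b in 𝓝 a, Lt S w b := by
        filter_upwards [ball_mem_nhds a (half_pos hδ)] with b hb'
        refine ⟨δ / 2, half_pos hδ, C, hC, fun m => le_trans (ms_mono ?_) (hb m)⟩
        apply ball_subset_ball'
        rw [mem_ball] at hb'
        linarith
      filter_upwards [mem_nhdsWithin_of_mem_nhds h1] with b hb'
      exact ⟨fun _ => hb', fun _ => ⟨δ, hδ, C, hC, hb⟩⟩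
    · have h1 : ∀ᶠ b in 𝓝 a, ¬ Lt S w b := by
        filter_upwards [ball_mem_nhds a hρ] with b hb' hLb
        rw [mem_ball, dist_eq_norm] at hb'
        exact hLa (hsp b hb' hLb)
      filter_upwards [mem_nhdsWithin_of_mem_nhds h1] with b hb'
      exact ⟨fun h => absurd h hLa, fun h => absurd h hb'⟩)
    (by
      intro a b c _ _ _ h1 h2 h3
      exact h2 (h1 h3))
    (by simpa using hx : x ∈ ball (0 : ℂ) r) (by simpa using hy : y ∈ ball (0 : ℂ) r)
  exact key hLt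

end seq

end Run7.h644
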