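import Pool.Agent.Run7.h644.Tube
import Pool.Agent.Run7.h644.Harnack
import Pool.Agent.Run7.h644.Growth

/-!
The heavy cone of a disc: cones of unbounded mass of the iterates of a holomorphic disc.
-/

set_option autoImplicit false
set_option linter.unusedSectionVars false
open Set Filter Topology Metric MeasureTheory
open scoped ENNReal

namespace Run7.h644

section defs

variable {V : Type*} [NormedAddCommGroup V] [NormedSpace ℂ V]

/-- the iterates of the points of the disc -/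
def vn (F : V → V) (a b' : V) (n : ℕ) (t : ℂ) : V := F^[n + 1] (a + t • b')

/-- mass of the iterated disc in a cone -/
noncomputable def IH (F : V → V) (ℓ : V →L[ℂ] ℂ × ℂ) (a b' : V) (n : ℕ) (N : Set V) : ℝ≥0∞ :=
  ∫⁻ t in closedBall (0 : ℂ) 1 ∩ {t | vn F a b' n t ∈ N},
    ENNReal.ofReal (chi t * rho (fun t => ℓ (vn F a b' n t)) t)

/-- cones with bounded mass -/
def Light (F : V → V) (ℓ : V →L[ℂ] ℂ × ℂ) (a b' : V) (N : Set V) : Prop :=
  ∃ C : ℝ≥0∞, C ≠ ⊤ ∧ ∀ n, IH F ℓ a b' n N ≤ C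

/-- the heavy cone -/
def HH (F : V → V) (ℓ : V →L[ℂ] ℂ × ℂ) (a b' : V) : Set V :=
  {v | v ≠ 0 ∧ ∀ N, IsOpen N → IsCone N → v ∈ N → ¬ Light F ℓ a b' N}

end defs

section basics

variable {V : Type*} [NormedAddCommGroup V] [NormedSpace ℂ V]
variable {F : V → V} {ℓ : V →L[ℂ] ℂ × ℂ} {a b' : V}

theorem Light.mono {N N' : Set V} (h : Light F ℓ a b' N') (hN : N ⊆ N') : Light F ℓ a b' N := by
  obtain ⟨C, hC, hb⟩ := h
  refine ⟨C, hC, fun n => le_trans (lintegral_mono_set ?_) (hb n)⟩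
  rintro t ⟨ht, ht'⟩
  exact ⟨ht, hN ht'⟩

theorem Light.union {N N' : Set V} (h : Light F ℓ a b' N) (h' : Light F ℓ a b' N') :
    Light F ℓ a b' (N ∪ N') := by
  obtain ⟨C, hC, hb⟩ := h
  obtain ⟨C', hC', hb'⟩ := h'
  refine ⟨C + C', ENNReal.add_ne_top.2 ⟨hC, hC'⟩, fun n => ?_⟩
  have h1 : closedBall (0 : ℂ) 1 ∩ {t | vn F a b' n t ∈ N ∪ N'} ⊆
      (closedBall (0 : ℂ) 1 ∩ {t | vn F a b' n t ∈ N}) ∪
        (closedBall (0 : ℂ) 1 ∩ {t | vn F a b' n t ∈ N'}) := by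
    rintro t ⟨ht, ht' | ht'⟩
    · exact Or.inl ⟨ht, ht'⟩
    · exact Or.inr ⟨ht, ht'⟩
  exact (lintegral_mono_set h1).trans ((lintegral_union_le _ _ _).trans
    (add_le_add (hb n) (hb' n)))

theorem Light.empty : Light F ℓ a b' (∅ : Set V) := by
  refine ⟨0, ENNReal.zero_ne_top, fun n => ?_⟩
  simp [IH]

theorem HH_cone : IsCone (HH F ℓ a b') := by
  rintro c hc v ⟨hv, h⟩
  refine ⟨smul_ne_zero hc hv, fun N hN hNc hvN => h N hN hNc ((hNc.smul_mem_iff hc).1 hvN)⟩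

theorem HH_closed {v : V} (hv : v ∈ closure (HH F ℓ a b')) (h0 : v ≠ 0) : v ∈ HH F ℓ a b' := by
  refine ⟨h0, fun N hN hNc hvN => ?_⟩
  obtain ⟨h, hhN, hh⟩ := mem_closure_iff.1 hv N hN hvN
  exact hh.2 N hN hNc hhN

/-- compact sets avoiding the heavy cone have a light conical neighbourhood -/
theorem exists_light {E : Set V} (hE : IsCompact E) (hE0 : ∀ v ∈ E, v ≠ 0)
    (hEH : ∀ v ∈ E, v ∉ HH F ℓ a b') :
    ∃ N, IsOpen N ∧ IsCone N ∧ E ⊆ N ∧ Light F ℓ a b' N := by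
  have h1 : ∀ v ∈ E, ∃ N, IsOpen N ∧ IsCone N ∧ v ∈ N ∧ Light F ℓ a b' N := by
    intro v hv
    have h2 := hEH v hv
    by_contra hcon
    push Not at hcon
    exact h2 ⟨hE0 v hv, fun N hN hNc hvN hL => hcon N hN hNc hvN hL⟩
  choose! N hN using h1
  obtain ⟨t, ht, hcov⟩ := hE.elim_nhds_subcover N
    (fun v hv => (hN v hv).1.mem_nhds (hN v hv).2.2.1)
  refine ⟨⋃ v ∈ t, N v, isOpen_biUnion fun v hv => (hN v (ht v hv)).1, ?_, hcov, ?_⟩
  · intro c hc v hv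
    rw [mem_iUnion₂] at hv ⊢
    obtain ⟨w, hw, hvw⟩ := hv
    exact ⟨w, hw, (hN w (ht w hw)).2.1 c hc v hvw⟩
  · clear hcov
    classical
    induction t using Finset.induction_on with
    | empty =>
      simp only [Finset.notMem_empty, iUnion_of_empty, iUnion_empty]
      exact Light.empty
    | insert x t _ ih =>
      rw [Finset.set_biUnion_insert]
      exact ((hN x (ht x (Finset.mem_insert_self _ _))).2.2.2).union
        (ih fun v hv => ht v (Finset.mem_insert_of_mem hv))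

end basics

section disc

variable {V : Type*} [NormedAddCommGroup V] [NormedSpace ℂ V] [FiniteDimensional ℂ V]
variable {F : V → V} {ℓ : V →L[ℂ] ℂ × ℂ} {a b' : V} {d : ℕ}

theorem vn_diff (hF : HomMap d F) (n : ℕ) : Differentiable ℂ (vn F a b' n) := by
  have h1 : ∀ m : ℕ, Differentiable ℂ F^[m] := by
    intro m
    induction m with
    | zero => exact differentiable_id
    | succ m ih =>
      rw [Function.iterate_succ']
      exact hF.diff.comp ih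
  unfold vn
  exact (h1 (n + 1)).comp ((differentiable_id.smul_const b').const_add a)

theorem vn_succ (n : ℕ) (t : ℂ) : vn F a b' (n + 1) t = F (vn F a b' n t) :=
  Function.iterate_succ_apply' F (n + 1) _

theorem vn_mem {W : Set V} (hW : Trap F W) {t : ℂ} (ht : a + t • b' ∈ W) (n : ℕ) :
    vn F a b' n t ∈ KK F W ∧ vn F a b' n t ∈ W := by
  have h1 : ∀ m : ℕ, F^[m] (a + t • b') ∈ W := by
    intro m
    induction m with
    | zero => exact ht
    | succ m ih =>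
      rw [Function.iterate_succ_apply']
      exact hW.mapsTo ih
  refine ⟨?_, h1 (n + 1)⟩
  unfold vn
  rw [Function.iterate_succ_apply']
  exact mem_KK (h1 n)

/-- the heavy cone lies in the image cone of every trapping cone containing the disc -/
theorem HH_subset_KK (hF : HomMap d F) (hd : 1 ≤ d) {W : Set V} (hW : Trap F W)
    (hdisc : ∀ t : ℂ, ‖t‖ ≤ 1 → a + t • b' ∈ W) : HH F ℓ a b' ⊆ KK F W := by
  intro v hv
  by_contra hcon
  refine hv.2 (KK F W)ᶜ (KK_closed hF hd W).isOpen_compl ?_ hcon ?_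
  · intro c hc w hw h
    exact hw (((KK_cone hF hd hW.cone).smul_mem_iff hc).1 h)
  · refine ⟨0, ENNReal.zero_ne_top, fun n => ?_⟩
    have h1 : closedBall (0 : ℂ) 1 ∩ {t | vn F a b' n t ∈ (KK F W)ᶜ} = ∅ := by
      rw [eq_empty_iff_forall_notMem]
      rintro t ⟨ht, ht'⟩
      exact ht' (vn_mem hW (hdisc t (by simpa using ht)) n).1
    unfold IH
    rw [h1]
    simp

/-- the heavy cone is nonempty when the total mass is unbounded -/
theorem HH_nonempty (hF : HomMap d F) (hd : 1 ≤ d) {W : Set V} (hW : Trap F W) {M : ℝ}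
    (hM : ∀ v ∈ closure W, ‖v‖ ≤ M * ‖ℓ v‖)
    (hdisc : ∀ t : ℂ, ‖t‖ ≤ 1 → a + t • b' ∈ W) (hL : ¬ Light F ℓ a b' univ) :
    (HH F ℓ a b').Nonempty := by
  by_contra hne
  rw [not_nonempty_iff_eq_empty] at hne
  obtain ⟨N, hN, hNc, hEN, hNL⟩ := exists_light (F := F) (ℓ := ℓ) (a := a) (b' := b')
    (KK_compact (ℓ := ℓ) hF hd hW hM) (by
      rintro v ⟨-, hv⟩ rfl
      have hv' : ‖ℓ (0 : V)‖ = 1 := hv
      simp at hv') (by simp [hne])
  apply hL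
  obtain ⟨C, hC, hb⟩ := hNL
  refine ⟨C, hC, fun n => le_trans (lintegral_mono_set ?_) (hb n)⟩
  rintro t ⟨ht, -⟩
  refine ⟨ht, ?_⟩
  have h1 := vn_mem (F := F) (a := a) (b' := b') hW (hdisc t (by simpa using ht)) n
  set v := vn F a b' n t with hv
  have h2 : v ≠ 0 := hW.ne_zero h1.2
  have h3 : 0 < ‖ℓ v‖ := by
    have h4 := hM v (subset_closure h1.2)
    have h5 := norm_pos_iff.2 h2
    by_contra hcon
    have h6 : ‖ℓ v‖ = 0 := le_antisymm (not_lt.1 hcon) (norm_nonneg _)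
    rw [h6, mul_zero] at h4
    linarith
  have h4 : (((‖ℓ v‖ : ℝ) : ℂ))⁻¹ • v ∈ N := by
    apply hEN
    refine ⟨KK_cone hF hd hW.cone _ (inv_ofReal_ne h3) v h1.1, ?_⟩
    show ‖ℓ ((((‖ℓ v‖ : ℝ) : ℂ))⁻¹ • v)‖ = 1
    rw [map_smul, norm_smul, norm_smul_inv h3]
    exact inv_mul_cancel₀ h3.ne'
  exact (hNc.smul_mem_iff (inv_ofReal_ne h3)).1 h4

/-- the sheets of the disc in a tube -/
def SS (F : V → V) (ℓ : V →L[ℂ] ℂ × ℂ) (a b' : V) (W : Set V) (v0 b : V) (r : ℝ) (g : Set V)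
    (n : ℕ) : Set ℂ := {t | a + t • b' ∈ W ∧ vn F a b' n t ∈ TT ℓ v0 b r g}

/-- their projections -/
noncomputable def wn (F : V → V) (ℓ : V →L[ℂ] ℂ × ℂ) (a b' : V) (v0 b : V) (n : ℕ) (t : ℂ) : ℂ :=
  uu ℓ v0 b (vn F a b' n t)

variable {W : Set V} {v0 b : V} {r : ℝ} {C g : Set V}

theorem SS_open (hF : HomMap d F) (hW : Trap F W) (hg : IsOpen g) (n : ℕ) :
    IsOpen (SS F ℓ a b' W v0 b r g n) := by
  apply IsOpen.inter
  · exact hW.isOpen.preimage (by fun_prop : Continuous fun t : ℂ => a + t • b')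
  · exact (TT_open r hg).preimage (vn_diff hF n).continuous

theorem wn_hasDerivAt (hF : HomMap d F) (hb : dl ℓ v0 b = 1) {n : ℕ} {t : ℂ}
    (ht : al ℓ b (vn F a b' n t) ≠ 0) :
    HasDerivAt (wn F ℓ a b' v0 b n)
      (wd (ℓ (vn F a b' n t)) (deriv (fun t => ℓ (vn F a b' n t)) t) /
        (al ℓ b (vn F a b' n t)) ^ 2) t := by
  have h1 : HasDerivAt (vn F a b' n) (deriv (vn F a b' n) t) t :=
    (vn_diff hF n t).hasDerivAt
  set v := vn F a b' n t with hv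
  set v' := deriv (vn F a b' n) t with hv'
  have h2 : HasDerivAt (fun t => dl ℓ v0 (vn F a b' n t)) (dl ℓ v0 v') t :=
    (dl ℓ v0).hasFDerivAt.comp_hasDerivAt t h1
  have h3 : HasDerivAt (fun t => al ℓ b (vn F a b' n t)) (al ℓ b v') t :=
    (al ℓ b).hasFDerivAt.comp_hasDerivAt t h1
  have h4 : deriv (fun t => ℓ (vn F a b' n t)) t = ℓ v' :=
    (ℓ.hasFDerivAt.comp_hasDerivAt t h1).deriv
  have h5 := h2.div h3 ht
  have h6 : (dl ℓ v0 v' * al ℓ b v - dl ℓ v0 v * al ℓ b v') = wd (ℓ v) (ℓ v') := by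
    have h7 := wedge_eq hb v v'
    have h8 : wd (ℓ v) (ℓ v') = dl ℓ v v' := by rw [dl_apply]; rfl
    rw [h8, ← h7]
    ring
  rw [h4, ← h6]
  exact h5

theorem norm_deriv_wn (hF : HomMap d F) (hb : dl ℓ v0 b = 1) {n : ℕ} {t : ℂ}
    (ht : al ℓ b (vn F a b' n t) ≠ 0) :
    ‖deriv (wn F ℓ a b' v0 b n) t‖ ^ 2 =
      rho (fun t => ℓ (vn F a b' n t)) t * (qq (ℓ v0 + wn F ℓ a b' v0 b n t • ℓ b)) ^ 2 := by
  rw [(wn_hasDerivAt hF hb ht).deriv]
  unfold rho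
  have h1 : ℓ (vn F a b' n t) = al ℓ b (vn F a b' n t) •
      (ℓ v0 + wn F ℓ a b' v0 b n t • ℓ b) := by
    conv_lhs => rw [ell_eq hb (vn F a b' n t)]
    rw [smul_add, smul_smul]
    unfold wn uu
    rw [mul_div_cancel₀ _ ht]
  have h2 : ℓ (vn F a b' n t) ≠ 0 := by
    intro h0
    apply ht
    rw [al_apply, h0]
    simp
  have h3 : 0 < qq (ℓ (vn F a b' n t)) := qq_pos h2
  have h4 : qq (ℓ (vn F a b' n t)) = ‖al ℓ b (vn F a b' n t)‖ ^ 2 *
      qq (ℓ v0 + wn F ℓ a b' v0 b n t • ℓ b) := by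
    conv_lhs => rw [h1]
    rw [qq_smul]
  have h5 : ‖al ℓ b (vn F a b' n t)‖ ≠ 0 := norm_ne_zero_iff.2 ht
  have h6 : qq (ℓ v0 + wn F ℓ a b' v0 b n t • ℓ b) ≠ 0 := by
    intro h0
    rw [h0, mul_zero] at h4
    exact h3.ne' h4
  simp only
  rw [h4, norm_div, norm_pow]
  field_simp

/-- comparison constants over a closed disc of the base -/
theorem exists_comp (hb : dl ℓ v0 b = 1) (r : ℝ) :
    ∃ m1 m2 : ℝ, 0 < m1 ∧ 0 < m2 ∧ ∀ u : ℂ, ‖u‖ ≤ r →
      m1 ≤ (qq (ℓ v0 + u • ℓ b)) ^ 2 ∧ (qq (ℓ v0 + u • ℓ b)) ^ 2 ≤ m2 := by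
  have hne : ∀ u : ℂ, ℓ v0 + u • ℓ b ≠ 0 := by
    intro u h0
    have h1 : al ℓ b (v0 + u • b + 0) = 1 := al_pt hb (map_zero ℓ) u
    rw [add_zero] at h1
    have h2 : ℓ (v0 + u • b) = 0 := by rw [map_add, map_smul, h0]
    rw [al_apply, h2] at h1
    simp at h1
  have hcont : Continuous fun u : ℂ => (qq (ℓ v0 + u • ℓ b)) ^ 2 :=
    (qq_cont.comp (by fun_prop)).pow 2
  by_cases hr : (closedBall (0 : ℂ) r).Nonempty
  · obtain ⟨u1, -, h1⟩ := (isCompact_closedBall (0 : ℂ) r).exists_isMinOn hr hcont.continuousOn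
    obtain ⟨u2, -, h2⟩ := (isCompact_closedBall (0 : ℂ) r).exists_isMaxOn hr hcont.continuousOn
    refine ⟨_, _, pow_pos (qq_pos (hne u1)) 2, pow_pos (qq_pos (hne u2)) 2, fun u hu => ⟨?_, ?_⟩⟩
    · exact h1 (by simpa using hu : u ∈ closedBall (0 : ℂ) r)
    · exact h2 (by simpa using hu : u ∈ closedBall (0 : ℂ) r)
  · refine ⟨1, 1, one_pos, one_pos, fun u hu => ?_⟩
    exfalso
    exact hr ⟨u, by simpa using hu⟩

/-- upper bound of the mass of a cone inside a tube by the mass of the sheets -/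
theorem IH_le_ms (hF : HomMap d F) (hb : dl ℓ v0 b = 1) (hg : IsOpen g) (hW : Trap F W)
    (hdisc : ∀ t : ℂ, ‖t‖ ≤ 1 → a + t • b' ∈ W) {m1 : ℝ} (hm1 : 0 < m1)
    (hm : ∀ u : ℂ, ‖u‖ ≤ r → m1 ≤ (qq (ℓ v0 + u • ℓ b)) ^ 2) {N : Set V} {E : Set ℂ}
    (hNE : ∀ v ∈ N, v ∈ TT ℓ v0 b r g ∧ uu ℓ v0 b v ∈ E) (hE : IsOpen E) (n : ℕ) :
    IH F ℓ a b' n N ≤ ENNReal.ofReal m1⁻¹ *
      ms (SS F ℓ a b' W v0 b r g n) (wn F ℓ a b' v0 b n) E := by
  have hSo := SS_open (ℓ := ℓ) (a := a) (b' := b') (v0 := v0) (b := b) (r := r) hF hW hg n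
  have hwd : DifferentiableOn ℂ (wn F ℓ a b' v0 b n) (SS F ℓ a b' W v0 b r g n) := fun t ht =>
    (wn_hasDerivAt hF hb ht.2.1).differentiableAt.differentiableWithinAt
  have hmeas : MeasurableSet (SS F ℓ a b' W v0 b r g n ∩ wn F ℓ a b' v0 b n ⁻¹' E) :=
    (hwd.continuousOn.isOpen_inter_preimage hSo hE).measurableSet
  unfold IH ms
  rw [← lintegral_const_mul' _ _ ENNReal.ofReal_ne_top]
  refine (lintegral_mono_set (t := SS F ℓ a b' W v0 b r g n ∩ wn F ℓ a b' v0 b n ⁻¹' E) ?_).trans ?_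
  · rintro t ⟨ht, ht'⟩
    exact ⟨⟨hdisc t (by simpa using ht), (hNE _ ht').1⟩, (hNE _ ht').2⟩
  · apply setLIntegral_mono' hmeas
    rintro t ⟨ht, -⟩
    rw [← ENNReal.ofReal_mul (by positivity)]
    apply ENNReal.ofReal_le_ofReal
    rw [norm_deriv_wn hF hb ht.2.1]
    have h1 := hm (wn F ℓ a b' v0 b n t) ht.2.2.1.le
    have h2 := rho_nonneg (fun t => ℓ (vn F a b' n t)) t
    have h3 := chi_nonneg t
    have h4 : 1 ≤ m1⁻¹ * (qq (ℓ v0 + wn F ℓ a b' v0 b n t • ℓ b)) ^ 2 := by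
      rw [inv_mul_eq_div, le_div_iff₀ hm1]
      linarith
    calc chi t * rho (fun t => ℓ (vn F a b' n t)) t
        = (chi t * rho (fun t => ℓ (vn F a b' n t)) t) * 1 := by ring
      _ ≤ (chi t * rho (fun t => ℓ (vn F a b' n t)) t) *
          (m1⁻¹ * (qq (ℓ v0 + wn F ℓ a b' v0 b n t • ℓ b)) ^ 2) := by gcongr
      _ = _ := by ring

/-- upper bound of the mass of the sheets by the mass of a cone -/
theorem ms_le_IH (hF : HomMap d F) (hb : dl ℓ v0 b = 1) (hg : IsOpen g) (hW : Trap F W)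
    {m2 : ℝ} (hm2 : 0 < m2)
    (hm : ∀ u : ℂ, ‖u‖ ≤ r → (qq (ℓ v0 + u • ℓ b)) ^ 2 ≤ m2) {N : Set V} {E : Set ℂ}
    (hNE : ∀ v ∈ TT ℓ v0 b r g, uu ℓ v0 b v ∈ E → v ∈ N) (hE : IsOpen E) (n : ℕ) :
    ms (SS F ℓ a b' W v0 b r g n) (wn F ℓ a b' v0 b n) E ≤
      ENNReal.ofReal m2 * IH F ℓ a b' n N := by
  have hSo := SS_open (ℓ := ℓ) (a := a) (b' := b') (v0 := v0) (b := b) (r := r) hF hW hg n
  have hwd : DifferentiableOn ℂ (wn F ℓ a b' v0 b n) (SS F ℓ a b' W v0 b r g n) := fun t ht =>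
    (wn_hasDerivAt hF hb ht.2.1).differentiableAt.differentiableWithinAt
  have hmeas : MeasurableSet (SS F ℓ a b' W v0 b r g n ∩ wn F ℓ a b' v0 b n ⁻¹' E) :=
    (hwd.continuousOn.isOpen_inter_preimage hSo hE).measurableSet
  unfold IH ms
  rw [← lintegral_const_mul' _ _ ENNReal.ofReal_ne_top]
  set A := SS F ℓ a b' W v0 b r g n ∩ wn F ℓ a b' v0 b n ⁻¹' E with hA
  have h1 : ∫⁻ t in A, ENNReal.ofReal (chi t * ‖deriv (wn F ℓ a b' v0 b n) t‖ ^ 2) ≤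
      ∫⁻ t in A ∩ closedBall (0 : ℂ) 1,
        ENNReal.ofReal (chi t * ‖deriv (wn F ℓ a b' v0 b n) t‖ ^ 2) := by
    rw [← lintegral_indicator hmeas, ← lintegral_indicator (hmeas.inter measurableSet_closedBall)]
    apply lintegral_mono
    intro t
    by_cases ht : t ∈ A
    · by_cases ht' : t ∈ closedBall (0 : ℂ) 1
      · rw [indicator_of_mem ht, indicator_of_mem (show t ∈ A ∩ closedBall (0 : ℂ) 1 from ⟨ht, ht'⟩)]
      · rw [indicator_of_mem ht]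
        have : chi t = 0 := by
          rw [mem_closedBall_zero_iff, not_le] at ht'
          rw [chi_eq]
          apply pp_of_nonpos 2
          nlinarith
        rw [this]
        simp
    · rw [indicator_of_notMem ht]
      exact bot_le
  refine h1.trans ?_
  have h2 : A ∩ closedBall (0 : ℂ) 1 ⊆ closedBall (0 : ℂ) 1 ∩ {t | vn F a b' n t ∈ N} := by
    rintro t ⟨⟨ht1, ht2⟩, ht3⟩
    exact ⟨ht3, hNE _ ht1.2 ht2⟩
  refine le_trans ?_ (lintegral_mono_set h2)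
  apply setLIntegral_mono' (hmeas.inter measurableSet_closedBall)
  rintro t ⟨⟨ht, -⟩, -⟩
  rw [← ENNReal.ofReal_mul hm2.le]
  apply ENNReal.ofReal_le_ofReal
  rw [norm_deriv_wn hF hb ht.2.1]
  have h1 := hm (wn F ℓ a b' v0 b n t) ht.2.2.1.le
  have h2 := rho_nonneg (fun t => ℓ (vn F a b' n t)) t
  have h3 := chi_nonneg t
  calc chi t * (rho (fun t => ℓ (vn F a b' n t)) t *
      (qq (ℓ v0 + wn F ℓ a b' v0 b n t • ℓ b)) ^ 2)
      = (chi t * rho (fun t => ℓ (vn F a b' n t)) t) *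
        (qq (ℓ v0 + wn F ℓ a b' v0 b n t • ℓ b)) ^ 2 := by ring
    _ ≤ (chi t * rho (fun t => ℓ (vn F a b' n t)) t) * m2 := by gcongr
    _ = _ := by ring

end disc

end Run7.h644
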