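import Pool.Agent.Run7.h644.Heavy
import Pool.Agent.Run7.h644.Growth2

/-!
Heavy points, tubes and the dynamics.
-/

set_option autoImplicit false
set_option linter.unusedSectionVars false
open Set Filter Topology Metric MeasureTheory
open scoped ENNReal

namespace Run7.h644

section wd

theorem wd_zero {P x y : ℂ × ℂ} (hP : P ≠ 0) (hx : wd P x = 0) (hy : wd P y = 0) :
    wd x y = 0 := by
  unfold wd at *
  by_cases h1 : P.1 = 0
  · have h2 : P.2 ≠ 0 := fun h2 => hP (Prod.ext h1 h2)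
    rw [h1] at hx hy
    have hx1 : x.1 = 0 := by
      have : P.2 * x.1 = 0 := by linear_combination -hx
      exact (mul_eq_zero.1 this).resolve_left h2
    have hy1 : y.1 = 0 := by
      have : P.2 * y.1 = 0 := by linear_combination -hy
      exact (mul_eq_zero.1 this).resolve_left h2
    rw [hx1, hy1]
    ring
  · have h3 : P.1 * (x.1 * y.2 - x.2 * y.1) = 0 := by
      linear_combination x.1 * hy - y.1 * hx
    exact (mul_eq_zero.1 h3).resolve_left h1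

theorem wd_nonconst {G : ℂ × ℂ → ℂ × ℂ} {d : ℕ} (hG : HomMap d G) (hd : 1 ≤ d) {P : ℂ × ℂ}
    (hP : P ≠ 0) (h : ∀ x, wd P (G x) = 0) : False := by
  have key : ∀ c : ℂ → ℂ × ℂ, Differentiable ℂ c → ∀ t, rho (fun t => G (c t)) t = 0 := by
    intro c hc t
    have h1 : HasDerivAt (fun t => G (c t)) (deriv (fun t => G (c t)) t) t :=
      ((hG.diff.comp hc) t).hasDerivAt
    have h2 : HasDerivAt (fun t => wd P (G (c t))) (wd P (deriv (fun t => G (c t)) t)) t := by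
      unfold wd
      have e1 : HasDerivAt (fun t => (G (c t)).1) (deriv (fun t => G (c t)) t).1 t :=
        (ContinuousLinearMap.fst ℂ ℂ ℂ).hasFDerivAt.comp_hasDerivAt t h1
      have e2 : HasDerivAt (fun t => (G (c t)).2) (deriv (fun t => G (c t)) t).2 t :=
        (ContinuousLinearMap.snd ℂ ℂ ℂ).hasFDerivAt.comp_hasDerivAt t h1
      exact (e2.const_mul P.1).sub (e1.const_mul P.2)
    have h3 : (fun t => wd P (G (c t))) = fun _ => 0 := funext fun t => h (c t)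
    rw [h3] at h2
    have h4 : wd P (deriv (fun t => G (c t)) t) = 0 := by
      have := h2.unique (hasDerivAt_const t (0 : ℂ))
      exact this
    unfold rho
    rw [wd_zero hP (h (c t)) h4]
    simp
  have h1 := growth hG
  have hM1 : M1 G = 0 := by
    unfold M1
    simp [key (fun t => (1, t)) ((differentiable_const _).prodMk differentiable_id)]
  have hM2 : M2 G = 0 := by
    unfold M2
    simp [key (fun t => (t, 1)) (differentiable_id.prodMk (differentiable_const _))]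
  rw [hM1, hM2, add_zero, nonpos_iff_eq_zero, ENNReal.ofReal_eq_zero] at h1
  have h2 : 0 < Real.pi * d / 8 := by
    have : (0 : ℝ) < d := by exact_mod_cast hd
    have := Real.pi_pos
    positivity
  linarith

end wd

section cover

theorem ms_union {S : Set ℂ} {w : ℂ → ℂ} (E E' : Set ℂ) :
    ms S w (E ∪ E') ≤ ms S w E + ms S w E' := by
  unfold ms
  rw [preimage_union, inter_union_distrib_left]
  exact lintegral_union_le _ _ _

theorem Lt_compact {S : ℕ → Set ℂ} {w : ℕ → ℂ → ℂ} {K : Set ℂ} (hK : IsCompact K)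
    (h : ∀ c ∈ K, Lt S w c) :
    ∃ E, IsOpen E ∧ K ⊆ E ∧ ∃ C : ℝ≥0∞, C ≠ ⊤ ∧ ∀ m, ms (S m) (w m) E ≤ C := by
  classical
  choose! δ hδ C hC hb using h
  obtain ⟨t, ht, hcov⟩ := hK.elim_nhds_subcover (fun c => ball c (δ c))
    (fun c hc => ball_mem_nhds c (hδ c hc))
  refine ⟨⋃ c ∈ t, ball c (δ c), isOpen_biUnion fun c _ => isOpen_ball, hcov, ∑ c ∈ t, C c, ?_,
    fun m => ?_⟩
  · exact ENNReal.sum_ne_top.2 fun c hc => hC c (ht c hc)
  · clear hcov
    induction t using Finset.induction_on with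
    | empty => simp [ms]
    | insert x t hx ih =>
      rw [Finset.set_biUnion_insert, Finset.sum_insert hx]
      exact (ms_union _ _).trans (add_le_add (hb x (ht x (Finset.mem_insert_self _ _)) m)
        (ih fun v hv => ht v (Finset.mem_insert_of_mem hv)))

end cover

section disc

variable {V : Type*} [NormedAddCommGroup V] [NormedSpace ℂ V] [FiniteDimensional ℂ V]
variable {F : V → V} {ℓ : V →L[ℂ] ℂ × ℂ} {G : ℂ × ℂ → ℂ × ℂ} {a b' : V} {d : ℕ}
variable {W : Set V} {M : ℝ} {v0 b : V} {r : ℝ} {C g : Set V}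

theorem ell_ne (hW : Trap F W) (hM : ∀ v ∈ closure W, ‖v‖ ≤ M * ‖ℓ v‖) {v : V}
    (hv : v ∈ W) : ℓ v ≠ 0 := by
  intro h0
  have h1 := hM v (subset_closure hv)
  rw [h0, norm_zero, mul_zero] at h1
  exact hW.ne_zero hv (norm_le_zero_iff.1 h1)

theorem SS_hZ (hF : HomMap d F) (hd : 1 ≤ d) (hW : Trap F W)
    (hM : ∀ v ∈ closure W, ‖v‖ ≤ M * ‖ℓ v‖) (hT : Tube F ℓ W v0 b r C g) :
    ∀ n, ∀ (c : ℂ) (R : ℝ), 0 < R → ‖c‖ + R < r → ∀ t ∈ {t : ℂ | a + t • b' ∈ W},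
      t ∉ SS F ℓ a b' W v0 b r g n → ∀ᶠ t' in 𝓝 t, t' ∈ SS F ℓ a b' W v0 b r g n →
        xi (wn F ℓ a b' v0 b n) c R t' ≤ 0 := by
  intro n c R hR hcR t ht htS
  have hv := vn_mem (F := F) (a := a) (b' := b') hW ht n
  have h1 : vn F a b' n t ∉ TR ℓ v0 b c R C := by
    rintro ⟨h1, h2, h3⟩
    have h4 : ‖uu ℓ v0 b (vn F a b' n t)‖ < r := by
      calc ‖uu ℓ v0 b (vn F a b' n t)‖ = ‖(uu ℓ v0 b (vn F a b' n t) - c) + c‖ := by
            rw [sub_add_cancel]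
        _ ≤ ‖uu ℓ v0 b (vn F a b' n t) - c‖ + ‖c‖ := norm_add_le _ _
        _ < r := by linarith
    exact htS ⟨ht, h1, h4, hT.mem_of hF hd hW hv.1 h1 h4.le h3⟩
  have h2 : vn F a b' n t ∉ closure (TR ℓ v0 b c R C) := fun h =>
    h1 (TR_closed hT.hb c R hT.comp.isClosed h (ell_ne hW hM hv.2))
  have h3 : ∀ᶠ t' in 𝓝 t, vn F a b' n t' ∈ (closure (TR ℓ v0 b c R C))ᶜ :=
    (vn_diff hF n).continuous.continuousAt.preimage_mem_nhds
      (isClosed_closure.isOpen_compl.mem_nhds h2)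
  filter_upwards [h3] with t' ht' hS
  have h4 : vn F a b' n t' ∉ TR ℓ v0 b c R C := fun h => ht' (subset_closure h)
  obtain ⟨-, h5, h6, h7⟩ := hS
  have h8 : R < ‖uu ℓ v0 b (vn F a b' n t') - c‖ := by
    by_contra hcon
    exact h4 ⟨h5, not_lt.1 hcon, hT.gC _ h7 (ell_sg hT.hb h5)⟩
  unfold xi wn
  nlinarith

theorem tube_dich (hF : HomMap d F) (hd : 1 ≤ d) (hW : Trap F W)
    (hM : ∀ v ∈ closure W, ‖v‖ ≤ M * ‖ℓ v‖) (hdisc : ∀ t : ℂ, ‖t‖ ≤ 1 → a + t • b' ∈ W)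
    (hT : Tube F ℓ W v0 b r C g) {x y : ℂ} (hx : ‖x‖ < r) (hy : ‖y‖ < r)
    (hLt : Lt (SS F ℓ a b' W v0 b r g) (wn F ℓ a b' v0 b) x) :
    Lt (SS F ℓ a b' W v0 b r g) (wn F ℓ a b' v0 b) y := by
  refine dich (U := {t : ℂ | a + t • b' ∈ W})
    (hW.isOpen.preimage (by fun_prop : Continuous fun t : ℂ => a + t • b')) ?_
    (fun m => SS_open hF hW hT.gopen m) ?_ (SS_hZ hF hd hW hM hT) hx hy hLt
  · intro t ht
    exact hdisc t (by simpa using ht)
  · intro m t ht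
    exact (wn_hasDerivAt hF hT.hb ht.2.1).differentiableAt.differentiableWithinAt

/-- a tube containing a heavy point has unbounded mass everywhere -/
theorem not_Lt_of_heavy (hF : HomMap d F) (hd : 1 ≤ d) (hW : Trap F W)
    (hM : ∀ v ∈ closure W, ‖v‖ ≤ M * ‖ℓ v‖) (hdisc : ∀ t : ℂ, ‖t‖ ≤ 1 → a + t • b' ∈ W)
    (hT : Tube F ℓ W v0 b r C g) {h : V} (hh : h ∈ HH F ℓ a b') (hhT : h ∈ TT ℓ v0 b r g)
    {c : ℂ} (hc : ‖c‖ < r) : ¬ Lt (SS F ℓ a b' W v0 b r g) (wn F ℓ a b' v0 b) c := by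
  intro hLt
  obtain ⟨δ, hδ, C', hC', hb'⟩ := tube_dich hF hd hW hM hdisc hT hc hhT.2.1 hLt
  obtain ⟨m1, m2, hm1, hm2, hcomp⟩ := exists_comp (ℓ := ℓ) hT.hb r
  set N : Set V := TT ℓ v0 b r g ∩ {v | uu ℓ v0 b v ∈ ball (uu ℓ v0 b h) δ} with hN
  have hNo : IsOpen N := by
    have h1 := uu_contOn (ℓ := ℓ) (v0 := v0) (b := b) |>.isOpen_inter_preimage al_open
      (isOpen_ball (x := uu ℓ v0 b h) (ε := δ))
    have h2 : N = TT ℓ v0 b r g ∩ ({v | al ℓ b v ≠ 0} ∩ uu ℓ v0 b ⁻¹' ball (uu ℓ v0 b h) δ) := by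
      ext v
      constructor
      · rintro ⟨h3, h4⟩
        exact ⟨h3, h3.1, h4⟩
      · rintro ⟨h3, -, h4⟩
        exact ⟨h3, h4⟩
    rw [h2]
    exact (TT_open r hT.gopen).inter h1
  have hNc : IsCone N := by
    rintro c hc v ⟨h1, h2⟩
    refine ⟨TT_cone r g c hc v h1, ?_⟩
    show uu ℓ v0 b (c • v) ∈ ball (uu ℓ v0 b h) δ
    rwa [uu_smul hc]
  have hhN : h ∈ N := ⟨hhT, (mem_ball_self hδ : uu ℓ v0 b h ∈ ball (uu ℓ v0 b h) δ)⟩
  refine hh.2 N hNo hNc hhN ⟨ENNReal.ofReal m1⁻¹ * C',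
    ENNReal.mul_ne_top ENNReal.ofReal_ne_top hC', fun n => ?_⟩
  refine (IH_le_ms hF hT.hb hT.gopen hW hdisc hm1 (fun u hu => (hcomp u hu).1)
    (fun v hv => hv) isOpen_ball n).trans ?_
  gcongr
  exact hb' n

/-- unbounded mass near a point of the base gives a heavy point above it -/
theorem exists_heavy (hF : HomMap d F) (hW : Trap F W)
    (hT : Tube F ℓ W v0 b r C g) {c : ℂ} (hc : ‖c‖ < r)
    (hLt : ¬ Lt (SS F ℓ a b' W v0 b r g) (wn F ℓ a b' v0 b) c) :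
    ∃ s ∈ C, v0 + c • b + s ∈ HH F ℓ a b' := by
  by_contra hcon
  push Not at hcon
  apply hLt
  obtain ⟨m1, m2, hm1, hm2, hcomp⟩ := exists_comp (ℓ := ℓ) hT.hb r
  have hE : IsCompact ((fun s => v0 + c • b + s) '' C) := hT.comp.image (by fun_prop)
  obtain ⟨N, hNo, hNc, hEN, C', hC', hNb⟩ := exists_light (F := F) (ℓ := ℓ) (a := a) (b' := b') hE
    (by
      rintro _ ⟨s, hs, rfl⟩
      exact hW.ne_zero (hT.inW c hc.le s hs)) (by
      rintro _ ⟨s, hs, rfl⟩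
      exact hcon s hs)
  obtain ⟨δ0, hδ0, hth⟩ := hE.exists_thickening_subset_open hNo hEN
  refine ⟨δ0 / (‖b‖ + 1), by positivity, ENNReal.ofReal m2 * C',
    ENNReal.mul_ne_top ENNReal.ofReal_ne_top hC', fun n => ?_⟩
  refine (ms_le_IH (N := N) hF hT.hb hT.gopen hW hm2 (fun u hu => (hcomp u hu).2) ?_
    isOpen_ball n).trans ?_
  · intro v hv hvu
    have h1 := sg_eq (ℓ := ℓ) (v0 := v0) (b := b) hv.1
    have h2 : sg ℓ v0 b v ∈ C := hT.gC _ hv.2.2 (ell_sg hT.hb hv.1)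
    have h3 : v0 + uu ℓ v0 b v • b + sg ℓ v0 b v ∈ N := by
      apply hth
      rw [mem_thickening_iff]
      refine ⟨v0 + c • b + sg ℓ v0 b v, ⟨_, h2, rfl⟩, ?_⟩
      have h4 : v0 + uu ℓ v0 b v • b + sg ℓ v0 b v - (v0 + c • b + sg ℓ v0 b v) =
          (uu ℓ v0 b v - c) • b := by
        rw [sub_smul]
        abel
      rw [dist_eq_norm, h4, norm_smul]
      have h5 : ‖uu ℓ v0 b v - c‖ < δ0 / (‖b‖ + 1) := by simpa [dist_eq_norm] using hvu
      rw [lt_div_iff₀ (by positivity)] at h5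
      have h6 := norm_nonneg (uu ℓ v0 b v - c)
      nlinarith [norm_nonneg b]
    rw [h1]
    exact hNc _ hv.1 _ h3
  · gcongr
    exact hNb n

end disc

end Run7.h644
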