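import Pool.Agent.Run7.h644.Basic
import Pool.Agent.Run7.h644.Contr

/-!
Minimal cones missing a hyperplane are isolated.
-/

set_option autoImplicit false
set_option linter.unusedSectionVars false
open Set Filter Topology Metric

namespace Run7.h644

section

variable {V : Type*} [NormedAddCommGroup V] [NormedSpace ℂ V] [FiniteDimensional ℂ V]
variable {B : Type*} [NormedAddCommGroup B] [NormedSpace ℂ B] [FiniteDimensional ℂ B]
variable {d : ℕ} {F : V → V} {ℓ : V →L[ℂ] B}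

/-- normalisation of a vector by the norm of its image -/
theorem norm_smul_inv {a : ℝ} (ha : 0 < a) : ‖(((a : ℝ) : ℂ))⁻¹‖ = a⁻¹ := by
  rw [norm_inv, Complex.norm_real, Real.norm_of_nonneg ha.le]

theorem inv_ofReal_ne {a : ℝ} (ha : 0 < a) : (((a : ℝ) : ℂ))⁻¹ ≠ 0 :=
  inv_ne_zero (by exact_mod_cast ha.ne')

theorem cone_bound {Q : Set V} (hc : IsCone Q) (hcl : ∀ v ∈ closure Q, v ≠ 0 → v ∈ Q)
    (h0 : (0 : V) ∉ Q) (hℓ : ∀ q ∈ Q, ℓ q ≠ 0) :
    ∃ δ : ℝ, 0 < δ ∧ ∀ q ∈ Q, δ * ‖q‖ < ‖ℓ q‖ := by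
  have hproper : ProperSpace V := FiniteDimensional.proper ℂ V
  have h1 : IsCompact (closure Q ∩ sphere (0 : V) 1) :=
    (isCompact_sphere _ _).inter_left isClosed_closure
  have hmem : ∀ v ∈ closure Q ∩ sphere (0 : V) 1, v ∈ Q := by
    intro v hv
    apply hcl v hv.1
    rintro rfl
    simpa using hv.2
  by_cases hne : (closure Q ∩ sphere (0 : V) 1).Nonempty
  · obtain ⟨v0, hv0, hmin⟩ := h1.exists_isMinOn hne (f := fun v => ‖ℓ v‖)
      ((by fun_prop : Continuous fun v => ‖ℓ v‖).continuousOn)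
    have hpos : 0 < ‖ℓ v0‖ := norm_pos_iff.2 (hℓ _ (hmem _ hv0))
    refine ⟨‖ℓ v0‖ / 2, by positivity, fun q hq => ?_⟩
    have hq0 : 0 < ‖q‖ := norm_pos_iff.2 fun h => h0 (h ▸ hq)
    have h2 : ‖ℓ v0‖ ≤ ‖ℓ ((((‖q‖ : ℝ) : ℂ))⁻¹ • q)‖ :=
      hmin (a := (((‖q‖ : ℝ) : ℂ))⁻¹ • q) ⟨subset_closure (hc _ (inv_ofReal_ne hq0) q hq), by
      rw [mem_sphere_zero_iff_norm, norm_smul, norm_smul_inv hq0]
      exact inv_mul_cancel₀ hq0.ne'⟩
    rw [map_smul, norm_smul, norm_smul_inv hq0] at h2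
    have h3 : ‖ℓ v0‖ * ‖q‖ ≤ ‖ℓ q‖ := by
      calc ‖ℓ v0‖ * ‖q‖ ≤ (‖q‖⁻¹ * ‖ℓ q‖) * ‖q‖ := by gcongr
        _ = ‖ℓ q‖ := by field_simp
    have : 0 < ‖ℓ v0‖ * ‖q‖ := by positivity
    linarith
  · refine ⟨1, one_pos, fun q hq => ?_⟩
    exfalso
    apply hne
    have hq0 : 0 < ‖q‖ := norm_pos_iff.2 fun h => h0 (h ▸ hq)
    refine ⟨(((‖q‖ : ℝ) : ℂ))⁻¹ • q, subset_closure (hc _ (inv_ofReal_ne hq0) q hq), ?_⟩
    rw [mem_sphere_zero_iff_norm, norm_smul, norm_smul_inv hq0]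
    exact inv_mul_cancel₀ hq0.ne'

/-- trapping cones on which `ℓ` controls the norm -/
theorem exists_bounded_trap {Q : Set V} (hQ : MQ F Q) (hℓ : ∀ q ∈ Q, ℓ q ≠ 0) :
    ∃ W, Trap F W ∧ Q ⊆ W ∧ ∃ M : ℝ, 0 < M ∧ ∀ v ∈ closure W, ‖v‖ ≤ M * ‖ℓ v‖ := by
  obtain ⟨δ, hδ, hb⟩ := cone_bound (ℓ := ℓ) hQ.cone hQ.closed hQ.zero hℓ
  obtain ⟨W, hW, hQW, hWO⟩ := hQ.small {v | δ * ‖v‖ < ‖ℓ v‖}
    (isOpen_lt (by fun_prop) (by fun_prop)) (by
      intro c hc v hv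
      have h1 : 0 < ‖c‖ := norm_pos_iff.2 hc
      show δ * ‖c • v‖ < ‖ℓ (c • v)‖
      rw [map_smul, norm_smul, norm_smul]
      have h2 : δ * ‖v‖ < ‖ℓ v‖ := hv
      calc δ * (‖c‖ * ‖v‖) = ‖c‖ * (δ * ‖v‖) := by ring
        _ < ‖c‖ * ‖ℓ v‖ := mul_lt_mul_of_pos_left h2 h1) hb
  refine ⟨W, hW, hQW, δ⁻¹, by positivity, fun v hv => ?_⟩
  have h1 : IsClosed {v : V | δ * ‖v‖ ≤ ‖ℓ v‖} := isClosed_le (by fun_prop) (by fun_prop)
  have h2 : δ * ‖v‖ ≤ ‖ℓ v‖ :=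
    closure_minimal (fun w hw => (show δ * ‖w‖ < ‖ℓ w‖ from hWO hw).le) h1 hv
  rw [inv_mul_eq_div, le_div_iff₀ hδ]
  linarith

theorem KK_compact (hF : HomMap d F) (hd : 1 ≤ d) {W : Set V} (hW : Trap F W) {M : ℝ}
    (hM : ∀ v ∈ closure W, ‖v‖ ≤ M * ‖ℓ v‖) : IsCompact (KK F W ∩ {v | ‖ℓ v‖ = 1}) := by
  have hproper : ProperSpace V := FiniteDimensional.proper ℂ V
  apply Metric.isCompact_of_isClosed_isBounded
  · exact (KK_closed hF hd W).inter (isClosed_eq (by fun_prop) continuous_const)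
  · apply (isBounded_closedBall (x := (0 : V)) (r := M)).subset
    rintro v ⟨hv, hv1⟩
    have hv1' : ‖ℓ v‖ = 1 := hv1
    have hv0 : v ≠ 0 := by
      rintro rfl
      simp at hv1'
    rw [mem_closedBall_zero_iff]
    have := hM v (subset_closure (hW.KK_mem hF hd hv hv0))
    rwa [hv1', mul_one] at this

theorem margin (hF : HomMap d F) (hd : 1 ≤ d) {W : Set V} (hW : Trap F W) {M : ℝ}
    (hM : ∀ v ∈ closure W, ‖v‖ ≤ M * ‖ℓ v‖) :
    ∃ η : ℝ, 0 < η ∧ ∀ v ∈ KK F W, v ≠ 0 → ∀ z : V, ‖z‖ < η * ‖ℓ v‖ → v + z ∈ W := by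
  have h1 := KK_compact hF hd hW hM
  have h2 : KK F W ∩ {v | ‖ℓ v‖ = 1} ⊆ W := by
    rintro v ⟨hv, hv1⟩
    apply hW.KK_mem hF hd hv
    rintro rfl
    have hv1' : ‖ℓ (0 : V)‖ = 1 := hv1
    simp at hv1'
  obtain ⟨η, hη, hth⟩ := h1.exists_thickening_subset_open hW.isOpen h2
  refine ⟨η, hη, fun v hv hv0 z hz => ?_⟩
  have hℓv : 0 < ‖ℓ v‖ := by
    have h3 := hM v (subset_closure (hW.KK_mem hF hd hv hv0))
    have h4 := norm_pos_iff.2 hv0
    by_contra hcon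
    have h5 : ‖ℓ v‖ = 0 := le_antisymm (not_lt.1 hcon) (norm_nonneg _)
    rw [h5, mul_zero] at h3
    linarith
  have h6 : (((‖ℓ v‖ : ℝ) : ℂ))⁻¹ • (v + z) ∈ thickening η (KK F W ∩ {v | ‖ℓ v‖ = 1}) := by
    rw [mem_thickening_iff]
    refine ⟨(((‖ℓ v‖ : ℝ) : ℂ))⁻¹ • v, ⟨KK_cone hF hd hW.cone _ (inv_ofReal_ne hℓv) v hv, ?_⟩, ?_⟩
    · show ‖ℓ ((((‖ℓ v‖ : ℝ) : ℂ))⁻¹ • v)‖ = 1
      rw [map_smul, norm_smul, norm_smul_inv hℓv]
      exact inv_mul_cancel₀ hℓv.ne'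
    · rw [dist_eq_norm, ← smul_sub, norm_smul, norm_smul_inv hℓv, add_sub_cancel_left,
        inv_mul_eq_div, div_lt_iff₀ hℓv]
      exact hz
  exact (hW.cone.smul_mem_iff (inv_ofReal_ne hℓv)).1 (hth h6)

/-- minimal cones missing a hyperplane are isolated -/
theorem iso_of_hyperplane (hF : HomMap d F) (hd : 1 ≤ d) {Q : Set V} (hQ : MQ F Q)
    (φ : V →L[ℂ] ℂ) (hφ : ∀ q ∈ Q, φ q ≠ 0) : Iso F Q := by
  have hproper : ProperSpace V := FiniteDimensional.proper ℂ V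
  obtain ⟨W, hW, hQW, M, hM0, hM⟩ := exists_bounded_trap (ℓ := φ) hQ hφ
  obtain ⟨η, hη, hmar⟩ := margin hF hd hW hM
  -- the normalised map
  set f : V → V := fun v => (φ (F v))⁻¹ • F v with hf
  set U : Set V := {v | v ∈ W ∧ φ v = 1} with hU
  have hφW : ∀ v ∈ W, φ v ≠ 0 := by
    intro v hv h0
    have h1 := hM v (subset_closure hv)
    rw [h0, norm_zero, mul_zero] at h1
    exact hW.ne_zero hv (norm_le_zero_iff.1 h1)
  set ε : ℝ := η / (4 * M) with hε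
  have hε0 : 0 < ε := by positivity
  have hfK : ∀ w ∈ U, f w ∈ KK F W ∧ φ (f w) = 1 ∧ ‖f w‖ ≤ M := by
    intro w hw
    have h1 : F w ∈ W := hW.mapsTo hw.1
    have h2 : φ (F w) ≠ 0 := hφW _ h1
    have h3 : f w ∈ W := hW.cone _ (inv_ne_zero h2) _ h1
    have h4 : φ (f w) = 1 := by
      show φ ((φ (F w))⁻¹ • F w) = 1
      rw [map_smul, smul_eq_mul, inv_mul_cancel₀ h2]
    refine ⟨KK_cone hF hd hW.cone _ (inv_ne_zero h2) _ (mem_KK hw.1), h4, ?_⟩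
    have := hM _ (subset_closure h3)
    rwa [h4, norm_one, mul_one] at this
  have hdiff : ∀ n : ℕ, ∀ w ∈ (fun _ : ℕ => U) n, DifferentiableAt ℂ ((fun _ : ℕ => f) n) w := by
    intro _ w hw
    have h2 : φ (F w) ≠ 0 := hφW _ (hW.mapsTo hw.1)
    have h3 : DifferentiableAt ℂ (fun v => φ (F v)) w :=
      φ.differentiableAt.comp w (hF.diff w)
    exact (h3.inv h2).smul (hF.diff w)
  have hstep : ∀ n : ℕ, ∀ w ∈ (fun _ : ℕ => U) n, ∀ w' ∈ (fun _ : ℕ => U) n,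
      (fun _ : ℕ => f) n w' + ((1 + ε : ℝ) : ℂ) • ((fun _ : ℕ => f) n w - (fun _ : ℕ => f) n w') ∈
        (fun _ : ℕ => U) (n + 1) := by
    intro _ w hw w' hw'
    obtain ⟨h1, h2, h3⟩ := hfK w hw
    obtain ⟨h1', h2', h3'⟩ := hfK w' hw'
    have h4 : f w' + ((1 + ε : ℝ) : ℂ) • (f w - f w') = f w + ((ε : ℝ) : ℂ) • (f w - f w') := by
      push_cast
      rw [add_smul, one_smul]
      abel
    show f w' + ((1 + ε : ℝ) : ℂ) • (f w - f w') ∈ U
    rw [h4]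
    have hne : f w ≠ 0 := by
      intro h
      rw [h, map_zero] at h2
      exact zero_ne_one h2
    refine ⟨hmar _ h1 hne _ ?_, ?_⟩
    · rw [h2, norm_one, mul_one, norm_smul, Complex.norm_real, Real.norm_of_nonneg hε0.le]
      calc ε * ‖f w - f w'‖ ≤ ε * (M + M) := by
            gcongr
            exact (norm_sub_le _ _).trans (add_le_add h3 h3')
        _ = η / 2 := by
            rw [hε]
            field_simp
            ring
        _ < η := by linarith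
    · rw [map_add, h2, map_smul, map_sub, h2, h2', sub_self, smul_zero, add_zero]
  have hbd : ∀ n : ℕ, ∀ w ∈ (fun _ : ℕ => U) n, ‖w‖ ≤ (fun _ : ℕ => M) n := by
    intro _ w hw
    have := hM _ (subset_closure hw.1)
    rwa [hw.2, norm_one, mul_one] at this
  -- iterates
  have hiter : ∀ n : ℕ, ∀ w ∈ U, orb (fun _ : ℕ => f) n w = (φ (F^[n] w))⁻¹ • F^[n] w ∧
      F^[n] w ∈ W := by
    intro n w hw
    induction n with
    | zero => simp [orb, hw.1, hw.2]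
    | succ n ih =>
      obtain ⟨ih1, ih2⟩ := ih
      have h2 : φ (F^[n] w) ≠ 0 := hφW _ ih2
      rw [Function.iterate_succ_apply']
      refine ⟨?_, hW.mapsTo ih2⟩
      show f (orb (fun _ : ℕ => f) n w) = _
      rw [ih1]
      show (φ (F ((φ (F^[n] w))⁻¹ • F^[n] w)))⁻¹ • F ((φ (F^[n] w))⁻¹ • F^[n] w) = _
      rw [hF.hom, map_smul, smul_smul, smul_eq_mul, mul_inv, mul_comm (((φ (F^[n] w))⁻¹ ^ d)⁻¹),
        mul_assoc, inv_mul_cancel₀ (pow_ne_zero _ (inv_ne_zero h2)), mul_one]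
  -- compact set of normalised points of Q
  have hQc : IsCompact (closure Q ∩ {v | φ v = 1}) := by
    apply Metric.isCompact_of_isClosed_isBounded
    · exact isClosed_closure.inter (isClosed_eq φ.continuous continuous_const)
    · apply (isBounded_closedBall (x := (0 : V)) (r := M)).subset
      rintro v ⟨hv, hv1⟩
      have hv1' : φ v = 1 := hv1
      rw [mem_closedBall_zero_iff]
      have := hM v (closure_mono hQW hv)
      rwa [hv1', norm_one, mul_one] at this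
  have hQ1 : ∀ v ∈ closure Q ∩ {v | φ v = 1}, v ∈ Q := by
    rintro v ⟨hv, hv1⟩
    apply hQ.closed v hv
    rintro rfl
    have hv1' : φ (0 : V) = 1 := hv1
    simp at hv1'
  obtain ⟨ρ, hρ, hth⟩ := hQc.exists_thickening_subset_open hW.isOpen
    (fun v hv => hQW (hQ1 v hv))
  -- the small neighbourhood
  set O : Set V := {v | φ v ≠ 0 ∧ (φ v)⁻¹ • v ∈ thickening (ρ / 3) (closure Q ∩ {v | φ v = 1})}
    with hO
  have hOo : IsOpen O := by
    have h1 : IsOpen {v : V | φ v ≠ 0} := isOpen_ne_fun φ.continuous continuous_const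
    have h2 : ContinuousOn (fun v : V => (φ v)⁻¹ • v) {v : V | φ v ≠ 0} := by
      apply ContinuousOn.smul _ continuousOn_id
      exact ContinuousOn.inv₀ φ.continuous.continuousOn fun v hv => hv
    exact h2.isOpen_inter_preimage h1 isOpen_thickening
  have hOc : IsCone O := by
    rintro c hc v ⟨hv1, hv2⟩
    refine ⟨by rw [map_smul, smul_eq_mul]; exact mul_ne_zero hc hv1, ?_⟩
    have : (φ (c • v))⁻¹ • c • v = (φ v)⁻¹ • v := by
      rw [map_smul, smul_eq_mul, smul_smul, mul_inv, mul_comm c⁻¹, mul_assoc,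
        inv_mul_cancel₀ hc, mul_one]
    rw [this]
    exact hv2
  have hQO : Q ⊆ O := by
    intro q hq
    refine ⟨hφ q hq, self_subset_thickening (by positivity) _ ⟨?_, ?_⟩⟩
    · exact subset_closure (hQ.cone _ (inv_ne_zero (hφ q hq)) q hq)
    · show φ ((φ q)⁻¹ • q) = 1
      rw [map_smul, smul_eq_mul, inv_mul_cancel₀ (hφ q hq)]
  obtain ⟨W', hW', hQW', hWO'⟩ := hQ.small (O ∩ W) (hOo.inter hW.isOpen) (hOc.inter hW.cone)
    (subset_inter hQO hQW)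
  refine ⟨W', hW', hQW', fun P hP => ?_⟩
  have hP0 : P ∈ W' := by
    obtain ⟨w, hw, hwP⟩ := hP 0
    simpa [← hwP] using hw
  have hPφ : φ P ≠ 0 := (hWO' hP0).1.1
  -- approximation
  have happ : ∀ n : ℕ, ∃ q ∈ Q, ‖(φ P)⁻¹ • P - q‖ ≤ 2 * M * ((1 + ε)⁻¹) ^ n := by
    intro n
    obtain ⟨w, hw, hwP⟩ := hP n
    obtain ⟨⟨hw1, hw2⟩, hw3⟩ := hWO' hw
    set w' : V := (φ w)⁻¹ • w with hw'
    have hw'U : w' ∈ U := by
      refine ⟨hW.cone _ (inv_ne_zero hw1) _ hw3, ?_⟩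
      rw [hw', map_smul, smul_eq_mul, inv_mul_cancel₀ hw1]
    rw [mem_thickening_iff] at hw2
    obtain ⟨q, hq, hdq⟩ := hw2
    have hqQ : q ∈ Q := hQ1 q hq
    have hqφ : φ q = 1 := hq.2
    have h1 := contr_two (v := q) (s := w' - q) hε0 hdiff hstep hbd (by
      intro τ hτ
      refine ⟨hth ?_, ?_⟩
      · rw [mem_thickening_iff]
        refine ⟨q, hq, ?_⟩
        rw [dist_eq_norm, add_sub_cancel_left, norm_smul]
        rw [dist_eq_norm] at hdq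
        have h3 : 0 ≤ ‖w' - q‖ := norm_nonneg _
        have h4 : 0 ≤ ‖τ‖ := norm_nonneg _
        calc ‖τ‖ * ‖w' - q‖ ≤ 3 * ‖w' - q‖ := by gcongr
          _ < 3 * (ρ / 3) := by gcongr
          _ = ρ := by ring
      · rw [map_add, map_smul, map_sub, hw'U.2, hqφ, sub_self, smul_zero, add_zero]) n
    rw [add_sub_cancel] at h1
    have h5 := hiter n w' hw'U
    have h6 := hiter n q ⟨hQW hqQ, hqφ⟩
    have h7 : orb (fun _ : ℕ => f) n w' = (φ P)⁻¹ • P := by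
      rw [h5.1, hw', hF.iter_hom, hwP, map_smul, smul_smul, smul_eq_mul, mul_inv,
        mul_comm (((φ w)⁻¹ ^ d ^ n)⁻¹), mul_assoc,
        inv_mul_cancel₀ (pow_ne_zero _ (inv_ne_zero hw1)), mul_one]
    refine ⟨orb (fun _ : ℕ => f) n q, ?_, ?_⟩
    · rw [h6.1]
      apply hQ.cone _ (inv_ne_zero (hφW _ h6.2))
      have : ∀ m : ℕ, F^[m] q ∈ Q := by
        intro m
        induction m with
        | zero => exact hqQ
        | succ m ih =>
          rw [Function.iterate_succ_apply']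
          exact hQ.mapsTo hF ih
      exact this n
    · rw [← h7]
      exact h1
  have hcl : (φ P)⁻¹ • P ∈ closure Q := by
    rw [Metric.mem_closure_iff]
    intro e he
    have h1 : Tendsto (fun n : ℕ => 2 * M * ((1 + ε)⁻¹) ^ n) atTop (𝓝 (2 * M * 0)) :=
      (tendsto_pow_atTop_nhds_zero_of_lt_one (by positivity)
        (inv_lt_one_of_one_lt₀ (by linarith))).const_mul _
    rw [mul_zero] at h1
    obtain ⟨n, hn⟩ := (h1.eventually (gt_mem_nhds he)).exists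
    obtain ⟨q, hq, hle⟩ := happ n
    exact ⟨q, hq, by rw [dist_eq_norm]; exact lt_of_le_of_lt hle hn⟩
  have hPne : P ≠ 0 := hW'.ne_zero hP0
  have h2 := hQ.closed _ hcl (smul_ne_zero (inv_ne_zero hPφ) hPne)
  exact (hQ.cone.smul_mem_iff (inv_ne_zero hPφ)).1 h2

end

end Run7.h644
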