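import Pool.Agent.Run7.h644.MinCone

/-!
Passing from an iterate to the map.
-/

set_option autoImplicit false
set_option linter.unusedSectionVars false
set_option linter.unusedVariables false
open Set Filter Topology Metric

namespace Run7.h644

variable {V : Type*} [NormedAddCommGroup V] [NormedSpace ℂ V]
variable {d : ℕ} {F : V → V} {W Q : Set V}

theorem Trap.iter_mem (hW : Trap F W) {v : V} (hv : v ∈ W) (n : ℕ) : F^[n] v ∈ W := by
  induction n with
  | zero => exact hv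
  | succ n ih =>
    rw [Function.iterate_succ_apply']
    exact hW.mapsTo ih

theorem Trap.iter (hW : Trap F W) {N : ℕ} (hN : 1 ≤ N) : Trap F^[N] W where
  isOpen := hW.isOpen
  cone := hW.cone
  zero := hW.zero
  trap := by
    intro v hv h0
    obtain ⟨m, rfl⟩ : ∃ m, N = m + 1 := ⟨N - 1, by omega⟩
    rw [Function.iterate_succ_apply]
    exact hW.iter_mem (hW.trap v hv h0) m

theorem AW_iter (hW : Trap F W) {N : ℕ} (hN : 1 ≤ N) : AW F^[N] W = AW F W := by
  ext v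
  constructor
  · rintro ⟨h0, h⟩
    refine ⟨h0, fun n => ?_⟩
    obtain ⟨w, hw, hwv⟩ := h n
    rw [← Function.iterate_mul] at hwv
    refine ⟨F^[N * n - n] w, hW.iter_mem hw _, ?_⟩
    rw [← Function.iterate_add_apply, ← hwv]
    congr 1
    have : n ≤ N * n := Nat.le_mul_of_pos_left n hN
    rw [Nat.add_sub_cancel' this]
  · rintro ⟨h0, h⟩
    refine ⟨h0, fun n => ?_⟩
    obtain ⟨w, hw, hwv⟩ := h (N * n)
    exact ⟨w, hw, by rw [← Function.iterate_mul]; exact hwv⟩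

section

variable [FiniteDimensional ℂ V]

/-- backward orbits in the attracting set -/
theorem AW_surj (hF : HomMap d F) (hd : 1 ≤ d) (hW : Trap F W) (N : ℕ) {v : V}
    (hv : v ∈ AW F W) : ∃ u ∈ AW F W, F^[N] u = v := by
  have hproper : ProperSpace V := FiniteDimensional.proper ℂ V
  have hFN := hF.iter' N
  have hD : 1 ≤ d ^ N := Nat.one_le_pow _ _ hd
  obtain ⟨c, hc, hlow⟩ := hFN.lower
  have hbd : ∀ u : V, F^[N] u = v → ‖u‖ ≤ max 1 (‖v‖ / c) := by
    intro u hu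
    by_cases hu1 : ‖u‖ ≤ 1
    · exact le_max_of_le_left hu1
    · push Not at hu1
      have hu0 : u ≠ 0 := by
        rintro rfl
        simp at hu1
        linarith
      have h1 := hlow u hu0
      rw [hu] at h1
      have h2 : ‖u‖ ≤ ‖u‖ ^ d ^ N := by
        calc ‖u‖ = ‖u‖ ^ 1 := (pow_one _).symm
          _ ≤ ‖u‖ ^ d ^ N := pow_le_pow_right₀ hu1.le hD
      apply le_max_of_le_right
      rw [le_div_iff₀ hc]
      nlinarith
  have hv0 := hv.1
  have hne : ∀ u : V, F^[N] u = v → u ≠ 0 := by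
    rintro u hu rfl
    rw [iter_zero hF hd] at hu
    exact hv0 hu.symm
  have hcl : ∀ n, IsClosed ({u : V | F^[N] u = v} ∩ KN F n W) := fun n =>
    (isClosed_eq hFN.cont continuous_const).inter (KN_closed hF hd n W)
  obtain ⟨u, hu⟩ := IsCompact.nonempty_iInter_of_sequence_nonempty_isCompact_isClosed
    (fun n : ℕ => {u : V | F^[N] u = v} ∩ KN F n W) (by
      rintro n u ⟨h1, h2⟩
      exact ⟨h1, KN_anti hF hd hW (Nat.le_succ n) (hne u h1) h2⟩) (by
      intro n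
      obtain ⟨w, hw, hwv⟩ := hv.2 (N + n)
      refine ⟨F^[n] w, ?_, w, subset_closure hw, rfl⟩
      show F^[N] (F^[n] w) = v
      rw [← Function.iterate_add_apply, hwv]) (by
      apply Metric.isCompact_of_isClosed_isBounded (hcl 0)
      apply (isBounded_closedBall (x := (0 : V)) (r := max 1 (‖v‖ / c))).subset
      rintro u ⟨h1, -⟩
      rw [mem_closedBall_zero_iff]
      exact hbd u h1) hcl
  rw [mem_iInter] at hu
  exact ⟨u, (mem_AW hF hd hW).2 ⟨hne u (hu 0).1, fun n => (hu n).2⟩, (hu 0).1⟩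

theorem QAc_closed (hF : HomMap d F) (hd : 1 ≤ d) (hQ : QAc F Q) {v : V} (hv : v ∈ closure Q)
    (h0 : v ≠ 0) : v ∈ Q := by
  obtain ⟨hQne, T, hT, hQT⟩ := hQ
  rw [hQT]
  refine ⟨h0, fun W' hW' => ?_⟩
  rw [mem_AW hF hd (hT W' hW')]
  refine ⟨h0, fun n => ?_⟩
  refine closure_minimal ?_ (KN_closed hF hd n W') hv
  intro q hq
  rw [hQT] at hq
  exact ((mem_AW hF hd (hT W' hW')).1 (hq.2 W' hW')).2 n

theorem QAc_cone (hF : HomMap d F) (hd : 1 ≤ d) (hQ : QAc F Q) : IsCone Q := by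
  obtain ⟨hQne, T, hT, hQT⟩ := hQ
  intro c hc v hv
  rw [hQT] at hv ⊢
  exact ⟨smul_ne_zero hc hv.1, fun W' hW' => AW_cone hF hd (hT W' hW').cone c hc v (hv.2 W' hW')⟩

theorem QAc_zero (hQ : QAc F Q) : (0 : V) ∉ Q := by
  obtain ⟨hQne, T, hT, hQT⟩ := hQ
  intro h
  rw [hQT] at h
  exact h.1 rfl

theorem QAc_mapsTo (hF : HomMap d F) (hQ : QAc F Q) {v : V} (hv : v ∈ Q) : F v ∈ Q := by
  obtain ⟨hQne, T, hT, hQT⟩ := hQ
  rw [hQT] at hv ⊢
  exact ⟨hF.ne hv.1, fun W' hW' => AW_mapsTo hF (hT W' hW') (hv.2 W' hW')⟩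

theorem QAc_iter (hQ : QAc F Q) {N : ℕ} (hN : 1 ≤ N) : QAc F^[N] Q := by
  obtain ⟨hQne, T, hT, hQT⟩ := hQ
  refine ⟨hQne, T, fun W hW => (hT W hW).iter hN, ?_⟩
  rw [hQT]
  ext v
  constructor
  · rintro ⟨h0, h⟩
    exact ⟨h0, fun W hW => by rw [AW_iter (hT W hW) hN]; exact h W hW⟩
  · rintro ⟨h0, h⟩
    exact ⟨h0, fun W hW => by rw [← AW_iter (hT W hW) hN]; exact h W hW⟩

/-- existence of minimal cones -/
theorem exists_minimal (hF : HomMap d F) (hd : 1 ≤ d) (hQ : QAc F Q) :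
    ∃ Q1, Q1 ⊆ Q ∧ QAc F Q1 ∧ ∀ Q', QAc F Q' → Q' ⊆ Q1 → Q' = Q1 := by
  have hproper : ProperSpace V := FiniteDimensional.proper ℂ V
  obtain ⟨Q1, hsub, hmin⟩ := zorn_superset_nonempty {Q' : Set V | QAc F Q'} (by
    intro c hc hchain hcne
    refine ⟨⋂₀ c, ?_, fun s hs => sInter_subset_of_mem hs⟩
    have hmem : ∀ s ∈ c, QAc F s := fun s hs => hc hs
    refine ⟨?_, {W | Trap F W ∧ ∃ s ∈ c, s ⊆ AW F W}, fun W hW => hW.1, ?_⟩
    · have : Nonempty c := hcne.to_subtype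
      obtain ⟨v, hv⟩ := IsCompact.nonempty_iInter_of_directed_nonempty_isCompact_isClosed
        (fun s : c => closure (s : Set V) ∩ sphere (0 : V) 1) (by
          intro s t
          rcases hchain.total s.2 t.2 with h | h
          · exact ⟨s, subset_rfl, inter_subset_inter_left _ (closure_mono h)⟩
          · exact ⟨t, inter_subset_inter_left _ (closure_mono h), subset_rfl⟩) (by
          intro s
          obtain ⟨q, hq⟩ := (hmem s s.2).1
          have hq0 : q ≠ 0 := fun h => QAc_zero (hmem s s.2) (h ▸ hq)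
          have h1 : 0 < ‖q‖ := norm_pos_iff.2 hq0
          have h2 : (((‖q‖ : ℝ) : ℂ))⁻¹ ≠ 0 := inv_ne_zero (by exact_mod_cast h1.ne')
          refine ⟨(((‖q‖ : ℝ) : ℂ))⁻¹ • q,
            subset_closure (QAc_cone hF hd (hmem s s.2) _ h2 q hq), ?_⟩
          rw [mem_sphere_zero_iff_norm, norm_smul, norm_inv, Complex.norm_real, norm_norm,
            inv_mul_cancel₀ h1.ne'])
        (fun s => (isCompact_sphere _ _).inter_left isClosed_closure)
        (fun s => isClosed_closure.inter isClosed_sphere)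
      rw [mem_iInter] at hv
      refine ⟨v, fun s hs => QAc_closed hF hd (hmem s hs) (hv ⟨s, hs⟩).1 ?_⟩
      rintro rfl
      have := (hv ⟨s, hs⟩).2
      simp at this
    · ext v
      constructor
      · intro hv
        obtain ⟨s, hs⟩ := hcne
        refine ⟨?_, ?_⟩
        · rintro rfl
          exact QAc_zero (hmem s hs) (hv s hs)
        · rintro W ⟨hW, t, ht, htW⟩
          exact htW (hv t ht)
      · rintro ⟨h0, h⟩ s hs
        obtain ⟨hsne, T, hT, hsT⟩ := hmem s hs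
        rw [hsT]
        refine ⟨h0, fun W hW => h W ⟨hT W hW, s, hs, ?_⟩⟩
        intro q hq
        rw [hsT] at hq
        exact hq.2 W hW) Q hQ
  refine ⟨Q1, hsub, hmin.1, fun Q' hQ' hle => ?_⟩
  exact Subset.antisymm hle (hmin.2 hQ' hle)

/-- a scale invariant distance function to a closed cone -/
theorem exists_rho {E O : Set V} (hE : IsClosed E) (hEc : IsCone E) (hO : IsOpen O)
    (hOc : IsCone O) (hEO : ∀ v ∈ E, v ≠ 0 → v ∈ O) (hne : ∃ v ∈ E, v ≠ 0) :
    ∃ (ρ : V → ℝ) (δ : ℝ), 0 < δ ∧ (∀ v, v ≠ 0 → ContinuousAt ρ v) ∧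
      (∀ c : ℂ, c ≠ 0 → ∀ v, v ≠ 0 → ρ (c • v) ≤ ρ v) ∧ (∀ v ∈ E, v ≠ 0 → ρ v = 0) ∧
      ∀ v, v ≠ 0 → ρ v ≤ δ → v ∈ O := by
  have hproper : ProperSpace V := FiniteDimensional.proper ℂ V
  have hnorm : ∀ v : V, v ≠ 0 → (((‖v‖ : ℝ) : ℂ))⁻¹ ≠ 0 ∧ ‖(((‖v‖ : ℝ) : ℂ))⁻¹ • v‖ = 1 := by
    intro v hv
    have h1 : 0 < ‖v‖ := norm_pos_iff.2 hv
    refine ⟨inv_ne_zero (by exact_mod_cast h1.ne'), ?_⟩
    rw [norm_smul, norm_inv, Complex.norm_real, norm_norm, inv_mul_cancel₀ h1.ne']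
  set K1 : Set V := E ∩ sphere (0 : V) 1 with hK1
  have hK1c : IsCompact K1 := (isCompact_sphere _ _).inter_left hE
  have hK1O : K1 ⊆ O := by
    rintro v ⟨hv, hv1⟩
    apply hEO v hv
    rintro rfl
    simp at hv1
  have hK1ne : K1.Nonempty := by
    obtain ⟨w, hw, h0⟩ := hne
    obtain ⟨h1, h2⟩ := hnorm w h0
    exact ⟨(((‖w‖ : ℝ) : ℂ))⁻¹ • w, hEc _ h1 _ hw, by rw [mem_sphere_zero_iff_norm]; exact h2⟩
  obtain ⟨δ, hδ, hth⟩ := hK1c.exists_thickening_subset_open hO hK1O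
  refine ⟨fun v => infDist ((((‖v‖ : ℝ) : ℂ))⁻¹ • v) K1, δ / 2, by positivity, ?_, ?_, ?_, ?_⟩
  · intro v hv
    have h1 : ContinuousAt (fun v : V => (((‖v‖ : ℝ) : ℂ))⁻¹ • v) v := by
      apply ContinuousAt.smul _ continuousAt_id
      apply ContinuousAt.inv₀
      · exact (Complex.continuous_ofReal.comp continuous_norm).continuousAt
      · exact_mod_cast (norm_ne_zero_iff.2 hv)
    exact (continuous_infDist_pt K1).continuousAt.comp h1
  · intro c hc v hv
    have hcn : ‖c‖ ≠ 0 := norm_ne_zero_iff.2 hc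
    set e : ℂ := c * (((‖c‖ : ℝ) : ℂ))⁻¹ with he
    have he1 : ‖e‖ = 1 := by
      rw [he, norm_mul, norm_inv, Complex.norm_real, norm_norm, mul_inv_cancel₀ hcn]
    have he0 : e ≠ 0 := by
      rw [← norm_ne_zero_iff, he1]
      exact one_ne_zero
    have h1 : (((‖c • v‖ : ℝ) : ℂ))⁻¹ • (c • v) = e • ((((‖v‖ : ℝ) : ℂ))⁻¹ • v) := by
      rw [norm_smul, smul_smul, smul_smul, he]
      congr 1
      push_cast
      rw [mul_inv]
      ring
    simp only
    rw [h1]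
    refine le_of_forall_pos_lt_add fun ε hε => ?_
    obtain ⟨y, hy, hyd⟩ := (infDist_lt_iff hK1ne).1
      (lt_add_of_pos_right (infDist ((((‖v‖ : ℝ) : ℂ))⁻¹ • v) K1) hε)
    have h2 : e • y ∈ K1 := by
      refine ⟨hEc e he0 y hy.1, ?_⟩
      rw [mem_sphere_zero_iff_norm, norm_smul, he1, one_mul]
      exact mem_sphere_zero_iff_norm.1 hy.2
    refine lt_of_le_of_lt (infDist_le_dist_of_mem h2) ?_
    rw [dist_eq_norm, ← smul_sub, norm_smul, he1, one_mul, ← dist_eq_norm]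
    exact hyd
  · intro v hv h0
    obtain ⟨h1, h2⟩ := hnorm v h0
    apply infDist_zero_of_mem
    exact ⟨hEc _ h1 v hv, by rw [mem_sphere_zero_iff_norm]; exact h2⟩
  · intro v h0 hv
    obtain ⟨h1, h2⟩ := hnorm v h0
    have h3 : (((‖v‖ : ℝ) : ℂ))⁻¹ • v ∈ O := by
      apply hth
      rw [mem_thickening_iff_infDist_lt hK1ne]
      simp only at hv
      linarith
    exact (hOc.smul_mem_iff h1).1 h3

/-- isolation of the minimal cones of an iterate gives isolation for the map -/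
theorem iso_iter (hF : HomMap d F) (hd : 1 ≤ d) {N : ℕ} (hN : 1 ≤ N) (hQ : QAc F Q)
    (hmin : ∀ Q', QAc F Q' → Q' ⊆ Q → Q' = Q)
    (hyp : ∀ Q1 ⊆ Q, QAc F^[N] Q1 → (∀ Q', QAc F^[N] Q' → Q' ⊆ Q1 → Q' = Q1) → Iso F^[N] Q1) :
    Iso F Q := by
  set G : V → V := F^[N] with hG
  have hFN : HomMap (d ^ N) G := hF.iter' N
  have hD : 1 ≤ d ^ N := Nat.one_le_pow _ _ hd
  obtain ⟨Q1, hQ1Q, hQ1, hQ1min⟩ := exists_minimal hFN hD (QAc_iter hQ hN)
  obtain ⟨W1, hW1, hW1ne, hAW1⟩ := AW_eq_of_Iso hFN hD hQ1 hQ1min (hyp Q1 hQ1Q hQ1 hQ1min)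
  -- the distance function
  obtain ⟨ρ, δ, hδ, hρc, hρs, hρE, hρO⟩ := exists_rho (E := KN G 1 W1) (O := W1)
    (KN_closed hFN hD 1 W1) (KN_cone hFN hD hW1.cone 1) hW1.isOpen hW1.cone (by
      intro v hv h0
      obtain ⟨w, hw, rfl⟩ := hv
      apply hW1.trap w hw
      rintro rfl
      exact h0 (iter_zero hFN hD 1)) (by
      obtain ⟨w, hw⟩ := hW1ne
      exact ⟨G w, ⟨w, subset_closure hw, rfl⟩, hFN.ne (hW1.ne_zero hw)⟩)
  set W : Set V := {z | z ≠ 0 ∧ ∃ i < N, ρ (F^[i] z) < δ / ((i : ℝ) + 1)} with hW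
  have hcont : ∀ (i : ℕ) (z : V), z ≠ 0 → ContinuousAt (fun z' => ρ (F^[i] z')) z := fun i z hz =>
    ContinuousAt.comp (f := F^[i]) (hρc _ (hF.iter_ne i hz)) (hF.iter' i).cont.continuousAt
  have hWt : Trap F W := by
    refine ⟨?_, ?_, fun h => h.1 rfl, ?_⟩
    · rw [isOpen_iff_mem_nhds]
      rintro z ⟨hz, i, hi, hzi⟩
      have h1 : ∀ᶠ z' in 𝓝 z, z' ≠ 0 := isOpen_ne.mem_nhds hz
      have h2 : ∀ᶠ z' in 𝓝 z, ρ (F^[i] z') < δ / ((i : ℝ) + 1) :=
        (hcont i z hz).eventually_lt continuousAt_const hzi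
      filter_upwards [h1, h2] with z' h1 h2
      exact ⟨h1, i, hi, h2⟩
    · rintro c hc z ⟨hz, i, hi, hzi⟩
      refine ⟨smul_ne_zero hc hz, i, hi, ?_⟩
      rw [hF.iter_hom]
      exact lt_of_le_of_lt (hρs _ (pow_ne_zero _ hc) _ (hF.iter_ne i hz)) hzi
    · intro v hv h0
      have h1 : ∃ i < N, ρ (F^[i] v) ≤ δ / ((i : ℝ) + 1) := by
        by_contra hcon
        push Not at hcon
        have h2 : ∀ᶠ z in 𝓝 v, ∀ i ∈ Finset.range N, δ / ((i : ℝ) + 1) < ρ (F^[i] z) := by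
          rw [Filter.eventually_all_finset]
          intro i hi
          exact continuousAt_const.eventually_lt (hcont i v h0)
            (hcon i (Finset.mem_range.1 hi))
        obtain ⟨z, ⟨hz0, i, hi, hzi⟩, hz⟩ := ((mem_closure_iff_frequently.1 hv).and_eventually
          h2).exists
        have := hz i (Finset.mem_range.2 hi)
        linarith
      obtain ⟨i, hi, hvi⟩ := h1
      refine ⟨hF.ne h0, ?_⟩
      rcases Nat.eq_zero_or_pos i with rfl | hi0
      · have h3 : v ∈ W1 := by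
          apply hρO v h0
          simpa using hvi
        refine ⟨N - 1, by omega, ?_⟩
        have h4 : F^[N - 1] (F v) = G v := by
          rw [← Function.iterate_succ_apply, hG]
          congr 1
          omega
        rw [h4, hρE (G v) ⟨v, subset_closure h3, rfl⟩ (hFN.ne h0)]
        positivity
      · obtain ⟨j, rfl⟩ : ∃ j, i = j + 1 := ⟨i - 1, by omega⟩
        refine ⟨j, by omega, ?_⟩
        rw [← Function.iterate_succ_apply]
        refine lt_of_le_of_lt hvi ?_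
        push_cast
        apply div_lt_div_of_pos_left hδ (by positivity)
        linarith
  obtain ⟨q1, hq1⟩ := hQ1.1
  have hq1A : q1 ∈ AW G W1 := by rw [hAW1]; exact hq1
  have hq1W : q1 ∈ W := by
    refine ⟨hq1A.1, 0, by omega, ?_⟩
    have h1 := ((mem_AW hFN hD hW1).1 hq1A).2 1
    show ρ q1 < _
    rw [hρE q1 h1 hq1A.1]
    positivity
  have hQAW : Q ⊆ AW F W := QAc_big hF hd hQ hmin hWt ⟨q1, hq1W, hQ1Q hq1⟩
  refine ⟨W, hWt, hQAW.trans (AW_sub F W), fun v hv => ?_⟩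
  have hv0 : v ≠ 0 := by
    obtain ⟨w, hw, hwv⟩ := hv 0
    rw [← hwv]
    exact hw.1
  obtain ⟨u, hu, huv⟩ := AW_surj hF hd hWt N ⟨hv0, hv⟩
  have key : ∃ i < N, F^[i] u ∈ Q1 := by
    by_contra hcon
    push Not at hcon
    have h1 : ∀ i : ℕ, ∃ a : ℕ, i < N → ∀ w ∈ W1, G^[a] w ≠ F^[i] u := by
      intro i
      by_cases hi : i < N
      · have h2 := hcon i hi
        rw [← hAW1] at h2
        by_contra hcon2
        push Not at hcon2
        apply h2
        refine ⟨hF.iter_ne i hu.1, fun n => ?_⟩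
        obtain ⟨-, w, hw, hwn⟩ := hcon2 n
        exact ⟨w, hw, hwn⟩
      · exact ⟨0, fun h => absurd h hi⟩
    choose a ha using h1
    set A : ℕ := (Finset.range N).sup a with hA
    obtain ⟨z, ⟨hz0, i, hi, hzi⟩, hzu⟩ := hu.2 (N * A)
    have haA : a i ≤ A := Finset.le_sup (Finset.mem_range.2 hi)
    have hw1 : F^[i] z ∈ W1 := by
      apply hρO _ (hF.iter_ne i hz0)
      refine hzi.le.trans ?_
      apply div_le_self hδ.le
      have : (0 : ℝ) ≤ i := Nat.cast_nonneg i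
      linarith
    apply ha i hi (G^[A - a i] (F^[i] z)) (hW1.iter_mem hw1 _)
    rw [← Function.iterate_add_apply, Nat.add_sub_cancel' haA, hG, ← Function.iterate_mul,
      ← Function.iterate_add_apply, Nat.add_comm, Function.iterate_add_apply, hzu]
  obtain ⟨i, hi, hiu⟩ := key
  have h1 : ∀ n : ℕ, F^[n] (F^[i] u) ∈ Q := by
    intro n
    induction n with
    | zero => exact hQ1Q hiu
    | succ n ih =>
      rw [Function.iterate_succ_apply']
      exact QAc_mapsTo hF hQ ih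
  have h2 := h1 (N - i)
  rw [← Function.iterate_add_apply, Nat.sub_add_cancel hi.le, huv] at h2
  exact h2

end

end Run7.h644
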