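import Pool.Agent.Run7.h644.ZTrap

/-!
Every point of a minimal cone which surjects onto the base lies on local pieces of it over
neighbourhoods in the base.
-/

set_option autoImplicit false
set_option linter.unusedSectionVars false
set_option linter.unusedVariables false
open Set Filter Topology Metric MeasureTheory
open scoped ENNReal

namespace Run7.h644

variable {V : Type*} [NormedAddCommGroup V] [NormedSpace ℂ V] [FiniteDimensional ℂ V]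
variable {F : V → V} {ℓ : V →L[ℂ] ℂ × ℂ} {G : ℂ × ℂ → ℂ × ℂ} {d : ℕ}
variable {W Q : Set V} {M : ℝ}

theorem lift_pts (hF : HomMap d F) (hd : 2 ≤ d) (hG : HomMap d G) (hℓ : ∀ v, ℓ (F v) = G (ℓ v))
    (hsurj : Function.Surjective ℓ) (hQ : MQ F Q) (hW : Trap F W) (hQW : Q ⊆ W)
    (hM : ∀ v ∈ closure W, ‖v‖ ≤ M * ‖ℓ v‖) (hall : ∀ x : ℂ × ℂ, x ≠ 0 → ∃ q ∈ Q, ℓ q = x)
    {q0 b : V} (hq0 : q0 ∈ Q) {r : ℝ} {C g : Set V} (hT : Tube F ℓ W q0 b r C g)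
    (hTl : ∀ h ∈ KK F W, Lk ℓ W q0 h → h - q0 ∈ g) {u : ℂ} (hu : ‖u‖ < r) :
    ∃ s ∈ C, q0 + u • b + s ∈ Q := by
  have hd1 : 1 ≤ d := by omega
  by_contra hcon
  push Not at hcon
  -- first open cone
  set O1 : Set V := (closure (TR ℓ q0 b u 0 C))ᶜ with hO1
  have hTRc : IsCone (TR ℓ q0 b u 0 C) := by
    rintro c hc v ⟨h1, h2, h3⟩
    refine ⟨by rw [map_smul, smul_eq_mul]; exact mul_ne_zero hc h1, ?_, ?_⟩
    · rwa [uu_smul hc]
    · rwa [sg_smul hc]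
  have hO1o : IsOpen O1 := isClosed_closure.isOpen_compl
  have hO1c : IsCone O1 := by
    intro c hc v hv h
    exact hv ((hTRc.closure.smul_mem_iff hc).1 h)
  have hQO1 : Q ⊆ O1 := by
    intro q hq h
    obtain ⟨h1, h2, h3⟩ := TR_closed hT.hb u 0 hT.comp.isClosed h (ell_ne hW hM (hQW hq))
    have h4 : uu ℓ q0 b q = u := sub_eq_zero.1 (norm_le_zero_iff.1 h2)
    apply hcon _ h3
    have h5 := sg_eq (ℓ := ℓ) (v0 := q0) (b := b) h1
    rw [h4] at h5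
    rw [← hQ.cone.smul_mem_iff h1, ← h5]
    exact hq
  -- second open cone
  have htubes : ∀ z ∈ Q, ∃ b r C g, Tube F ℓ W z b r C g := by
    intro z hz
    have h1 : ℓ z ≠ 0 := ell_ne hW hM (hQW hz)
    obtain ⟨b, hb⟩ := exists_b hsurj h1
    obtain ⟨r, C, g, h2, -⟩ := exists_tube hF hd1 hW hM (hQ.subset_KK hF hd1 hW hQW hz) h1 hb
    exact ⟨b, r, C, g, h2⟩
  choose! bb rr CC gg htub using htubes
  set O2 : Set V := ⋃ z ∈ Q, TT ℓ z (bb z) (rr z) (gg z) with hO2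
  have hO2o : IsOpen O2 := isOpen_biUnion fun z hz => TT_open _ (htub z hz).gopen
  have hO2c : IsCone O2 := by
    intro c hc v hv
    rw [hO2, mem_iUnion₂] at hv ⊢
    obtain ⟨z, hz, hvz⟩ := hv
    exact ⟨z, hz, TT_cone _ _ c hc v hvz⟩
  have hQO2 : Q ⊆ O2 := by
    intro z hz
    rw [hO2, mem_iUnion₂]
    exact ⟨z, hz, (htub z hz).self_mem (hQ.subset_KK hF hd1 hW hQW hz)⟩
  obtain ⟨W1, hW1, hQW1, hW1O⟩ := hQ.small ((O1 ∩ O2) ∩ W) ((hO1o.inter hO2o).inter hW.isOpen)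
    ((hO1c.inter hO2c).inter hW.cone) (fun q hq => ⟨⟨hQO1 hq, hQO2 hq⟩, hQW hq⟩)
  have hW1W : W1 ⊆ W := fun v hv => (hW1O hv).2
  have hM1 : ∀ v ∈ closure W1, ‖v‖ ≤ M * ‖ℓ v‖ := fun v hv => hM v (closure_mono hW1W hv)
  obtain ⟨a, b', hdisc, hheavy⟩ := start hF hd hG hℓ hsurj hW1 (fun x hx => by
    obtain ⟨q, hq, hqx⟩ := hall x hx
    exact ⟨q, hQW1 hq, hqx⟩)
  have hdiscW : ∀ t : ℂ, ‖t‖ ≤ 1 → a + t • b' ∈ W := fun t ht => hW1W (hdisc t ht)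
  obtain ⟨h, hh⟩ := HH_nonempty hF hd1 hW1 hM1 hdisc hheavy
  have hHW1 : HH F ℓ a b' ⊆ W1 := fun v hv =>
    hW1.KK_mem hF hd1 (HH_subset_KK hF hd1 hW1 hdisc hv) hv.1
  have h1 : h ∈ O2 := (hW1O (hHW1 hh)).1.2
  rw [hO2, mem_iUnion₂] at h1
  obtain ⟨z, hz, hhz⟩ := h1
  have hTz := htub z hz
  obtain ⟨s, hs, hsH⟩ := exists_heavy hF hW hTz (c := 0) (by simpa using hTz.rpos)
    (not_Lt_of_heavy hF hd1 hW hM hdiscW hTz hh hhz (by simpa using hTz.rpos))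
  have hzZ : z ∈ ZZ F ℓ a b' W := by
    refine ⟨_, hsH, ?_⟩
    have l1 := hTz.link (u := 0) (by simpa using hTz.rpos.le) hTz.zero hs
    simpa using l1
  have hZt := ZZ_trap (a := a) (b' := b') hF hd1 hG hℓ hsurj hW hM hdiscW
  have hQZ := hQ.big _ hZt ⟨z, hzZ, hz⟩
  obtain ⟨h0, hh0, hl0⟩ := hQZ hq0
  have hg0 := hTl h0 (HH_subset_KK hF hd1 hW hdiscW hh0) hl0
  have hal : al ℓ b h0 = 1 := by rw [al_of_ell hl0.ell, al_v0 hT.hb]
  have huu : uu ℓ q0 b h0 = 0 := by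
    unfold uu
    rw [dl_of_ell hl0.ell, dl_self, zero_div]
  have hsg : sg ℓ q0 b h0 = h0 - q0 := by
    unfold sg
    rw [huu, hal, inv_one, one_smul, zero_smul, sub_zero]
  have hTT : h0 ∈ TT ℓ q0 b r g :=
    ⟨by rw [hal]; exact one_ne_zero, by rw [huu]; simpa using hT.rpos, by rw [hsg]; exact hg0⟩
  obtain ⟨s', hs', hH'⟩ := exists_heavy hF hW hT hu
    (not_Lt_of_heavy hF hd1 hW hM hdiscW hT hh0 hTT hu)
  have h2 : q0 + u • b + s' ∈ O1 := (hW1O (hHW1 hH')).1.1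
  apply h2
  apply subset_closure
  have hs0 := hT.ker s' hs'
  refine ⟨by rw [al_pt hT.hb hs0]; exact one_ne_zero, ?_, ?_⟩
  · rw [uu_pt hT.hb hs0, sub_self, norm_zero]
  · rw [sg_pt hT.hb hs0]
    exact hs'

end Run7.h644
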