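import Pool.Agent.Run7.h644.Proj
import Pool.Agent.Run7.h644.Iter
import Pool.Agent.Run7.h644.Flag

/-!
The main theorem in projective space.
-/

set_option autoImplicit false
set_option linter.unusedSectionVars false
set_option linter.unusedVariables false
open Set Filter Topology Metric
open Module (finrank)

namespace Run7.h644

variable {k : ℕ}

/-- composition of polynomial maps -/
noncomputable def iterPoly (P : Fin (k + 1) → MvPolynomial (Fin (k + 1)) ℂ) :
    ℕ → Fin (k + 1) → MvPolynomial (Fin (k + 1)) ℂ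
  | 0 => MvPolynomial.X
  | N + 1 => fun i => MvPolynomial.bind₁ (iterPoly P N) (P i)

theorem polyMap_iter (P : Fin (k + 1) → MvPolynomial (Fin (k + 1)) ℂ) (N : ℕ) :
    polyMap (iterPoly P N) = (polyMap P)^[N] := by
  induction N with
  | zero =>
    funext v i
    simp [polyMap, iterPoly]
  | succ N ih =>
    funext v
    rw [Function.iterate_succ_apply', ← ih]
    funext i
    simp only [polyMap, iterPoly]
    rw [MvPolynomial.eval, MvPolynomial.eval₂Hom_bind₁]
    rfl

theorem mem_lin {M : Submodule ℂ (Fin (k + 1) → ℂ)} {v : Fin (k + 1) → ℂ} (hv : v ≠ 0) :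
    CP.mk v hv ∈ lin M ↔ v ∈ M := by
  constructor
  · rintro ⟨w, hw, hw0, h⟩
    obtain ⟨c, hc, hcv⟩ := (CP.mk_eq hw0 hv).1 h
    rw [← hcv] at hw
    have := M.smul_mem c⁻¹ hw
    rwa [smul_smul, inv_mul_cancel₀ hc, one_smul] at this
  · intro h
    exact ⟨v, h, hv, rfl⟩

/-- a polynomial map restricted to a line and composed with a linear form is a polynomial -/
theorem exists_line_poly (R : Fin (k + 1) → MvPolynomial (Fin (k + 1)) ℂ)
    (φ : (Fin (k + 1) → ℂ) →ₗ[ℂ] ℂ) (v w : Fin (k + 1) → ℂ) :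
    ∃ p : Polynomial ℂ, ∀ t : ℂ, p.eval t = φ (polyMap R (v + t • w)) := by
  set q : Fin (k + 1) → Polynomial ℂ := fun i => MvPolynomial.aeval
    (fun j => Polynomial.C (v j) + Polynomial.C (w j) * Polynomial.X) (R i) with hq
  refine ⟨∑ i, Polynomial.C (φ (Pi.single i 1)) * q i, fun t => ?_⟩
  have h1 : ∀ i, (q i).eval t = polyMap R (v + t • w) i := by
    intro i
    have h2 : (q i).eval t = (Polynomial.aeval t) (q i) := by
      rw [Polynomial.coe_aeval_eq_eval]
    rw [h2, hq]
    simp only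
    have h3 := MvPolynomial.comp_aeval_apply
      (f := fun j => Polynomial.C (v j) + Polynomial.C (w j) * Polynomial.X)
      (φ := (Polynomial.aeval t : Polynomial ℂ →ₐ[ℂ] ℂ)) (p := R i)
    rw [h3]
    unfold polyMap
    rw [← MvPolynomial.coe_aeval_eq_eval]
    show _ = (MvPolynomial.aeval (v + t • w)) (R i)
    congr 2
    funext j
    rw [Polynomial.coe_aeval_eq_eval, Polynomial.eval_add, Polynomial.eval_mul,
      Polynomial.eval_C, Polynomial.eval_C, Polynomial.eval_X, Pi.add_apply, Pi.smul_apply,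
      smul_eq_mul, mul_comm t]
  rw [Polynomial.eval_finsetSum]
  simp only [Polynomial.eval_mul, Polynomial.eval_C, h1]
  conv_rhs => rw [← Finset.univ_sum_single (polyMap R (v + t • w))]
  rw [map_sum]
  apply Finset.sum_congr rfl
  intro i _
  have h4 : (Pi.single i (polyMap R (v + t • w) i) : Fin (k + 1) → ℂ) =
      (polyMap R (v + t • w) i) • Pi.single i 1 := by
    rw [← Pi.single_smul]
    simp
  rw [h4, map_smul, smul_eq_mul, mul_comm]

/-- a fibred flag in projective space gives one on the affine cone -/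
theorem flag_of_fibred {d : ℕ} {P : Fin (k + 1) → MvPolynomial (Fin (k + 1)) ℂ} {f : CP k → CP k}
    (h : IsEndo d P f) (hd : 1 ≤ d) {N n : ℕ} {L : ℕ → Submodule ℂ (Fin (k + 1) → ℂ)}
    (hL : FibredFlag f^[N] n L) : Flag (polyMap P)^[N] n L := by
  set G := (polyMap P)^[N] with hG
  have hGh : HomMap (d ^ N) G := h.homMap.iter' N
  have hD : 1 ≤ d ^ N := Nat.one_le_pow _ _ hd
  have hG0 : G 0 = 0 := hGh.zero hD
  have htot : ∀ i < n, ∀ v ∈ L i, (G v ∈ L (i + 1) ↔ v ∈ L (i + 1)) := by
    intro i hi v hv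
    by_cases h0 : v = 0
    · rw [h0, hG0]
    · have h1 := hL.total i hi (CP.mk v h0) ((mem_lin h0).2 hv)
      rw [h.iter_mk, mem_lin, mem_lin] at h1
      exact h1
  refine ⟨hL.top, hL.anti, hL.codim, ?_, fun i hi v hv hGv => (htot i hi v hv).1 hGv⟩
  intro i hi v hv w hw
  by_cases hvL : v ∈ L (i + 1)
  · have h1 : v + w ∈ L (i + 1) := (L (i + 1)).add_mem hvL hw
    exact (L (i + 1)).sub_mem ((htot i hi _ (hL.anti i hi h1)).2 h1)
      ((htot i hi _ hv).2 hvL)
  · have hv0 : v ≠ 0 := by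
      rintro rfl
      exact hvL (L (i + 1)).zero_mem
    have hGv : G v ∉ L (i + 1) := fun h1 => hvL ((htot i hi v hv).1 h1)
    have hrank : ∀ x, x ∉ L (i + 1) →
        finrank ℂ ((L (i + 1)) ⊔ Submodule.span ℂ {x} : Submodule ℂ (Fin (k + 1) → ℂ)) =
          finrank ℂ (L (i + 1)) + 1 := by
      intro x hx
      have hx0 : x ≠ 0 := by
        rintro rfl
        exact hx (L (i + 1)).zero_mem
      have h1 := Submodule.finrank_sup_add_finrank_inf_eq (L (i + 1)) (Submodule.span ℂ {x})
      have h2 : L (i + 1) ⊓ Submodule.span ℂ {x} = ⊥ := by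
        rw [Submodule.eq_bot_iff]
        rintro y ⟨hy1, hy2⟩
        obtain ⟨c, rfl⟩ := Submodule.mem_span_singleton.1 hy2
        by_cases hc : c = 0
        · rw [hc, zero_smul]
        · exfalso
          apply hx
          have := (L (i + 1)).smul_mem c⁻¹ hy1
          rwa [smul_smul, inv_mul_cancel₀ hc, one_smul] at this
      rw [h2, finrank_bot, finrank_span_singleton hx0] at h1
      omega
    obtain ⟨M', hM'1, hM'2, hM'3, hM'4⟩ := hL.pencil i hi (L (i + 1) ⊔ Submodule.span ℂ {v})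
      le_sup_left (sup_le (hL.anti i hi) (by
        rw [Submodule.span_singleton_le_iff_mem]
        exact hv)) (hrank v hvL)
    have hmapM : ∀ x ∈ L (i + 1) ⊔ Submodule.span ℂ {v}, x ≠ 0 → G x ∈ M' := by
      intro x hx hx0
      have h1 := hM'4 ⟨CP.mk x hx0, (mem_lin hx0).2 hx, rfl⟩
      rw [h.iter_mk, mem_lin] at h1
      exact h1
    have hvM : v ∈ L (i + 1) ⊔ Submodule.span ℂ {v} :=
      Submodule.mem_sup_right (Submodule.mem_span_singleton_self v)
    have hM'eq : L (i + 1) ⊔ Submodule.span ℂ {G v} = M' := by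
      apply Submodule.eq_of_le_of_finrank_eq
      · apply sup_le hM'1
        rw [Submodule.span_singleton_le_iff_mem]
        exact hmapM v hvM hv0
      · rw [hrank _ hGv, hM'3]
    obtain ⟨φ, hφ1, hφ2⟩ := Submodule.exists_le_ker_of_notMem hGv
    set φ' : (Fin (k + 1) → ℂ) →ₗ[ℂ] ℂ := (φ (G v))⁻¹ • φ with hφ'
    have hφ'1 : φ' (G v) = 1 := by
      rw [hφ', LinearMap.smul_apply, smul_eq_mul, inv_mul_cancel₀ hφ1]
    have hφ'2 : ∀ x ∈ L (i + 1), φ' x = 0 := by
      intro x hx
      have : φ x = 0 := hφ2 hx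
      rw [hφ', LinearMap.smul_apply, this, smul_zero]
    have hdec : ∀ t : ℂ, ∃ c : ℂ, c ≠ 0 ∧ G (v + t • w) - c • G v ∈ L (i + 1) := by
      intro t
      have hvt : v + t • w ∈ L (i + 1) ⊔ Submodule.span ℂ {v} :=
        Submodule.add_mem _ hvM (Submodule.mem_sup_left ((L (i + 1)).smul_mem t hw))
      have hvtL : v + t • w ∉ L (i + 1) := fun h1 =>
        hvL (by
          have := (L (i + 1)).sub_mem h1 ((L (i + 1)).smul_mem t hw)
          rwa [add_sub_cancel_right] at this)
      have hvt0 : v + t • w ≠ 0 := fun h1 => hvtL (by rw [h1]; exact (L (i + 1)).zero_mem)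
      have hvtLi : v + t • w ∈ L i :=
        (L i).add_mem hv ((L i).smul_mem t (hL.anti i hi hw))
      have h1 := hmapM _ hvt hvt0
      rw [← hM'eq, Submodule.mem_sup] at h1
      obtain ⟨y, hy, z, hz, hyz⟩ := h1
      obtain ⟨c, rfl⟩ := Submodule.mem_span_singleton.1 hz
      refine ⟨c, ?_, ?_⟩
      · rintro rfl
        rw [zero_smul, add_zero] at hyz
        rw [hyz] at hy
        exact hvtL ((htot i hi _ hvtLi).1 hy)
      · rw [← hyz, add_sub_cancel_right]
        exact hy
    obtain ⟨p, hp⟩ := exists_line_poly (iterPoly P N) φ' v w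
    rw [polyMap_iter] at hp
    have hpc : ∀ t : ℂ, ∀ c : ℂ, G (v + t • w) - c • G v ∈ L (i + 1) → p.eval t = c := by
      intro t c hc
      have h1 := hφ'2 _ hc
      rw [map_sub, map_smul, hφ'1, smul_eq_mul, mul_one] at h1
      rw [hp]
      exact sub_eq_zero.1 h1
    have hroot : ∀ t, p.eval t ≠ 0 := by
      intro t
      obtain ⟨c, hc, hct⟩ := hdec t
      rw [hpc t c hct]
      exact hc
    have hdeg : p.degree ≤ 0 := by
      by_contra hcon
      push Not at hcon
      obtain ⟨z, hz⟩ := Complex.exists_root hcon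
      exact hroot z hz
    have hconst : ∀ t, p.eval t = p.eval 0 := by
      intro t
      rw [Polynomial.eq_C_of_degree_le_zero hdeg, Polynomial.eval_C, Polynomial.eval_C]
    have hp0 : p.eval 0 = 1 := by
      rw [hp, zero_smul, add_zero]
      exact hφ'1
    obtain ⟨c, hc, hct⟩ := hdec 1
    have hc1 : c = 1 := by
      rw [← hpc 1 c hct, hconst, hp0]
    rw [hc1, one_smul, one_smul] at hct
    exact hct

/-- minimal quasi-attractors of endomorphisms with an iterate fibred along a flag -/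
theorem main {d N n : ℕ} (hd : 2 ≤ d) (hN : 1 ≤ N)
    {P : Fin (k + 1) → MvPolynomial (Fin (k + 1)) ℂ} {f : CP k → CP k} (h : IsEndo d P f)
    {L : ℕ → Submodule ℂ (Fin (k + 1) → ℂ)} (hL : FibredFlag f^[N] n L) {Q : Set (CP k)}
    (hQ : MinimalQuasiAttractor f Q) (hdisj : Disjoint Q (lin (L n))) : AttractingSet f Q := by
  have hd1 : 1 ≤ d := by omega
  have hfl := flag_of_fibred h hd1 hL
  obtain ⟨h1, h2⟩ := min_cone h hd1 hQ
  apply attracting_of_Iso h hd1 hQ
  apply iso_iter h.homMap hd1 hN h1 h2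
  intro Q1 hQ1 hQ1c hQ1m
  have hD : 2 ≤ d ^ N := by
    calc 2 ≤ d := hd
      _ = d ^ 1 := (pow_one d).symm
      _ ≤ d ^ N := Nat.pow_le_pow_right (by omega) hN
  have hGh : HomMap (d ^ N) (polyMap P)^[N] := h.homMap.iter' N
  have hMQ := MQ_of_QAc hGh (by omega) hQ1c hQ1m
  rcases iso_of_flag (d ^ N) hD n _ L hGh hfl Q1 hMQ with h3 | h3
  · exact h3
  · exfalso
    obtain ⟨q, hq⟩ := hMQ.ne
    obtain ⟨hq0, hqQ⟩ := hQ1 hq
    exact Set.disjoint_left.1 hdisj hqQ ((mem_lin hq0).2 (h3 q hq))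

end Run7.h644
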