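import Pool.Agent.Run7.h644.Basic

/-!
Minimal quasi-attractors in terms of cones.
-/

set_option autoImplicit false
set_option linter.unusedSectionVars false
set_option linter.unusedVariables false
open Set Filter Topology Metric

namespace Run7.h644

theorem HomMap.iter' {V : Type*} [NormedAddCommGroup V] [NormedSpace ℂ V] {F : V → V} {d : ℕ}
    (h : HomMap d F) (n : ℕ) : HomMap (d ^ n) F^[n] where
  diff := by
    induction n with
    | zero => exact differentiable_id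
    | succ m ih =>
      rw [Function.iterate_succ']
      exact h.diff.comp ih
  hom := h.iter_hom n
  nz := by
    intro v hv
    by_contra h0
    exact h.iter_ne n h0 hv

variable {V : Type*} [NormedAddCommGroup V] [NormedSpace ℂ V]
variable {d : ℕ} {F : V → V} {W Q : Set V}

/-- the cone of the attracting set of a trapping cone -/
def AW (F : V → V) (W : Set V) : Set V := {v | v ≠ 0 ∧ ∀ n : ℕ, ∃ w ∈ W, F^[n] w = v}

/-- cones over quasi-attractors -/
def QAc (F : V → V) (Q : Set V) : Prop :=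
  Q.Nonempty ∧ ∃ T : Set (Set V), (∀ W ∈ T, Trap F W) ∧ Q = {v | v ≠ 0 ∧ ∀ W ∈ T, v ∈ AW F W}

/-- the images of the closure -/
def KN (F : V → V) (n : ℕ) (W : Set V) : Set V := F^[n] '' closure W

theorem AW_sub (F : V → V) (W : Set V) : AW F W ⊆ W := by
  rintro v ⟨hv, h⟩
  obtain ⟨w, hw, hwv⟩ := h 0
  rwa [← hwv]

theorem iter_zero (hF : HomMap d F) (hd : 1 ≤ d) (n : ℕ) : F^[n] 0 = 0 := by
  have := hF.iter' n
  exact this.zero (Nat.one_le_pow _ _ hd)

theorem KN_closed [FiniteDimensional ℂ V] (hF : HomMap d F) (hd : 1 ≤ d) (n : ℕ) (W : Set V) :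
    IsClosed (KN F n W) :=
  (hF.iter' n).isClosedMap (Nat.one_le_pow _ _ hd) _ isClosed_closure

theorem KN_succ (hF : HomMap d F) (hd : 1 ≤ d) (hW : Trap F W) {n : ℕ} {v : V}
    (hv : v ∈ KN F (n + 1) W) (h0 : v ≠ 0) : ∃ w ∈ W, F^[n] w = v := by
  obtain ⟨w, hw, rfl⟩ := hv
  refine ⟨F w, hW.trap w hw ?_, (Function.iterate_succ_apply F n w).symm⟩
  rintro rfl
  exact h0 (iter_zero hF hd _)

theorem KN_anti (hF : HomMap d F) (hd : 1 ≤ d) (hW : Trap F W) {m n : ℕ} (hmn : m ≤ n) {v : V}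
    (h0 : v ≠ 0) (hv : v ∈ KN F n W) : v ∈ KN F m W := by
  induction n, hmn using Nat.le_induction with
  | base => exact hv
  | succ n hmn ih =>
    obtain ⟨w, hw, hwv⟩ := KN_succ hF hd hW hv h0
    exact ih ⟨w, subset_closure hw, hwv⟩

theorem mem_AW (hF : HomMap d F) (hd : 1 ≤ d) (hW : Trap F W) {v : V} :
    v ∈ AW F W ↔ v ≠ 0 ∧ ∀ n, v ∈ KN F n W := by
  constructor
  · rintro ⟨h0, h⟩
    refine ⟨h0, fun n => ?_⟩
    obtain ⟨w, hw, hwv⟩ := h n
    exact ⟨w, subset_closure hw, hwv⟩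
  · rintro ⟨h0, h⟩
    exact ⟨h0, fun n => KN_succ hF hd hW (h (n + 1)) h0⟩

theorem AW_cone (hF : HomMap d F) (hd : 1 ≤ d) (hW : IsCone W) : IsCone (AW F W) := by
  rintro c hc v ⟨h0, h⟩
  refine ⟨smul_ne_zero hc h0, fun n => ?_⟩
  obtain ⟨w, hw, hwv⟩ := h n
  obtain ⟨b, hb, hbc⟩ := exists_root (Nat.one_le_pow n d hd) hc
  exact ⟨b • w, hW b hb w hw, by rw [hF.iter_hom, hbc, hwv]⟩

theorem AW_mapsTo (hF : HomMap d F) (hW : Trap F W) {v : V} (hv : v ∈ AW F W) :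
    F v ∈ AW F W := by
  refine ⟨hF.ne hv.1, fun n => ?_⟩
  obtain ⟨w, hw, hwv⟩ := hv.2 n
  refine ⟨F w, hW.mapsTo hw, ?_⟩
  rw [← Function.iterate_succ_apply, Function.iterate_succ_apply', hwv]

theorem KN_cone (hF : HomMap d F) (hd : 1 ≤ d) (hW : IsCone W) (n : ℕ) : IsCone (KN F n W) := by
  rintro c hc _ ⟨w, hw, rfl⟩
  obtain ⟨b, hb, hbc⟩ := exists_root (Nat.one_le_pow n d hd) hc
  exact ⟨b • w, hW.closure b hb w hw, by rw [hF.iter_hom, hbc]⟩

theorem trap_univ (hF : HomMap d F) : Trap F {v : V | v ≠ 0} where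
  isOpen := isOpen_ne
  cone := fun c hc v hv => smul_ne_zero hc hv
  zero := fun h => h rfl
  trap := fun v _ h0 => hF.ne h0

section shrink

variable [FiniteDimensional ℂ V]

/-- a trapping cone whose `N`-th image cone lies in `O` contains a trapping cone inside `O` -/
theorem shrink (hF : HomMap d F) (hd : 1 ≤ d) (hW : Trap F W) (hne : W.Nonempty) {N : ℕ}
    {O : Set V} (hO : IsOpen O) (hNO : ∀ v ∈ KN F N W, v ≠ 0 → v ∈ O) (hOc : IsCone O) :
    ∃ W', Trap F W' ∧ AW F W ⊆ W' ∧ W' ⊆ O := by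
  have hproper : ProperSpace V := FiniteDimensional.proper ℂ V
  -- we may suppose that `N` is positive
  have hN' : ∀ v ∈ KN F (N + 1) W, v ≠ 0 → v ∈ O := fun v hv h0 =>
    hNO v (KN_anti hF hd hW (Nat.le_succ N) h0 hv) h0
  set K1 : Set V := KN F (N + 1) W ∩ sphere (0 : V) 1 with hK1
  have hK1c : IsCompact K1 := (isCompact_sphere _ _).inter_left (KN_closed hF hd _ W)
  have hK1O : K1 ⊆ O := by
    rintro v ⟨hv, hv1⟩
    apply hN' v hv
    rintro rfl
    simp at hv1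
  have hK1ne : K1.Nonempty := by
    obtain ⟨w, hw⟩ := hne
    have h0 : F^[N + 1] w ≠ 0 := hF.iter_ne _ (hW.ne_zero hw)
    have h1 : 0 < ‖F^[N + 1] w‖ := norm_pos_iff.2 h0
    have h2 : (((‖F^[N + 1] w‖ : ℝ) : ℂ))⁻¹ ≠ 0 := inv_ne_zero (by exact_mod_cast h1.ne')
    refine ⟨(((‖F^[N + 1] w‖ : ℝ) : ℂ))⁻¹ • F^[N + 1] w,
      KN_cone hF hd hW.cone _ _ h2 _ ⟨w, subset_closure hw, rfl⟩, ?_⟩
    rw [mem_sphere_zero_iff_norm, norm_smul, norm_inv, Complex.norm_real, norm_norm,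
      inv_mul_cancel₀ h1.ne']
  obtain ⟨δ, hδ, hth⟩ := hK1c.exists_thickening_subset_open hO hK1O
  -- the distance function
  set ρ : V → ℝ := fun v => infDist ((((‖v‖ : ℝ) : ℂ))⁻¹ • v) K1 with hρ
  have hρc : ∀ v : V, v ≠ 0 → ContinuousAt ρ v := by
    intro v hv
    have h1 : ContinuousAt (fun v : V => (((‖v‖ : ℝ) : ℂ))⁻¹ • v) v := by
      apply ContinuousAt.smul _ continuousAt_id
      apply ContinuousAt.inv₀
      · exact (Complex.continuous_ofReal.comp continuous_norm).continuousAt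
      · exact_mod_cast (norm_ne_zero_iff.2 hv)
    exact (continuous_infDist_pt K1).continuousAt.comp h1
  have hρs : ∀ c : ℂ, c ≠ 0 → ∀ v : V, v ≠ 0 → ρ (c • v) ≤ ρ v := by
    intro c hc v hv
    have hcn : ‖c‖ ≠ 0 := norm_ne_zero_iff.2 hc
    set e : ℂ := c * (((‖c‖ : ℝ) : ℂ))⁻¹ with he
    have he1 : ‖e‖ = 1 := by
      rw [he, norm_mul, norm_inv, Complex.norm_real, norm_norm, mul_inv_cancel₀ hcn]
    have he0 : e ≠ 0 := by
      rw [← norm_ne_zero_iff, he1]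
      exact one_ne_zero
    have h1 : (((‖c • v‖ : ℝ) : ℂ))⁻¹ • (c • v) = e • ((((‖v‖ : ℝ) : ℂ))⁻¹ • v) := by
      rw [norm_smul, smul_smul, smul_smul, he]
      congr 1
      push_cast
      rw [mul_inv]
      ring
    simp only [hρ]
    rw [h1]
    refine le_of_forall_pos_lt_add fun ε hε => ?_
    obtain ⟨y, hy, hyd⟩ := (infDist_lt_iff hK1ne).1
      (lt_add_of_pos_right (infDist ((((‖v‖ : ℝ) : ℂ))⁻¹ • v) K1) hε)
    have h2 : e • y ∈ K1 := by
      refine ⟨KN_cone hF hd hW.cone _ e he0 y hy.1, ?_⟩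
      rw [mem_sphere_zero_iff_norm, norm_smul, he1, one_mul]
      exact mem_sphere_zero_iff_norm.1 hy.2
    refine lt_of_le_of_lt (infDist_le_dist_of_mem h2) ?_
    rw [dist_eq_norm, ← smul_sub, norm_smul, he1, one_mul, ← dist_eq_norm]
    exact hyd
  have hρK : ∀ v ∈ KN F (N + 1) W, v ≠ 0 → ρ v = 0 := by
    intro v hv h0
    have h1 : 0 < ‖v‖ := norm_pos_iff.2 h0
    have h2 : (((‖v‖ : ℝ) : ℂ))⁻¹ ≠ 0 := inv_ne_zero (by exact_mod_cast h1.ne')
    apply infDist_zero_of_mem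
    refine ⟨KN_cone hF hd hW.cone _ _ h2 v hv, ?_⟩
    rw [mem_sphere_zero_iff_norm, norm_smul, norm_inv, Complex.norm_real, norm_norm,
      inv_mul_cancel₀ h1.ne']
  refine ⟨{z | z ∈ W ∧ ∀ i < N + 1, ρ (F^[i] z) < δ / ((i : ℝ) + 1)}, ⟨?_, ?_, ?_, ?_⟩, ?_, ?_⟩
  · -- open
    rw [isOpen_iff_mem_nhds]
    rintro z ⟨hz, hzi⟩
    have h1 : ∀ᶠ z' in 𝓝 z, z' ∈ W := hW.isOpen.mem_nhds hz
    have h2 : ∀ᶠ z' in 𝓝 z, ∀ i ∈ Finset.range (N + 1), ρ (F^[i] z') < δ / ((i : ℝ) + 1) := by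
      rw [Filter.eventually_all_finset]
      intro i hi
      have h3 : ContinuousAt (fun z' => ρ (F^[i] z')) z :=
        ContinuousAt.comp (f := F^[i]) (hρc _ (hF.iter_ne i (hW.ne_zero hz)))
          (hF.iter' i).cont.continuousAt
      exact h3.eventually_lt continuousAt_const (hzi i (Finset.mem_range.1 hi))
    filter_upwards [h1, h2] with z' h1 h2
    exact ⟨h1, fun i hi => h2 i (Finset.mem_range.2 hi)⟩
  · rintro c hc v ⟨hv, hvi⟩
    refine ⟨hW.cone c hc v hv, fun i hi => ?_⟩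
    rw [hF.iter_hom]
    exact lt_of_le_of_lt (hρs _ (pow_ne_zero _ hc) _ (hF.iter_ne i (hW.ne_zero hv))) (hvi i hi)
  · exact fun h => hW.zero h.1
  · intro v hv h0
    have h1 : v ∈ closure W := closure_mono (fun z hz => hz.1) hv
    have h2 : ∀ i < N + 1, ρ (F^[i] v) ≤ δ / ((i : ℝ) + 1) := by
      intro i hi
      have h3 : ContinuousAt (fun z' => ρ (F^[i] z')) v :=
        ContinuousAt.comp (f := F^[i]) (hρc _ (hF.iter_ne i h0)) (hF.iter' i).cont.continuousAt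
      have h4 : ∃ᶠ z in 𝓝 v, ρ (F^[i] z) < δ / ((i : ℝ) + 1) :=
        (mem_closure_iff_frequently.1 hv).mono fun z hz => hz.2 i hi
      by_contra hcon
      push Not at hcon
      have h5 : ∀ᶠ z in 𝓝 v, δ / ((i : ℝ) + 1) < ρ (F^[i] z) :=
        continuousAt_const.eventually_lt h3 hcon
      obtain ⟨z, hz1, hz2⟩ := (h4.and_eventually h5).exists
      linarith
    refine ⟨hW.trap v h1 h0, fun i hi => ?_⟩
    rw [← Function.iterate_succ_apply]
    by_cases hi' : i + 1 < N + 1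
    · refine lt_of_le_of_lt (h2 (i + 1) hi') ?_
      push_cast
      apply div_lt_div_of_pos_left hδ (by positivity)
      linarith
    · have hi'' : i + 1 = N + 1 := by omega
      have h6 : F^[i + 1] v ∈ KN F (N + 1) W := ⟨v, h1, by rw [hi'']⟩
      rw [Nat.succ_eq_add_one, hρK _ h6 (hF.iter_ne _ h0)]
      positivity
  · intro v hv
    refine ⟨AW_sub F W hv, fun i _ => ?_⟩
    have h1 : ∀ m : ℕ, F^[m] v ∈ AW F W := by
      intro m
      induction m with
      | zero => exact hv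
      | succ m ih =>
        rw [Function.iterate_succ_apply']
        exact AW_mapsTo hF hW ih
    have h2 := (mem_AW hF hd hW).1 (h1 i)
    rw [hρK _ (h2.2 _) h2.1]
    positivity
  · rintro v ⟨hv, hvi⟩
    have h0 := hvi 0 (by omega)
    simp only [Function.iterate_zero, id, Nat.cast_zero, zero_add, div_one] at h0
    have h1 : 0 < ‖v‖ := norm_pos_iff.2 (hW.ne_zero hv)
    have h2 : (((‖v‖ : ℝ) : ℂ))⁻¹ ≠ 0 := inv_ne_zero (by exact_mod_cast h1.ne')
    have h3 : (((‖v‖ : ℝ) : ℂ))⁻¹ • v ∈ O := by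
      apply hth
      rw [mem_thickening_iff_infDist_lt hK1ne]
      exact h0
    exact (hOc.smul_mem_iff h2).1 h3

end shrink

section minimal

variable [FiniteDimensional ℂ V]

theorem QAc_big (hF : HomMap d F) (hd : 1 ≤ d) (hQ : QAc F Q)
    (hmin : ∀ Q', QAc F Q' → Q' ⊆ Q → Q' = Q) (hW : Trap F W) (hne : (W ∩ Q).Nonempty) :
    Q ⊆ AW F W := by
  have hproper : ProperSpace V := FiniteDimensional.proper ℂ V
  obtain ⟨hQne, T, hT, hQT⟩ := hQ
  have hQcl : ∀ v ∈ closure Q, v ≠ 0 → v ∈ Q := by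
    intro v hv h0
    rw [hQT]
    refine ⟨h0, fun W' hW' => ?_⟩
    rw [mem_AW hF hd (hT W' hW')]
    refine ⟨h0, fun n => ?_⟩
    refine closure_minimal ?_ (KN_closed hF hd n W') hv
    intro q hq
    rw [hQT] at hq
    exact ((mem_AW hF hd (hT W' hW')).1 (hq.2 W' hW')).2 n
  have hQc : IsCone Q := by
    intro c hc v hv
    rw [hQT] at hv ⊢
    exact ⟨smul_ne_zero hc hv.1, fun W' hW' => AW_cone hF hd (hT W' hW').cone c hc v (hv.2 W' hW')⟩
  have hQm : ∀ v ∈ Q, F v ∈ Q := by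
    intro v hv
    rw [hQT] at hv ⊢
    exact ⟨hF.ne hv.1, fun W' hW' => AW_mapsTo hF (hT W' hW') (hv.2 W' hW')⟩
  obtain ⟨q, hqW, hqQ⟩ := hne
  have hit : ∀ n : ℕ, F^[n] q ∈ Q := by
    intro n
    induction n with
    | zero => exact hqQ
    | succ n ih =>
      rw [Function.iterate_succ_apply']
      exact hQm _ ih
  have hq0 : q ≠ 0 := hW.ne_zero hqW
  -- nested compact sets
  obtain ⟨v, hv⟩ := IsCompact.nonempty_iInter_of_sequence_nonempty_isCompact_isClosed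
    (fun n : ℕ => (KN F n W ∩ closure Q) ∩ sphere (0 : V) 1) (by
      rintro n v ⟨⟨h1, h2⟩, h3⟩
      refine ⟨⟨KN_anti hF hd hW (Nat.le_succ n) ?_ h1, h2⟩, h3⟩
      rintro rfl
      simp at h3) (by
      intro n
      have h0 : F^[n] q ≠ 0 := hF.iter_ne _ hq0
      have h1 : 0 < ‖F^[n] q‖ := norm_pos_iff.2 h0
      have h2 : (((‖F^[n] q‖ : ℝ) : ℂ))⁻¹ ≠ 0 := inv_ne_zero (by exact_mod_cast h1.ne')
      refine ⟨(((‖F^[n] q‖ : ℝ) : ℂ))⁻¹ • F^[n] q,
        ⟨KN_cone hF hd hW.cone _ _ h2 _ ⟨q, subset_closure hqW, rfl⟩,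
          subset_closure (hQc _ h2 _ (hit n))⟩, ?_⟩
      rw [mem_sphere_zero_iff_norm, norm_smul, norm_inv, Complex.norm_real, norm_norm,
        inv_mul_cancel₀ h1.ne']) ((isCompact_sphere _ _).inter_left
        ((KN_closed hF hd 0 W).inter isClosed_closure))
      (fun n => ((KN_closed hF hd n W).inter isClosed_closure).inter isClosed_sphere)
  rw [mem_iInter] at hv
  have hv0 : v ≠ 0 := by
    rintro rfl
    have := (hv 0).2
    simp at this
  have hvQ : v ∈ Q := hQcl v (hv 0).1.2 hv0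
  have hvA : v ∈ AW F W := (mem_AW hF hd hW).2 ⟨hv0, fun n => (hv n).1.1⟩
  have hQ' : QAc F (Q ∩ AW F W) := by
    refine ⟨⟨v, hvQ, hvA⟩, insert W T, ?_, ?_⟩
    · rintro W' (rfl | hW')
      · exact hW
      · exact hT W' hW'
    · ext x
      constructor
      · rintro ⟨h1, h2⟩
        rw [hQT] at h1
        refine ⟨h1.1, ?_⟩
        rintro W' (rfl | hW')
        · exact h2
        · exact h1.2 W' hW'
      · rintro ⟨h1, h2⟩
        refine ⟨?_, h2 W (mem_insert _ _)⟩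
        rw [hQT]
        exact ⟨h1, fun W' hW' => h2 W' (mem_insert_of_mem _ hW')⟩
  have h1 := hmin _ hQ' inter_subset_left
  intro x hx
  rw [← h1] at hx
  exact hx.2

theorem MQ_of_QAc (hF : HomMap d F) (hd : 1 ≤ d) (hQ : QAc F Q)
    (hmin : ∀ Q', QAc F Q' → Q' ⊆ Q → Q' = Q) : MQ F Q := by
  have hproper : ProperSpace V := FiniteDimensional.proper ℂ V
  have hbig : ∀ W, Trap F W → (W ∩ Q).Nonempty → Q ⊆ AW F W := fun W hW hne =>
    QAc_big hF hd hQ hmin hW hne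
  obtain ⟨hQne, T, hT, hQT⟩ := hQ
  refine ⟨hQne, ?_, ?_, ?_, ?_, fun W hW hne => (hbig W hW hne).trans (AW_sub F W)⟩
  · intro c hc v hv
    rw [hQT] at hv ⊢
    exact ⟨smul_ne_zero hc hv.1, fun W' hW' => AW_cone hF hd (hT W' hW').cone c hc v (hv.2 W' hW')⟩
  · intro h
    rw [hQT] at h
    exact h.1 rfl
  · intro v hv h0
    rw [hQT]
    refine ⟨h0, fun W' hW' => ?_⟩
    rw [mem_AW hF hd (hT W' hW')]
    refine ⟨h0, fun n => ?_⟩
    refine closure_minimal ?_ (KN_closed hF hd n W') hv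
    intro q hq
    rw [hQT] at hq
    exact ((mem_AW hF hd (hT W' hW')).1 (hq.2 W' hW')).2 n
  · intro O hO hOc hQO
    have hE : IsCompact (sphere (0 : V) 1 \ O) := (isCompact_sphere _ _).diff hO
    obtain ⟨W, hW, hQW, N, hN⟩ : ∃ W, Trap F W ∧ Q ⊆ W ∧ ∃ N, ∀ v ∈ sphere (0 : V) 1 \ O,
        v ≠ 0 → v ∉ KN F N W := by
      apply hE.induction_on (p := fun A : Set V => ∃ W, Trap F W ∧ Q ⊆ W ∧ ∃ N, ∀ v ∈ A,
        v ≠ 0 → v ∉ KN F N W)
      · refine ⟨_, trap_univ hF, ?_, 0, fun v hv => absurd hv (notMem_empty v)⟩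
        intro q hq
        rw [hQT] at hq
        exact hq.1
      · rintro A A' hA ⟨W, hW, hQW, N, hN⟩
        exact ⟨W, hW, hQW, N, fun v hv => hN v (hA hv)⟩
      · rintro A A' ⟨W, hW, hQW, N, hN⟩ ⟨W', hW', hQW', N', hN'⟩
        refine ⟨W ∩ W', hW.inter hW', subset_inter hQW hQW', max N N', ?_⟩
        rintro v (hv | hv) h0 hK
        · apply hN v hv h0
          apply KN_anti hF hd hW (le_max_left N N') h0
          exact image_mono (closure_mono inter_subset_left) hK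
        · apply hN' v hv h0
          apply KN_anti hF hd hW' (le_max_right N N') h0
          exact image_mono (closure_mono inter_subset_right) hK
      · rintro x ⟨hx1, hxO⟩
        have hx0 : x ≠ 0 := by
          rintro rfl
          simp at hx1
        have hxQ : x ∉ Q := fun h => hxO (hQO h)
        rw [hQT] at hxQ
        have h1 : ∃ W ∈ T, x ∉ AW F W := by
          by_contra hcon
          push Not at hcon
          exact hxQ ⟨hx0, hcon⟩
        obtain ⟨W, hWT, hxW⟩ := h1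
        have hW := hT W hWT
        rw [mem_AW hF hd hW, not_and, not_forall] at hxW
        obtain ⟨n, hn⟩ := hxW hx0
        refine ⟨(KN F n W)ᶜ, mem_nhdsWithin_of_mem_nhds
          ((KN_closed hF hd n W).isOpen_compl.mem_nhds hn), W, hW, ?_, n, fun v hv _ => hv⟩
        intro q hq
        rw [hQT] at hq
        exact AW_sub F W (hq.2 W hWT)
    obtain ⟨q, hq⟩ := hQne
    obtain ⟨W', hW', hAW', hW'O⟩ := shrink hF hd hW ⟨q, hQW hq⟩ hO (N := N) (by
      intro v hv h0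
      have h1 : 0 < ‖v‖ := norm_pos_iff.2 h0
      have h2 : (((‖v‖ : ℝ) : ℂ))⁻¹ ≠ 0 := inv_ne_zero (by exact_mod_cast h1.ne')
      have h3 : ‖(((‖v‖ : ℝ) : ℂ))⁻¹ • v‖ = 1 := by
        rw [norm_smul, norm_inv, Complex.norm_real, norm_norm, inv_mul_cancel₀ h1.ne']
      by_contra hcon
      have h4 : (((‖v‖ : ℝ) : ℂ))⁻¹ • v ∉ O := fun h => hcon ((hOc.smul_mem_iff h2).1 h)
      exact hN _ ⟨by rw [mem_sphere_zero_iff_norm]; exact h3, h4⟩ (smul_ne_zero h2 h0)
        (KN_cone hF hd hW.cone N _ h2 v hv)) hOc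
    exact ⟨W', hW', (hbig W hW ⟨q, hQW hq, hq⟩).trans hAW', hW'O⟩

/-- an isolated minimal cone is the cone of an attracting set -/
theorem AW_eq_of_Iso (hF : HomMap d F) (hd : 1 ≤ d) (hQ : QAc F Q)
    (hmin : ∀ Q', QAc F Q' → Q' ⊆ Q → Q' = Q) (hI : Iso F Q) :
    ∃ W, Trap F W ∧ W.Nonempty ∧ AW F W = Q := by
  obtain ⟨W, hW, hQW, h⟩ := hI
  obtain ⟨q, hq⟩ := hQ.1
  refine ⟨W, hW, ⟨q, hQW hq⟩, Subset.antisymm (fun v hv => h v hv.2) ?_⟩
  exact QAc_big hF hd hQ hmin hW ⟨q, hQW hq, hq⟩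

end minimal

end Run7.h644
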