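import Pool.Agent.Run7.h644.MinCone
import Pool.Agent.Run7.h644.Defs

/-!
Transfer between projective space and cones.
-/

set_option autoImplicit false
set_option linter.unusedSectionVars false
set_option linter.unusedVariables false
open Set Filter Topology Metric

namespace Run7.h644

variable {k : ℕ}

theorem CP.mk_surj (p : CP k) : ∃ (v : Fin (k + 1) → ℂ) (hv : v ≠ 0), CP.mk v hv = p :=
  ⟨Projectivization.rep (K := ℂ) (V := Fin (k + 1) → ℂ) p,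
    Projectivization.rep_nonzero (K := ℂ) (V := Fin (k + 1) → ℂ) p,
    Projectivization.mk_rep (K := ℂ) (V := Fin (k + 1) → ℂ) p⟩

theorem CP.mk_eq {v w : Fin (k + 1) → ℂ} (hv : v ≠ 0) (hw : w ≠ 0) :
    CP.mk v hv = CP.mk w hw ↔ ∃ c : ℂ, c ≠ 0 ∧ c • w = v := by
  refine Iff.trans (Projectivization.mk_eq_mk_iff' ℂ v w hv hw) ?_
  constructor
  · rintro ⟨a, ha⟩
    refine ⟨a, ?_, ha⟩
    rintro rfl
    rw [zero_smul] at ha
    exact hv ha.symm
  · rintro ⟨c, -, hc⟩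
    exact ⟨c, hc⟩

/-- the cone over a set of points -/
def cone (A : Set (CP k)) : Set (Fin (k + 1) → ℂ) := {v | ∃ hv : v ≠ 0, CP.mk v hv ∈ A}

/-- the set of points of a cone -/
def proj (W : Set (Fin (k + 1) → ℂ)) : Set (CP k) := {p | ∃ v ∈ W, ∃ hv : v ≠ 0, CP.mk v hv = p}

theorem cone_cone (A : Set (CP k)) : IsCone (cone A) := by
  rintro c hc v ⟨hv, h⟩
  refine ⟨smul_ne_zero hc hv, ?_⟩
  have h1 : CP.mk (c • v) (smul_ne_zero hc hv) = CP.mk v hv := (CP.mk_eq _ _).2 ⟨c, hc, rfl⟩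
  rwa [h1]

theorem zero_cone (A : Set (CP k)) : (0 : Fin (k + 1) → ℂ) ∉ cone A := fun h => h.1 rfl

theorem proj_cone (A : Set (CP k)) : proj (cone A) = A := by
  ext p
  constructor
  · rintro ⟨v, ⟨hv, h⟩, hv', rfl⟩
    exact h
  · intro hp
    obtain ⟨v, hv, rfl⟩ := CP.mk_surj p
    exact ⟨v, ⟨hv, hp⟩, hv, rfl⟩

theorem cone_proj {W : Set (Fin (k + 1) → ℂ)} (hW : IsCone W) (h0 : (0 : Fin (k + 1) → ℂ) ∉ W) :
    cone (proj W) = W := by
  ext v
  constructor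
  · rintro ⟨hv, w, hw, hw0, h⟩
    obtain ⟨c, hc, hcv⟩ := (CP.mk_eq _ _).1 h
    rw [← hcv] at hw
    exact (hW.smul_mem_iff hc).1 hw
  · intro hv
    have hv0 : v ≠ 0 := by
      rintro rfl
      exact h0 hv
    exact ⟨hv0, v, hv, hv0, rfl⟩

theorem cone_mono {A B : Set (CP k)} (h : A ⊆ B) : cone A ⊆ cone B := by
  rintro v ⟨hv, hA⟩
  exact ⟨hv, h hA⟩

theorem cone_nonempty {A : Set (CP k)} (h : A.Nonempty) : (cone A).Nonempty := by
  obtain ⟨p, hp⟩ := h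
  obtain ⟨v, hv, rfl⟩ := CP.mk_surj p
  exact ⟨v, hv, hp⟩

theorem isOpen_cone (A : Set (CP k)) : IsOpen A ↔ IsOpen (cone A) := by
  have h1 : IsOpen A ↔ IsOpen ((fun v : {v : Fin (k + 1) → ℂ // v ≠ 0} => CP.mk v.1 v.2) ⁻¹' A) :=
    isOpen_coinduced
  have h2 : IsOpen {v : Fin (k + 1) → ℂ | v ≠ 0} := isOpen_ne
  rw [h1, h2.isOpenEmbedding_subtypeVal.isOpen_iff_image_isOpen]
  have h3 : ((fun v : {v : Fin (k + 1) → ℂ // v ≠ 0} => v.1) ''
      ((fun v : {v : Fin (k + 1) → ℂ // v ≠ 0} => CP.mk v.1 v.2) ⁻¹' A)) = cone A := by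
    ext v
    constructor
    · rintro ⟨w, hw, rfl⟩
      exact ⟨w.2, hw⟩
    · rintro ⟨hv, h⟩
      exact ⟨⟨v, hv⟩, h, rfl⟩
  exact (Iff.of_eq (congrArg IsOpen h3))

theorem closure_cone (A : Set (CP k)) {v : Fin (k + 1) → ℂ} (hv : v ≠ 0) :
    CP.mk v hv ∈ closure A ↔ v ∈ closure (cone A) := by
  constructor
  · intro h
    by_contra hcon
    set N : Set (Fin (k + 1) → ℂ) := (closure (cone A))ᶜ ∩ {v | v ≠ 0} with hN
    have hNo : IsOpen N := isClosed_closure.isOpen_compl.inter isOpen_ne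
    have hNc : IsCone N := by
      rintro c hc w ⟨hw, hw0⟩
      refine ⟨fun h1 => hw (((cone_cone A).closure.smul_mem_iff hc).1 h1), smul_ne_zero hc hw0⟩
    have hN0 : (0 : Fin (k + 1) → ℂ) ∉ N := fun h1 => h1.2 rfl
    have hPo : IsOpen (proj N) := by
      rw [isOpen_cone, cone_proj hNc hN0]
      exact hNo
    obtain ⟨p, ⟨w, hw, hw0, rfl⟩, hpA⟩ := mem_closure_iff.1 h _ hPo ⟨v, ⟨hcon, hv⟩, hv, rfl⟩
    exact hw.1 (subset_closure ⟨hw0, hpA⟩)
  · intro h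
    rw [_root_.mem_closure_iff]
    intro O hO hvO
    obtain ⟨w, ⟨hw0, hwO⟩, ⟨hw1, hwA⟩⟩ := mem_closure_iff.1 h _ ((isOpen_cone O).1 hO) ⟨hv, hvO⟩
    exact ⟨_, hwO, hwA⟩

section endo

variable {d : ℕ} {P : Fin (k + 1) → MvPolynomial (Fin (k + 1)) ℂ} {f : CP k → CP k}

theorem eval_smul_homog {p : MvPolynomial (Fin (k + 1)) ℂ} (hp : p.IsHomogeneous d) (c : ℂ)
    (v : Fin (k + 1) → ℂ) :
    MvPolynomial.eval (c • v) p = c ^ d * MvPolynomial.eval v p := by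
  rw [MvPolynomial.eval_eq, MvPolynomial.eval_eq, Finset.mul_sum]
  apply Finset.sum_congr rfl
  intro m hm
  have h1 := hp.degree_eq_sum_deg_support hm
  simp only [Pi.smul_apply, smul_eq_mul, mul_pow, Finset.prod_mul_distrib]
  rw [Finset.prod_pow_eq_pow_sum, ← h1]
  ring

theorem IsEndo.homMap (h : IsEndo d P f) : HomMap d (polyMap P) where
  diff := by
    rw [differentiable_pi]
    intro i v
    exact ((AnalyticOnNhd.eval_mvPolynomial (P i)) v (mem_univ v)).differentiableAt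
  hom := by
    intro c v
    funext i
    exact eval_smul_homog (h.homog i) c v
  nz := h.nozero

theorem IsEndo.map_mk (h : IsEndo d P f) {v : Fin (k + 1) → ℂ} (hv : v ≠ 0) :
    f (CP.mk v hv) = CP.mk (polyMap P v) (h.homMap.ne hv) := h.lift v hv _

theorem IsEndo.iter_mk (h : IsEndo d P f) (n : ℕ) {v : Fin (k + 1) → ℂ} (hv : v ≠ 0) :
    f^[n] (CP.mk v hv) = CP.mk ((polyMap P)^[n] v) (h.homMap.iter_ne n hv) := by
  induction n with
  | zero => rfl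
  | succ n ih =>
    rw [Function.iterate_succ_apply', ih, h.map_mk]
    congr 1
    rw [Function.iterate_succ_apply']

theorem trap_of_region (h : IsEndo d P f) {U : Set (CP k)} (hU : TrappingRegion f U) :
    Trap (polyMap P) (cone U) where
  isOpen := (isOpen_cone U).1 hU.isOpen
  cone := cone_cone U
  zero := zero_cone U
  trap := by
    intro v hv h0
    refine ⟨h.homMap.ne h0, ?_⟩
    rw [← h.map_mk h0]
    exact hU.maps ⟨_, (closure_cone U h0).2 hv, rfl⟩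

theorem region_of_trap (h : IsEndo d P f) {W : Set (Fin (k + 1) → ℂ)}
    (hW : Trap (polyMap P) W) (hne : W.Nonempty) : TrappingRegion f (proj W) where
  isOpen := by
    rw [isOpen_cone, cone_proj hW.cone hW.zero]
    exact hW.isOpen
  nonempty := by
    obtain ⟨w, hw⟩ := hne
    exact ⟨_, w, hw, hW.ne_zero hw, rfl⟩
  maps := by
    rintro _ ⟨p, hp, rfl⟩
    obtain ⟨v, hv, rfl⟩ := CP.mk_surj p
    rw [closure_cone _ hv, cone_proj hW.cone hW.zero] at hp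
    rw [h.map_mk]
    exact ⟨_, hW.trap v hp hv, _, rfl⟩

theorem cone_attr (h : IsEndo d P f) (hd : 1 ≤ d) (U : Set (CP k)) :
    cone (⋂ n : ℕ, f^[n] '' U) = AW (polyMap P) (cone U) := by
  ext v
  constructor
  · rintro ⟨hv, hvU⟩
    refine ⟨hv, fun n => ?_⟩
    rw [mem_iInter] at hvU
    obtain ⟨p, hp, hpv⟩ := hvU n
    obtain ⟨w, hw, rfl⟩ := CP.mk_surj p
    rw [h.iter_mk] at hpv
    obtain ⟨c, hc, hcv⟩ := (CP.mk_eq _ _).1 hpv
    obtain ⟨b, hb, hbc⟩ := exists_root (Nat.one_le_pow n d hd) (inv_ne_zero hc)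
    refine ⟨b • w, cone_cone U b hb w ⟨hw, hp⟩, ?_⟩
    rw [h.homMap.iter_hom, hbc, ← hcv, smul_smul, inv_mul_cancel₀ hc, one_smul]
  · rintro ⟨hv, h1⟩
    refine ⟨hv, ?_⟩
    rw [mem_iInter]
    intro n
    obtain ⟨w, ⟨hw, hwU⟩, hwv⟩ := h1 n
    refine ⟨_, hwU, ?_⟩
    rw [h.iter_mk]
    congr 1

theorem QAc_of_quasi (h : IsEndo d P f) (hd : 1 ≤ d) {Q : Set (CP k)}
    (hQ : QuasiAttractor f Q) : QAc (polyMap P) (cone Q) := by
  obtain ⟨hne, T, hT, rfl⟩ := hQ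
  refine ⟨cone_nonempty hne, {W | ∃ U, TrappingRegion f U ∧ (⋂ n : ℕ, f^[n] '' U) ∈ T ∧
    W = cone U}, ?_, ?_⟩
  · rintro W ⟨U, hU, -, rfl⟩
    exact trap_of_region h hU
  · ext v
    constructor
    · rintro ⟨hv, hvT⟩
      refine ⟨hv, ?_⟩
      rintro W ⟨U, hU, hUT, rfl⟩
      rw [← cone_attr h hd]
      exact ⟨hv, hvT _ hUT⟩
    · rintro ⟨hv, h1⟩
      refine ⟨hv, ?_⟩
      intro A hA
      obtain ⟨U, hU, hAU⟩ := hT A hA
      have h2 := h1 (cone U) ⟨U, hU, by rw [← hAU]; exact hA, rfl⟩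
      rw [← cone_attr h hd] at h2
      rw [hAU]
      exact h2.2

theorem quasi_of_QAc (h : IsEndo d P f) (hd : 1 ≤ d) {Q : Set (Fin (k + 1) → ℂ)}
    (hQ : QAc (polyMap P) Q) : QuasiAttractor f (proj Q) ∧ cone (proj Q) = Q := by
  obtain ⟨hne, T, hT, hQT⟩ := hQ
  have hcone : IsCone Q := by
    intro c hc v hv
    rw [hQT] at hv ⊢
    exact ⟨smul_ne_zero hc hv.1, fun W hW =>
      AW_cone h.homMap hd (hT W hW).cone c hc v (hv.2 W hW)⟩
  have h0 : (0 : Fin (k + 1) → ℂ) ∉ Q := by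
    intro h1
    rw [hQT] at h1
    exact h1.1 rfl
  refine ⟨⟨?_, {A | ∃ W ∈ T, A = ⋂ n : ℕ, f^[n] '' (proj W)}, ?_, ?_⟩, cone_proj hcone h0⟩
  · obtain ⟨q, hq⟩ := hne
    exact ⟨_, q, hq, fun h1 => h0 (h1 ▸ hq), rfl⟩
  · rintro A ⟨W, hW, rfl⟩
    refine ⟨proj W, region_of_trap h (hT W hW) ?_, rfl⟩
    obtain ⟨q, hq⟩ := hne
    rw [hQT] at hq
    exact ⟨q, AW_sub _ _ (hq.2 W hW)⟩
  · have key : ∀ W ∈ T, cone (⋂ n : ℕ, f^[n] '' (proj W)) = AW (polyMap P) W := by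
      intro W hW
      rw [cone_attr h hd, cone_proj (hT W hW).cone (hT W hW).zero]
    ext p
    obtain ⟨v, hv, rfl⟩ := CP.mk_surj p
    have h2 : CP.mk v hv ∈ proj Q ↔ v ∈ Q := by
      constructor
      · intro h3
        have h4 : v ∈ cone (proj Q) := ⟨hv, h3⟩
        rwa [cone_proj hcone h0] at h4
      · intro h3
        exact ⟨v, h3, hv, rfl⟩
    rw [h2, hQT]
    constructor
    · rintro ⟨-, h3⟩ A ⟨W, hW, rfl⟩
      have h4 := h3 W hW
      rw [← key W hW] at h4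
      exact h4.2
    · intro h3
      refine ⟨hv, fun W hW => ?_⟩
      rw [← key W hW]
      exact ⟨hv, h3 _ ⟨W, hW, rfl⟩⟩

theorem min_cone (h : IsEndo d P f) (hd : 1 ≤ d) {Q : Set (CP k)}
    (hQ : MinimalQuasiAttractor f Q) : QAc (polyMap P) (cone Q) ∧
      ∀ Q', QAc (polyMap P) Q' → Q' ⊆ cone Q → Q' = cone Q := by
  refine ⟨QAc_of_quasi h hd hQ.1, fun Q' hQ' hsub => ?_⟩
  obtain ⟨h1, h2⟩ := quasi_of_QAc h hd hQ'
  have h3 : proj Q' ⊆ Q := by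
    rintro _ ⟨v, hv, hv0, rfl⟩
    exact (hsub hv).2
  rw [← hQ.2 _ h1 h3, h2]

theorem MQ_of_minimal (h : IsEndo d P f) (hd : 1 ≤ d) {Q : Set (CP k)}
    (hQ : MinimalQuasiAttractor f Q) : MQ (polyMap P) (cone Q) := by
  obtain ⟨h1, h2⟩ := min_cone h hd hQ
  exact MQ_of_QAc h.homMap hd h1 h2

theorem attracting_of_Iso (h : IsEndo d P f) (hd : 1 ≤ d) {Q : Set (CP k)}
    (hQ : MinimalQuasiAttractor f Q) (hI : Iso (polyMap P) (cone Q)) : AttractingSet f Q := by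
  obtain ⟨h1, h2⟩ := min_cone h hd hQ
  obtain ⟨W, hW, hne, hAW⟩ := AW_eq_of_Iso h.homMap hd h1 h2 hI
  refine ⟨proj W, region_of_trap h hW hne, ?_⟩
  have h3 : cone (⋂ n : ℕ, f^[n] '' (proj W)) = cone Q := by
    rw [cone_attr h hd, cone_proj hW.cone hW.zero, hAW]
  rw [← proj_cone Q, ← h3, proj_cone]

end endo

end Run7.h644
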