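import Pool.Agent.Run7.h644.Heavy2

/-!
Images of heavy points lie in tubes of unbounded mass.
-/

set_option autoImplicit false
set_option linter.unusedSectionVars false
open Set Filter Topology Metric MeasureTheory
open scoped ENNReal

namespace Run7.h644

variable {V : Type*} [NormedAddCommGroup V] [NormedSpace ℂ V] [FiniteDimensional ℂ V]
variable {F : V → V} {ℓ : V →L[ℂ] ℂ × ℂ} {G : ℂ × ℂ → ℂ × ℂ} {a b' : V} {d : ℕ}
variable {W : Set V} {M : ℝ}

theorem ell_add {s : V} (hℓ : ∀ v, ℓ (F v) = G (ℓ v)) (hs : ℓ s = 0) (v : V) :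
    ℓ (F (v + s)) = ℓ (F v) := by
  rw [hℓ, hℓ, map_add, hs, add_zero]

/-- the base map read in charts is not locally constant -/
theorem chart_nonconst (hF : HomMap d F) (hd : 1 ≤ d) (hG : HomMap d G)
    (hℓ : ∀ v, ℓ (F v) = G (ℓ v)) {h b p b1 : V} (hb : dl ℓ h b = 1) (hb1 : dl ℓ p b1 = 1)
    {r' : ℝ} (hr' : 0 < r') (hal : ∀ u : ℂ, ‖u‖ < r' → al ℓ b1 (F (h + u • b)) ≠ 0)
    (hconst : ∀ u : ℂ, ‖u‖ < r' → uu ℓ p b1 (F (h + u • b)) = uu ℓ p b1 (F h)) : False := by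
  set P : ℂ × ℂ := G (ℓ h) with hP
  have hℓh : ℓ h ≠ 0 := by
    intro h0
    rw [dl_apply, h0] at hb
    simp at hb
  have hP0 : P ≠ 0 := hG.ne hℓh
  set φ : ℂ → ℂ := fun u => wd P (G (ℓ h + u • ℓ b)) with hφ
  have hφd : Differentiable ℂ φ := by
    have h1 : Differentiable ℂ fun u : ℂ => G (ℓ h + u • ℓ b) :=
      hG.diff.comp ((differentiable_id.smul_const _).const_add _)
    exact (h1.snd.const_mul P.1).sub (h1.fst.const_mul P.2)
  have hsm : ∀ u : ℂ, ‖u‖ < r' → φ u = 0 := by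
    intro u hu
    have e1 : G (ℓ h + u • ℓ b) = ℓ (F (h + u • b)) := by rw [hℓ, map_add, map_smul]
    have e2 : P = ℓ (F h) := by rw [hℓ]
    have h0 : al ℓ b1 (F h) ≠ 0 := by
      have := hal 0 (by simpa using hr')
      simpa using this
    have e3 : ∀ v, al ℓ b1 v ≠ 0 → ℓ v = al ℓ b1 v • (ℓ p + uu ℓ p b1 v • ℓ b1) := by
      intro v hv
      conv_lhs => rw [ell_eq hb1 v]
      rw [smul_add, smul_smul]
      unfold uu
      rw [mul_div_cancel₀ _ hv]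
    show wd P (G (ℓ h + u • ℓ b)) = 0
    rw [e1, e2, e3 _ (hal u hu), e3 _ h0, hconst u hu]
    unfold wd
    simp only [Prod.smul_fst, Prod.smul_snd, smul_eq_mul]
    ring
  have hφ0 : ∀ u, φ u = 0 := by
    have h1 : AnalyticOnNhd ℂ φ univ := fun u _ => hφd.analyticAt u
    have h2 : AnalyticOnNhd ℂ (fun _ : ℂ => (0 : ℂ)) univ := fun u _ => analyticAt_const
    have h3 : φ =ᶠ[𝓝 0] fun _ => 0 := by
      filter_upwards [ball_mem_nhds (0 : ℂ) hr'] with u hu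
      exact hsm u (by simpa using hu)
    have h4 := h1.eq_of_eventuallyEq h2 h3
    intro u
    rw [h4]
  -- extension to all vectors
  have hbb : (ℓ h).1 * (ℓ b).2 - (ℓ h).2 * (ℓ b).1 = 1 := by rw [← dl_apply]; exact hb
  have hA : ∀ x : ℂ × ℂ, x.1 * (ℓ b).2 - x.2 * (ℓ b).1 ≠ 0 → wd P (G x) = 0 := by
    intro x hx
    set A : ℂ := x.1 * (ℓ b).2 - x.2 * (ℓ b).1 with hA
    set B : ℂ := (ℓ h).1 * x.2 - (ℓ h).2 * x.1 with hB
    have h1 : x = A • (ℓ h + (B / A) • ℓ b) := by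
      rw [smul_add, smul_smul, mul_div_cancel₀ _ hx]
      apply Prod.ext
      · simp only [Prod.fst_add, Prod.smul_fst, smul_eq_mul]
        rw [hA, hB]
        linear_combination -x.1 * hbb
      · simp only [Prod.snd_add, Prod.smul_snd, smul_eq_mul]
        rw [hA, hB]
        linear_combination -x.2 * hbb
    have h2 : wd P (G x) = A ^ d * φ (B / A) := by
      conv_lhs => rw [h1]
      rw [hG.hom]
      show wd P (A ^ d • G (ℓ h + (B / A) • ℓ b)) = A ^ d * wd P (G (ℓ h + (B / A) • ℓ b))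
      unfold wd
      simp only [Prod.smul_fst, Prod.smul_snd, smul_eq_mul]
      ring
    rw [h2, hφ0, mul_zero]
  apply wd_nonconst hG hd hP0
  intro x
  have hc : Continuous fun x => wd P (G x) := by
    unfold wd
    exact (continuous_const.mul (continuous_snd.comp hG.cont)).sub
      (continuous_const.mul (continuous_fst.comp hG.cont))
  have h1 : Continuous fun ε : ℂ => wd P (G (x + ε • ℓ h)) := hc.comp (by fun_prop)
  by_cases hx : x.1 * (ℓ b).2 - x.2 * (ℓ b).1 = 0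
  · have h2 : ∀ ε : ℂ, ε ≠ 0 → wd P (G (x + ε • ℓ h)) = 0 := by
      intro ε hε
      apply hA
      simp only [Prod.fst_add, Prod.smul_fst, smul_eq_mul, Prod.snd_add, Prod.smul_snd]
      have : (x.1 + ε * (ℓ h).1) * (ℓ b).2 - (x.2 + ε * (ℓ h).2) * (ℓ b).1 = ε := by
        linear_combination hx + ε * hbb
      rw [this]
      exact hε
    have h3 : Tendsto (fun ε : ℂ => wd P (G (x + ε • ℓ h))) (𝓝[≠] 0) (𝓝 (wd P (G x))) := by
      have := h1.tendsto 0
      simp only [zero_smul, add_zero] at this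
      exact this.mono_left nhdsWithin_le_nhds
    have h4 : Tendsto (fun ε : ℂ => wd P (G (x + ε • ℓ h))) (𝓝[≠] 0) (𝓝 0) := by
      apply tendsto_const_nhds.congr'
      filter_upwards [self_mem_nhdsWithin] with ε hε
      exact (h2 ε hε).symm
    exact tendsto_nhds_unique h3 h4
  · exact hA x hx

theorem push (hF : HomMap d F) (hd : 1 ≤ d) (hG : HomMap d G) (hℓ : ∀ v, ℓ (F v) = G (ℓ v))
    (hsurj : Function.Surjective ℓ) (hW : Trap F W)
    (hM : ∀ v ∈ closure W, ‖v‖ ≤ M * ‖ℓ v‖) (hdisc : ∀ t : ℂ, ‖t‖ ≤ 1 → a + t • b' ∈ W)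
    {h : V} (hh : h ∈ HH F ℓ a b') {p b1 : V} {r1 : ℝ} {C1 g1 : Set V}
    (hT1 : Tube F ℓ W p b1 r1 C1 g1) (hFh : F h ∈ TT ℓ p b1 r1 g1) {c1 : ℂ} (hc1 : ‖c1‖ < r1) :
    ¬ Lt (SS F ℓ a b' W p b1 r1 g1) (wn F ℓ a b' p b1) c1 := by
  intro hLt1
  have hall : ∀ c : ℂ, ‖c‖ < r1 → Lt (SS F ℓ a b' W p b1 r1 g1) (wn F ℓ a b' p b1) c :=
    fun c hc => tube_dich hF hd hW hM hdisc hT1 hc1 hc hLt1
  have hhK : h ∈ KK F W := HH_subset_KK hF hd hW hdisc hh
  have hhW : h ∈ W := hW.KK_mem hF hd hhK hh.1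
  have hℓh : ℓ h ≠ 0 := ell_ne hW hM hhW
  obtain ⟨b, hb⟩ := exists_b hsurj hℓh
  obtain ⟨r0, C, g, hT0, -⟩ := exists_tube hF hd hW hM hhK hℓh hb
  -- the image of the fibre piece lies in the second tube
  have himg : (fun s => F (h + s)) '' C ⊆ TT ℓ p b1 r1 g1 := by
    apply hT1.conn_subset hF hd hW (c := (fun s => F (h + s)) '' C) _ _ (p := F h) _ hFh
    · rintro _ ⟨s, hs, rfl⟩
      exact ell_add hℓ (hT0.ker s hs) h
    · apply hT0.conn.image
      exact (hF.cont.comp (by fun_prop)).continuousOn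
    · rintro _ ⟨s, hs, rfl⟩
      have := hT0.inW 0 (by simpa using hT0.rpos.le) s hs
      rw [zero_smul, add_zero] at this
      exact mem_KK this
    · exact ⟨0, hT0.zero, by simp⟩
  have hE : IsCompact ((fun s => h + s) '' C) := hT0.comp.image (by fun_prop)
  have hEo : IsOpen (F ⁻¹' TT ℓ p b1 r1 g1) := (TT_open r1 hT1.gopen).preimage hF.cont
  obtain ⟨δ, hδ, hth⟩ := hE.exists_thickening_subset_open hEo (by
    rintro _ ⟨s, hs, rfl⟩
    exact himg ⟨s, hs, rfl⟩)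
  set r' : ℝ := min r0 (δ / (2 * (‖b‖ + 1))) with hr'
  have hr'0 : 0 < r' := lt_min hT0.rpos (by positivity)
  have hr'r0 : r' ≤ r0 := min_le_left _ _
  have hin : ∀ u : ℂ, ‖u‖ ≤ r' → ∀ s ∈ C, F (h + u • b + s) ∈ TT ℓ p b1 r1 g1 := by
    intro u hu s hs
    apply hth
    rw [mem_thickening_iff]
    refine ⟨h + s, ⟨s, hs, rfl⟩, ?_⟩
    have h1 : h + u • b + s - (h + s) = u • b := by abel
    rw [dist_eq_norm, h1, norm_smul]
    calc ‖u‖ * ‖b‖ ≤ (δ / (2 * (‖b‖ + 1))) * (‖b‖ + 1) := by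
          gcongr
          · exact hu.trans (min_le_right _ _)
          · linarith
      _ = δ / 2 := by field_simp
      _ < δ := by linarith
  have hT : Tube F ℓ W h b r' C g := hT0.mono hr'0 hr'r0
  have hhT : h ∈ TT ℓ h b r' g := by
    have h1 := uu_pt (ℓ := ℓ) (v0 := h) hb (map_zero ℓ) 0
    have h2 := sg_pt (ℓ := ℓ) (v0 := h) hb (map_zero ℓ) 0
    simp only [zero_smul, add_zero] at h1 h2
    refine ⟨by rw [al_v0 hb]; exact one_ne_zero, by rw [h1]; simpa using hr'0, ?_⟩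
    rw [h2]
    apply hT.iso 0 (by simpa using hr'0.le) 0 hT.zero
    simpa using hhK
  -- the base map in charts
  set γ : ℂ → ℂ := fun u => uu ℓ p b1 (F (h + u • b)) with hγ
  have hin0 : ∀ u : ℂ, ‖u‖ ≤ r' → F (h + u • b) ∈ TT ℓ p b1 r1 g1 := by
    intro u hu
    simpa using hin u hu 0 hT.zero
  have hγd : DifferentiableOn ℂ γ (ball 0 r') := by
    intro u hu
    have hu' : ‖u‖ < r' := by simpa using hu
    have h1 : DifferentiableAt ℂ (fun u : ℂ => F (h + u • b)) u :=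
      (hF.diff.comp ((differentiable_id.smul_const b).const_add h)) u
    have h2 : DifferentiableAt ℂ (fun u : ℂ => dl ℓ p (F (h + u • b))) u :=
      (dl ℓ p).differentiableAt.comp u h1
    have h3 : DifferentiableAt ℂ (fun u : ℂ => al ℓ b1 (F (h + u • b))) u :=
      (al ℓ b1).differentiableAt.comp u h1
    exact (h2.div h3 (hin0 u hu'.le).1).differentiableWithinAt
  obtain ⟨u0, hu0, hu0'⟩ : ∃ u0 : ℂ, ‖u0‖ < r' ∧ deriv γ u0 ≠ 0 := by
    by_contra hcon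
    push Not at hcon
    have h1 : ∀ u : ℂ, ‖u‖ < r' → γ u = γ 0 := by
      intro u hu
      have h2 := (convex_ball (0 : ℂ) r').norm_image_sub_le_of_norm_deriv_le (f := γ) (C := 0)
        (x := 0) (y := u) (fun t ht => (hγd t ht).differentiableAt (isOpen_ball.mem_nhds ht))
        (fun t ht => by
          rw [hcon t (by simpa using ht)]
          simp) (by simpa using hr'0) (by simpa using hu)
      rw [zero_mul] at h2
      exact sub_eq_zero.1 (norm_le_zero_iff.1 h2)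
    apply chart_nonconst hF hd hG hℓ hb hT1.hb hr'0 (fun u hu => (hin0 u hu.le).1)
    intro u hu
    have := h1 u hu
    simpa [hγ] using this
  -- a disc on which the derivative is bounded below
  have hγ'c : ContinuousOn (deriv γ) (ball 0 r') := (hγd.deriv isOpen_ball).continuousOn
  set c0 : ℝ := ‖deriv γ u0‖ / 2 with hc0
  have hc0p : 0 < c0 := by
    have := norm_pos_iff.2 hu0'
    positivity
  obtain ⟨δ0, hδ0, hδ0a, hδ0b⟩ : ∃ δ0 : ℝ, 0 < δ0 ∧ closedBall u0 δ0 ⊆ ball 0 r' ∧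
      ∀ u ∈ closedBall u0 δ0, c0 ≤ ‖deriv γ u‖ := by
    have h1 : ∀ᶠ u in 𝓝 u0, u ∈ ball (0 : ℂ) r' ∧ c0 ≤ ‖deriv γ u‖ := by
      have hu0b : u0 ∈ ball (0 : ℂ) r' := by simpa using hu0
      have h2 : ContinuousAt (fun u => ‖deriv γ u‖) u0 :=
        (hγ'c.continuousAt (isOpen_ball.mem_nhds hu0b)).norm
      have h3 : c0 < ‖deriv γ u0‖ := by
        rw [hc0]
        have := norm_pos_iff.2 hu0'
        linarith
      have h5 : ∀ᶠ u in 𝓝 u0, u ∈ ball (0 : ℂ) r' := isOpen_ball.mem_nhds hu0b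
      exact h5.and ((h2.eventually (lt_mem_nhds h3)).mono fun _ h => h.le)
    obtain ⟨δ0, hδ0, hsub⟩ := Metric.nhds_basis_closedBall.mem_iff.1 h1
    exact ⟨δ0, hδ0, fun u hu => (hsub hu).1, fun u hu => (hsub hu).2⟩
  -- light cover of the image
  have hKc : IsCompact (γ '' closedBall u0 δ0) :=
    (isCompact_closedBall u0 δ0).image_of_continuousOn (hγd.continuousOn.mono hδ0a)
  obtain ⟨E, hEo', hKE, C', hC', hbd⟩ := Lt_compact hKc (by
    rintro _ ⟨u, hu, rfl⟩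
    apply hall
    have hu' : ‖u‖ < r' := by simpa using hδ0a hu
    exact (hin0 u hu'.le).2.1)
  -- points of the first tube
  have hpt : ∀ v ∈ TT ℓ h b r' g, F v ∈ TT ℓ p b1 r1 g1 ∧ uu ℓ p b1 (F v) = γ (uu ℓ h b v) := by
    intro v hv
    have h1 := sg_eq (ℓ := ℓ) (v0 := h) (b := b) hv.1
    have h2 : sg ℓ h b v ∈ C := hT.gC _ hv.2.2 (ell_sg hT.hb hv.1)
    have h3 := hin _ hv.2.1.le _ h2
    have h4 : al ℓ b v ^ d ≠ 0 := pow_ne_zero _ hv.1
    have h5 : F v = al ℓ b v ^ d • F (h + uu ℓ h b v • b + sg ℓ h b v) := by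
      conv_lhs => rw [h1]
      rw [hF.hom]
    refine ⟨?_, ?_⟩
    · rw [h5]
      exact TT_cone _ _ _ h4 _ h3
    · rw [h5, uu_smul h4]
      exact uu_of_ell (ell_add hℓ (hT.ker _ h2) _)
  apply not_Lt_of_heavy hF hd hW hM hdisc hT hh hhT hu0
  refine ⟨δ0, hδ0, ENNReal.ofReal ((c0 ^ 2)⁻¹) * C',
    ENNReal.mul_ne_top ENNReal.ofReal_ne_top hC', fun n => ?_⟩
  refine le_trans ?_ (mul_le_mul_right (hbd (n + 1)) _)
  have hSo := SS_open (ℓ := ℓ) (a := a) (b' := b') (v0 := h) (b := b) (r := r') hF hW hT.gopen n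
  have hwd : DifferentiableOn ℂ (wn F ℓ a b' h b n) (SS F ℓ a b' W h b r' g n) := fun t ht =>
    (wn_hasDerivAt hF hb ht.2.1).differentiableAt.differentiableWithinAt
  have hmeas : MeasurableSet (SS F ℓ a b' W h b r' g n ∩ wn F ℓ a b' h b n ⁻¹' ball u0 δ0) :=
    (hwd.continuousOn.isOpen_inter_preimage hSo isOpen_ball).measurableSet
  unfold ms
  rw [← lintegral_const_mul' _ _ ENNReal.ofReal_ne_top]
  have hsub : SS F ℓ a b' W h b r' g n ∩ wn F ℓ a b' h b n ⁻¹' ball u0 δ0 ⊆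
      SS F ℓ a b' W p b1 r1 g1 (n + 1) ∩ wn F ℓ a b' p b1 (n + 1) ⁻¹' E := by
    rintro t ⟨⟨ht1, ht2⟩, ht3⟩
    obtain ⟨h1, h2⟩ := hpt _ ht2
    refine ⟨⟨ht1, ?_⟩, ?_⟩
    · rw [vn_succ]
      exact h1
    · show uu ℓ p b1 (vn F a b' (n + 1) t) ∈ E
      rw [vn_succ, h2]
      exact hKE ⟨_, ball_subset_closedBall ht3, rfl⟩
  refine le_trans ?_ (lintegral_mono_set hsub)
  apply setLIntegral_mono' hmeas
  rintro t ⟨ht, ht3⟩
  rw [← ENNReal.ofReal_mul (by positivity)]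
  apply ENNReal.ofReal_le_ofReal
  have h1 : deriv (wn F ℓ a b' p b1 (n + 1)) t =
      deriv γ (wn F ℓ a b' h b n t) * deriv (wn F ℓ a b' h b n) t := by
    have h2 : wn F ℓ a b' p b1 (n + 1) =ᶠ[𝓝 t] fun t => γ (wn F ℓ a b' h b n t) := by
      filter_upwards [hSo.mem_nhds ht] with t' ht'
      show uu ℓ p b1 (vn F a b' (n + 1) t') = _
      rw [vn_succ, (hpt _ ht'.2).2]
      rfl
    rw [h2.deriv_eq]
    have h3 : wn F ℓ a b' h b n t ∈ ball (0 : ℂ) r' := hδ0a (ball_subset_closedBall ht3)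
    have h4 : HasDerivAt γ (deriv γ (wn F ℓ a b' h b n t)) (wn F ℓ a b' h b n t) :=
      ((hγd _ h3).differentiableAt (isOpen_ball.mem_nhds h3)).hasDerivAt
    exact (h4.comp t (hwd.differentiableAt (hSo.mem_nhds ht)).hasDerivAt).deriv
  rw [h1, norm_mul, mul_pow]
  have h5 := hδ0b _ (ball_subset_closedBall ht3)
  have h6 := chi_nonneg t
  have h7 : 1 ≤ (c0 ^ 2)⁻¹ * ‖deriv γ (wn F ℓ a b' h b n t)‖ ^ 2 := by
    rw [inv_mul_eq_div, le_div_iff₀ (by positivity), one_mul]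
    gcongr
  calc chi t * ‖deriv (wn F ℓ a b' h b n) t‖ ^ 2
      = (chi t * ‖deriv (wn F ℓ a b' h b n) t‖ ^ 2) * 1 := by ring
    _ ≤ (chi t * ‖deriv (wn F ℓ a b' h b n) t‖ ^ 2) *
        ((c0 ^ 2)⁻¹ * ‖deriv γ (wn F ℓ a b' h b n t)‖ ^ 2) := by gcongr
    _ = _ := by ring

end Run7.h644
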