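import Pool.Agent.Run7.h644.Heavy
import Pool.Agent.Run7.h644.Growth2

/-!
A trapping cone which surjects onto the base contains a disc of unbounded mass.
-/

set_option autoImplicit false
set_option linter.unusedSectionVars false
open Set Filter Topology Metric MeasureTheory
open scoped ENNReal

namespace Run7.h644

theorem HomMap.iter {V : Type*} [NormedAddCommGroup V] [NormedSpace ℂ V] {F : V → V} {d : ℕ}
    (h : HomMap d F) (n : ℕ) : HomMap (d ^ n) F^[n] where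
  diff := by
    induction n with
    | zero => exact differentiable_id
    | succ m ih =>
      rw [Function.iterate_succ']
      exact h.diff.comp ih
  hom := h.iter_hom n
  nz := by
    intro v hv
    by_contra h0
    exact h.iter_ne n h0 hv

variable {V : Type*} [NormedAddCommGroup V] [NormedSpace ℂ V] [FiniteDimensional ℂ V]
variable {F : V → V} {ℓ : V →L[ℂ] ℂ × ℂ} {G : ℂ × ℂ → ℂ × ℂ} {d : ℕ} {W : Set V}

theorem ell_iter (hℓ : ∀ v, ℓ (F v) = G (ℓ v)) (n : ℕ) (v : V) : ℓ (F^[n] v) = G^[n] (ℓ v) := by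
  induction n with
  | zero => rfl
  | succ n ih => rw [Function.iterate_succ_apply', Function.iterate_succ_apply', hℓ, ih]

theorem start_local (hF : HomMap d F) (hG : HomMap d G) (hℓ : ∀ v, ℓ (F v) = G (ℓ v))
    (hsurj : Function.Surjective ℓ) (hW : Trap F W)
    (hall : ∀ x : ℂ × ℂ, x ≠ 0 → ∃ v ∈ W, ℓ v = x)
    (hL : ∀ a b' : V, (∀ t : ℂ, ‖t‖ ≤ 1 → a + t • b' ∈ W) → Light F ℓ a b' univ)
    {e0 e1 : ℂ × ℂ} (he : ∀ t : ℂ, e0 + t • e1 ≠ 0) (t0 : ℂ) :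
    ∃ δ : ℝ, 0 < δ ∧ ∃ C : ℝ≥0∞, C ≠ ⊤ ∧ ∀ n : ℕ,
      ∫⁻ t in closedBall t0 δ, ENNReal.ofReal (rho (fun t => G^[n + 1] (e0 + t • e1)) t) ≤ C := by
  obtain ⟨v, hvW, hv⟩ := hall _ (he t0)
  obtain ⟨b1, hb1⟩ := hsurj e1
  obtain ⟨ε, hε, hball⟩ := Metric.isOpen_iff.1 hW.isOpen v hvW
  set δ0 : ℝ := ε / (2 * (‖b1‖ + 1)) with hδ0
  have hδ0p : 0 < δ0 := by positivity
  have hdisc : ∀ t : ℂ, ‖t‖ ≤ 1 → v + t • ((δ0 : ℂ) • b1) ∈ W := by
    intro t ht
    apply hball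
    rw [mem_ball, dist_eq_norm, add_sub_cancel_left, norm_smul, norm_smul, Complex.norm_real,
      Real.norm_of_nonneg hδ0p.le]
    calc ‖t‖ * (δ0 * ‖b1‖) ≤ 1 * (δ0 * (‖b1‖ + 1)) := by
          gcongr
          linarith
      _ = ε / 2 := by rw [hδ0]; field_simp
      _ < ε := by linarith
  obtain ⟨C, hC, hb⟩ := hL _ _ hdisc
  refine ⟨δ0 / 2, by positivity, ENNReal.ofReal (64 / 27) * C,
    ENNReal.mul_ne_top ENNReal.ofReal_ne_top hC, fun n => ?_⟩
  have hδc : (δ0 : ℂ) ≠ 0 := by exact_mod_cast hδ0p.ne'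
  set φ : ℂ → ℂ := fun t => t0 + (δ0 : ℂ) * t with hφ
  have hφd : ∀ t : ℂ, HasDerivAt φ (δ0 : ℂ) t := by
    intro t
    have h1 : HasDerivAt (fun t : ℂ => (δ0 : ℂ) * t) (δ0 : ℂ) t := by
      simpa using (hasDerivAt_id t).const_mul (δ0 : ℂ)
    exact h1.const_add t0
  have himg : φ '' closedBall 0 (1 / 2) = closedBall t0 (δ0 / 2) := by
    ext z
    constructor
    · rintro ⟨t, ht, rfl⟩
      rw [mem_closedBall_zero_iff] at ht
      rw [mem_closedBall, dist_eq_norm, hφ]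
      simp only [add_sub_cancel_left]
      rw [norm_mul, Complex.norm_real, Real.norm_of_nonneg hδ0p.le]
      nlinarith
    · intro hz
      rw [mem_closedBall, dist_eq_norm] at hz
      refine ⟨(z - t0) / δ0, ?_, ?_⟩
      · rw [mem_closedBall_zero_iff, norm_div, Complex.norm_real, Real.norm_of_nonneg hδ0p.le,
          div_le_iff₀ hδ0p]
        linarith
      · simp only [hφ]
        rw [mul_div_cancel₀ _ hδc]
        ring
  set x : ℂ → ℂ × ℂ := fun t => G^[n + 1] (e0 + t • e1) with hx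
  set y : ℂ → ℂ × ℂ := fun t => ℓ (vn F v ((δ0 : ℂ) • b1) n t) with hy
  have hxd : Differentiable ℂ x :=
    (hG.iter (n + 1)).diff.comp ((differentiable_id.smul_const e1).const_add e0)
  have hyx : ∀ t, y t = (1 : ℂ) • x (φ t) := by
    intro t
    rw [one_smul]
    show ℓ (F^[n + 1] (v + t • ((δ0 : ℂ) • b1))) = G^[n + 1] (e0 + (t0 + (δ0 : ℂ) * t) • e1)
    rw [ell_iter hℓ, map_add, map_smul, map_smul, hv, hb1]
    congr 1
    rw [smul_smul, mul_comm t, add_smul, add_assoc]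
  have hrho : ∀ t, rho y t = ‖(δ0 : ℂ)‖ ^ 2 * rho x (φ t) := fun t =>
    rho_cv (c := fun _ => 1) (hxd _) (hasDerivAt_const t 1) (hφd t) one_ne_zero
      (Eventually.of_forall hyx)
  rw [← himg, lint_cv measurableSet_closedBall (fun z _ => hφd z) (by
    intro z _ z' _ h
    have : (δ0 : ℂ) * z = (δ0 : ℂ) * z' := add_left_cancel h
    exact mul_left_cancel₀ hδc this)]
  calc ∫⁻ t in closedBall (0 : ℂ) (1 / 2), ENNReal.ofReal (‖(δ0 : ℂ)‖ ^ 2) *
        ENNReal.ofReal (rho x (φ t))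
      ≤ ∫⁻ t in closedBall (0 : ℂ) (1 / 2), ENNReal.ofReal (64 / 27) *
        ENNReal.ofReal (chi t * rho y t) := by
        apply setLIntegral_mono' measurableSet_closedBall
        intro t ht
        rw [mem_closedBall_zero_iff] at ht
        rw [← ENNReal.ofReal_mul (sq_nonneg _), ← hrho, ← ENNReal.ofReal_mul (by norm_num)]
        apply ENNReal.ofReal_le_ofReal
        have h1 : (27 / 64 : ℝ) ≤ chi t := by
          have h2 := norm_nonneg t
          have h3 : ‖t‖ ^ 2 ≤ 1 / 4 := by nlinarith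
          rw [chi_eq, pp_of_nonneg _ (by linarith)]
          calc (27 / 64 : ℝ) = (3 / 4) ^ 3 := by norm_num
            _ ≤ (1 - ‖t‖ ^ 2) ^ 3 := by
              apply pow_le_pow_left₀ (by norm_num)
              linarith
        have h4 := rho_nonneg y t
        nlinarith
    _ = ENNReal.ofReal (64 / 27) * ∫⁻ t in closedBall (0 : ℂ) (1 / 2),
        ENNReal.ofReal (chi t * rho y t) := lintegral_const_mul' _ _ ENNReal.ofReal_ne_top
    _ ≤ ENNReal.ofReal (64 / 27) * C := by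
        gcongr
        refine le_trans (lintegral_mono_set ?_) (hb n)
        intro t ht
        refine ⟨closedBall_subset_closedBall (by norm_num) ht, mem_univ _⟩

theorem start_global (hF : HomMap d F) (hG : HomMap d G) (hℓ : ∀ v, ℓ (F v) = G (ℓ v))
    (hsurj : Function.Surjective ℓ) (hW : Trap F W)
    (hall : ∀ x : ℂ × ℂ, x ≠ 0 → ∃ v ∈ W, ℓ v = x)
    (hL : ∀ a b' : V, (∀ t : ℂ, ‖t‖ ≤ 1 → a + t • b' ∈ W) → Light F ℓ a b' univ)
    {e0 e1 : ℂ × ℂ} (he : ∀ t : ℂ, e0 + t • e1 ≠ 0) :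
    ∃ C : ℝ≥0∞, C ≠ ⊤ ∧ ∀ n : ℕ,
      ∫⁻ t in closedBall (0 : ℂ) 1,
        ENNReal.ofReal (rho (fun t => G^[n + 1] (e0 + t • e1)) t) ≤ C := by
  apply (isCompact_closedBall (0 : ℂ) 1).induction_on (p := fun s : Set ℂ =>
    ∃ C : ℝ≥0∞, C ≠ ⊤ ∧ ∀ n : ℕ,
      ∫⁻ t in s, ENNReal.ofReal (rho (fun t => G^[n + 1] (e0 + t • e1)) t) ≤ C)
  · exact ⟨0, ENNReal.zero_ne_top, fun n => by simp⟩
  · rintro s t hst ⟨C, hC, hb⟩
    exact ⟨C, hC, fun n => (lintegral_mono_set hst).trans (hb n)⟩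
  · rintro s t ⟨C, hC, hb⟩ ⟨C', hC', hb'⟩
    exact ⟨C + C', ENNReal.add_ne_top.2 ⟨hC, hC'⟩, fun n =>
      (lintegral_union_le _ _ _).trans (add_le_add (hb n) (hb' n))⟩
  · intro t0 _
    obtain ⟨δ, hδ, C, hC, hb⟩ := start_local hF hG hℓ hsurj hW hall hL he t0
    exact ⟨closedBall t0 δ, mem_nhdsWithin_of_mem_nhds (closedBall_mem_nhds t0 hδ), C, hC, hb⟩

theorem start (hF : HomMap d F) (hd : 2 ≤ d) (hG : HomMap d G) (hℓ : ∀ v, ℓ (F v) = G (ℓ v))
    (hsurj : Function.Surjective ℓ) (hW : Trap F W)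
    (hall : ∀ x : ℂ × ℂ, x ≠ 0 → ∃ v ∈ W, ℓ v = x) :
    ∃ a b' : V, (∀ t : ℂ, ‖t‖ ≤ 1 → a + t • b' ∈ W) ∧ ¬ Light F ℓ a b' univ := by
  by_contra hcon
  push Not at hcon
  obtain ⟨C1, hC1, h1⟩ := start_global hF hG hℓ hsurj hW hall hcon (e0 := (1, 0)) (e1 := (0, 1))
    (fun t h => one_ne_zero (α := ℂ) (by simpa using congrArg Prod.fst h))
  obtain ⟨C2, hC2, h2⟩ := start_global hF hG hℓ hsurj hW hall hcon (e0 := (0, 1)) (e1 := (1, 0))
    (fun t h => one_ne_zero (α := ℂ) (by simpa using congrArg Prod.snd h))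
  have e1 : ∀ t : ℂ, ((1 : ℂ), (0 : ℂ)) + t • ((0 : ℂ), (1 : ℂ)) = (1, t) := by
    intro t
    ext <;> simp
  have e2 : ∀ t : ℂ, ((0 : ℂ), (1 : ℂ)) + t • ((1 : ℂ), (0 : ℂ)) = (t, 1) := by
    intro t
    ext <;> simp
  simp only [e1] at h1
  simp only [e2] at h2
  have hC : C1 + C2 ≠ ⊤ := ENNReal.add_ne_top.2 ⟨hC1, hC2⟩
  have key : ∀ n : ℕ, Real.pi * (d ^ (n + 1) : ℕ) / 8 ≤ (C1 + C2).toReal := by
    intro n
    have h3 := (growth (hG.iter (n + 1))).trans (add_le_add (h1 n) (h2 n))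
    exact (ENNReal.ofReal_le_iff_le_toReal hC).1 h3
  obtain ⟨n, hn⟩ := exists_nat_gt ((C1 + C2).toReal * 8 / Real.pi)
  have h4 := key n
  have h5 : n < d ^ (n + 1) := lt_of_lt_of_le (Nat.lt_pow_self (by omega : 1 < d))
    (Nat.pow_le_pow_right (by omega) (by omega))
  have h6 : (n : ℝ) < ((d ^ (n + 1) : ℕ) : ℝ) := by exact_mod_cast h5
  have h7 := Real.pi_pos
  rw [div_lt_iff₀ h7] at hn
  nlinarith

end Run7.h644
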