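import Pool.Agent.Run7.h644.Hyper

/-!
Charts and tubes over a linear projection to the complex plane of dimension two.
-/

set_option autoImplicit false
set_option linter.unusedSectionVars false
open Set Filter Topology Metric

namespace Run7.h644

section chart

variable {V : Type*} [NormedAddCommGroup V] [NormedSpace ℂ V]

/-- the determinant form as a linear map in the second variable -/
noncomputable def dl (ℓ : V →L[ℂ] ℂ × ℂ) (a : V) : V →L[ℂ] ℂ :=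
  (ℓ a).1 • (ContinuousLinearMap.snd ℂ ℂ ℂ).comp ℓ -
    (ℓ a).2 • (ContinuousLinearMap.fst ℂ ℂ ℂ).comp ℓ

theorem dl_apply (ℓ : V →L[ℂ] ℂ × ℂ) (a v : V) :
    dl ℓ a v = (ℓ a).1 * (ℓ v).2 - (ℓ a).2 * (ℓ v).1 := by
  simp [dl]

/-- first coordinate of the chart -/
noncomputable def al (ℓ : V →L[ℂ] ℂ × ℂ) (b : V) : V →L[ℂ] ℂ := -dl ℓ b

theorem al_apply (ℓ : V →L[ℂ] ℂ × ℂ) (b v : V) :
    al ℓ b v = (ℓ v).1 * (ℓ b).2 - (ℓ v).2 * (ℓ b).1 := by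
  simp only [al, neg_apply, dl_apply]
  ring

/-- the affine coordinate of the base -/
noncomputable def uu (ℓ : V →L[ℂ] ℂ × ℂ) (v0 b v : V) : ℂ := dl ℓ v0 v / al ℓ b v

/-- the fibre coordinate -/
noncomputable def sg (ℓ : V →L[ℂ] ℂ × ℂ) (v0 b v : V) : V :=
  (al ℓ b v)⁻¹ • v - v0 - uu ℓ v0 b v • b

/-- the conical tube -/
def TT (ℓ : V →L[ℂ] ℂ × ℂ) (v0 b : V) (r : ℝ) (g : Set V) : Set V :=
  {v | al ℓ b v ≠ 0 ∧ ‖uu ℓ v0 b v‖ < r ∧ sg ℓ v0 b v ∈ g}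

variable {ℓ : V →L[ℂ] ℂ × ℂ} {v0 b : V}

theorem al_v0 (hb : dl ℓ v0 b = 1) : al ℓ b v0 = 1 := by
  rw [al_apply, ← hb, dl_apply]

theorem al_b : al ℓ b b = 0 := by
  rw [al_apply]; ring

theorem dl_self : dl ℓ v0 v0 = 0 := by
  rw [dl_apply]; ring

theorem ell_eq (hb : dl ℓ v0 b = 1) (v : V) :
    ℓ v = al ℓ b v • ℓ v0 + dl ℓ v0 v • ℓ b := by
  rw [dl_apply] at hb
  rw [al_apply, dl_apply]
  apply Prod.ext
  · simp only [Prod.fst_add, Prod.smul_fst, smul_eq_mul]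
    linear_combination -(ℓ v).1 * hb
  · simp only [Prod.snd_add, Prod.smul_snd, smul_eq_mul]
    linear_combination -(ℓ v).2 * hb

theorem wedge_eq (hb : dl ℓ v0 b = 1) (v w : V) :
    al ℓ b v * dl ℓ v0 w - dl ℓ v0 v * al ℓ b w = dl ℓ v w := by
  rw [dl_apply] at hb
  rw [al_apply, al_apply, dl_apply, dl_apply, dl_apply]
  linear_combination ((ℓ v).1 * (ℓ w).2 - (ℓ v).2 * (ℓ w).1) * hb

theorem al_of_ell {v w : V} (h : ℓ v = ℓ w) : al ℓ b v = al ℓ b w := by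
  rw [al_apply, al_apply, h]

theorem dl_of_ell {v w : V} (h : ℓ v = ℓ w) : dl ℓ v0 v = dl ℓ v0 w := by
  rw [dl_apply, dl_apply, h]

theorem uu_of_ell {v w : V} (h : ℓ v = ℓ w) : uu ℓ v0 b v = uu ℓ v0 b w := by
  unfold uu
  rw [al_of_ell h, dl_of_ell h]

theorem sg_eq {v : V} (hv : al ℓ b v ≠ 0) :
    v = al ℓ b v • (v0 + uu ℓ v0 b v • b + sg ℓ v0 b v) := by
  have : v0 + uu ℓ v0 b v • b + sg ℓ v0 b v = (al ℓ b v)⁻¹ • v := by
    unfold sg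
    abel
  rw [this, smul_smul, mul_inv_cancel₀ hv, one_smul]

theorem ell_sg (hb : dl ℓ v0 b = 1) {v : V} (hv : al ℓ b v ≠ 0) : ℓ (sg ℓ v0 b v) = 0 := by
  unfold sg uu
  rw [map_sub, map_sub, map_smul, map_smul]
  conv_lhs => rw [ell_eq hb v]
  rw [smul_add, smul_smul, smul_smul, inv_mul_cancel₀ hv, one_smul, div_eq_inv_mul]
  abel

theorem al_pt (hb : dl ℓ v0 b = 1) {s : V} (hs : ℓ s = 0) (u : ℂ) :
    al ℓ b (v0 + u • b + s) = 1 := by
  have h1 : al ℓ b s = 0 := by rw [al_apply, hs]; simp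
  rw [map_add, map_add, map_smul, al_v0 hb, al_b, h1]
  simp

theorem dl_pt (hb : dl ℓ v0 b = 1) {s : V} (hs : ℓ s = 0) (u : ℂ) :
    dl ℓ v0 (v0 + u • b + s) = u := by
  have h1 : dl ℓ v0 s = 0 := by rw [dl_apply, hs]; simp
  rw [map_add, map_add, map_smul, dl_self, hb, h1]
  simp

theorem uu_pt (hb : dl ℓ v0 b = 1) {s : V} (hs : ℓ s = 0) (u : ℂ) :
    uu ℓ v0 b (v0 + u • b + s) = u := by
  unfold uu
  rw [al_pt hb hs, dl_pt hb hs, div_one]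

theorem sg_pt (hb : dl ℓ v0 b = 1) {s : V} (hs : ℓ s = 0) (u : ℂ) :
    sg ℓ v0 b (v0 + u • b + s) = s := by
  unfold sg
  rw [uu_pt hb hs, al_pt hb hs, inv_one, one_smul]
  abel

theorem uu_smul {c : ℂ} (hc : c ≠ 0) (v : V) : uu ℓ v0 b (c • v) = uu ℓ v0 b v := by
  unfold uu
  rw [map_smul, map_smul, smul_eq_mul, smul_eq_mul, mul_div_mul_left _ _ hc]

theorem sg_smul {c : ℂ} (hc : c ≠ 0) (v : V) : sg ℓ v0 b (c • v) = sg ℓ v0 b v := by
  unfold sg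
  rw [uu_smul hc, map_smul, smul_eq_mul, smul_smul, mul_inv, mul_comm c⁻¹, mul_assoc,
    inv_mul_cancel₀ hc, mul_one]

theorem TT_cone (r : ℝ) (g : Set V) : IsCone (TT ℓ v0 b r g) := by
  rintro c hc v ⟨h1, h2, h3⟩
  refine ⟨by rw [map_smul, smul_eq_mul]; exact mul_ne_zero hc h1, ?_, ?_⟩
  · rwa [uu_smul hc]
  · rwa [sg_smul hc]

theorem uu_contOn : ContinuousOn (uu ℓ v0 b) {v | al ℓ b v ≠ 0} :=
  (dl ℓ v0).continuous.continuousOn.div (al ℓ b).continuous.continuousOn fun _ hv => hv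

theorem sg_contOn : ContinuousOn (sg ℓ v0 b) {v | al ℓ b v ≠ 0} := by
  have h1 : ContinuousOn (fun v => (al ℓ b v)⁻¹ • v) {v | al ℓ b v ≠ 0} :=
    (ContinuousOn.inv₀ (al ℓ b).continuous.continuousOn fun _ hv => hv).smul continuousOn_id
  exact (h1.sub continuousOn_const).sub (uu_contOn.smul continuousOn_const)

theorem al_open : IsOpen {v : V | al ℓ b v ≠ 0} :=
  isOpen_ne_fun (al ℓ b).continuous continuous_const

theorem TT_open (r : ℝ) {g : Set V} (hg : IsOpen g) : IsOpen (TT ℓ v0 b r g) := by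
  have h1 := uu_contOn (ℓ := ℓ) (v0 := v0) (b := b) |>.isOpen_inter_preimage al_open
    (isOpen_ball (x := (0 : ℂ)) (ε := r))
  have h2 := sg_contOn (ℓ := ℓ) (v0 := v0) (b := b) |>.isOpen_inter_preimage al_open hg
  convert h1.inter h2 using 1
  ext v
  constructor
  · rintro ⟨a1, a2, a3⟩
    exact ⟨⟨a1, by simpa using a2⟩, a1, a3⟩
  · rintro ⟨⟨a1, a2⟩, -, a3⟩
    exact ⟨a1, by simpa using a2, a3⟩

/-- the part of the tube over a closed disc, with compact fibre -/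
def TR (ℓ : V →L[ℂ] ℂ × ℂ) (v0 b : V) (c : ℂ) (R : ℝ) (C : Set V) : Set V :=
  {v | al ℓ b v ≠ 0 ∧ ‖uu ℓ v0 b v - c‖ ≤ R ∧ sg ℓ v0 b v ∈ C}

/-- the compact cross section is closed in the complement of the centre -/
theorem TR_closed (hb : dl ℓ v0 b = 1) (c : ℂ) (R : ℝ) {C : Set V} (hC : IsClosed C) {v : V}
    (hv : v ∈ closure (TR ℓ v0 b c R C)) (hℓv : ℓ v ≠ 0) : v ∈ TR ℓ v0 b c R C := by
  -- `al v ≠ 0`
  have hal : al ℓ b v ≠ 0 := by
    intro h0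
    have h1 : IsClosed {w : V | ‖dl ℓ v0 w - c * al ℓ b w‖ ≤ R * ‖al ℓ b w‖} :=
      isClosed_le (by fun_prop) (by fun_prop)
    have h2 : TR ℓ v0 b c R C ⊆ {w : V | ‖dl ℓ v0 w - c * al ℓ b w‖ ≤ R * ‖al ℓ b w‖} := by
      rintro w ⟨hw1, hw2, -⟩
      have h3 : dl ℓ v0 w - c * al ℓ b w = (uu ℓ v0 b w - c) * al ℓ b w := by
        unfold uu
        rw [sub_mul, div_mul_cancel₀ _ hw1]
      show ‖dl ℓ v0 w - c * al ℓ b w‖ ≤ R * ‖al ℓ b w‖
      rw [h3, norm_mul]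
      gcongr
    have h4 : ‖dl ℓ v0 v - c * al ℓ b v‖ ≤ R * ‖al ℓ b v‖ := closure_minimal h2 h1 hv
    rw [h0, norm_zero, mul_zero, mul_zero, sub_zero] at h4
    have h5 : dl ℓ v0 v = 0 := norm_le_zero_iff.1 h4
    apply hℓv
    rw [ell_eq hb v, h0, h5, zero_smul, zero_smul, add_zero]
  refine ⟨hal, ?_, ?_⟩
  · have h1 : ContinuousAt (fun w => ‖uu ℓ v0 b w - c‖) v :=
      ((uu_contOn.continuousAt (al_open.mem_nhds hal)).sub_const c).norm
    have h2 : ∃ᶠ w in 𝓝 v, ‖uu ℓ v0 b w - c‖ ≤ R :=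
      (mem_closure_iff_frequently.1 hv).mono fun w hw => hw.2.1
    exact closure_minimal (s := Iic R) (fun _ h => h) isClosed_Iic
      (mem_closure_iff_frequently.2 (h1.frequently h2 : ∃ᶠ x in _, x ∈ Iic R))
  · have h1 : ContinuousAt (sg ℓ v0 b) v := sg_contOn.continuousAt (al_open.mem_nhds hal)
    have h2 : ∃ᶠ w in 𝓝 v, sg ℓ v0 b w ∈ C :=
      (mem_closure_iff_frequently.1 hv).mono fun w hw => hw.2.2
    rw [← hC.closure_eq]
    exact mem_closure_iff_frequently.2 (h1.frequently h2)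

end chart

section link

variable {V : Type*} [NormedAddCommGroup V] [NormedSpace ℂ V]
variable {B : Type*} [NormedAddCommGroup B] [NormedSpace ℂ B]

/-- two points of a fibre are linked in `W` -/
def Lk (ℓ : V →L[ℂ] B) (W : Set V) (z h : V) : Prop :=
  ∃ c : Set V, IsCompact c ∧ IsPreconnected c ∧ z ∈ c ∧ h ∈ c ∧ c ⊆ W ∧ ∀ v ∈ c, ℓ v = ℓ z

theorem Lk.refl {ℓ : V →L[ℂ] B} {W : Set V} {z : V} (hz : z ∈ W) : Lk ℓ W z z :=
  ⟨{z}, isCompact_singleton, isPreconnected_singleton, rfl, rfl, by simpa using hz,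
    by simp⟩

theorem Lk.ell {ℓ : V →L[ℂ] B} {W : Set V} {z h : V} (H : Lk ℓ W z h) : ℓ h = ℓ z := by
  obtain ⟨c, -, -, -, h4, -, h6⟩ := H
  exact h6 h h4

theorem Lk.symm {ℓ : V →L[ℂ] B} {W : Set V} {z h : V} (H : Lk ℓ W z h) : Lk ℓ W h z := by
  obtain ⟨c, h1, h2, h3, h4, h5, h6⟩ := H
  exact ⟨c, h1, h2, h4, h3, h5, fun v hv => (h6 v hv).trans (h6 h h4).symm⟩

theorem Lk.trans {ℓ : V →L[ℂ] B} {W : Set V} {z h k : V} (H : Lk ℓ W z h) (H' : Lk ℓ W h k) :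
    Lk ℓ W z k := by
  obtain ⟨c, h1, h2, h3, h4, h5, h6⟩ := H
  obtain ⟨c', h1', h2', h3', h4', h5', h6'⟩ := H'
  refine ⟨c ∪ c', h1.union h1', h2.union h h4 h3' h2', Or.inl h3, Or.inr h4',
    union_subset h5 h5', ?_⟩
  rintro v (hv | hv)
  · exact h6 v hv
  · exact (h6' v hv).trans (h6 h h4)

/-- the piece of a closed ball in a fibre -/
def PB (ℓ : V →L[ℂ] B) (h : V) (ρ : ℝ) : Set V := closedBall h ρ ∩ {v | ℓ v = ℓ h}

theorem PB_convex (ℓ : V →L[ℂ] B) (h : V) (ρ : ℝ) : Convex ℝ (PB ℓ h ρ) := by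
  apply (convex_closedBall h ρ).inter
  intro x hx y hy a b ha hb hab
  have hx' : ℓ x = ℓ h := hx
  have hy' : ℓ y = ℓ h := hy
  show ℓ (a • x + b • y) = ℓ h
  rw [map_add, ← Complex.coe_smul, ← Complex.coe_smul, map_smul, map_smul, hx', hy', ← add_smul,
    ← Complex.ofReal_add, hab, Complex.ofReal_one, one_smul]

theorem PB_preconn (ℓ : V →L[ℂ] B) (h : V) (ρ : ℝ) : IsPreconnected (PB ℓ h ρ) :=
  (PB_convex ℓ h ρ).isPreconnected

theorem PB_compact [FiniteDimensional ℂ V] (ℓ : V →L[ℂ] B) (h : V) (ρ : ℝ) :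
    IsCompact (PB ℓ h ρ) := by
  have hproper : ProperSpace V := FiniteDimensional.proper ℂ V
  exact (isCompact_closedBall h ρ).inter_right (isClosed_eq ℓ.continuous continuous_const)

theorem Lk.of_ball [FiniteDimensional ℂ V] {ℓ : V →L[ℂ] B} {W : Set V} {z h : V} {ρ : ℝ}
    (hρ : closedBall z ρ ⊆ W) (hh : dist h z ≤ ρ) (hℓ : ℓ h = ℓ z) : Lk ℓ W z h :=
  ⟨PB ℓ z ρ, PB_compact ℓ z ρ, PB_preconn ℓ z ρ,
    ⟨mem_closedBall_self (dist_nonneg.trans hh), rfl⟩, ⟨hh, hℓ⟩,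
    fun _ hv => hρ hv.1, fun _ hv => hv.2⟩

end link

section tube

variable {V : Type*} [NormedAddCommGroup V] [NormedSpace ℂ V] [FiniteDimensional ℂ V]
variable {d : ℕ} {F : V → V} {ℓ : V →L[ℂ] ℂ × ℂ}

/-- tubes adapted to a trapping cone -/
structure Tube (F : V → V) (ℓ : V →L[ℂ] ℂ × ℂ) (W : Set V) (v0 b : V) (r : ℝ) (C g : Set V) :
    Prop where
  rpos : 0 < r
  hb : dl ℓ v0 b = 1
  comp : IsCompact C
  conn : IsPreconnected C
  zero : (0 : V) ∈ C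
  ker : ∀ s ∈ C, ℓ s = 0
  gopen : IsOpen g
  gC : ∀ s ∈ g, ℓ s = 0 → s ∈ C
  inW : ∀ u : ℂ, ‖u‖ ≤ r → ∀ s ∈ C, v0 + u • b + s ∈ W
  iso : ∀ u : ℂ, ‖u‖ ≤ r → ∀ s ∈ C, v0 + u • b + s ∈ KK F W → s ∈ g

theorem Tube.mono {W : Set V} {v0 b : V} {r : ℝ} {C g : Set V} (hT : Tube F ℓ W v0 b r C g)
    {r' : ℝ} (hr' : 0 < r') (hle : r' ≤ r) : Tube F ℓ W v0 b r' C g :=
  { hT with
    rpos := hr'
    inW := fun u hu => hT.inW u (hu.trans hle)
    iso := fun u hu => hT.iso u (hu.trans hle) }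

theorem exists_tube (hF : HomMap d F) (hd : 1 ≤ d) {W : Set V} (hW : Trap F W) {M : ℝ}
    (hM : ∀ v ∈ closure W, ‖v‖ ≤ M * ‖ℓ v‖) {v0 b : V} (hv0 : v0 ∈ KK F W) (hv00 : ℓ v0 ≠ 0)
    (hb : dl ℓ v0 b = 1) :
    ∃ r C g, Tube F ℓ W v0 b r C g ∧ ∀ h ∈ KK F W, Lk ℓ W v0 h → h - v0 ∈ g := by
  have hproper : ProperSpace V := FiniteDimensional.proper ℂ V
  obtain ⟨η, hη, hmar⟩ := margin (ℓ := ℓ) hF hd hW hM
  have hne : ∀ h : V, ℓ h = ℓ v0 → h ≠ 0 := by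
    rintro h h1 rfl
    rw [map_zero] at h1
    exact hv00 h1.symm
  set Cl : Set V := {h | h ∈ KK F W ∧ Lk ℓ W v0 h} with hCl
  have hClc : IsCompact Cl := by
    apply Metric.isCompact_of_isClosed_isBounded
    · rw [← closure_subset_iff_isClosed]
      intro h hh
      have h1 : h ∈ KK F W := closure_minimal (fun x hx => hx.1) (KK_closed hF hd W) hh
      have h2 : ℓ h = ℓ v0 := closure_minimal (s := Cl) (t := {x | ℓ x = ℓ v0})
        (fun x hx => hx.2.ell) (isClosed_eq ℓ.continuous continuous_const) hh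
      have h3 : 0 < ‖ℓ h‖ := by
        rw [h2]
        exact norm_pos_iff.2 hv00
      have h4 : closedBall h (η * ‖ℓ h‖ / 2) ⊆ W := by
        intro z hz
        have := hmar h h1 (hne h h2) (z - h) (by
          rw [mem_closedBall, dist_eq_norm] at hz
          have : 0 < η * ‖ℓ h‖ := by positivity
          linarith)
        rwa [add_sub_cancel] at this
      obtain ⟨h', hh', hd'⟩ := Metric.mem_closure_iff.1 hh (η * ‖ℓ h‖ / 2) (by positivity)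
      refine ⟨h1, hh'.2.trans (Lk.symm (Lk.of_ball h4 ?_ ?_))⟩
      · rw [dist_comm]
        exact hd'.le
      · rw [hh'.2.ell, h2]
    · apply (isBounded_closedBall (x := (0 : V)) (r := M * ‖ℓ v0‖)).subset
      rintro h ⟨h1, h2⟩
      rw [mem_closedBall_zero_iff]
      have := hM h (subset_closure (hW.KK_mem hF hd h1 (hne h h2.ell)))
      rwa [h2.ell] at this
  -- choose balls and connecting sets
  have hch : ∀ h ∈ Cl, ∃ ρ : ℝ, 0 < ρ ∧ closedBall h ρ ⊆ W := by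
    rintro h ⟨h1, h2⟩
    have h3 : h ∈ W := hW.KK_mem hF hd h1 (hne h h2.ell)
    exact Metric.nhds_basis_closedBall.mem_iff.1 (hW.isOpen.mem_nhds h3)
  choose! ρ hρ0 hρW using hch
  have hlk : ∀ h ∈ Cl, Lk ℓ W v0 h := fun h hh => hh.2
  choose! cc hcc using hlk
  obtain ⟨t, ht, hcov⟩ := hClc.elim_nhds_subcover (fun h => ball h (ρ h))
    (fun h hh => ball_mem_nhds h (hρ0 h hh))
  have hv0W : v0 ∈ W := hW.KK_mem hF hd hv0 (hne v0 rfl)
  set C0 : Set V := {v0} ∪ ⋃ h ∈ t, (cc h ∪ PB ℓ h (ρ h)) with hC0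
  set g0 : Set V := ⋃ h ∈ t, ball h (ρ h) with hg0
  have hg0o : IsOpen g0 := isOpen_biUnion fun h _ => isOpen_ball
  have hC0c : IsCompact C0 := by
    apply isCompact_singleton.union
    apply t.isCompact_biUnion
    intro h hh
    exact (hcc h (ht h hh)).1.union (PB_compact ℓ h (ρ h))
  have hC0conn : IsPreconnected C0 := by
    have hpiece : ∀ h ∈ t, IsPreconnected (cc h ∪ PB ℓ h (ρ h)) ∧ v0 ∈ cc h ∪ PB ℓ h (ρ h) := by
      intro h hh
      obtain ⟨-, h2, h3, h4, -, -⟩ := hcc h (ht h hh)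
      exact ⟨h2.union h h4 ⟨mem_closedBall_self (hρ0 h (ht h hh)).le, rfl⟩ (PB_preconn ℓ h (ρ h)),
        Or.inl h3⟩
    have h1 : C0 = ⋃₀ (insert {v0} ((fun h => cc h ∪ PB ℓ h (ρ h)) '' (t : Set V))) := by
      rw [sUnion_insert, sUnion_image]
      rfl
    rw [h1]
    apply isPreconnected_sUnion v0
    · rintro s (rfl | ⟨h, hh, rfl⟩)
      · rfl
      · exact (hpiece h hh).2
    · rintro s (rfl | ⟨h, hh, rfl⟩)
      · exact isPreconnected_singleton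
      · exact (hpiece h hh).1
  have hC0W : C0 ⊆ W := by
    rintro v (rfl | hv)
    · exact hv0W
    · rw [mem_iUnion₂] at hv
      obtain ⟨h, hh, hv | hv⟩ := hv
      · exact (hcc h (ht h hh)).2.2.2.2.1 hv
      · exact hρW h (ht h hh) hv.1
  have hC0ℓ : ∀ v ∈ C0, ℓ v = ℓ v0 := by
    rintro v (rfl | hv)
    · rfl
    · rw [mem_iUnion₂] at hv
      obtain ⟨h, hh, hv | hv⟩ := hv
      · exact (hcc h (ht h hh)).2.2.2.2.2 v hv
      · have h1 : ℓ v = ℓ h := hv.2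
        rw [h1]
        exact (ht h hh).2.ell
  have hC0K : ∀ v ∈ C0, v ∈ KK F W → v ∈ g0 := by
    intro v hv hvK
    exact hcov ⟨hvK, C0, hC0c, hC0conn, Or.inl rfl, hv, hC0W, hC0ℓ⟩
  -- margins
  obtain ⟨δ1, hδ1, hth1⟩ := hC0c.exists_thickening_subset_open hW.isOpen hC0W
  have hE : IsCompact (C0 \ g0) := hC0c.diff hg0o
  obtain ⟨δ2, hδ2, hth2⟩ := hE.exists_thickening_subset_open (KK_closed hF hd W).isOpen_compl
    (fun v hv hvK => hv.2 (hC0K v hv.1 hvK))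
  set r : ℝ := min δ1 δ2 / (2 * (‖b‖ + 1)) with hr
  have hr0 : 0 < r := by
    have : 0 < min δ1 δ2 := lt_min hδ1 hδ2
    positivity
  have hub : ∀ u : ℂ, ‖u‖ ≤ r → ‖u • b‖ < min δ1 δ2 := by
    intro u hu
    have hmin : 0 < min δ1 δ2 := lt_min hδ1 hδ2
    rw [norm_smul]
    calc ‖u‖ * ‖b‖ ≤ r * (‖b‖ + 1) := by gcongr; linarith
      _ = min δ1 δ2 / 2 := by rw [hr]; field_simp
      _ < min δ1 δ2 := by linarith
  refine ⟨r, (fun v => v - v0) '' C0, (fun s => v0 + s) ⁻¹' g0, ?_, ?_⟩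
  · refine ⟨hr0, hb, hC0c.image (by fun_prop), hC0conn.image _ (by fun_prop),
      ⟨v0, Or.inl rfl, sub_self _⟩, ?_, hg0o.preimage (by fun_prop), ?_, ?_, ?_⟩
    · rintro _ ⟨v, hv, rfl⟩
      simp only [map_sub, hC0ℓ v hv, sub_self]
    · intro s hs hs0
      refine ⟨v0 + s, Or.inr ?_, by simp⟩
      have hs' : v0 + s ∈ g0 := hs
      rw [hg0, mem_iUnion₂] at hs'
      obtain ⟨h, hh, hsh⟩ := hs'
      rw [mem_iUnion₂]
      refine ⟨h, hh, Or.inr ⟨ball_subset_closedBall hsh, ?_⟩⟩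
      show ℓ (v0 + s) = ℓ h
      rw [map_add, hs0, add_zero, (ht h hh).2.ell]
    · rintro u hu _ ⟨v, hv, rfl⟩
      apply hth1
      rw [mem_thickening_iff]
      refine ⟨v, hv, ?_⟩
      have : v0 + u • b + (v - v0) - v = u • b := by abel
      rw [dist_eq_norm, this]
      exact (hub u hu).trans_le (min_le_left _ _)
    · rintro u hu _ ⟨v, hv, rfl⟩ hK
      by_contra hcon
      have hcon' : v ∉ g0 := by
        intro h
        apply hcon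
        show v0 + (v - v0) ∈ g0
        rwa [add_sub_cancel]
      apply hth2 _ hK
      rw [mem_thickening_iff]
      refine ⟨v, ⟨hv, hcon'⟩, ?_⟩
      have : v0 + u • b + (v - v0) - v = u • b := by abel
      rw [dist_eq_norm, this]
      exact (hub u hu).trans_le (min_le_right _ _)
  · intro h hh hl
    show v0 + (h - v0) ∈ g0
    rw [add_sub_cancel]
    exact hcov ⟨hh, hl⟩

variable {W : Set V} {v0 b : V} {r : ℝ} {C g : Set V}

/-- a point of `K` over the closed disc lies in the tube as soon as its fibre coordinate is in `C` -/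
theorem Tube.mem_of (hT : Tube F ℓ W v0 b r C g) (hF : HomMap d F) (hd : 1 ≤ d)
    (hW : Trap F W) {v : V} (hv : v ∈ KK F W) (h1 : al ℓ b v ≠ 0) (h2 : ‖uu ℓ v0 b v‖ ≤ r)
    (h3 : sg ℓ v0 b v ∈ C) : sg ℓ v0 b v ∈ g := by
  apply hT.iso _ h2 _ h3
  have h4 := sg_eq (ℓ := ℓ) (v0 := v0) (b := b) h1
  rw [← (KK_cone hF hd hW.cone).smul_mem_iff h1, ← h4]
  exact hv

/-- isolation of the tube: connected subsets of `K` in one fibre meeting the tube lie in it -/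
theorem Tube.conn_subset (hT : Tube F ℓ W v0 b r C g) (hF : HomMap d F) (hd : 1 ≤ d)
    (hW : Trap F W) {c : Set V} (hc : IsPreconnected c) (hcK : c ⊆ KK F W) {p : V} (hp : p ∈ c)
    (hpT : p ∈ TT ℓ v0 b r g) (hcp : ∀ v ∈ c, ℓ v = ℓ p) : c ⊆ TT ℓ v0 b r g := by
  obtain ⟨hp1, hp2, hp3⟩ := hpT
  have hal : ∀ v ∈ c, al ℓ b v ≠ 0 := fun v hv => by rw [al_of_ell (hcp v hv)]; exact hp1
  have huu : ∀ v ∈ c, ‖uu ℓ v0 b v‖ < r := fun v hv => by rw [uu_of_ell (hcp v hv)]; exact hp2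
  have hcont : ContinuousOn (sg ℓ v0 b) c := sg_contOn.mono hal
  have himg : IsPreconnected (sg ℓ v0 b '' c) := hc.image _ hcont
  have hsub : sg ℓ v0 b '' c ⊆ g ∪ Cᶜ := by
    rintro _ ⟨v, hv, rfl⟩
    by_cases h : sg ℓ v0 b v ∈ C
    · exact Or.inl (hT.mem_of hF hd hW (hcK hv) (hal v hv) (huu v hv).le h)
    · exact Or.inr h
  have hdisj : (sg ℓ v0 b '' c) ∩ (g ∩ Cᶜ) = ∅ := by
    rw [eq_empty_iff_forall_notMem]
    rintro s ⟨⟨v, hv, rfl⟩, h1, h2⟩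
    exact h2 (hT.gC _ h1 (ell_sg hT.hb (hal v hv)))
  have hCc : IsOpen Cᶜ := hT.comp.isClosed.isOpen_compl
  have hres : sg ℓ v0 b '' c ⊆ g := by
    intro s hs
    by_contra hsg
    have h1 : s ∈ Cᶜ := (hsub hs).resolve_left hsg
    have h2 := himg g Cᶜ hT.gopen hCc hsub ⟨sg ℓ v0 b p, ⟨p, hp, rfl⟩, hp3⟩ ⟨s, hs, h1⟩
    rw [hdisj] at h2
    exact h2.ne_empty rfl
  intro v hv
  exact ⟨hal v hv, huu v hv, hres ⟨v, hv, rfl⟩⟩

theorem exists_b (hsurj : Function.Surjective ℓ) {v0 : V} (h : ℓ v0 ≠ 0) :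
    ∃ b, dl ℓ v0 b = 1 := by
  by_cases h1 : (ℓ v0).1 = 0
  · have h2 : (ℓ v0).2 ≠ 0 := fun h2 => h (Prod.ext h1 h2)
    obtain ⟨b, hb⟩ := hsurj (-((ℓ v0).2)⁻¹, 0)
    refine ⟨b, ?_⟩
    rw [dl_apply, hb]
    simp [h1, h2]
  · obtain ⟨b, hb⟩ := hsurj (0, ((ℓ v0).1)⁻¹)
    refine ⟨b, ?_⟩
    rw [dl_apply, hb]
    simp [h1]

end tube

end Run7.h644
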