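import Pool.Agent.Run7.h644.Push
import Pool.Agent.Run7.h644.Start

/-!
The set linked to the heavy cone is a trapping cone.
-/

set_option autoImplicit false
set_option linter.unusedSectionVars false
set_option linter.unusedVariables false
open Set Filter Topology Metric MeasureTheory
open scoped ENNReal

namespace Run7.h644

section link

variable {V : Type*} [NormedAddCommGroup V] [NormedSpace ℂ V]
variable {B : Type*} [NormedAddCommGroup B] [NormedSpace ℂ B]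

theorem Lk.smul {ℓ : V →L[ℂ] B} {W : Set V} (hW : IsCone W) {z h : V} {c : ℂ} (hc : c ≠ 0)
    (H : Lk ℓ W z h) : Lk ℓ W (c • z) (c • h) := by
  obtain ⟨k, h1, h2, h3, h4, h5, h6⟩ := H
  refine ⟨(fun v => c • v) '' k, h1.image (continuous_const_smul c),
    h2.image _ (continuous_const_smul c).continuousOn, ⟨z, h3, rfl⟩, ⟨h, h4, rfl⟩, ?_, ?_⟩
  · rintro _ ⟨v, hv, rfl⟩
    exact hW c hc v (h5 hv)
  · rintro _ ⟨v, hv, rfl⟩
    simp only [map_smul, h6 v hv]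

theorem Lk.mem_left {ℓ : V →L[ℂ] B} {W : Set V} {z h : V} (H : Lk ℓ W z h) : z ∈ W := by
  obtain ⟨k, h1, h2, h3, h4, h5, h6⟩ := H
  exact h5 h3

/-- transport of a link by a small translation -/
theorem Lk.translate {ℓ : V →L[ℂ] B} {W : Set V} (hW : IsOpen W) {z h : V} (H : Lk ℓ W z h) :
    ∃ δ : ℝ, 0 < δ ∧ ∀ x : V, ‖x‖ < δ → Lk ℓ W (z + x) (h + x) := by
  obtain ⟨k, h1, h2, h3, h4, h5, h6⟩ := H
  obtain ⟨δ, hδ, hth⟩ := h1.exists_thickening_subset_open hW h5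
  refine ⟨δ, hδ, fun x hx => ⟨(fun v => v + x) '' k, h1.image (by fun_prop),
    h2.image _ (by fun_prop), ⟨z, h3, rfl⟩, ⟨h, h4, rfl⟩, ?_, ?_⟩⟩
  · rintro _ ⟨v, hv, rfl⟩
    apply hth
    rw [mem_thickening_iff]
    exact ⟨v, hv, by simpa [dist_eq_norm] using hx⟩
  · rintro _ ⟨v, hv, rfl⟩
    simp only [map_add, h6 v hv]

end link

variable {V : Type*} [NormedAddCommGroup V] [NormedSpace ℂ V] [FiniteDimensional ℂ V]
variable {F : V → V} {ℓ : V →L[ℂ] ℂ × ℂ} {G : ℂ × ℂ → ℂ × ℂ} {a b' : V} {d : ℕ}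
variable {W : Set V} {M : ℝ}

theorem Tube.link {v0 b : V} {r : ℝ} {C g : Set V} (hT : Tube F ℓ W v0 b r C g) {u : ℂ}
    (hu : ‖u‖ ≤ r) {s s' : V} (hs : s ∈ C) (hs' : s' ∈ C) :
    Lk ℓ W (v0 + u • b + s) (v0 + u • b + s') := by
  refine ⟨(fun s => v0 + u • b + s) '' C, hT.comp.image (by fun_prop),
    hT.conn.image _ (by fun_prop), ⟨s, hs, rfl⟩, ⟨s', hs', rfl⟩, ?_, ?_⟩
  · rintro _ ⟨x, hx, rfl⟩
    exact hT.inW u hu x hx
  · rintro _ ⟨x, hx, rfl⟩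
    simp only [map_add, hT.ker x hx, hT.ker s hs]

theorem Tube.self_mem {v0 b : V} {r : ℝ} {C g : Set V} (hT : Tube F ℓ W v0 b r C g)
    (hv0 : v0 ∈ KK F W) : v0 ∈ TT ℓ v0 b r g := by
  have h1 := uu_pt (ℓ := ℓ) (v0 := v0) hT.hb (map_zero ℓ) 0
  have h2 := sg_pt (ℓ := ℓ) (v0 := v0) hT.hb (map_zero ℓ) 0
  simp only [zero_smul, add_zero] at h1 h2
  refine ⟨by rw [al_v0 hT.hb]; exact one_ne_zero, by rw [h1]; simpa using hT.rpos, ?_⟩
  rw [h2]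
  apply hT.iso 0 (by simpa using hT.rpos.le) 0 hT.zero
  simpa using hv0

/-- the points of `W` linked to the heavy cone -/
def ZZ (F : V → V) (ℓ : V →L[ℂ] ℂ × ℂ) (a b' : V) (W : Set V) : Set V :=
  {z | ∃ h ∈ HH F ℓ a b', Lk ℓ W z h}

theorem ZZ_cone (hW : Trap F W) : IsCone (ZZ F ℓ a b' W) := by
  rintro c hc z ⟨h, hh, hl⟩
  exact ⟨c • h, HH_cone c hc h hh, hl.smul hW.cone hc⟩

theorem ZZ_sub : ZZ F ℓ a b' W ⊆ W := by
  rintro z ⟨h, hh, hl⟩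
  exact hl.mem_left

theorem ZZ_open (hF : HomMap d F) (hd : 1 ≤ d) (hsurj : Function.Surjective ℓ) (hW : Trap F W)
    (hM : ∀ v ∈ closure W, ‖v‖ ≤ M * ‖ℓ v‖) (hdisc : ∀ t : ℂ, ‖t‖ ≤ 1 → a + t • b' ∈ W) :
    IsOpen (ZZ F ℓ a b' W) := by
  rw [isOpen_iff_mem_nhds]
  rintro z ⟨h, hh, hl⟩
  have hzW : z ∈ W := hl.mem_left
  have hℓz : ℓ z ≠ 0 := ell_ne hW hM hzW
  obtain ⟨b, hb⟩ := exists_b hsurj hℓz
  have hbh : dl ℓ h b = 1 := by
    rw [← hb, dl_apply, dl_apply, hl.ell]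
  have hhK : h ∈ KK F W := HH_subset_KK hF hd hW hdisc hh
  have hℓh : ℓ h ≠ 0 := by rw [hl.ell]; exact hℓz
  obtain ⟨r, C, g, hT, -⟩ := exists_tube hF hd hW hM hhK hℓh hbh
  obtain ⟨δ, hδ, hδl⟩ := hl.translate hW.isOpen
  obtain ⟨ε, hε, hball⟩ := Metric.isOpen_iff.1 hW.isOpen z hzW
  -- small parameters
  have hsmall : ∀ u : ℂ, ‖u‖ < r → ‖u • b‖ < δ → ‖u • b‖ < ε / 2 → ∀ s : V, ℓ s = 0 →
      ‖s‖ < ε / 2 → z + u • b + s ∈ ZZ F ℓ a b' W := by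
    intro u hu hu1 hu2 s hs hsε
    obtain ⟨s', hs', hH⟩ := exists_heavy hF hW hT hu
      (not_Lt_of_heavy hF hd hW hM hdisc hT hh (hT.self_mem hhK) hu)
    refine ⟨_, hH, ?_⟩
    have l1 : Lk ℓ W (z + u • b) (z + u • b + s) := by
      refine Lk.of_ball (ρ := ‖s‖) ?_ ?_ ?_
      · intro x hx
        apply hball
        rw [mem_closedBall, dist_eq_norm] at hx
        rw [mem_ball, dist_eq_norm]
        calc ‖x - z‖ = ‖(x - (z + u • b)) + u • b‖ := by congr 1; abel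
          _ ≤ ‖x - (z + u • b)‖ + ‖u • b‖ := norm_add_le _ _
          _ < ε := by linarith
      · rw [dist_eq_norm, add_sub_cancel_left]
      · rw [map_add, hs, add_zero]
    have l2 : Lk ℓ W (z + u • b) (h + u • b) := hδl _ hu1
    have l3 : Lk ℓ W (h + u • b + 0) (h + u • b + s') := hT.link hu.le hT.zero hs'
    rw [add_zero] at l3
    exact (l1.symm.trans l2).trans l3
  -- charts near z
  have hz1 := uu_pt (ℓ := ℓ) (v0 := z) hb (map_zero ℓ) 0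
  have hz2 := sg_pt (ℓ := ℓ) (v0 := z) hb (map_zero ℓ) 0
  simp only [zero_smul, add_zero] at hz1 hz2
  have hal : al ℓ b z ≠ 0 := by rw [al_v0 hb]; exact one_ne_zero
  have cu : ContinuousAt (uu ℓ z b) z := uu_contOn.continuousAt (al_open.mem_nhds hal)
  have cs : ContinuousAt (sg ℓ z b) z := sg_contOn.continuousAt (al_open.mem_nhds hal)
  have cub : ContinuousAt (fun v => ‖uu ℓ z b v • b‖) z := (cu.smul continuousAt_const).norm
  have e1 : ∀ᶠ v in 𝓝 z, al ℓ b v ≠ 0 := al_open.mem_nhds hal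
  have e2 : ∀ᶠ v in 𝓝 z, ‖uu ℓ z b v‖ < r := by
    apply cu.norm.eventually_lt continuousAt_const
    rw [hz1]
    simpa using hT.rpos
  have e3 : ∀ᶠ v in 𝓝 z, ‖uu ℓ z b v • b‖ < δ := by
    apply cub.eventually_lt continuousAt_const
    simp only [hz1, zero_smul, norm_zero]
    exact hδ
  have e4 : ∀ᶠ v in 𝓝 z, ‖uu ℓ z b v • b‖ < ε / 2 := by
    apply cub.eventually_lt continuousAt_const
    simp only [hz1, zero_smul, norm_zero]
    positivity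
  have e5 : ∀ᶠ v in 𝓝 z, ‖sg ℓ z b v‖ < ε / 2 := by
    apply cs.norm.eventually_lt continuousAt_const
    rw [hz2, norm_zero]
    positivity
  filter_upwards [e1, e2, e3, e4, e5] with v h1 h2 h3 h4 h5
  rw [sg_eq (ℓ := ℓ) (v0 := z) (b := b) h1]
  exact ZZ_cone hW _ h1 _ (hsmall _ h2 h3 h4 _ (ell_sg hb h1) h5)

theorem ZZ_trap (hF : HomMap d F) (hd : 1 ≤ d) (hG : HomMap d G) (hℓ : ∀ v, ℓ (F v) = G (ℓ v))
    (hsurj : Function.Surjective ℓ) (hW : Trap F W)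
    (hM : ∀ v ∈ closure W, ‖v‖ ≤ M * ‖ℓ v‖) (hdisc : ∀ t : ℂ, ‖t‖ ≤ 1 → a + t • b' ∈ W) :
    Trap F (ZZ F ℓ a b' W) := by
  refine ⟨ZZ_open hF hd hsurj hW hM hdisc, ZZ_cone hW, fun h => hW.zero (ZZ_sub h), ?_⟩
  intro v hv hv0
  have hvW : v ∈ closure W := closure_mono ZZ_sub hv
  have hpK : F v ∈ KK F W := ⟨v, hvW, rfl⟩
  have hp0 : F v ≠ 0 := hF.ne hv0
  have hpW : F v ∈ W := hW.KK_mem hF hd hpK hp0
  have hℓp : ℓ (F v) ≠ 0 := ell_ne hW hM hpW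
  obtain ⟨b1, hb1⟩ := exists_b hsurj hℓp
  obtain ⟨r1, C1, g1, hT1, -⟩ := exists_tube hF hd hW hM hpK hℓp hb1
  have hpT := hT1.self_mem hpK
  have hopen : IsOpen (F ⁻¹' TT ℓ (F v) b1 r1 g1) := (TT_open r1 hT1.gopen).preimage hF.cont
  obtain ⟨z', hz'T, h', hh', hl'⟩ := mem_closure_iff.1 hv _ hopen hpT
  have hFh' : F h' ∈ TT ℓ (F v) b1 r1 g1 := by
    obtain ⟨c, k1, k2, k3, k4, k5, k6⟩ := hl'
    apply hT1.conn_subset hF hd hW (c := F '' c) (k2.image _ hF.cont.continuousOn) _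
      (p := F z') ⟨z', k3, rfl⟩ hz'T _ ⟨h', k4, rfl⟩
    · rintro _ ⟨w, hw, rfl⟩
      exact mem_KK (k5 hw)
    · rintro _ ⟨w, hw, rfl⟩
      rw [hℓ, hℓ, k6 w hw]
  have hpush := push hF hd hG hℓ hsurj hW hM hdisc hh' hT1 hFh' (c1 := 0)
    (by simpa using hT1.rpos)
  obtain ⟨s, hs, hH⟩ := exists_heavy hF hW hT1 (by simpa using hT1.rpos) hpush
  refine ⟨_, hH, ?_⟩
  have l1 := hT1.link (u := 0) (by simpa using hT1.rpos.le) hT1.zero hs
  simpa using l1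

end Run7.h644
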